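import Pool.Agent.Lib.MP_cb9cb0_lc.X.Basic

/-!
Pins for the state and for the activation functions of the concrete system.
-/

set_option autoImplicit false

namespace Pool.Agent.Lib.MP_cb9cb0_lc.X

open Finset Function Pool.Agent.Lib.Complexity

namespace Act

/-- a token count is one or two -/
def ok (n : ℕ) (l : List Bool) : Prop :=
  (n : ℤ) + (l.map fun b => (b.toNat : ℤ)).sum = 1 ∨ (n : ℤ) + (l.map fun b => (b.toNat : ℤ)).sum = 2

instance (n : ℕ) (l : List Bool) : Decidable (ok n l) := by unfold ok; infer_instance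

lemma inX_iff {α : Type} (cs : Cs α) (z : α → Bool) :
    InX cs z ↔ ∀ c ∈ cs, ok c.1 (c.2.map z) := by
  simp only [InX, ok, sig, List.map_map]
  rfl

lemma or2 : ∀ {x y : Bool}, ok 0 [x, y] → x = false → y = true := by decide
lemma or2' : ∀ {x y : Bool}, ok 0 [x, y] → y = false → x = true := by decide
lemma na2 : ∀ {x y : Bool}, ok 1 [x, y] → x = true → y = false := by decide
lemma na2' : ∀ {x y : Bool}, ok 1 [x, y] → y = true → x = false := by decide
lemma na3 : ∀ {x y z : Bool}, ok 1 [x, y, z] → x = true → y = false ∧ z = false := by decide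
lemma na4 : ∀ {x y z u : Bool}, ok 1 [x, y, z, u] → x = true → y = false ∧ z = false ∧ u = false := by
  decide
lemma or4 : ∀ {x y z u : Bool}, ok 0 [x, y, z, u] → x = false → y = true ∨ z = true ∨ u = true := by
  decide
lemma or4' : ∀ {x y z u : Bool}, ok 0 [x, y, z, u] → z = false → u = false → x = true ∨ y = true := by
  decide
lemma or6 : ∀ {x y z u v w : Bool}, ok 0 [x, y, z, u, v, w] →
    x = true ∨ y = true ∨ z = true ∨ u = true ∨ v = true ∨ w = true := by decide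

/-- consequences of the control constraints which do not mention `p`, `q` -/
structure K0 (c : ℕ → Bool) : Prop where
  s10 : c 2 = true → c 10 = false
  s11 : c 2 = true → c 11 = false
  ts : c 4 = true → c 2 = true
  tp : c 4 = true → c 3 = true
  s17 : c 2 = false → c 17 = false
  t19 : c 4 = false → c 19 = false
  p18 : c 3 = true → c 18 = false
  d : c 9 = false → c 10 = true ∧ c 11 = true ∧ c 2 = false ∧ c 16 = false ∧ c 18 = false
  l : ok 1 [c 20, c 6, c 7, c 8]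
  a : ok 0 [c 5, c 6, c 7, c 8]
  k : ∀ j : Fin 3, c (6 + j) = true →
    c 2 = true ∨ (j = 0 ∧ c 11 = false) ∨ (c 10 = false ∧ c (26 + j) = false)

lemma k0 {c : ℕ → Bool} (h : InX ctl0 c) : K0 c := by
  rw [inX_iff] at h
  simp only [ctl0, List.forall_mem_cons, List.map_cons, List.map_nil] at h
  obtain ⟨h1, h2, h3, h4, h5, h6, h7, h8, h9, h10, h11, h12, h13, h14, h15, h16, h17, h18, h19,
    h20, h21, h22, h23, h24, h25, h26, h27, h28, h29, h30, h31, -⟩ := h
  refine ⟨na2 h7, na2 h8, fun t => or2' h1 (na2 h9 t), fun t => or2' h2 (na2 h10 t),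
    fun s => na2' h11 (or2 h1 s), fun t => na2' h13 (or2 h3 t), na2' h12,
    fun d => ⟨or2 h5 d, or2 h6 d, na2 h27 (or2 h4 d), na2 h28 (or2 h4 d), na2 h29 (or2 h4 d)⟩,
    h14, h31, fun j hj => ?_⟩
  have a20 := na4 h14
  have a21 := na3 h21
  have a22 := na3 h22
  have a23 := na3 h23
  have a24 := na3 h25
  rcases or6 h30 with e | e | e | e | e | e
  · have := a20 e
    fin_cases j <;> simp_all
  · have := a21 e
    have := na2 h15 e
    have := na2 h18 e
    fin_cases j <;> simp_all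
  · have := a22 e
    have := na2 h16 e
    have := na2 h19 e
    fin_cases j <;> simp_all
  · have := a23 e
    have := na2 h17 e
    have := na2 h20 e
    fin_cases j <;> simp_all
  · have := a24 e
    have := na2 h24 e
    fin_cases j <;> simp_all
  · exact Or.inl (or2' h1 (na2 h26 e))

variable {I : Inst} {ζ : W → Bool}

lemma x_ctl (h : InX (cs0 I) ζ) : K0 fun k => ζ (ctl k) := by
  refine k0 fun c hc => ?_
  have := h (c.1, c.2.map ctl) (List.mem_append_left _ (List.mem_map_of_mem hc))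
  simp only [sig, List.map_map] at this ⊢
  exact this

lemma x_bus (h : InX (cs0 I) ζ) {v : ℕ} (hv : v < I.2.1) : InX (busC I.1 v) ζ := fun c hc =>
  h c (List.mem_append_right _ (List.mem_append_left _
    (List.mem_flatMap.2 ⟨v, List.mem_range.2 hv, hc⟩)))

lemma x_cl (h : InX (cs0 I) ζ) {c : ℕ × Clause} (hc : c ∈ I.2.2) : ∃ i, InX (clC i c) ζ := by
  obtain ⟨i, hi⟩ := List.getElem?_of_mem hc
  exact ⟨i, fun d hd => h d (List.mem_append_right _ (List.mem_append_right _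
    (List.mem_flatMap.2 ⟨(c, i), List.mk_mem_zipIdx_iff_getElem?.2 hi, hd⟩)))⟩

lemma x_0 (h : InX (cs I) ζ) : InX (cs0 I) ζ := fun c hc => h c (List.mem_append_right _ hc)

lemma x_spec (h : InX (cs I) ζ) : (ζ (ctl 10) = false → ζ (ctl 0) = true) ∧
    (ζ (ctl 0) = true → ζ (ctl 16) = false) ∧ (ζ (ctl 11) = false → ζ (ctl 1) = true) ∧
    (ζ (ctl 1) = true → ζ (ctl 18) = false) := by
  have : InX spec ζ := fun c hc => h c (List.mem_append_left _ hc)
  rw [inX_iff] at this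
  simp only [spec, List.forall_mem_cons, List.map_cons, List.map_nil] at this
  exact ⟨or2' this.1, na2' this.2.1, or2' this.2.2.1, na2' this.2.2.2.1⟩

/-- the constraints outside `spec` mention neither `p` nor `q` -/
lemma cs0_ne {c : ℕ × List W} (hc : c ∈ cs0 I) {w : W} (hw : w ∈ c.2) : w ≠ ctl 0 ∧ w ≠ ctl 1 := by
  simp only [cs0, List.mem_append, List.mem_map, List.mem_flatMap] at hc
  rcases hc with ⟨d, hd, rfl⟩ | ⟨v, -, hc⟩ | ⟨d, -, hc⟩
  · obtain ⟨k, hk, rfl⟩ := List.mem_map.1 hw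
    have : ∀ d ∈ ctl0, ∀ k ∈ d.2, k ≠ 0 ∧ k ≠ 1 := by decide
    simpa [ctl] using this d hd k hk
  · unfold busC at hc
    split_ifs at hc <;> simp only [List.mem_cons, List.not_mem_nil, or_false] at hc
    · rcases hc with rfl | rfl <;> simp only [List.mem_cons, List.not_mem_nil, or_false] at hw <;>
        rcases hw with rfl | rfl | rfl | rfl <;> simp [ctl, xb]
    · rcases hc with rfl | rfl <;> simp only [List.mem_cons, List.not_mem_nil, or_false] at hw <;>
        rcases hw with rfl | rfl | rfl | rfl <;> simp [ctl, xb]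
    · subst hc
      simp only [List.mem_cons, List.not_mem_nil, or_false] at hw
      rcases hw with rfl | rfl <;> simp [ctl, xb]
  · simp only [clC, List.mem_cons, List.mem_map] at hc
    rcases hc with rfl | ⟨k, -, rfl⟩ <;>
      simp only [List.mem_cons, List.not_mem_nil, or_false] at hw
    · rcases hw with rfl | rfl | rfl | rfl
      · simp only [ctl, guard, ne_eq, Sum.inl.injEq]
        split_ifs <;> first | omega | simp
      all_goals simp [ctl, rl]
    · rcases hw with rfl | rfl <;> simp [ctl, rl, xb]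

lemma sig_mono {c : ℕ × List W} {ζ ζ' : W → Bool} (h : ∀ w ∈ c.2, ζ w ≤ ζ' w) :
    sig c ζ ≤ sig c ζ' := by
  unfold sig
  refine add_le_add le_rfl (List.sum_le_sum fun w hw => ?_)
  have := h w hw
  revert this
  cases ζ w <;> cases ζ' w <;> simp

lemma lam_mono : Monotone fun x : ℤ => (x - 1) * (x - 2) * (2 * x - 3) :=
  monotone_int_of_le_succ fun x => by nlinarith [sq_nonneg (x - 1)]

/-- names on the two buses -/
def nm1 (I : Inst) (ζ : W → Bool) (n : Fin I.1 → Bool) : Prop := ∀ u : Fin I.1, ζ (xb u (n u)) = true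
def nm2 (I : Inst) (ζ : W → Bool) (n : Fin I.1 → Bool) : Prop :=
  ∀ u : Fin I.1, ζ (xb (I.1 + u) (n u)) = true
def n1 (I : Inst) (ζ : W → Bool) : Fin I.1 → Bool := fun u => ζ (xb u true)
def n2 (I : Inst) (ζ : W → Bool) : Fin I.1 → Bool := fun u => ζ (xb (I.1 + u) true)

lemma rail : ∀ {x y : Bool}, ok 1 [x, y] → (x = true ∨ y = true) → y = !x := by decide

lemma bus1 (hI : WF I) (h : InX (cs0 I) ζ) (a : ζ (ctl 16) = false) (b : ζ (ctl 17) = false)
    {u : ℕ} (hu : u < I.1) : ζ (xb u false) = !ζ (xb u true) := by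
  have := x_bus h (v := u) (by have := hI.1; omega)
  rw [inX_iff] at this
  simp only [busC, if_pos hu, List.forall_mem_cons, List.map_cons, List.map_nil] at this
  exact rail this.1 (or4' this.2.1 a b)

lemma bus2 (hI : WF I) (h : InX (cs0 I) ζ) (a : ζ (ctl 18) = false) (b : ζ (ctl 19) = false)
    {u : ℕ} (hu : I.1 ≤ u) (hu' : u < 2 * I.1) : ζ (xb u false) = !ζ (xb u true) := by
  have := x_bus h (v := u) (by have := hI.1; omega)
  rw [inX_iff] at this
  simp only [busC, if_neg (not_lt.2 hu), if_pos hu', List.forall_mem_cons, List.map_cons,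
    List.map_nil] at this
  exact rail this.1 (or4' this.2.1 a b)

lemma nm_aux {u : ℕ} (h : ζ (xb u false) = !ζ (xb u true)) (b : Bool) :
    ζ (xb u b) = true ↔ b = ζ (xb u true) := by
  cases b
  · rw [h]; cases ζ (xb u true) <;> simp
  · exact eq_comm

lemma nm1_iff (hI : WF I) (h : InX (cs0 I) ζ) (a : ζ (ctl 16) = false) (b : ζ (ctl 17) = false)
    (n : Fin I.1 → Bool) : nm1 I ζ n ↔ n = n1 I ζ := by
  rw [funext_iff]
  exact forall_congr' fun u => nm_aux (bus1 hI h a b u.2) _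

lemma nm2_iff (hI : WF I) (h : InX (cs0 I) ζ) (a : ζ (ctl 18) = false) (b : ζ (ctl 19) = false)
    (n : Fin I.1 → Bool) : nm2 I ζ n ↔ n = n2 I ζ := by
  rw [funext_iff]
  exact forall_congr' fun u => nm_aux (bus2 hI h a b (by omega) (by have := u.2; omega)) _

lemma ri (hI : WF I) (h : InX (cs0 I) ζ) (a : ζ (ctl 16) = false) (b : ζ (ctl 17) = false)
    (a' : ζ (ctl 18) = false) (b' : ζ (ctl 19) = false) (j : Fin 4)
    (g : ζ (ctl (guard j)) = false) : RI I j (n1 I ζ) (n2 I ζ) := by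
  refine ⟨fun u => ζ (xb u true), fun _ => rfl, fun _ => rfl, fun c hc hj => ?_⟩
  obtain ⟨i, hi⟩ := x_cl h hc
  obtain ⟨-, h3, hl⟩ := hI.2 c hc
  rw [inX_iff] at hi
  have e1 := or4 (hi _ List.mem_cons_self) (by rw [hj]; exact g)
  have e2 : ∀ k < 3, ζ (rl i k) = true → ∃ l ∈ c.2, ζ (xb l.1 true) = l.2 := fun k hk e => by
    have m : c.2.getD k (0, false) ∈ c.2 := by
      rw [List.getD_eq_getElem _ _ (by omega)]; exact List.getElem_mem _
    refine ⟨_, m, ?_⟩
    have e3 := na2 (hi _ (List.mem_cons_of_mem _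
      (List.mem_map_of_mem (List.mem_range.2 hk)))) e
    have e4 := hl _ m
    generalize c.2.getD k (0, false) = l at e3 e4
    obtain ⟨u, t⟩ := l
    cases t
    · exact e3
    · have e5 : ζ (xb u false) = false := e3
      show ζ (xb u true) = true
      rcases lt_or_ge u I.1 with u1 | u1
      · simpa [e5] using bus1 hI h a b u1
      · rcases lt_or_ge u (2 * I.1) with u2 | u2
        · simpa [e5] using bus2 hI h a' b' u1 u2
        · have := x_bus h (v := u) e4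
          rw [inX_iff] at this
          simp only [busC, if_neg (not_lt.2 u1), if_neg (not_lt.2 u2), List.forall_mem_cons,
            List.map_cons, List.map_nil] at this
          exact or2' this.1 e5
  rcases e1 with e | e | e
  exacts [e2 0 (by omega) e, e2 1 (by omega) e, e2 2 (by omega) e]

/-! ### the embedding of labels -/

lemma emb0 (w : W) : emb I w = bitZ I 0 ↔ w = ctl 0 := by
  have m : ctl 0 ∈ vars I := List.mem_cons_self
  show emb I w = emb I (ctl 0) ↔ _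
  unfold emb
  rw [dif_pos m]
  split_ifs with h
  · exact Subtype.mk_eq_mk
  · exact iff_of_false (by simp [ctl]) fun e => h (e ▸ m)

lemma emb1 (w : W) : emb I w = bitZ I 1 ↔ w = ctl 1 := by
  have m : ctl 1 ∈ vars I := List.mem_cons_of_mem _ List.mem_cons_self
  show emb I w = emb I (ctl 1) ↔ _
  unfold emb
  rw [dif_pos m]
  split_ifs with h
  · exact Subtype.mk_eq_mk
  · exact iff_of_false (by simp [ctl]) fun e => h (e ▸ m)

lemma upd0 (z : ZI I → Bool) (a : Bool) :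
    update z (bitZ I 0) a ∘ emb I = update (z ∘ emb I) (ctl 0) a := by
  funext w; simp only [comp_apply, update_apply, emb0]

lemma upd1 (z : ZI I → Bool) (a : Bool) :
    update z (bitZ I 1) a ∘ emb I = update (z ∘ emb I) (ctl 1) a := by
  funext w; simp only [comp_apply, update_apply, emb1]

lemma upd_emb (z : ZI I → Bool) (a b : Bool) :
    upd (bitZ I 0) (bitZ I 1) z a b ∘ emb I = upd (ctl 0) (ctl 1) (z ∘ emb I) a b := by
  unfold upd; rw [upd1, upd0]

lemma upd_ne (ζ : W → Bool) (a b : Bool) {w : W} (h : w ≠ ctl 0 ∧ w ≠ ctl 1) :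
    upd (ctl 0) (ctl 1) ζ a b w = ζ w := by
  unfold upd; rw [update_of_ne h.2, update_of_ne h.1]

lemma upd_p (ζ : W → Bool) (a b : Bool) : upd (ctl 0) (ctl 1) ζ a b (ctl 0) = a := by
  unfold upd; rw [update_of_ne (by simp [ctl]), update_self]

lemma upd_q (ζ : W → Bool) (a b : Bool) : upd (ctl 0) (ctl 1) ζ a b (ctl 1) = b := by
  unfold upd; rw [update_self]

lemma card_le (I : Inst) : Fintype.card (ZI I) ≤ (vars I).length := by
  have := Fintype.card_le_of_surjective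
    (fun i : Fin (vars I).length => (⟨(vars I).get i, List.get_mem _ _⟩ : ZI I)) fun w => by
      obtain ⟨i, hi⟩ := List.get_of_mem w.2
      exact ⟨i, Subtype.ext hi⟩
  rwa [Fintype.card_fin] at this

/-- A function which is monotone in the blind variables and in `P i ∧ p ∨ P' i`, `Q i ∧ q ∨ Q' i`. -/
lemma pinW (hC : CompSt) {ε : Bool} {E : ℚ} (hE : 2 ^ ((vars I).length + 10) ≤ E)
    (e : Fin 4 → (W → Bool) → Prop) (φ : (ZI I → Bool) → Bool)
    (hm : ∀ i ζ ζ', ζ ≤ ζ' → e i ζ → e i ζ')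
    (hu : ∀ i, (∀ ζ a, e i (update ζ (ctl 0) a) ↔ e i ζ) ∨ ∀ ζ a, e i (update ζ (ctl 1) a) ↔ e i ζ)
    (hG : ∀ ζ, ε = false → ζ (ctl 9) = false → InX (cs0 I) ζ →
      (∀ i a b, e i (upd (ctl 0) (ctl 1) ζ a b) ↔ e i (upd (ctl 0) (ctl 1) ζ false b)) ∨
      ∀ i a b, e i (upd (ctl 0) (ctl 1) ζ a b) ↔ e i (upd (ctl 0) (ctl 1) ζ a false))
    (hφ : ∀ z z' : ZI I → Bool, (∀ w, w ≠ ctl 0 ∧ w ≠ ctl 1 → z (emb I w) ≤ z' (emb I w)) →
      (∀ i, e i (z ∘ emb I) → e i (z' ∘ emb I)) → φ z ≤ φ z') :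
    Pin (bitZ I 0) (bitZ I 1) (GZ I ε) (E ^ 4) φ := by
  classical
  have c1 := card_le I
  have pw : ∀ n, n ≤ (vars I).length + 10 → (2 : ℚ) ^ n ≤ E := fun n hn =>
    (pow_le_pow_right₀ one_le_two hn).trans hE
  have bl : ∀ (v : ZI I) (z : ZI I → Bool) a b, ¬ (v = bitZ I 0 ∨ v = bitZ I 1) →
      upd (bitZ I 0) (bitZ I 1) z a b v = z v := fun v z a b h => by
    unfold upd; rw [update_of_ne (not_or.1 h).2, update_of_ne (not_or.1 h).1]
  refine hC (ZI I) (ZI I ⊕ Fin 4) _ _ _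
    (Sum.elim (fun v z => if v = bitZ I 0 ∨ v = bitZ I 1 then false else z v)
      fun i z => decide (e i (z ∘ emb I))) φ E (fun h => ?_)
    (le_trans (by norm_num) (pw 10 (by omega))) (pw _ (by omega))
    (pw _ (by rw [Fintype.card_sum, Fintype.card_fin]; omega)) ?_ ?_ ?_ fun z z' h => ?_
  · simpa [ctl] using (emb1 (I := I) (ctl 0)).1 h
  · rintro (v | i) z z' h
    · simp only [Sum.elim_inl]
      split_ifs
      exacts [le_rfl, h v]
    · simp only [Sum.elim_inr, Bool.le_iff_imp, decide_eq_true_eq]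
      exact hm i _ _ fun w => h _
  · rintro (v | i)
    · refine Or.inl fun z a => ?_
      simp only [Sum.elim_inl]
      split_ifs with h
      exacts [rfl, update_of_ne (not_or.1 h).1 _ _]
    · simp only [Sum.elim_inr, upd0, upd1, decide_eq_decide]
      exact (hu i).imp (fun h z a => h _ a) fun h z a => h _ a
  · intro z hz
    refine (hG _ hz.1 hz.2.1 hz.2.2).imp (fun h => ?_) fun h => ?_
    all_goals
      rintro (v | i) a b
      · simp only [Sum.elim_inl]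
        split_ifs with h
        · rfl
        · rw [bl v z _ _ h, bl v z _ _ h]
      · simp only [Sum.elim_inr, upd_emb, decide_eq_decide]
        exact h i a b
  · refine hφ z z' (fun w hw => ?_) fun i => ?_
    · have := h (Sum.inl (emb I w))
      simpa only [Sum.elim_inl, emb0, emb1, hw.1, hw.2, or_self, if_false] using this
    · simpa only [Sum.elim_inr, Bool.le_iff_imp, decide_eq_true_eq] using h (Sum.inr i)

lemma ne_k {k : ℕ} (h : 2 ≤ k) : ctl k ≠ ctl 0 ∧ ctl k ≠ ctl 1 := by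
  simp only [ctl, ne_eq, Sum.inl.injEq]; omega

lemma ne_x (u : ℕ) (b : Bool) : xb u b ≠ ctl 0 ∧ xb u b ≠ ctl 1 := by simp [ctl, xb]

lemma g_facts (h : InX (cs0 I) ζ) (d : ζ (ctl 9) = false) : ζ (ctl 10) = true ∧ ζ (ctl 11) = true ∧
    ζ (ctl 16) = false ∧ ζ (ctl 17) = false ∧ ζ (ctl 18) = false ∧ ζ (ctl 19) = false := by
  have k := x_ctl h
  obtain ⟨a, b, s, c, e⟩ := k.d d
  exact ⟨a, b, c, k.s17 s, e, k.t19 (by
    by_contra t
    exact absurd (k.ts (by simpa using t)) (by simp [s]))⟩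

lemma square (h : InX (cs0 I) ζ) (d : ζ (ctl 9) = false) (a b : Bool) :
    InX (cs I) (upd (ctl 0) (ctl 1) ζ a b) := by
  obtain ⟨g1, g2, g3, -, g4, -⟩ := g_facts h d
  intro c hc
  rcases List.mem_append.1 hc with hc | hc
  · refine (inX_iff spec _).2 ?_ c hc
    simp only [spec, List.forall_mem_cons, List.map_cons, List.map_nil, upd_p, upd_q,
      upd_ne ζ a b (ne_k (k := 10) (by omega)), upd_ne ζ a b (ne_k (k := 11) (by omega)),
      upd_ne ζ a b (ne_k (k := 16) (by omega)), upd_ne ζ a b (ne_k (k := 18) (by omega)),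
      g1, g2, g3, g4]
    cases a <;> cases b <;> exact ⟨by decide, by decide, by decide, by decide, by simp⟩
  · have e : sig c (upd (ctl 0) (ctl 1) ζ a b) = sig c ζ := le_antisymm
      (sig_mono fun w hw => (upd_ne ζ a b (cs0_ne hc hw)).le)
      (sig_mono fun w hw => (upd_ne ζ a b (cs0_ne hc hw)).ge)
    rw [e]
    exact h c hc

lemma lam_or : ∀ x y x' y' : Bool, (x = true ∨ y = true → x' = true ∨ y' = true) →
    lamc (0, [false, true]) (fun i => cond i y x) ≤ lamc (0, [false, true]) fun i => cond i y' x' := by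
  decide

lemma lam_and : ∀ x y x' y' : Bool, (x = true ∧ y = true → x' = true ∧ y' = true) →
    lamc (1, [false, true]) (fun i => cond i y x) ≤ lamc (1, [false, true]) fun i => cond i y' x' := by
  decide

lemma pin_state (hC : CompSt) {ε : Bool} {E : ℚ} (hE : 2 ^ ((vars I).length + 10) ≤ E)
    (φ : (ZI I → Bool) → Bool)
    (hφ : ∀ z z', (∀ c ∈ cs I, lamc c (z ∘ emb I) ≤ lamc c (z' ∘ emb I)) → φ z ≤ φ z') :
    Pin (bitZ I 0) (bitZ I 1) (GZ I ε) (E ^ 4) φ := by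
  refine pinW hC hE ![fun ζ => ζ (ctl 0) = true ∨ ζ (ctl 10) = true,
    fun ζ => ζ (ctl 16) = true ∧ ζ (ctl 0) = true, fun ζ => ζ (ctl 1) = true ∨ ζ (ctl 11) = true,
    fun ζ => ζ (ctl 18) = true ∧ ζ (ctl 1) = true] φ (fun i ζ ζ' h => ?_) (fun i => ?_)
    (fun ζ _ d h => Or.inl fun i a b => ?_) fun z z' h1 h2 => hφ z z' fun c hc => ?_
  · have m : ∀ w, ζ w = true → ζ' w = true := fun w => Bool.le_iff_imp.1 (h w)
    fin_cases i
    exacts [Or.imp (m _) (m _), And.imp (m _) (m _), Or.imp (m _) (m _), And.imp (m _) (m _)]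
  · fin_cases i
    · exact Or.inr fun ζ a => by simp [ctl]
    · exact Or.inr fun ζ a => by simp [ctl]
    · exact Or.inl fun ζ a => by simp [ctl]
    · exact Or.inl fun ζ a => by simp [ctl]
  · obtain ⟨g1, g2, g3, -, g4, -⟩ := g_facts h d
    fin_cases i <;>
      simp [upd_ne ζ _ _ (ne_k (k := 10) (by omega)), upd_ne ζ _ _ (ne_k (k := 11) (by omega)),
        upd_ne ζ _ _ (ne_k (k := 16) (by omega)), upd_ne ζ _ _ (ne_k (k := 18) (by omega)),
        g1, g2, g3, g4]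
  · rcases List.mem_append.1 hc with hc | hc
    · simp only [spec, List.mem_cons, List.not_mem_nil, or_false] at hc
      rcases hc with rfl | rfl | rfl | rfl
      exacts [lam_or _ _ _ _ (h2 0), lam_and _ _ _ _ (h2 1), lam_or _ _ _ _ (h2 2),
        lam_and _ _ _ _ (h2 3)]
    · exact lam_mono (sig_mono fun w hw => h1 w (cs0_ne hc hw))

/-! ### the activation functions -/

section acts
variable {Ω : Type} (C : (Fin I.1 → Bool) → Finset Ω) (F : (Fin I.1 → Bool) → (Fin I.1 → Bool) → Finset Ω)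

def A1 (ω : Ω) (ζ : W → Bool) : Prop := ∃ n, nm1 I ζ n ∧ ω ∈ C n
def A2 (ω : Ω) (ζ : W → Bool) : Prop := ∃ n, nm2 I ζ n ∧ ω ∈ C n
def A3 (ω : Ω) (ζ : W → Bool) : Prop := ∃ n n', nm1 I ζ n ∧ nm2 I ζ n' ∧ ω ∈ F n n'
def de (ε : Bool) (ζ : W → Bool) : Prop := ζ (ctl 9) = true ∨ ε = true

def Ac (ε : Bool) (ω : Ω) (ζ : W → Bool) : Prop :=
  (ζ (ctl 0) = true ∧ A1 C ω ζ) ∨ (ζ (ctl 1) = true ∧ A2 C ω ζ) ∨ ζ (ctl 2) = true ∨
    ((ζ (ctl 0) = true ∧ de ε ζ) ∧ (ζ (ctl 1) = true ∧ de ε ζ) ∧ A3 F ω ζ)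

def Ac' (ω : Ω) (ζ : W → Bool) : Prop := ζ (ctl 4) = true ∨ (ζ (ctl 3) = true ∧ A2 C ω ζ)

variable {C F} {ζ' : W → Bool} {ω : Ω} {ε : Bool}

/-- monotonicity in the blind variables -/
def Bl (ζ ζ' : W → Bool) : Prop := ∀ w, w ≠ ctl 0 ∧ w ≠ ctl 1 → ζ w ≤ ζ' w

lemma Bl.k (h : Bl ζ ζ') {k : ℕ} (hk : 2 ≤ k) : ζ (ctl k) = true → ζ' (ctl k) = true :=
  Bool.le_iff_imp.1 (h _ (ne_k hk))
lemma Bl.n1 (h : Bl ζ ζ') {n : Fin I.1 → Bool} (a : nm1 I ζ n) : nm1 I ζ' n := fun u =>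
  Bool.le_iff_imp.1 (h _ (ne_x _ _)) (a u)
lemma Bl.n2 (h : Bl ζ ζ') {n : Fin I.1 → Bool} (a : nm2 I ζ n) : nm2 I ζ' n := fun u =>
  Bool.le_iff_imp.1 (h _ (ne_x _ _)) (a u)
lemma Bl.a1 (h : Bl ζ ζ') : A1 C ω ζ → A1 C ω ζ' := fun ⟨n, a, b⟩ => ⟨n, h.n1 a, b⟩
lemma Bl.a2 (h : Bl ζ ζ') : A2 C ω ζ → A2 C ω ζ' := fun ⟨n, a, b⟩ => ⟨n, h.n2 a, b⟩
lemma Bl.a3 (h : Bl ζ ζ') : A3 F ω ζ → A3 F ω ζ' := fun ⟨n, n', a, b, c⟩ =>
  ⟨n, n', h.n1 a, h.n2 b, c⟩
lemma Bl.d (h : Bl ζ ζ') : de ε ζ → de ε ζ' := Or.imp_left (h.k (by omega))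

lemma bl0 (ζ : W → Bool) (a : Bool) : Bl (update ζ (ctl 0) a) ζ ∧ Bl ζ (update ζ (ctl 0) a) :=
  ⟨fun _ h => (update_of_ne h.1 _ _).le, fun _ h => (update_of_ne h.1 _ _).ge⟩
lemma bl1 (ζ : W → Bool) (a : Bool) : Bl (update ζ (ctl 1) a) ζ ∧ Bl ζ (update ζ (ctl 1) a) :=
  ⟨fun _ h => (update_of_ne h.2 _ _).le, fun _ h => (update_of_ne h.2 _ _).ge⟩
lemma blu (ζ : W → Bool) (a b : Bool) : Bl (upd (ctl 0) (ctl 1) ζ a b) ζ ∧
    Bl ζ (upd (ctl 0) (ctl 1) ζ a b) :=
  ⟨fun _ h => (upd_ne ζ a b h).le, fun _ h => (upd_ne ζ a b h).ge⟩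

lemma a1_iff (hI : WF I) (h : InX (cs0 I) ζ) (a : ζ (ctl 16) = false) (b : ζ (ctl 17) = false) :
    A1 C ω ζ ↔ ω ∈ C (n1 I ζ) := by
  simp only [A1, nm1_iff hI h a b, exists_eq_left]

lemma a2_iff (hI : WF I) (h : InX (cs0 I) ζ) (a : ζ (ctl 18) = false) (b : ζ (ctl 19) = false) :
    A2 C ω ζ ↔ ω ∈ C (n2 I ζ) := by
  simp only [A2, nm2_iff hI h a b, exists_eq_left]

open Classical in
lemma pin_act (hC : CompSt) (hI : WF I) {E : ℚ} (hE : 2 ^ ((vars I).length + 10) ≤ E)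
    (hD : ε = false → ∀ a b, RI I 3 a b → Disjoint (C a) (C b)) (P : (W → Bool) → Prop)
    (hP : ∀ ζ ζ', Bl ζ ζ' → (ζ (ctl 0) = true ∧ A1 C ω ζ → ζ' (ctl 0) = true ∧ A1 C ω ζ') →
      (ζ (ctl 1) = true ∧ A2 C ω ζ → ζ' (ctl 1) = true ∧ A2 C ω ζ') →
      (ζ (ctl 0) = true ∧ de ε ζ → ζ' (ctl 0) = true ∧ de ε ζ') →
      (ζ (ctl 1) = true ∧ de ε ζ → ζ' (ctl 1) = true ∧ de ε ζ') → P ζ → P ζ') :
    Pin (bitZ I 0) (bitZ I 1) (GZ I ε) (E ^ 4) fun z => decide (P (z ∘ emb I)) := by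
  have n01 : ctl 0 ≠ ctl 1 := by simp [ctl]
  refine pinW hC hE ![fun ζ => ζ (ctl 0) = true ∧ A1 C ω ζ, fun ζ => ζ (ctl 1) = true ∧ A2 C ω ζ,
    fun ζ => ζ (ctl 0) = true ∧ de ε ζ, fun ζ => ζ (ctl 1) = true ∧ de ε ζ] _
    (fun i ζ ζ' h => ?_) (fun i => ?_) (fun ζ e d h => ?_) fun z z' h1 h2 => ?_
  · have m : ∀ w, ζ w = true → ζ' w = true := fun w => Bool.le_iff_imp.1 (h w)
    have b : Bl ζ ζ' := fun w _ => h w
    fin_cases i
    exacts [And.imp (m _) b.a1, And.imp (m _) b.a2, And.imp (m _) b.d, And.imp (m _) b.d]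
  · fin_cases i
    · exact Or.inr fun ζ a => and_congr (by rw [update_of_ne n01]) ⟨(bl1 ζ a).1.a1, (bl1 ζ a).2.a1⟩
    · exact Or.inl fun ζ a =>
        and_congr (by rw [update_of_ne n01.symm]) ⟨(bl0 ζ a).1.a2, (bl0 ζ a).2.a2⟩
    · exact Or.inr fun ζ a => and_congr (by rw [update_of_ne n01]) ⟨(bl1 ζ a).1.d, (bl1 ζ a).2.d⟩
    · exact Or.inl fun ζ a =>
        and_congr (by rw [update_of_ne n01.symm]) ⟨(bl0 ζ a).1.d, (bl0 ζ a).2.d⟩
  · obtain ⟨-, -, g1, g2, g3, g4⟩ := g_facts h d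
    have nd : ∀ a b, ¬ de ε (upd (ctl 0) (ctl 1) ζ a b) := fun a b k => by
      simpa [de, d, e] using (blu ζ a b).1.d k
    have u1 : ∀ a b, A1 C ω (upd (ctl 0) (ctl 1) ζ a b) ↔ ω ∈ C (n1 I ζ) := fun a b =>
      Iff.trans ⟨(blu ζ a b).1.a1, (blu ζ a b).2.a1⟩ (a1_iff hI h g1 g2)
    have u2 : ∀ a b, A2 C ω (upd (ctl 0) (ctl 1) ζ a b) ↔ ω ∈ C (n2 I ζ) := fun a b =>
      Iff.trans ⟨(blu ζ a b).1.a2, (blu ζ a b).2.a2⟩ (a2_iff hI h g3 g4)
    have dj := disjoint_left.1 (hD e _ _ (ri hI h g1 g2 g3 g4 3 d))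
    by_cases k : ω ∈ C (n1 I ζ)
    · refine Or.inr fun i a b => ?_
      fin_cases i <;> simp [nd, u1, u2, dj k, upd_p]
    · refine Or.inl fun i a b => ?_
      fin_cases i <;> simp [nd, u1, u2, k, upd_q]
  · simp only [Bool.le_iff_imp, decide_eq_true_eq]
    exact hP _ _ h1 (h2 0) (h2 1) (h2 2) (h2 3)

end acts

lemma bit_ok : ∀ {a x y z u : Bool}, ok 1 [u, x, y, z] → ok 0 [a, x, y, z] →
    bv x + bv y + bv z ≤ 1 ∧ (a = true ∨ bv x + bv y + bv z = 1) := by
  intro a x y z u h k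
  cases a <;> cases x <;> cases y <;> cases z <;> cases u <;>
    first | exact absurd h (by decide) | exact absurd k (by decide) | simp

open Classical in
lemma acts (hC : CompSt) (hI : WF I) {ε : Bool} {E : ℚ} (hE : 2 ^ ((vars I).length + 10) ≤ E)
    (hY : Yes (RI I) ε) : Acts (bitZ I 0) (bitZ I 1) (GZ I ε) (XZ I) (bitZ I) (E ^ 4) := by
  obtain ⟨Ω, _, _, N, C, π, hN, hΩ, hCN, h0, hπ, hD⟩ := hY
  have ex : ∀ n n', ∃ F : Finset Ω, C n ∪ C n' ⊆ F ∧ F ⊆ univ ∧ F.card = 2 * N := fun n n' =>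
    exists_subsuperset_card_eq (subset_univ _)
      ((card_union_le _ _).trans (by rw [hCN, hCN]; omega)) (by rw [card_univ, hΩ]; omega)
  choose F hF _ hFN using ex
  refine ⟨Ω, inferInstance, N, fun ω z => decide (Ac C F ε ω (z ∘ emb I)),
    fun ω z => decide (Ac' C ω (z ∘ emb I)), π, hN, hΩ,
    fun ω => pin_act (ω := ω) hC hI hE hD _ fun ζ ζ' b h1 h2 h3 h4 =>
      Or.imp h1 (Or.imp h2 (Or.imp (b.k le_rfl) (And.imp h3 (And.imp h4 b.a3)))),
    fun ω => pin_act (ω := ω) hC hI hE hD _ fun ζ ζ' b _ _ _ _ =>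
      Or.imp (b.k (by omega)) (And.imp (b.k (by omega)) b.a2), fun z hz => ?_⟩
  simp only [decide_eq_true_eq]
  show ((univ.filter fun ω => Ac C F ε ω (z ∘ emb I)).card : ℚ) =
      N * (bv ((z ∘ emb I) (ctl 0)) + bv ((z ∘ emb I) (ctl 1)) + bv ((z ∘ emb I) (ctl 2))) ∧
    ((univ.filter fun ω => Ac' C ω (z ∘ emb I)).card : ℚ) =
      N * (bv ((z ∘ emb I) (ctl 3)) + 2 * bv ((z ∘ emb I) (ctl 4))) ∧
    ∀ j : Fin 3, (z ∘ emb I) (ctl (6 + j)) = true → ∀ ω, Ac' C (π j ω) (z ∘ emb I) →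
      Ac C F ε ω (z ∘ emb I)
  unfold XZ at hz
  generalize z ∘ emb I = ζ at hz ⊢
  have h := x_0 hz
  have k := x_ctl h
  obtain ⟨s1, s2, s3, s4⟩ := x_spec hz
  have cnt : ∀ (P : Ω → Prop) (S : Finset Ω) (m : ℕ) (x : ℚ), (∀ ω, P ω ↔ ω ∈ S) → S.card = m * N →
      x = m → ((univ.filter P).card : ℚ) = N * x := fun P S m x a b c => by
    have : univ.filter P = S := by ext ω; simp [a]
    rw [this, b, c]; push_cast; ring
  have nt : ζ (ctl 2) = false → ζ (ctl 4) = false := fun s => by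
    by_contra t
    exact absurd (k.ts (by simpa using t)) (by simp [s])
  refine ⟨?_, ?_, fun j hj ω a => ?_⟩
  · rcases hs : ζ (ctl 2) with _ | _
    · have g2 := k.s17 hs
      have g4 := k.t19 (nt hs)
      rcases hp : ζ (ctl 0) with _ | _ <;> rcases hq : ζ (ctl 1) with _ | _
      · exact cnt _ ∅ 0 _ (fun ω => by simp [Ac, hs, hp, hq]) (by simp) (by simp)
      · exact cnt _ (C (n2 I ζ)) 1 _ (fun ω => by simp [Ac, hs, hp, hq, a2_iff hI h (s4 hq) g4])
          (by rw [hCN, one_mul]) (by simp)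
      · exact cnt _ (C (n1 I ζ)) 1 _ (fun ω => by simp [Ac, hs, hp, hq, a1_iff hI h (s2 hp) g2])
          (by rw [hCN, one_mul]) (by simp)
      · have e3 : ∀ ω, A3 F ω ζ ↔ ω ∈ F (n1 I ζ) (n2 I ζ) := fun ω => by
          simp [A3, nm1_iff hI h (s2 hp) g2, nm2_iff hI h (s4 hq) g4]
        by_cases d : de ε ζ
        · refine cnt _ (F (n1 I ζ) (n2 I ζ)) 2 _ (fun ω => ?_) (hFN _ _) (by simp; norm_num)
          have := @hF (n1 I ζ) (n2 I ζ) ω
          simp only [mem_union] at this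
          simp only [Ac, hs, hp, hq, d, e3, a1_iff hI h (s2 hp) g2, a2_iff hI h (s4 hq) g4]
          tauto
        · have d' : ζ (ctl 9) = false ∧ ε = false := by simpa [de] using d
          refine cnt _ (C (n1 I ζ) ∪ C (n2 I ζ)) 2 _ (fun ω => ?_) ?_ (by simp; norm_num)
          · simp [Ac, hs, hp, hq, d, a1_iff hI h (s2 hp) g2, a2_iff hI h (s4 hq) g4]
          · rw [card_union_of_disjoint (hD d'.2 _ _ (ri hI h (s2 hp) g2 (s4 hq) g4 3 d'.1)),
              hCN, hCN, two_mul]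
    · exact cnt _ univ 3 _ (fun ω => by simp [Ac, hs]) (by rw [card_univ, hΩ])
        (by simp [s1 (k.s10 hs), s3 (k.s11 hs)]; norm_num)
  · rcases ht : ζ (ctl 4) with _ | _
    · rcases hp : ζ (ctl 3) with _ | _
      · exact cnt _ ∅ 0 _ (fun ω => by simp [Ac', ht, hp]) (by simp) (by simp)
      · exact cnt _ (C (n2 I ζ)) 1 _
          (fun ω => by simp [Ac', ht, hp, a2_iff hI h (k.p18 hp) (k.t19 ht)])
          (by rw [hCN, one_mul]) (by simp)
    · exact cnt _ univ 3 _ (fun ω => by simp [Ac', ht]) (by rw [card_univ, hΩ])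
        (by simp [k.tp ht]; norm_num)
  · rcases hs : ζ (ctl 2) with _ | _
    · have ht := nt hs
      obtain ⟨hp, a2⟩ := a.resolve_left (by simp [ht])
      rcases (k.k j hj).resolve_left (by simp [hs]) with ⟨rfl, e⟩ | ⟨e, g⟩
      · rw [h0] at a2
        exact Or.inr (Or.inl ⟨s3 e, a2⟩)
      · have g1 := s2 (s1 e)
        have g2 := k.s17 hs
        refine Or.inl ⟨s1 e, (a1_iff hI h g1 g2).2 ((hπ j _ _ (ri hI h g1 g2 (k.p18 hp) (k.t19 ht)
          j.castSucc ?_) ω).2 ((a2_iff hI h (k.p18 hp) (k.t19 ht)).1 a2))⟩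
        rw [guard, Fin.val_castSucc, if_pos j.2]
        exact g
    · exact Or.inr (Or.inr (Or.inl hs))

end Act

open Act in
theorem actSt (hC : CompSt) : ActSt := fun I ε E hI hE =>
  ⟨fun _ hz => bit_ok (x_ctl (x_0 hz)).l (x_ctl (x_0 hz)).a,
    fun z hz a b => by
      unfold XZ
      rw [upd_emb]
      exact square hz.2.2 hz.2.1 a b,
    pin_state hC hE, acts hC hI hE⟩

end Pool.Agent.Lib.MP_cb9cb0_lc.X
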