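import Pool.Agent.Lib.MP_cb9cb0_lc.X.Pad

/-! The decision procedure: the certificate is a linear program. -/

set_option autoImplicit false

namespace Pool.Agent.Lib.MP_cb9cb0_lc.X

open Finset Function N487b59b3
open Pool.Agent.Lib.Complexity

namespace Alg

abbrev K := ℕ × ℕ × ℕ × ℕ
abbrev LF := List (ℤ × K)

def ev (x : K → ℚ) (L : LF) : ℚ := (L.map fun p => (p.1 : ℚ) * x p.2).sum

def ix (k : K) : ℕ := Nat.pair k.1 (Nat.pair k.2.1 (Nat.pair k.2.2.1 k.2.2.2))

def unix (j : ℕ) : K :=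
  (j.unpair.1, j.unpair.2.unpair.1, j.unpair.2.unpair.2.unpair.1, j.unpair.2.unpair.2.unpair.2)

theorem unix_ix (k : K) : unix (ix k) = k := by simp [unix, ix]

section pt
variable {α : Type} [Enc α]

@[fun_prop] theorem pt_pair {f g : α → ℕ} (hf : PT f) (hg : PT g) :
    PT fun a => Nat.pair (f a) (g a) := by
  unfold Nat.pair; fun_prop

@[fun_prop] theorem pt_ix {f : α → K} (hf : PT f) : PT fun a => ix (f a) := by
  unfold ix; fun_prop

@[fun_prop] theorem pt_testBit {f g : α → ℕ} (hf : PT f) (hg : PT g) :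
    PT fun a => (f a).testBit (g a) :=
  (PT.getD (PTB.of_unary hf) hg (PT.const false)).of_eq fun a => by
    rw [Nat.testBit_eq_inth, List.getI_eq_getElem?_getD, List.getD_eq_getElem?_getD]; rfl

@[fun_prop] theorem pt_prod {l : α → List ℤ} (hl : PT l) : PT fun a => (l a).prod := by
  refine (PT.foldr (f := fun _ b x => b * x) hl (PT.const 1) (by fun_prop)
    (B := fun a => 4 * (sz (l a) + 1) + 1) (PT.pb_nat (by fun_prop)) fun a i => ?_).of_eq
    fun a => by rfl
  have key : ∀ l : List ℤ, (l.foldr (fun b x => b * x) 1).natAbs ≤ 2 ^ sz l := by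
    intro l
    induction l with
    | nil => simp
    | cons b l ih =>
      have h1 := (natAbs_lt_two_pow_sz b).le
      simp only [List.foldr_cons, sz_cons, pow_succ, Int.natAbs_mul, pow_add]
      have := Nat.mul_le_mul h1 ih
      omega
  have h0 := key ((l a).drop i)
  have h1 := sz_int_le (z := ((l a).drop i).foldr (fun b x => b * x) 1)
    (k := sz ((l a).drop i) + 1) (by
      have : 0 < 2 ^ sz ((l a).drop i) := by positivity
      rw [pow_succ]; omega)
  have h2 : sz ((l a).drop i) ≤ sz (l a) := sz_le_of_sublist (List.drop_sublist _ _)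
  omega

end pt

/-- linear programs with free unknowns -/
theorem lp_free (h : LpSt) : ∃ dec : List (LF × ℤ) → Bool, PT dec ∧ ∀ R, dec R = true ↔
    ∃ x : K → ℚ, ∀ r ∈ R, (r.2 : ℚ) ≤ ev x r.1 := by
  obtain ⟨dec, hd, e⟩ := h
  have key : ∀ (x : ℕ → ℚ) (L : LF),
      ((L.flatMap fun p => [(p.1, 2 * ix p.2), (-p.1, 2 * ix p.2 + 1)]).map
        fun p => (p.1 : ℚ) * x p.2).sum = ev (fun k => x (2 * ix k) - x (2 * ix k + 1)) L := by
    intro x L
    induction L with
    | nil => rfl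
    | cons p L ih =>
      rw [List.flatMap_cons, List.map_append, List.sum_append, ih]
      simp [ev]
      ring
  refine ⟨fun R => dec (R.map fun r =>
    (r.1.flatMap fun p => [(p.1, 2 * ix p.2), (-p.1, 2 * ix p.2 + 1)], r.2)),
    hd.comp (by fun_prop), fun R => ?_⟩
  rw [e]
  simp only [List.forall_mem_map, key]
  constructor
  · rintro ⟨x, -, hx⟩
    exact ⟨_, hx⟩
  · rintro ⟨x, hx⟩
    refine ⟨fun j => if j % 2 = 0 then max (x (unix (j / 2))) 0 else max (-x (unix (j / 2))) 0,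
      fun j => by beta_reduce; split_ifs <;> exact le_max_right _ _, fun r hr => (hx r hr).trans_eq ?_⟩
    congr 1
    funext k
    beta_reduce
    rw [if_pos (by omega), if_neg (by omega), show 2 * ix k / 2 = ix k by omega,
      show (2 * ix k + 1) / 2 = ix k by omega, unix_ix]
    rcases le_total (x k) 0 with h | h
    · rw [max_eq_right h, max_eq_left (by linarith)]; ring
    · rw [max_eq_left h, max_eq_right (by linarith)]; ring

def neg (L : LF) : LF := L.map fun p => (-p.1, p.2)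

/-- value of node `w` at the point `a` -/
def sv (n a w : ℕ) : Bool := if w < n then a.testBit w else (w - n).testBit a

def coF (N a w : ℕ) : LF := (1, 1, 0, w, 0) :: (List.range N).flatMap fun v =>
  [(-1, 3, a, w, v), (-1, 2, 0, v, w), (1, 3, a, v, w)]

def e1F (n N a : ℕ) : LF := (1, 0, 0, 0, 0) :: (List.range N).flatMap fun w =>
  if sv n a w = true then coF N a w else []

def e2F (n N a : ℕ) : LF := (1, 0, 0, 0, 0) :: (List.range N).flatMap fun u =>
  if sv n a u = true then (1, 1, 0, u, 0) :: (List.range N).flatMap fun v =>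
    if sv n a v = true then [(-1, 2, 0, u, v)] else [] else []

def rows (n Q a : ℕ) (g : ℤ) : List (LF × ℤ) :=
  ((List.range (n + Q)).flatMap fun u => (List.range (n + Q)).flatMap fun v =>
    [([(1, 3, a, u, v)], 0), ([(1, 2, 0, u, v), (-1, 3, a, u, v)], 0)]) ++
  (((List.range Q).map fun y => (if y.testBit a = true then neg (coF (n + Q) a (n + y))
    else coF (n + Q) a (n + y), 0)) ++
  [(e1F n (n + Q) a, g), (neg (e1F n (n + Q) a), -g), (e2F n (n + Q) a, g),
    (neg (e2F n (n + Q) a), -g)])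

section pt
variable {α : Type} [Enc α] {n N a w : α → ℕ}

@[fun_prop] theorem pt_neg {L : α → LF} (h : PT L) : PT fun x => neg (L x) := by
  unfold neg; fun_prop
@[fun_prop] theorem pt_sv (hn : PT n) (ha : PT a) (hw : PT w) :
    PT fun x => sv (n x) (a x) (w x) := by
  unfold sv; fun_prop
@[fun_prop] theorem pt_coF (hn : PT N) (ha : PT a) (hw : PT w) :
    PT fun x => coF (N x) (a x) (w x) := by
  unfold coF; fun_prop
@[fun_prop] theorem pt_e1F (hn : PT n) (hN : PT N) (ha : PT a) :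
    PT fun x => e1F (n x) (N x) (a x) := by
  unfold e1F; fun_prop
@[fun_prop] theorem pt_e2F (hn : PT n) (hN : PT N) (ha : PT a) :
    PT fun x => e2F (n x) (N x) (a x) := by
  unfold e2F; fun_prop
@[fun_prop] theorem pt_rows {g : α → ℤ} (hn : PT n) (hN : PT N) (ha : PT a) (hg : PT g) :
    PT fun x => rows (n x) (N x) (a x) (g x) := by
  unfold rows; fun_prop

end pt

@[simp] theorem ev_nil (x : K → ℚ) : ev x [] = 0 := rfl
@[simp] theorem ev_cons (x : K → ℚ) (p : ℤ × K) (L : LF) :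
    ev x (p :: L) = p.1 * x p.2 + ev x L := by simp [ev]

theorem ev_neg (x : K → ℚ) (L : LF) : ev x (neg L) = - ev x L := by
  induction L with
  | nil => simp [neg]
  | cons p L ih => rw [neg, List.map_cons, ← neg, ev_cons, ev_cons, ih]; push_cast; ring

theorem ev_flat (x : K → ℚ) (N : ℕ) (F : ℕ → LF) :
    ev x ((List.range N).flatMap F) = ∑ i ∈ range N, ev x (F i) := by
  induction N with
  | zero => rfl
  | succ N ih =>
    rw [List.range_succ, List.flatMap_append, sum_range_succ, ← ih]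
    simp [ev]

def co (N : ℕ) (b : ℕ → ℚ) (d θ : ℕ → ℕ → ℚ) (w : ℕ) : ℚ :=
  b w - ∑ v ∈ range N, θ w v - ∑ u ∈ range N, (d u w - θ u w)

/-- the conditions at the point `a` -/
def CondN (n Q a : ℕ) (c0 : ℚ) (b : ℕ → ℚ) (d θ : ℕ → ℕ → ℚ) (g : ℚ) : Prop :=
  (∀ u < n + Q, ∀ v < n + Q, 0 ≤ θ u v ∧ θ u v ≤ d u v) ∧
  (∀ y < Q, y.testBit a = true → co (n + Q) b d θ (n + y) ≤ 0) ∧
  (∀ y < Q, y.testBit a = false → 0 ≤ co (n + Q) b d θ (n + y)) ∧
  c0 + ∑ w ∈ range (n + Q), co (n + Q) b d θ w * bv (sv n a w) = g ∧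
  c0 + ∑ w ∈ range (n + Q), b w * bv (sv n a w) - ∑ u ∈ range (n + Q), ∑ v ∈ range (n + Q),
    d u v * (bv (sv n a u) * bv (sv n a v)) = g

theorem rows_iff (n Q a : ℕ) (g : ℤ) (x : K → ℚ) :
    (∀ r ∈ rows n Q a g, (r.2 : ℚ) ≤ ev x r.1) ↔ CondN n Q a (x (0, 0, 0, 0))
      (fun u => x (1, 0, u, 0)) (fun u v => x (2, 0, u, v)) (fun u v => x (3, a, u, v)) g := by
  have e0 : ∀ w, ev x (coF (n + Q) a w) = co (n + Q) (fun u => x (1, 0, u, 0))
      (fun u v => x (2, 0, u, v)) (fun u v => x (3, a, u, v)) w := fun w => by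
    rw [coF, ev_cons, ev_flat, co, sub_sub, ← sum_add_distrib, sub_eq_add_neg, ← sum_neg_distrib]
    congr 1
    · simp
    · refine sum_congr rfl fun v _ => ?_
      simp
      ring
  have e1 : ev x (e1F n (n + Q) a) = x (0, 0, 0, 0) + ∑ w ∈ range (n + Q),
      co (n + Q) (fun u => x (1, 0, u, 0)) (fun u v => x (2, 0, u, v))
        (fun u v => x (3, a, u, v)) w * bv (sv n a w) := by
    rw [e1F, ev_cons, ev_flat]
    congr 1
    · simp
    · refine sum_congr rfl fun w _ => ?_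
      cases sv n a w <;> simp [e0]
  have e2 : ev x (e2F n (n + Q) a) = x (0, 0, 0, 0) + ∑ w ∈ range (n + Q),
      x (1, 0, w, 0) * bv (sv n a w) - ∑ u ∈ range (n + Q), ∑ v ∈ range (n + Q),
        x (2, 0, u, v) * (bv (sv n a u) * bv (sv n a v)) := by
    rw [e2F, ev_cons, ev_flat, add_sub_assoc, ← sum_sub_distrib]
    congr 1
    · simp
    · refine sum_congr rfl fun u _ => ?_
      cases sv n a u
      · simp
      · rw [if_pos rfl, ev_cons, ev_flat, sub_eq_add_neg, ← sum_neg_distrib]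
        congr 1
        · simp
        · refine sum_congr rfl fun v _ => ?_
          cases sv n a v <;> simp
  simp only [rows, List.forall_mem_append, List.forall_mem_flatMap, List.forall_mem_map,
    List.forall_mem_cons, List.mem_range, ev_neg, e1, e2, CondN, List.not_mem_nil, false_imp_iff,
    implies_true, and_true, ev_cons, ev_nil]
  push_cast
  refine and_congr (forall₄_congr fun u _ v _ => by
    constructor <;> rintro ⟨h1, h2⟩ <;> constructor <;> linarith) ?_
  constructor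
  · rintro ⟨h1, h2, h3, h4, h5⟩
    refine ⟨fun y hy ht => ?_, fun y hy ht => ?_, by linarith, by linarith⟩
    · have := h1 y hy
      rw [if_pos ht, ev_neg, e0] at this
      linarith
    · have := h1 y hy
      rwa [if_neg (by simp [ht]), e0] at this
  · rintro ⟨h1, h2, h3, h4⟩
    refine ⟨fun y hy => ?_, by linarith, by linarith, by linarith, by linarith⟩
    split_ifs with ht
    · rw [ev_neg, e0]
      linarith [h1 y hy ht]
    · rw [e0]
      exact h2 y hy (by simpa using ht)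

def nt {n Q : ℕ} : Fin n ⊕ Fin Q → ℕ := Sum.elim Fin.val fun y => n + y.val

theorem nt_lt {n Q : ℕ} (w : Fin n ⊕ Fin Q) : nt w < n + Q := by
  rcases w with w | w <;> simp only [nt, Sum.elim_inl, Sum.elim_inr] <;> omega

theorem sum_nt {n Q : ℕ} (F : ℕ → ℚ) :
    ∑ w : Fin n ⊕ Fin Q, F (nt w) = ∑ i ∈ range (n + Q), F i := by
  rw [Fintype.sum_sum_type, sum_range_add, ← Fin.sum_univ_eq_sum_range,
    ← Fin.sum_univ_eq_sum_range fun i => F (n + i)]
  rfl

def un {n Q : ℕ} (hQ : 0 < Q) (i : ℕ) : Fin n ⊕ Fin Q :=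
  if h : i < n then Sum.inl ⟨i, h⟩ else Sum.inr ⟨(i - n) % Q, Nat.mod_lt _ hQ⟩

theorem un_nt {n Q : ℕ} (hQ : 0 < Q) (w : Fin n ⊕ Fin Q) : un hQ (nt w) = w := by
  rcases w with w | w
  · simp [un, nt]
  · simp [un, nt, Nat.mod_eq_of_lt w.2]

theorem nt_surj {n Q i : ℕ} (h : i < n + Q) : ∃ w : Fin n ⊕ Fin Q, nt w = i := by
  by_cases h1 : i < n
  · exact ⟨Sum.inl ⟨i, h1⟩, rfl⟩
  · exact ⟨Sum.inr ⟨i - n, by omega⟩, by simp [nt]; omega⟩

def ptOf (n a : ℕ) : Fin n → Bool := fun k => a.testBit k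

def ty (n Q : ℕ) (y : Fin Q) (x : Fin n → Bool) : Bool := y.val.testBit (Nat.ofBits x)

theorem ptOf_ofBits {n : ℕ} (x : Fin n → Bool) : ptOf n (Nat.ofBits x) = x :=
  funext fun k => by simp [ptOf]

theorem ofBits_ptOf {n a : ℕ} (h : a < 2 ^ n) : Nat.ofBits (ptOf n a) = a := by
  refine Nat.eq_of_testBit_eq fun i => ?_
  by_cases hi : i < n
  · rw [Nat.testBit_ofBits_lt _ _ hi]; rfl
  · rw [Nat.testBit_ofBits_ge _ _ (not_lt.1 hi), Nat.testBit_lt_two_pow
      (h.trans_le (Nat.pow_le_pow_right (by omega) (not_lt.1 hi)))]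

theorem ty_surj (n : ℕ) : Surjective (ty n (2 ^ 2 ^ n)) := fun φ =>
  ⟨⟨Nat.ofBits fun a : Fin (2 ^ n) => φ (ptOf n a), Nat.ofBits_lt_two_pow _⟩, funext fun x => by
    rw [ty, Nat.testBit_ofBits_lt _ _ (Nat.ofBits_lt_two_pow x), ptOf_ofBits]⟩

theorem cond_iff {n Q : ℕ} (x : Fin n → Bool) (c0 : ℚ) (b : ℕ → ℚ) (d θ : ℕ → ℕ → ℚ) (g : ℚ) :
    CondN n Q (Nat.ofBits x) c0 b d θ g ↔
    (∀ u v : Fin n ⊕ Fin Q, 0 ≤ θ (nt u) (nt v) ∧ θ (nt u) (nt v) ≤ d (nt u) (nt v)) ∧
      (∀ y : Fin Q, ty n Q y x = true → b (nt (Sum.inr y : Fin n ⊕ Fin Q)) -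
        ∑ v : Fin n ⊕ Fin Q, θ (nt (Sum.inr y : Fin n ⊕ Fin Q)) (nt v) -
        ∑ u : Fin n ⊕ Fin Q, (d (nt u) (nt (Sum.inr y : Fin n ⊕ Fin Q)) -
          θ (nt u) (nt (Sum.inr y : Fin n ⊕ Fin Q))) ≤ 0) ∧
      (∀ y : Fin Q, ty n Q y x = false → 0 ≤ b (nt (Sum.inr y : Fin n ⊕ Fin Q)) -
        ∑ v : Fin n ⊕ Fin Q, θ (nt (Sum.inr y : Fin n ⊕ Fin Q)) (nt v) -
        ∑ u : Fin n ⊕ Fin Q, (d (nt u) (nt (Sum.inr y : Fin n ⊕ Fin Q)) -
          θ (nt u) (nt (Sum.inr y : Fin n ⊕ Fin Q)))) ∧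
      c0 + ∑ w : Fin n ⊕ Fin Q, (b (nt w) - ∑ v : Fin n ⊕ Fin Q, θ (nt w) (nt v) -
        ∑ u : Fin n ⊕ Fin Q, (d (nt u) (nt w) - θ (nt u) (nt w))) *
        bv (Sum.elim x (fun y => ty n Q y x) w) = g ∧
      c0 + ∑ w : Fin n ⊕ Fin Q, b (nt w) * bv (Sum.elim x (fun y => ty n Q y x) w) -
        ∑ u : Fin n ⊕ Fin Q, ∑ v : Fin n ⊕ Fin Q, d (nt u) (nt v) *
        (bv (Sum.elim x (fun y => ty n Q y x) u) * bv (Sum.elim x (fun y => ty n Q y x) v)) = g := by
  have e0 : ∀ w : Fin n ⊕ Fin Q, Sum.elim x (fun y => ty n Q y x) w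
      = sv n (Nat.ofBits x) (nt w) := by
    rintro (w | w) <;> simp [sv, nt, ty]
  simp only [e0, CondN, co, ← sum_nt]
  refine and_congr ⟨fun h u v => h _ (nt_lt u) _ (nt_lt v), fun h u hu v hv => ?_⟩
    (and_congr ⟨fun h y => h y y.2, fun h y hy => h ⟨y, hy⟩⟩
      (and_congr ⟨fun h y => h y y.2, fun h y hy => h ⟨y, hy⟩⟩ Iff.rfl))
  obtain ⟨u, rfl⟩ := nt_surj hu
  obtain ⟨v, rfl⟩ := nt_surj hv
  exact h u v

theorem cert_iff {n Q : ℕ} (hQ : 0 < Q) (f : (Fin n → Bool) → ℚ) (g : ℕ → ℤ)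
    (hg : ∀ x, f x = g (Nat.ofBits x)) :
    Cert (ty n Q) f ↔ ∃ x : K → ℚ, ∀ r ∈ (List.range (2 ^ n)).flatMap fun a => rows n Q a (g a),
      (r.2 : ℚ) ≤ ev x r.1 := by
  simp only [List.forall_mem_flatMap, List.mem_range, rows_iff]
  constructor
  · rintro ⟨c0, b, d, θ, h⟩
    refine ⟨fun k => if k.1 = 0 then c0 else if k.1 = 1 then b (un hQ k.2.2.1) else
      if k.1 = 2 then d (un hQ k.2.2.1) (un hQ k.2.2.2) else
        θ (ptOf n k.2.1) (un hQ k.2.2.1) (un hQ k.2.2.2), fun a ha => ?_⟩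
    have h1 := h (ptOf n a)
    rw [hg] at h1
    conv => enter [3]; rw [← ofBits_ptOf ha]
    rw [cond_iff]
    rw [ofBits_ptOf ha] at h1
    simpa [un_nt] using h1
  · rintro ⟨x, h⟩
    refine ⟨x (0, 0, 0, 0), fun w => x (1, 0, nt w, 0), fun u v => x (2, 0, nt u, nt v),
      fun z u v => x (3, Nat.ofBits z, nt u, nt v), fun z => ?_⟩
    rw [hg]
    exact (cond_iff z _ _ _ _ _).1 (h _ (Nat.ofBits_lt_two_pow z))

/-! ### the input -/

abbrev Tr := List ℤ × ℤ × ℤ

def dec (x : Str) : List Tr :=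
  (((bitDecode x : Option (ℕ × List (List ℕ × ℤ × ℕ))).map Rep.up).getD (0, [])).2

theorem pt_dec : PT dec :=
  ((PT.decode (ℕ × List (List ℕ × ℤ × ℕ)) PT.id).option_getD (PT.const _)).snd

def conv (t : Finset ℕ × ℚ) : Tr :=
  ((t.1.sort (· ≤ ·)).map fun i : ℕ => (i : ℤ), t.2.num, t.2.den)

theorem dec_enc (I : Input) : dec (bitEncode I) = I.2.map conv := by
  have e : bitEncode I = bitEncode ((I.1, I.2.map fun t => (t.1.sort (· ≤ ·), t.2.num, t.2.den)) :
      ℕ × List (List ℕ × ℤ × ℕ)) := by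
    change delimit (bitEncode I.1) ++ ((I.2.map bitEncode).map delimit).flatten =
      delimit (bitEncode I.1) ++ (((I.2.map _).map bitEncode).map delimit).flatten
    rw [List.map_map (l := I.2) (g := bitEncode)]
    rfl
  rw [dec, e, bitDecode_bitEncode]
  simp [conv, comp_def]

def ocs (T : List Tr) : List ℤ := T.flatMap fun t => t.1

def pos (l : List ℤ) (i : ℤ) : ℕ :=
  ((List.range l.length).find? fun k => decide (l.getD k 0 = i)).getD 0

def den (T : List Tr) : ℤ := (T.map fun t => t.2.2).prod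

def gv (T : List Tr) (a : ℕ) : ℤ :=
  (T.map fun t => if (t.1.all fun i => a.testBit (pos (ocs T) i)) = true
    then t.2.1 * (den T / t.2.2) else 0).sum

theorem pt_gv : PT fun p : List Tr × ℕ => gv p.1 p.2 := by
  unfold gv den pos ocs
  fun_prop

theorem pos_lt {l : List ℤ} (h : 0 < l.length) (i : ℤ) : pos l i < l.length := by
  unfold pos
  cases e : (List.range l.length).find? fun k => decide (l.getD k 0 = i) with
  | none => exact h
  | some k => exact List.mem_range.1 (List.mem_of_find?_eq_some e)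

theorem getD_pos {l : List ℤ} {i : ℤ} (h : i ∈ l) : l.getD (pos l i) 0 = i := by
  unfold pos
  cases e : (List.range l.length).find? fun k => decide (l.getD k 0 = i) with
  | none =>
    obtain ⟨k, hk, rfl⟩ := List.getElem_of_mem h
    have := List.find?_eq_none.1 e k (List.mem_range.2 hk)
    simp [hk] at this
  | some k => simpa using List.find?_some e

theorem length_ocs (I : Input) : (ocs (I.2.map conv)).length ≤ (bitEncode I).length := by
  have h : ∀ L : List (Finset ℕ × ℚ), (ocs (L.map conv)).length ≤ (bitEncode L).length := by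
    intro L
    change _ ≤ (((L.map bitEncode).map delimit).flatten).length
    induction L with
    | nil => simp [ocs]
    | cons t L ih =>
      have h1 := length_le_length_flatten_delimit ((t.1.sort (· ≤ ·)).map bitEncode)
      have h2 : bitEncode t = delimit ((((t.1.sort (· ≤ ·)).map bitEncode).map delimit).flatten)
        ++ bitEncode t.2 := rfl
      simp only [ocs, List.map_cons, List.flatMap_cons, List.length_append, List.flatten_cons,
        length_delimit, h2, conv, List.length_map] at ih h1 ⊢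
      omega
  have h3 : bitEncode I = delimit (bitEncode I.1) ++ bitEncode I.2 := rfl
  rw [h3, List.length_append]
  exact (h I.2).trans (Nat.le_add_left _ _)

theorem mem_ocs {L : List (Finset ℕ × ℚ)} {z : ℤ} :
    z ∈ ocs (L.map conv) ↔ ∃ t ∈ L, ∃ i ∈ t.1, (i : ℤ) = z := by
  simp [ocs, conv]

theorem den_pos (L : List (Finset ℕ × ℚ)) : 0 < den (L.map conv) :=
  List.prod_pos fun z hz => by
    simp only [List.map_map, List.mem_map] at hz
    obtain ⟨t, -, rfl⟩ := hz
    exact Int.natCast_pos.2 t.2.den_pos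

theorem value_congr (I : Input) {x y : Fin I.1 → Bool}
    (h : ∀ t ∈ I.2, ∀ i : Fin I.1, i.val ∈ t.1 → x i = y i) : value I x = value I y := by
  unfold value
  congr 1
  refine List.map_congr_left fun t ht => ?_
  congr 1
  exact prod_congr rfl fun i hi => by rw [h t ht i (mem_filter.1 hi).2]

theorem gv_eq (I : Input) (hI : ∀ t ∈ I.2, t.1 ⊆ range I.1) (a : ℕ) :
    (gv (I.2.map conv) a : ℚ) = den (I.2.map conv) *
      value I fun i => a.testBit (pos (ocs (I.2.map conv)) i.val) := by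
  unfold gv value
  rw [List.map_map, Int.cast_list_sum, List.map_map, ← List.sum_map_mul_left]
  congr 1
  refine List.map_congr_left fun t ht => ?_
  have hd : (t.2.den : ℤ) ∣ den (I.2.map conv) :=
    List.dvd_prod (List.mem_map.2 ⟨conv t, List.mem_map_of_mem ht, rfl⟩)
  simp only [comp_apply]
  split_ifs with h
  · rw [prod_eq_one, mul_one]
    · change ((t.2.num * (den (I.2.map conv) / (t.2.den : ℤ)) : ℤ) : ℚ) = _
      rw [Int.cast_mul, Int.cast_div hd (by exact_mod_cast t.2.den_pos.ne')]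
      conv_rhs => rw [← Rat.num_div_den t.2]
      push_cast
      ring
    · intro i hi
      rw [if_pos]
      simp only [conv, List.all_eq_true, List.forall_mem_map, mem_sort] at h
      exact h _ (mem_filter.1 hi).2
  · simp only [conv, List.all_eq_true, List.forall_mem_map, mem_sort, not_forall] at h
    obtain ⟨i, hi, h⟩ := h
    rw [prod_eq_zero (i := ⟨i, mem_range.1 (hI t ht hi)⟩) (by simpa using hi) (if_neg h)]
    simp

/-- the linear program for the list `T` and the padding `p` -/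
def prog (T : List Tr) (p : ℕ) : List (LF × ℤ) :=
  (List.range (min (2 ^ (ocs T).length) p)).flatMap fun a =>
    rows (ocs T).length (min (2 ^ 2 ^ (ocs T).length) p) a (gv T a)

theorem pt_prog : PT fun p : List Tr × ℕ => prog p.1 p.2 := by
  have h2 : PT fun p : List Tr × ℕ => (ocs p.1).length := by unfold ocs; fun_prop
  have h3 := Pad.pt_pow h2 (PT.snd PT.id)
  have h4 := Pad.pt_pow2 h2 (PT.snd PT.id)
  have h5 : PT fun q : (List Tr × ℕ) × ℕ => gv q.1.1 q.2 :=
    pt_gv.comp (f := fun q : (List Tr × ℕ) × ℕ => (q.1.1, q.2)) (by fun_prop)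
  have h6 : PT fun q : (List Tr × ℕ) × ℕ => (ocs q.1.1).length := h2.comp (PT.fst PT.id)
  have h7 : PT fun q : (List Tr × ℕ) × ℕ => min (2 ^ 2 ^ (ocs q.1.1).length) q.1.2 :=
    h4.comp (PT.fst PT.id)
  exact PT.flatMap (f := fun (p : List Tr × ℕ) (a : ℕ) =>
    rows (ocs p.1).length (min (2 ^ 2 ^ (ocs p.1).length) p.2) a (gv p.1 a)) h3.range
    (pt_rows h6 h7 (PT.snd PT.id) h5)

theorem prog_iff (cert : CertSt) (I : Input) (hI : IsQuartic I) :
    (∃ x : K → ℚ, ∀ r ∈ prog (I.2.map conv) (2 ^ 2 ^ (bitEncode I).length),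
      (r.2 : ℚ) ≤ ev x r.1) ↔ Ex (value I) := by
  have l1 := length_ocs I
  have l2 : 2 ^ 2 ^ (ocs (I.2.map conv)).length ≤ 2 ^ 2 ^ (bitEncode I).length :=
    Nat.pow_le_pow_right (by omega) (Nat.pow_le_pow_right (by omega) l1)
  have hs : ∀ t ∈ I.2, t.1 ⊆ range I.1 := fun t ht => (hI.2.1 t ht).2.1
  have l3 : 0 < (ocs (I.2.map conv)).length := by
    obtain ⟨t, ht, h4⟩ := hI.2.2
    obtain ⟨i, hi⟩ := card_pos.1 (show 0 < t.1.card by omega)
    exact List.length_pos_of_mem (mem_ocs.2 ⟨t, ht, i, hi, rfl⟩)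
  have l4 : ∀ k : Fin (ocs (I.2.map conv)).length,
      ((ocs (I.2.map conv)).getD k 0).toNat < I.1 := fun k => by
    rw [List.getD_eq_getElem _ _ k.2]
    obtain ⟨t, ht, i, hi, h⟩ := mem_ocs.1 (List.getElem_mem k.2)
    rw [← h]
    exact mem_range.1 (hs t ht hi)
  have dp : (0 : ℚ) < den (I.2.map conv) := by exact_mod_cast den_pos I.2
  let ρ : Fin I.1 → Fin (ocs (I.2.map conv)).length := fun i => ⟨_, pos_lt l3 i.val⟩
  let σ : Fin (ocs (I.2.map conv)).length → Fin I.1 := fun k => ⟨_, l4 k⟩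
  have hg : ∀ x : Fin (ocs (I.2.map conv)).length → Bool,
      den (I.2.map conv) * value I (x ∘ ρ) = gv (I.2.map conv) (Nat.ofBits x) := fun x => by
    rw [gv_eq I hs]
    congr 2
    funext i
    rw [Nat.testBit_ofBits_lt _ _ (pos_lt l3 _)]
    rfl
  rw [prog, min_eq_left l2, min_eq_left (Nat.lt_two_pow_self.le.trans l2),
    ← cert_iff (by positivity) _ _ hg, ← cert _ _ _ _ (ty_surj _)]
  constructor
  · intro h
    refine ((h.rename σ).smul (k := (den (I.2.map conv) : ℚ)⁻¹) (by positivity)).of_eq fun y => ?_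
    rw [← mul_assoc, inv_mul_cancel₀ dp.ne', one_mul]
    refine value_congr I fun t ht i hi => congrArg y (Fin.ext ?_)
    change ((ocs (I.2.map conv)).getD (pos _ _) 0).toNat = i.val
    rw [getD_pos (mem_ocs.2 ⟨t, ht, i, hi, rfl⟩)]
    rfl
  · intro h
    exact (h.rename ρ).smul dp.le

end Alg

open Alg

theorem algSt : LpSt → CertSt → AlgSt := by
  intro lp cert
  obtain ⟨D, hD, e⟩ := lp_free lp
  have h1 : PT fun p : Str × ℕ => (dec p.1, p.2) :=
    (pt_dec.comp (PT.fst PT.id)).prodMk (PT.snd PT.id)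
  have h2 := PT.comp pt_prog h1
  have h3 := PT.comp hD h2
  refine ⟨_, h3, fun I hI => ?_⟩
  have h4 := (e _).trans ((prog_iff cert I hI).trans (expressible_iff _).symm)
  rw [← dec_enc] at h4
  exact h4

end Pool.Agent.Lib.MP_cb9cb0_lc.X
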