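import Pool.Agent.Lib.MP_cb9cb0_lc.X.Defs

/-!
Renaming, minimisation, substitution, pins of monotone functions, and the normal form of networks.
-/

set_option autoImplicit false

namespace Pool.Agent.Lib.MP_cb9cb0_lc

open Finset Function

section
variable {V V' : Type}

lemma Ex.rename {f : (V → Bool) → ℚ} (h : Ex f) (ρ : V → V') :
    Ex (fun x : V' → Bool => f (x ∘ ρ)) := by
  obtain ⟨Y, _, c, h1, h2⟩ := h
  refine ⟨Y, inferInstance, _, h1.rename (Sum.map ρ id), fun x => ?_⟩
  have e : ∀ y : Y → Bool, (fun w => Sum.elim x y (Sum.map ρ id w)) = Sum.elim (x ∘ ρ) y :=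
    fun y => by funext w; cases w <;> rfl
  simp only [e]
  exact h2 _

lemma Ex.min {Y : Type} [Fintype Y] {c : (V ⊕ Y → Bool) → ℚ} (h : Ex c) {g : (V → Bool) → ℚ}
    (hg : ∀ x, IsLeast (Set.range fun y : Y → Bool => c (Sum.elim x y)) (g x)) : Ex g := by
  obtain ⟨Y', _, c', h1, h2⟩ := h
  refine ⟨Y ⊕ Y', inferInstance, _, h1.rename (Equiv.sumAssoc V Y Y'), fun x => ?_⟩
  have e : ∀ y : Y ⊕ Y' → Bool, (fun w => Sum.elim x y (Equiv.sumAssoc V Y Y' w))
      = Sum.elim (Sum.elim x (y ∘ Sum.inl)) (y ∘ Sum.inr) :=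
    fun y => by funext w; rcases w with (w | w) | w <;> rfl
  simp only [e]
  obtain ⟨⟨y, hy⟩, hl⟩ := hg x
  obtain ⟨⟨y', hy'⟩, -⟩ := h2 (Sum.elim x y)
  refine ⟨⟨Sum.elim y y', hy'.trans hy⟩, ?_⟩
  rintro _ ⟨w, rfl⟩
  exact (hl ⟨_, rfl⟩).trans ((h2 _).2 ⟨_, rfl⟩)

lemma Ex.lin (a : V) (c0 c1 : ℚ) : Ex (fun z => c0 + c1 * bv (z a)) := Ex.of_bin (Bin.lin a c0 c1)

lemma Ex.neg (a b : V) : Ex (fun z => - (bv (z a) * bv (z b))) := Ex.of_bin (Bin.neg a b)

/-- substitution of pinned functions for variables -/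
lemma Ex.subst {ι : Type} [Fintype ι] {F : (ι ⊕ V → Bool) → ℚ} (hF : Ex F) {K : ℚ}
    (hK : ∀ y y' x, F (Sum.elim y x) - F (Sum.elim y' x) ≤ K) (φ : ι → (V → Bool) → Bool)
    (D : ι → (V → Bool) → ℚ) (hD : ∀ i, Ex (fun x : Unit ⊕ V → Bool =>
      - (bv (x (Sum.inl ())) * bv (φ i (x ∘ Sum.inr))) + D i (x ∘ Sum.inr))) :
    Ex (fun x => F (Sum.elim (fun i => φ i x) x) + K * ∑ i, (2 * D i x - bv (φ i x))) := by
  classical
  have K0 : 0 ≤ K := by simpa using hK (fun _ => false) (fun _ => false) (fun _ => false)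
  have h1 := (hF.rename (Sum.swap : ι ⊕ V → V ⊕ ι)).add ((Ex.sum univ fun i _ =>
    (Ex.lin (Sum.inr i : V ⊕ ι) 0 1).add (((hD i).rename
      (Sum.elim (fun _ => Sum.inr i) Sum.inl : Unit ⊕ V → V ⊕ ι)).smul
        (k := 2) (by norm_num))).smul K0)
  refine h1.min fun x => ?_
  have e1 : ∀ y : ι → Bool, Sum.elim x y ∘ Sum.swap = Sum.elim y x :=
    fun y => by funext w; cases w <;> rfl
  have e2 : ∀ (y : ι → Bool) (i : ι), (Sum.elim x y ∘
      (Sum.elim (fun _ => Sum.inr i) Sum.inl : Unit ⊕ V → V ⊕ ι)) ∘ Sum.inr = x := fun _ _ => rfl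
  simp only [e1, e2, comp_apply, Sum.elim_inl, Sum.elim_inr]
  constructor
  · refine ⟨fun i => φ i x, ?_⟩
    beta_reduce
    congr 2
    refine sum_congr rfl fun i _ => ?_
    cases φ i x <;> simp <;> ring
  · rintro _ ⟨y, rfl⟩
    beta_reduce
    by_cases hy : y = fun i => φ i x
    · subst hy
      refine le_of_eq ?_
      beta_reduce
      congr 2
      refine sum_congr rfl fun i _ => ?_
      cases φ i x <;> simp <;> ring
    · obtain ⟨i0, hi⟩ := ne_iff.1 hy
      have a1 : ∑ i, ((2 * D i x - bv (φ i x)) + if i = i0 then 1 else 0) ≤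
          ∑ i, (0 + 1 * bv (y i) + 2 * (- (bv (y i) * bv (φ i x)) + D i x)) := by
        refine sum_le_sum fun i _ => ?_
        split_ifs with h
        · subst h
          revert hi
          cases y i <;> cases φ i x <;> simp <;> linarith
        · cases y i <;> cases φ i x <;> simp <;> linarith
      rw [sum_add_distrib, sum_ite_eq' univ i0, if_pos (mem_univ _)] at a1
      have a2 := mul_le_mul_of_nonneg_left a1 K0
      have a3 := hK (fun i => φ i x) y x
      linarith

lemma exists_osc {ι : Type} [Fintype ι] (F : (ι → Bool) → ℚ) : ∃ K, ∀ y, |F y| ≤ K := by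
  classical
  obtain ⟨y, -, h⟩ := exists_max_image univ (fun y => |F y|) univ_nonempty
  exact ⟨_, fun y' => h y' (mem_univ _)⟩

/-- variables may be renamed or replaced by constants -/
lemma Ex.fix {f : (V → Bool) → ℚ} (h : Ex f) (ρ : V → Bool ⊕ V') :
    Ex (fun x : V' → Bool => f (fun v => Sum.elim id x (ρ v))) := by
  obtain ⟨Y, _, c, ⟨J, _, g, a, h1, h2⟩, h3⟩ := h
  let r : V ⊕ Y → Bool ⊕ (V' ⊕ (Y ⊕ Unit)) :=
    Sum.elim (fun v => Sum.map id Sum.inl (ρ v)) fun y => Sum.inr (Sum.inr (Sum.inl y))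
  refine ⟨Y ⊕ Unit, inferInstance, fun z => c (fun w => Sum.elim id z (r w)),
    ⟨J, inferInstance, fun j u => g j fun k => Sum.elim id (fun _ => u k) (r (a j k)),
      fun j k => Sum.elim (fun _ => Sum.inr (Sum.inr ())) id (r (a j k)), fun j x y => ?_,
      fun z => ?_⟩, fun x => ?_⟩
  · refine le_of_eq_of_le ?_ (h1 j _ _)
    beta_reduce
    congr 2 <;> funext k <;> simp only [Pi.inf_apply, Pi.sup_apply] <;>
      cases r (a j k) <;> simp
  · beta_reduce
    rw [h2]
    refine sum_congr rfl fun j _ => ?_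
    congr 1
    funext k
    cases r (a j k) <;> rfl
  · have e : ∀ y : Y ⊕ Unit → Bool, (fun w => Sum.elim id (Sum.elim x y) (r w))
        = Sum.elim (fun v => Sum.elim id x (ρ v)) (y ∘ Sum.inl) := fun y => by
      funext w
      rcases w with w | w
      · simp only [r, Sum.elim_inl]
        cases ρ w <;> rfl
      · rfl
    simp only [e]
    obtain ⟨⟨y, hy⟩, hl⟩ := h3 fun v => Sum.elim id x (ρ v)
    refine ⟨⟨Sum.elim y fun _ => false, hy⟩, ?_⟩
    rintro _ ⟨w, rfl⟩
    exact hl ⟨_, rfl⟩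

lemma an_eq_bv (A : Finset V) (x : V → Bool) [Decidable (∀ v ∈ A, x v = true)] :
    an A x = bv (decide (∀ v ∈ A, x v = true)) := by
  by_cases h : ∀ v ∈ A, x v = true
  · rw [decide_eq_true h, bv_true]
    exact prod_eq_one fun u hu => by simp [h u hu]
  · rw [decide_eq_false h, bv_false]
    push Not at h
    obtain ⟨u, hu, hx⟩ := h
    exact prod_eq_zero hu (by simp [hx])

lemma orr_eq_bv (A : Finset V) (x : V → Bool) [Decidable (∃ v ∈ A, x v = true)] :
    orr A x = bv (decide (∃ v ∈ A, x v = true)) := by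
  by_cases h : ∃ v ∈ A, x v = true
  · rw [decide_eq_true h, bv_true]
    obtain ⟨u, hu, hx⟩ := h
    rw [orr, prod_eq_zero hu (by simp [hx]), sub_zero]
  · rw [decide_eq_false h, bv_false, orr, prod_eq_one, sub_self]
    push Not at h
    intro u hu
    simp [h u hu]

lemma ex_not_or (y : V) (A : Finset V) : Ex (fun x => (1 - bv (x y)) * orr A x) := by
  refine ⟨Unit, inferInstance, _, (Bin.imp (Sum.inr ()) (Sum.inl y)).add (bin_or A ()),
    fun x => ?_⟩
  simp only [Sum.elim_inl, Sum.elim_inr]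
  have h0 := bv_nonneg (x y)
  have h1 := bv_le (x y)
  rcases orr_cases A x with ⟨c1, c2⟩ | ⟨c1, c2⟩ <;> rw [c1]
  · refine ⟨⟨fun _ => false, by simp [c2]⟩, ?_⟩
    rintro _ ⟨w, rfl⟩
    cases hw : w () <;> simp only [hw, c2, bv_true, bv_false] <;> linarith
  · refine ⟨⟨fun _ => true, by simp⟩, ?_⟩
    rintro _ ⟨w, rfl⟩
    cases hw : w () <;> simp only [hw, bv_true, bv_false] <;> linarith

/-- a monotone function of the variables in `A` is pinned with debris which depends on `A` only -/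
lemma pin0 (A : Finset V) (φ : (V → Bool) → Bool) (hm : Monotone φ)
    (hA : ∀ z z', (∀ v ∈ A, z v = z' v) → φ z = φ z') :
    ∃ D : (V → Bool) → ℚ, (∀ z, |D z| ≤ 2 ^ A.card + 1) ∧
      (∀ z z', (∀ v ∈ A, z v = z' v) → D z = D z') ∧
      Ex (fun x : Unit ⊕ V → Bool =>
        - (bv (x (Sum.inl ())) * bv (φ (x ∘ Sum.inr))) + D (x ∘ Sum.inr)) := by
  classical
  let S := A.powerset.filter fun t => φ (fun v => decide (v ∈ t)) = true
  refine ⟨fun z => bv (φ z) - ∑ t ∈ S, an t z, fun z => ?_, fun z z' h => ?_, ?_⟩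
  · have a1 : 0 ≤ ∑ t ∈ S, an t z := sum_nonneg fun t _ => by rw [an_eq_bv]; exact bv_nonneg _
    have a2 : ∑ t ∈ S, an t z ≤ 2 ^ A.card := by
      refine (sum_le_card_nsmul S _ 1 fun t _ => by rw [an_eq_bv]; exact bv_le _).trans ?_
      have : S.card ≤ 2 ^ A.card := (card_filter_le _ _).trans_eq (card_powerset A)
      simp only [nsmul_eq_mul, mul_one]
      exact_mod_cast this
    have := bv_nonneg (φ z)
    have := bv_le (φ z)
    rw [abs_le]
    constructor <;> linarith
  · beta_reduce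
    rw [hA z z' h]
    congr 1
    refine sum_congr rfl fun t ht => prod_congr rfl fun v hv => ?_
    rw [h v (mem_powerset.1 (mem_filter.1 ht).1 hv)]
  · have h1 := (ex_not_or (V := S ⊕ (Unit ⊕ V)) (Sum.inr (Sum.inl ()))
      (univ.map Embedding.inl)).subst (K := 1) (fun y y' x => by
        have k : ∀ a b c : Bool, (1 - bv c) * bv a - (1 - bv c) * bv b ≤ 1 := fun a b c => by
          cases a <;> cases b <;> cases c <;> simp
        simp only [orr_eq_bv, Sum.elim_inr]
        exact k _ _ _)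
      (fun t x => decide (∀ v ∈ t.1, x (Sum.inr v) = true)) (fun _ _ => 0) (fun t =>
        (ex_neg_an (insert (Sum.inl ()) (t.1.map ⟨fun v => Sum.inr (Sum.inr v), fun _ _ h => by
          simpa using h⟩))).of_eq fun x => by
            rw [an_insert, an_eq_bv]
            simp)
    refine h1.of_eq fun x => ?_
    have e : orr (univ.map Embedding.inl) (Sum.elim
        (fun t : S => decide (∀ v ∈ t.1, x (Sum.inr v) = true)) x) = bv (φ (x ∘ Sum.inr)) := by
      rw [orr_eq_bv]
      congr 1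
      rw [Bool.eq_iff_iff, decide_eq_true_eq]
      constructor
      · rintro ⟨v, hv, h⟩
        obtain ⟨t, -, rfl⟩ := mem_map.1 hv
        have h' : ∀ v ∈ t.1, x (Sum.inr v) = true := by simpa using h
        have := hm (a := fun v => decide (v ∈ t.1)) (b := x ∘ Sum.inr) fun v => by
          by_cases hv : v ∈ t.1
          · simp [h' v hv]
          · simp [hv]
        rw [(mem_filter.1 t.2).2] at this
        exact top_le_iff.1 this
      · intro h
        refine ⟨Sum.inl ⟨A.filter fun v => x (Sum.inr v) = true, mem_filter.2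
          ⟨mem_powerset.2 (filter_subset _ _), ?_⟩⟩, mem_map_of_mem _ (mem_univ _), by simp⟩
        exact (hA _ _ fun v hv => by simp [hv]).trans h
    beta_reduce
    rw [e, ← sum_coe_sort S fun t => an t (x ∘ Sum.inr)]
    simp only [Sum.elim_inr, an_eq_bv, comp_apply, mul_zero, zero_sub, sum_neg_distrib]
    ring

/-- normal form of a sum of binary submodular functions -/
lemma Bin.nf [Fintype V] {c : (V → Bool) → ℚ} (h : Bin c) :
    ∃ (c0 : ℚ) (b : V → ℚ) (e : V → V → ℚ), (∀ u v, 0 ≤ e u v) ∧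
      ∀ z, c z = c0 + ∑ w, b w * bv (z w) - ∑ u, ∑ v, e u v * (bv (z u) * bv (z v)) := by
  classical
  obtain ⟨J, _, g, a, g1, g2⟩ := h
  have key : ∀ j, ∃ c0 c1 c2 d : ℚ, 0 ≤ d ∧ ∀ v : Fin 2 → Bool,
      g j v = c0 + c1 * bv (v 0) + c2 * bv (v 1) - d * (bv (v 0) * bv (v 1)) := by
    intro j
    refine ⟨g j ![false, false], g j ![true, false] - g j ![false, false],
      g j ![false, true] - g j ![false, false],
      g j ![true, false] + g j ![false, true] - g j ![true, true] - g j ![false, false], ?_,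
      fun v => ?_⟩
    · have := g1 j ![true, false] ![false, true]
      have e1 : (![true, false] ⊓ ![false, true] : Fin 2 → Bool) = ![false, false] := by decide
      have e2 : (![true, false] ⊔ ![false, true] : Fin 2 → Bool) = ![true, true] := by decide
      rw [e1, e2] at this
      linarith
    · have : v = ![v 0, v 1] := by funext i; fin_cases i <;> rfl
      rw [this]
      cases v 0 <;> cases v 1 <;> simp only [Matrix.cons_val_zero, Matrix.cons_val_one, bv_true,
        bv_false] <;> ring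
  choose c0 c1 c2 d d0 hg using key
  refine ⟨∑ j, c0 j, fun w => ∑ j, ((if a j 0 = w then c1 j else 0) + if a j 1 = w then c2 j else 0),
    fun u v => ∑ j, if a j 0 = u then (if a j 1 = v then d j else 0) else 0,
    fun u v => sum_nonneg fun j _ => by split_ifs <;> simp [d0 j], fun z => ?_⟩
  have e1 : ∑ w, (∑ j, ((if a j 0 = w then c1 j else 0) + if a j 1 = w then c2 j else 0)) * bv (z w)
      = ∑ j, (c1 j * bv (z (a j 0)) + c2 j * bv (z (a j 1))) := by
    simp only [sum_mul]
    rw [sum_comm]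
    simp [add_mul, sum_add_distrib]
  have e2 : ∑ u, ∑ v, (∑ j, if a j 0 = u then (if a j 1 = v then d j else 0) else 0) *
      (bv (z u) * bv (z v)) = ∑ j, d j * (bv (z (a j 0)) * bv (z (a j 1))) := by
    simp only [sum_mul]
    rw [sum_congr rfl fun u _ => sum_comm, sum_comm]
    refine sum_congr rfl fun j _ => ?_
    rw [sum_eq_single (a j 0) (fun u _ hu => by simp [hu.symm]) (by simp)]
    simp
  rw [g2, e1, e2, ← sum_add_distrib, ← sum_sub_distrib]
  exact sum_congr rfl fun j _ => by rw [hg]; ring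

lemma bin_of_nf [Fintype V] (c0 : ℚ) (b : V → ℚ) {e : V → V → ℚ} (h : ∀ u v, 0 ≤ e u v) :
    Ex (fun z => c0 + ∑ w, b w * bv (z w) - ∑ u, ∑ v, e u v * (bv (z u) * bv (z v))) :=
  (((Ex.const c0).add (Ex.sum univ fun w _ => Ex.lin w 0 (b w))).add
    (Ex.sum univ fun u _ => Ex.sum univ fun v _ => (Ex.neg u v).smul (h u v))).of_eq fun z => by
      simp [sub_eq_add_neg]

end

end Pool.Agent.Lib.MP_cb9cb0_lc
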