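import Pool.Agent.Lib.MP_cb9cb0_lc.X.Basic

/-!
Edge by edge certificates of optimality for networks on types.
-/

set_option autoImplicit false

namespace Pool.Agent.Lib.MP_cb9cb0_lc.X

open Finset Function

section
variable {W : Type}

lemma cert_edge (a b : Bool) {d θ : ℚ} (h0 : 0 ≤ θ) (h1 : θ ≤ d) :
    d * (bv a * bv b) ≤ θ * bv a + (d - θ) * bv b := by
  cases a <;> cases b <;> simp <;> linarith

lemma cert_mod (x y : W → Bool) (w : W) :
    bv ((x ⊓ y) w) + bv ((x ⊔ y) w) = bv (x w) + bv (y w) := by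
  simp only [Pi.inf_apply, Pi.sup_apply]
  cases x w <;> cases y w <;> simp

lemma cert_sup (x y : W → Bool) (u v : W) :
    bv (x u) * bv (x v) + bv (y u) * bv (y v) ≤
      bv ((x ⊓ y) u) * bv ((x ⊓ y) v) + bv ((x ⊔ y) u) * bv ((x ⊔ y) v) := by
  simp only [Pi.inf_apply, Pi.sup_apply]
  cases x u <;> cases y u <;> cases x v <;> cases y v <;> simp

/-- one edge is replaced by a linear term -/
lemma cert_step [Fintype W] {A : (W → Bool) → Prop} (hi : ∀ x y, A x → A y → A (x ⊓ y))
    (hs : ∀ x y, A x → A y → A (x ⊔ y)) {h : (W → Bool) → ℚ} (hh : Submodular h) {μ d : ℚ}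
    (hd : 0 ≤ d) (u v : W) (hm : ∀ z, A z → μ ≤ h z - d * (bv (z u) * bv (z v))) :
    ∃ θ, 0 ≤ θ ∧ θ ≤ d ∧ ∀ z, A z → μ ≤ h z - (θ * bv (z u) + (d - θ) * bv (z v)) := by
  classical
  let F : (W → Bool) → ℚ := fun z => if A z ∧ z u = false ∧ z v = true then d - h z + μ else 0
  obtain ⟨z0, -, h0⟩ := exists_max_image univ F univ_nonempty
  refine ⟨max 0 (F z0), le_max_left _ _, max_le hd ?_, fun z hz => ?_⟩
  · simp only [F]
    split_ifs with e
    · have := hm z0 e.1
      simp [e.2.1] at this
      linarith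
    · exact hd
  · have k := hm z hz
    cases e1 : z u <;> cases e2 : z v <;> simp only [e1, e2, bv_true, bv_false] at k ⊢
    · linarith
    · have := (h0 z (mem_univ _)).trans (le_max_right 0 _)
      simp only [F, hz, e1, e2, and_self, if_true] at this
      simp only [F]
      linarith
    · have : max 0 (F z0) ≤ h z - μ := by
        refine max_le (by linarith) ?_
        simp only [F]
        split_ifs with e
        · have a1 := hm _ (hi z z0 hz e.1)
          have a2 := hm _ (hs z z0 hz e.1)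
          have a3 := hh z z0
          simp [e1, e2, e.2.1, e.2.2] at a1 a2
          linarith
        · linarith
      linarith
    · linarith

/-- all edges are replaced by linear terms -/
lemma cert_all [Fintype W] [DecidableEq W] {A : (W → Bool) → Prop}
    (hi : ∀ x y, A x → A y → A (x ⊓ y)) (hs : ∀ x y, A x → A y → A (x ⊔ y)) {μ : ℚ}
    {d : W × W → ℚ} (hd : ∀ e, 0 ≤ d e) (s : Finset (W × W)) :
    ∀ h : (W → Bool) → ℚ, Submodular h →
      (∀ z, A z → μ ≤ h z - ∑ e ∈ s, d e * (bv (z e.1) * bv (z e.2))) →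
      ∃ θ : W × W → ℚ, (∀ e, 0 ≤ θ e ∧ θ e ≤ d e) ∧
        ∀ z, A z → μ ≤ h z - ∑ e ∈ s, (θ e * bv (z e.1) + (d e - θ e) * bv (z e.2)) := by
  induction s using Finset.induction_on with
  | empty => exact fun h _ hm => ⟨fun _ => 0, fun e => ⟨le_rfl, hd e⟩, by simpa using hm⟩
  | insert e s he ih =>
    intro h hh hm
    obtain ⟨θ, t1, t2⟩ := ih (fun z => h z - d e * (bv (z e.1) * bv (z e.2))) (fun x y => by
      have a1 := hh x y
      have a2 := mul_le_mul_of_nonneg_left (cert_sup x y e.1 e.2) (hd e)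
      linarith) fun z hz => by
        have := hm z hz
        rw [sum_insert he] at this
        linarith
    obtain ⟨t, a1, a2, a3⟩ := cert_step hi hs
      (h := fun z => h z - ∑ e ∈ s, (θ e * bv (z e.1) + (d e - θ e) * bv (z e.2))) (μ := μ)
      (fun x y => by
        have a1 := hh x y
        have a2 : ∑ e ∈ s, (θ e * bv ((x ⊓ y) e.1) + (d e - θ e) * bv ((x ⊓ y) e.2)) +
            ∑ e ∈ s, (θ e * bv ((x ⊔ y) e.1) + (d e - θ e) * bv ((x ⊔ y) e.2)) =
            ∑ e ∈ s, (θ e * bv (x e.1) + (d e - θ e) * bv (x e.2)) +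
            ∑ e ∈ s, (θ e * bv (y e.1) + (d e - θ e) * bv (y e.2)) := by
          rw [← sum_add_distrib, ← sum_add_distrib]
          refine sum_congr rfl fun e _ => ?_
          linear_combination θ e * cert_mod x y e.1 + (d e - θ e) * cert_mod x y e.2
        linarith) (hd e) e.1 e.2 fun z hz => by
          have := t2 z hz
          linarith
    refine ⟨update θ e t, fun e' => ?_, fun z hz => ?_⟩
    · by_cases k : e' = e
      · subst k
        simpa using ⟨a1, a2⟩
      · simpa [k] using t1 e'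
    · have := a3 z hz
      rw [sum_insert he, update_self, sum_congr rfl fun e' he' => by
        rw [update_of_ne (ne_of_mem_of_not_mem he' he)]]
      linarith

lemma cert_lin [Fintype W] (b : W → ℚ) (d θ : W → W → ℚ) (z : W → Bool) :
    ∑ w, (b w - ∑ v, θ w v - ∑ u, (d u w - θ u w)) * bv (z w) =
      ∑ w, b w * bv (z w) - ∑ u, ∑ v, (θ u v * bv (z u) + (d u v - θ u v) * bv (z v)) := by
  have : ∑ u, ∑ v, (d u v - θ u v) * bv (z v) = ∑ w, (∑ u, (d u w - θ u w)) * bv (z w) := by
    rw [sum_comm]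
    simp only [sum_mul]
  have e : ∑ u, ∑ v, θ u v * bv (z u) = ∑ w, (∑ v, θ w v) * bv (z w) := by simp only [sum_mul]
  simp only [sum_add_distrib]
  rw [this, e, ← sum_add_distrib, ← sum_sub_distrib]
  exact sum_congr rfl fun w _ => by ring

lemma cert_le [Fintype W] {d θ : W → W → ℚ} (h : ∀ u v, 0 ≤ θ u v ∧ θ u v ≤ d u v)
    (z : W → Bool) : ∑ u, ∑ v, d u v * (bv (z u) * bv (z v)) ≤
      ∑ u, ∑ v, (θ u v * bv (z u) + (d u v - θ u v) * bv (z v)) :=
  sum_le_sum fun u _ => sum_le_sum fun v _ => cert_edge _ _ (h u v).1 (h u v).2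

lemma cert_upd [Fintype W] [DecidableEq W] (k : W → ℚ) (z : W → Bool) (w : W) (a : Bool) :
    ∑ v, k v * bv (update z w a v) = ∑ v, k v * bv (z v) + k w * (bv a - bv (z w)) := by
  rw [← add_sum_erase _ _ (mem_univ w), ← add_sum_erase _ _ (mem_univ w), update_self,
    sum_congr rfl fun v hv => by rw [update_of_ne (ne_of_mem_erase hv)]]
  ring

end

theorem certSt : CertSt := by
  classical
  intro V Y _ _ ty f hty
  constructor
  · rintro ⟨Y', _, c, hc, hf⟩
    choose yx hyx using fun x => (hf x).1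
    choose σ hσ using fun y' : Y' => hty fun x => yx x y'
    obtain ⟨c0, b, d, d0, e⟩ := (hc.rename (Sum.map id σ : V ⊕ Y' → V ⊕ Y)).nf
    have eX : ∀ x, c0 + ∑ w, b w * bv (Sum.elim x (fun y => ty y x) w) - ∑ u, ∑ v, d u v *
        (bv (Sum.elim x (fun y => ty y x) u) * bv (Sum.elim x (fun y => ty y x) v)) = f x :=
      fun x => by
        rw [← e, ← hyx x]
        congr 1
        funext w
        cases w <;> simp [hσ]
    have key : ∀ x : V → Bool, ∃ θ : (V ⊕ Y) × (V ⊕ Y) → ℚ, (∀ p, 0 ≤ θ p ∧ θ p ≤ d p.1 p.2) ∧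
        ∀ z : V ⊕ Y → Bool, z ∘ Sum.inl = x → f x ≤ (c0 + ∑ w, b w * bv (z w)) -
          ∑ p, (θ p * bv (z p.1) + (d p.1 p.2 - θ p) * bv (z p.2)) := fun x => by
      refine cert_all (A := fun z => z ∘ Sum.inl = x) (d := fun p => d p.1 p.2) ?_ ?_
        (fun p => d0 _ _) univ _ (fun z z' => le_of_eq ?_) fun z hz => ?_
      · intro z z' h h'
        funext v
        have a : z (Sum.inl v) = x v := congrFun h v
        have a' : z' (Sum.inl v) = x v := congrFun h' v
        simp only [comp_apply, Pi.inf_apply, a, a', inf_idem]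
      · intro z z' h h'
        funext v
        have a : z (Sum.inl v) = x v := congrFun h v
        have a' : z' (Sum.inl v) = x v := congrFun h' v
        simp only [comp_apply, Pi.sup_apply, a, a', sup_idem]
      · have : ∑ w, b w * bv ((z ⊓ z') w) + ∑ w, b w * bv ((z ⊔ z') w) =
            ∑ w, b w * bv (z w) + ∑ w, b w * bv (z' w) := by
          rw [← sum_add_distrib, ← sum_add_distrib]
          exact sum_congr rfl fun w _ => by linear_combination b w * cert_mod z z' w
        linarith
      · rw [Fintype.sum_prod_type, ← e]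
        refine (hf x).2 ⟨fun y' => z (Sum.inr (σ y')), ?_⟩
        subst hz
        beta_reduce
        congr 1
        funext w
        cases w <;> rfl
    choose θ t1 t2 using key
    refine ⟨c0, b, d, fun x u v => θ x (u, v), fun x => ?_⟩
    have l1 : ∀ z : V ⊕ Y → Bool, z ∘ Sum.inl = x → f x ≤ c0 + ∑ w,
        (b w - ∑ v, θ x (w, v) - ∑ u, (d u w - θ x (u, w))) * bv (z w) := fun z hz => by
      have := t2 x z hz
      rw [Fintype.sum_prod_type] at this
      rw [cert_lin b d (fun u v => θ x (u, v))]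
      linarith
    have l2 : c0 + ∑ w, (b w - ∑ v, θ x (w, v) - ∑ u, (d u w - θ x (u, w))) *
        bv (Sum.elim x (fun y => ty y x) w) = f x := by
      refine le_antisymm ?_ (l1 _ rfl)
      have := cert_le (d := d) (θ := fun u v => θ x (u, v)) (fun u v => t1 x (u, v))
        (Sum.elim x fun y => ty y x)
      rw [cert_lin b d (fun u v => θ x (u, v)), ← eX x]
      linarith
    have l3 : ∀ y a, 0 ≤ (b (Sum.inr y) - ∑ v, θ x (Sum.inr y, v) -
        ∑ u, (d u (Sum.inr y) - θ x (u, Sum.inr y))) * (bv a - bv (ty y x)) := fun y a => by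
      have := l1 (update (Sum.elim x fun y => ty y x) (Sum.inr y) a)
        (funext fun v => update_of_ne Sum.inl_ne_inr _ _)
      rw [cert_upd, Sum.elim_inr] at this
      linarith
    refine ⟨fun u v => t1 x (u, v), fun y hy => ?_, fun y hy => ?_, l2, eX x⟩
    · have := l3 y false
      rw [hy, bv_true, bv_false] at this
      linarith
    · have := l3 y true
      rw [hy, bv_true, bv_false] at this
      linarith
  · rintro ⟨c0, b, d, θ, h⟩
    refine (bin_of_nf c0 b (e := d) fun u v =>
      ((h fun _ => false).1 u v).1.trans ((h fun _ => false).1 u v).2).min fun x => ?_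
    obtain ⟨h1, h2, h3, h4, h5⟩ := h x
    refine ⟨⟨fun y => ty y x, h5⟩, ?_⟩
    rintro _ ⟨y, rfl⟩
    have a1 := cert_le h1 (Sum.elim x y)
    have a2 := cert_lin b d (θ x) (Sum.elim x y)
    have a3 : ∑ w, (b w - ∑ v, θ x w v - ∑ u, (d u w - θ x u w)) *
        bv (Sum.elim x (fun y => ty y x) w) ≤
        ∑ w, (b w - ∑ v, θ x w v - ∑ u, (d u w - θ x u w)) * bv (Sum.elim x y w) := by
      refine sum_le_sum fun w _ => ?_
      rcases w with w | w
      · exact le_rfl
      · simp only [Sum.elim_inr]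
        cases e : ty w x
        · exact mul_le_mul_of_nonneg_left (bv_nonneg _) (h3 w e)
        · exact mul_le_mul_of_nonpos_left (bv_le _) (h2 w e)
    beta_reduce
    linarith

end Pool.Agent.Lib.MP_cb9cb0_lc.X
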