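import Mathlib
import Pool.Prelude.Def_H_3587d628

set_option autoImplicit false

namespace Pool.Agent.Lib.MP_cb9cb0_lc

/-- Doubly exponential time: languages decided by a stack machine whose running time on codes of
length `n` is at most `2 ^ 2 ^ (n ^ k + k)` for a constant `k`. -/
def TwoEXP : N68a2faeb.DecisionComplexityClass :=
  {L | ∃ (k : ℕ) (M : Turing.TM2ComputableInTime (N487b59b3.bitEncode : List Bool → List Bool)
    (N487b59b3.bitEncode : Bool → List Bool) L), ∀ n, M.time n ≤ 2 ^ 2 ^ (n ^ k + k)}

end Pool.Agent.Lib.MP_cb9cb0_lc
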