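import Pool.Agent.Lib.MP_cb9cb0_lc.X.Defs

/-!
From polynomial time relations on names to four formulas on names of fixed length.
-/

set_option autoImplicit false

namespace Pool.Agent.Lib.MP_cb9cb0_lc.X

open Finset Function Pool.Agent.Lib.Complexity

theorem Yes.pull {ν ν' : Type} {R : Fin 4 → ν → ν → Prop} {R' : Fin 4 → ν' → ν' → Prop} {ε : Bool}
    (g : ν' → ν) (h : ∀ j a b, R' j a b → R j (g a) (g b)) (hy : Yes R ε) : Yes R' ε := by
  obtain ⟨Ω, i1, i2, N, C, π, h1, h2, h3, h4, h5, h6⟩ := hy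
  exact ⟨Ω, i1, i2, N, fun a => C (g a), π, h1, h2, fun a => h3 _, h4,
    fun j a b r => h5 j _ _ (h _ _ _ r), fun e a b r => h6 e _ _ (h _ _ _ r)⟩

theorem Model.pull {ν ν' : Type} {R : Fin 4 → ν → ν → Prop} {R' : Fin 4 → ν' → ν' → Prop}
    (g : ν' → ν) (h : ∀ j a b, R' j a b → R j (g a) (g b)) (hm : Model R) : Model R' := by
  obtain ⟨S, ⟨ω0, h0⟩, hS⟩ := hm
  refine ⟨(fun ω => g ⁻¹' ω) '' S, ⟨_, ω0, h0, rfl⟩, ?_⟩
  rintro _ ⟨ω, hω, rfl⟩
  obtain ⟨h1, h2, h3⟩ := hS ω hω
  refine ⟨fun a ha b hb r => h1 _ ha _ hb (h _ _ _ r),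
    fun a b c r1 r2 r3 => h2 _ _ _ (h _ _ _ r1) (h _ _ _ r2) (h _ _ _ r3), fun j => ?_⟩
  obtain ⟨⟨ω1, m1, s1⟩, ω2, m2, s2⟩ := h3 j
  exact ⟨⟨_, ⟨ω1, m1, rfl⟩, fun a b r ha => s1 _ _ (h _ _ _ r) ha⟩,
    ⟨_, ⟨ω2, m2, rfl⟩, fun a b r hb => s2 _ _ (h _ _ _ r) hb⟩⟩

namespace Cn

/-- reading a name from a string -/
def dec (l : Str) : Nm := rd (PT.parse l)

theorem pt_dec : PT dec := PT.rd PT.parse'

/-- the code of a name, padded to length `r` -/
def code (r : ℕ) (a : Nm) : Fin r → Bool := fun i => (enc a).bits.getD i false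

theorem dec_code {r : ℕ} {a : Nm} (h : 2 * sz a + 1 ≤ r) : dec (List.ofFn (code r a)) = a := by
  have hl : (enc a).bits.length ≤ r := by rw [T.length_bits]; exact h
  have e : List.ofFn (code r a)
      = (enc a).bits ++ List.replicate (r - (enc a).bits.length) false := by
    apply List.ext_getElem
    · simp; omega
    · intro i h1 h2
      by_cases hi : i < (enc a).bits.length
      · simp [code, List.getElem_append_left hi, List.getD_eq_getElem?_getD,
          List.getElem?_eq_getElem hi]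
      · rw [List.getElem_append_right (not_lt.1 hi)]
        simp [code, List.getD_eq_getElem?_getD, List.getElem?_eq_none (not_lt.1 hi)]
  rw [e, dec, PT.parse, PT.parse_bits]
  simp

theorem bits_iff {r : ℕ} (a b : Fin r → Bool) (v : ℕ → Bool) :
    (∀ i < (List.ofFn a ++ List.ofFn b).length, (List.ofFn a ++ List.ofFn b)[i]? = some (v i)) ↔
      (∀ i : Fin r, v i = a i) ∧ ∀ i : Fin r, v (r + i) = b i := by
  constructor
  · intro h
    refine ⟨fun i => ?_, fun i => ?_⟩
    · have := h i (by simp; omega)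
      rw [List.getElem?_append_left (by simp)] at this
      simpa using this.symm
    · have := h (r + i) (by simp)
      rw [List.getElem?_append_right (by simp)] at this
      simpa using this.symm
  · rintro ⟨h1, h2⟩ i hi
    by_cases hr : i < r
    · rw [List.getElem?_append_left (by simpa using hr), h1 ⟨i, hr⟩]
      simp [hr]
    · have hi' : i - r < r := by simp at hi; omega
      have := h2 ⟨i - r, hi'⟩
      rw [List.getElem?_append_right (by simpa using hr)]
      simp only [show r + (i - r) = i by omega] at this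
      rw [this]
      simp [hi']

/-- the tagged clauses -/
def cls (ψ : ℕ → CNF) : List (ℕ × Clause) :=
  (List.range 4).flatMap fun j => (ψ j).map fun c => (j, c)

theorem mem_cls {ψ : ℕ → CNF} {c : ℕ × Clause} : c ∈ cls ψ ↔ c.1 < 4 ∧ c.2 ∈ ψ c.1 := by
  obtain ⟨j, d⟩ := c
  simp only [cls, List.mem_flatMap, List.mem_range, List.mem_map, Prod.mk.injEq]
  constructor
  · rintro ⟨k, hk, e, he, rfl, rfl⟩
    exact ⟨hk, he⟩
  · rintro ⟨h1, h2⟩
    exact ⟨j, h1, d, h2, rfl, rfl⟩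

def mkI (r : ℕ) (ψ : ℕ → CNF) : Inst :=
  (r, 2 * r + CNF.top ((cls ψ).map Prod.snd), cls ψ)

theorem wf_mk (r : ℕ) (ψ : ℕ → CNF) (h : ∀ j, ∀ c ∈ ψ j, c.length = 3) : WF (mkI r ψ) := by
  refine ⟨Nat.le_add_right _ _, fun c hc => ?_⟩
  have hc' := mem_cls.1 hc
  refine ⟨hc'.1, h _ _ hc'.2, fun l hl => ?_⟩
  have := CNF.lt_top (φ := (cls ψ).map Prod.snd) (List.mem_map.2 ⟨c, hc, rfl⟩) hl
  simp only [mkI]
  omega

theorem ri_mk (r : ℕ) (ψ : ℕ → CNF) (j : Fin 4) (a b : Fin r → Bool) :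
    RI (mkI r ψ) j a b ↔ ∃ v : ℕ → Bool, (∀ i < (List.ofFn a ++ List.ofFn b).length,
      (List.ofFn a ++ List.ofFn b)[i]? = some (v i)) ∧ (ψ j).Sat v := by
  refine exists_congr fun v => ?_
  rw [bits_iff, and_assoc]
  refine and_congr_right fun _ => and_congr_right fun _ => ⟨fun h c hc => ?_, fun h c hc e => ?_⟩
  · exact h (j, c) (mem_cls.2 ⟨j.2, hc⟩) rfl
  · exact h c.2 (e ▸ (mem_cls.1 hc).2)

end Cn

open Cn in
theorem cnfSt : CnfSt := by
  intro ρ b hρ hb
  have hd := pt_dec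
  have hR : PT fun x : (Str × ℕ) × Str => ρ (x.1.1, x.1.2,
      dec (x.2.take (2 * b x.1.1 + 1)), dec (x.2.drop (2 * b x.1.1 + 1))) := by
    fun_prop
  obtain ⟨ψ, hψ, h3, e⟩ := cook_levin_pt3 hR
  have key : ∀ w (j : Fin 4) (a c : Fin (2 * b w + 1) → Bool),
      RI (mkI (2 * b w + 1) fun j => ψ ((w, j), 2 * b w + 1 + (2 * b w + 1))) j a c ↔
        ρ (w, j.val, dec (List.ofFn a), dec (List.ofFn c)) = true := by
    intro w j a c
    have := e (w, j.val) (List.ofFn a ++ List.ofFn c)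
    simp only [List.take_left' (List.length_ofFn (f := a)),
      List.drop_left' (List.length_ofFn (f := a))] at this
    rw [this, ri_mk]
    simp only [List.length_append, List.length_ofFn]
  refine ⟨fun w => mkI (2 * b w + 1) fun j => ψ ((w, j), 2 * b w + 1 + (2 * b w + 1)), ?_,
    fun w => ⟨wf_mk _ _ fun j => h3 _, fun h a => (key w 0 a a).2 (h _), fun h => ?_, fun h => ?_⟩⟩
  · have ht := pt_top
    unfold mkI cls
    fun_prop
  · exact h.pull (fun a => dec (List.ofFn a)) fun j a c r => (key w j a c).1 r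
  · refine h.pull (fun a => code (2 * b w + 1) a.1) fun j a c r => (key w j _ _).2 ?_
    rw [dec_code (by have := a.2; omega), dec_code (by have := c.2; omega)]
    exact r

end Pool.Agent.Lib.MP_cb9cb0_lc.X
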