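import Pool.Agent.Lib.MP_cb9cb0_lc.X.Defs

/-!
From linked formulas to linked colourings with three colours.
-/

set_option autoImplicit false

namespace Pool.Agent.Lib.MP_cb9cb0_lc.X

open Finset Function Pool.Agent.Lib.Complexity

namespace Co

/-- vertices: the frame, literals, corners of clause triangles -/
abbrev V := Option (Lit ⊕ (Ci × ℕ))

instance decLit : DecidableEq Lit := inferInstance
instance decCor : DecidableEq (Ci × ℕ) := inferInstance
instance decV : DecidableEq V := inferInstance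
instance decNm : DecidableEq Nm := inferInstance

def lit (l : Lit) : V := some (Sum.inl l)
def cor (i : Ci) (k : ℕ) : V := some (Sum.inr (i, k))

/-- edges inside a clause triangle -/
def tri (i : Ci) (k : ℕ) : List (V × ℕ) :=
  if k = 0 then [(cor i 1, 0), (cor i 2, 0)] else if k = 1 then [(cor i 2, 0)] else []

/-- edges from a corner to a literal -/
def leg (c : Cl3) (k : ℕ) : List (V × ℕ) :=
  if k = 0 then [(lit c.1, 0)] else if k = 1 then [(lit c.2.1, 0)]
  else if k = 2 then [(lit (c.2.2.1, !c.2.2.2), 2)] else []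

/-- the edges out of a vertex, each with its shift -/
def nb (cl : Ci → Option Cl3) (v : V) : List (V × ℕ) :=
  v.elim [] fun s => Sum.elim (fun l : Lit => [(none, 2), (lit (l.1, !l.2), 0)])
    (fun x : Ci × ℕ => tri x.1 x.2 ++ (cl x.1).elim [] fun c => leg c x.2) s

/-- the vertices linked to a vertex -/
def sh (j : ℕ) (v : V) : List V :=
  v.elim [none] fun s => Sum.elim
    (fun l : Lit => if l.1.1 = 0 ∧ l.2 = true then [lit ((j, l.1.2), true)] else [])
    (fun _ : Ci × ℕ => []) s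

def rho (cl : Ci → Option Cl3) (j : ℕ) (a c : Nm) : Bool :=
  if j = 0 then decide (a = c) else if j = 3 then
    (decide (a.1 = c.1 ∧ a.2 % 3 ≠ c.2 % 3) ||
      (nb cl a.1).any fun p => decide (p.1 = c.1 ∧ a.2 % 3 = (c.2 + p.2) % 3))
  else (decide (a.2 = c.2) && (sh j a.1).any fun v => decide (v = c.1))

theorem pt_rho {cl : Str × Ci → Option Cl3} (h : PT cl) :
    PT fun x : Str × ℕ × Nm × Nm => rho (fun i => cl (x.1, i)) x.2.1 x.2.2.1 x.2.2.2 := by
  have h1 : PT fun x : Str × V => nb (fun i => cl (x.1, i)) x.2 := by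
    unfold nb tri leg lit cor
    fun_prop
  have h2 : PT fun x : ℕ × V => sh x.1 x.2 := by
    unfold sh lit
    fun_prop
  have h3 : PT fun x : Str × ℕ × Nm × Nm => nb (fun i => cl (x.1, i)) x.2.2.1.1 :=
    h1.comp (f := fun x : Str × ℕ × Nm × Nm => (x.1, x.2.2.1.1)) (by fun_prop)
  have h4 : PT fun x : Str × ℕ × Nm × Nm => sh x.2.1 x.2.2.1.1 :=
    h2.comp (f := fun x : Str × ℕ × Nm × Nm => (x.2.1, x.2.2.1.1)) (by fun_prop)
  unfold rho
  exact PT.ite (by fun_prop) (by fun_prop) (PT.ite (by fun_prop)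
    (PT.or (by fun_prop) (PT.any h3 (by fun_prop)))
    (PT.and (by fun_prop) (PT.any h4 (by fun_prop))))

theorem rho_three {cl : Ci → Option Cl3} {a c : Nm} : rho cl 3 a c = true ↔
    (a.1 = c.1 ∧ a.2 % 3 ≠ c.2 % 3) ∨ ∃ d, (c.1, d) ∈ nb cl a.1 ∧ a.2 % 3 = (c.2 + d) % 3 := by
  simp only [rho, show (3 : ℕ) ≠ 0 by decide, if_false, if_true, Bool.or_eq_true,
    decide_eq_true_eq, List.any_eq_true]
  refine or_congr_right ⟨?_, fun ⟨d, h1, h2⟩ => ⟨_, h1, rfl, h2⟩⟩
  rintro ⟨⟨v, d⟩, h1, h2, h3⟩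
  exact ⟨d, h2 ▸ h1, h3⟩

theorem rho_link {cl : Ci → Option Cl3} (j : Fin 2) {a c : Nm} : rho cl (j.val + 1) a c = true ↔
    a.2 = c.2 ∧ c.1 ∈ sh (j.val + 1) a.1 := by
  have h3 : j.val + 1 ≠ 3 := by omega
  simp [rho, h3]

/-! ### from assignments to colourings -/

/-- colours of the corners -/
def cc (t0 t1 : Bool) (k : ℕ) : ℕ :=
  if t0 then (if k = 0 then 0 else if k = 1 then 2 else 1)
  else if t1 then (if k = 0 then 2 else if k = 1 then 0 else 1)
  else (if k = 0 then 1 else if k = 1 then 2 else 0)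

def col (cl : Ci → Option Cl3) (α : Xv → Bool) : V → ℕ
  | none => 0
  | some (Sum.inl l) => if α l.1 = l.2 then 1 else 0
  | some (Sum.inr x) => (cl x.1).elim (cc true true x.2) fun c =>
      cc (decide (α c.1.1 = c.1.2)) (decide (α c.2.1.1 = c.2.1.2)) x.2

theorem col_cor (cl : Ci → Option Cl3) (α : Xv → Bool) (i : Ci) :
    ∃ t0 t1, ∀ k, col cl α (cor i k) = cc t0 t1 k := by
  cases h : cl i with
  | none => exact ⟨true, true, fun k => by simp [col, cor, h]⟩
  | some c => exact ⟨_, _, fun k => by simp only [col, cor, h, Option.elim]; rfl⟩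

theorem proper {cl : Ci → Option Cl3} {α : Xv → Bool} (h : ∀ i c, cl i = some c → c.Sat α)
    {v v' : V} {d : ℕ} (hm : (v', d) ∈ nb cl v) : col cl α v % 3 ≠ (col cl α v' + d) % 3 := by
  rcases v with _ | l | ⟨i, k⟩
  · simp [nb] at hm
  · simp only [nb, Option.elim, Sum.elim_inl, List.mem_cons, Prod.mk.injEq, List.not_mem_nil,
      or_false] at hm
    rcases hm with ⟨rfl, rfl⟩ | ⟨rfl, rfl⟩
    · simp only [col]
      split_ifs <;> decide
    · simp only [col, lit]
      cases α l.1 <;> cases l.2 <;> simp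
  · simp only [nb, Option.elim, Sum.elim_inr, List.mem_append] at hm
    rcases hm with hm | hm
    · obtain ⟨t0, t1, e⟩ := col_cor cl α i
      have e' := e k
      rw [cor] at e'
      unfold tri at hm
      split_ifs at hm with h0 h1
      · subst h0
        simp only [List.mem_cons, Prod.mk.injEq, List.not_mem_nil, or_false] at hm
        rcases hm with ⟨rfl, rfl⟩ | ⟨rfl, rfl⟩ <;> rw [e', e] <;> cases t0 <;> cases t1 <;> decide
      · subst h1
        simp only [List.mem_cons, Prod.mk.injEq, List.not_mem_nil, or_false] at hm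
        obtain ⟨rfl, rfl⟩ := hm
        rw [e', e]
        cases t0 <;> cases t1 <;> decide
      · simp at hm
    · cases hc : cl i with
      | none => simp [hc] at hm
      | some c =>
        have hs := h i c hc
        obtain ⟨⟨x0, b0⟩, ⟨x1, b1⟩, x2, b2⟩ := c
        simp only [hc, leg] at hm
        simp only [Cl3.Sat] at hs
        split_ifs at hm with h0 h1 h2
        all_goals simp only [List.mem_cons, Prod.mk.injEq, List.not_mem_nil, or_false] at hm
        all_goals obtain ⟨rfl, rfl⟩ := hm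
        all_goals subst_vars
        all_goals simp only [col, lit, hc, Option.elim]
        all_goals revert hs
        all_goals cases α x0 <;> cases b0 <;> cases α x1 <;> cases b1 <;> cases α x2 <;> cases b2
        all_goals simp [cc]

theorem card_shift (a c : ℕ) : (univ.filter fun s : Fin 3 => (a + s) % 3 = c % 3).card = 1 := by
  have key : ∀ x y : Fin 3, (univ.filter fun s : Fin 3 => (x.val + s) % 3 = y.val).card = 1 := by
    decide
  have := key ⟨a % 3, Nat.mod_lt _ (by decide)⟩ ⟨c % 3, Nat.mod_lt _ (by decide)⟩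
  simpa only [Nat.mod_add_mod] using this

theorem yes_of {cl : Ci → Option Cl3} (h : YesC cl) :
    Yes (fun j a c => rho cl j.val a c = true) false := by
  classical
  obtain ⟨Ω, _, α, π, hne, hs, hl⟩ := h
  refine ⟨Ω × Fin 3, inferInstance, inferInstance, Fintype.card Ω,
    fun a => univ.filter fun x => (col cl (α x.1) a.1 + x.2) % 3 = a.2 % 3,
    Fin.cons 1 fun j => (π j).prodCongr (Equiv.refl _), Fintype.card_pos, by simp [mul_comm],
    fun a => ?_, rfl, fun j a c r x => ?_, fun _ a c r => ?_⟩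
  · rw [card_filter, Fintype.sum_prod_type]
    simp only [← card_filter, card_shift]
    simp
  · revert r
    refine Fin.cases ?_ (fun j => ?_) j
    · intro r
      have : a = c := by simpa [rho] using r
      simp [this]
    · intro r
      obtain ⟨e1, e2⟩ := (rho_link j).1 r
      obtain ⟨v, s⟩ := a
      obtain ⟨v', s'⟩ := c
      simp only at e1 e2
      subst e1
      have : col cl (α x.1) v = col cl (α (π j x.1)) v' := by
        rcases v with _ | ⟨⟨b, k, u⟩, t⟩ | y
        · obtain rfl : v' = none := by simpa [sh] using e2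
          rfl
        · simp only [sh, Option.elim, Sum.elim_inl] at e2
          split_ifs at e2 with h0
          · obtain ⟨rfl, rfl⟩ := h0
            obtain rfl : v' = lit ((j.val + 1, k, u), true) := by simpa using e2
            simp only [col, lit, hl j x.1 k u]
          · simp at e2
        · simp [sh] at e2
      simp [this]
  · rw [disjoint_left]
    intro x h1 h2
    simp only [mem_filter, mem_univ, true_and] at h1 h2
    rcases rho_three.1 r with ⟨e1, e2⟩ | ⟨d, e1, e2⟩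
    · rw [e1] at h1
      omega
    · have := proper (hs x.1) e1
      omega

/-! ### from colourings to assignments -/

/-- `P v c`: the vertex `v` has colour `c` -/
structure World (cl : Ci → Option Cl3) (B : ℕ) (P : V → ℕ → Prop) : Prop where
  ind : ∀ v c v' c', P v c → P v' c' → ¬ rho cl 3 (v, c) (v', c') = true
  tot : ∀ v : V, sz v ≤ B → ∃ c < 3, P v c

open Classical in
noncomputable def asg (P : V → ℕ → Prop) (x : Xv) : Bool :=
  decide (∃ c < 3, P none c ∧ P (lit (x, true)) ((c + 1) % 3))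

namespace World
variable {cl : Ci → Option Cl3} {B : ℕ} {P : V → ℕ → Prop}

theorem uq (h : World cl B P) {v : V} {c c' : ℕ} (h1 : P v c) (h2 : P v c') : c % 3 = c' % 3 := by
  by_contra e
  exact h.ind _ _ _ _ h1 h2 (rho_three.2 (Or.inl ⟨rfl, e⟩))

theorem edge (h : World cl B P) {v v' : V} {c c' d : ℕ} (h1 : P v c) (h2 : P v' c')
    (hm : (v', d) ∈ nb cl v) : c % 3 ≠ (c' + d) % 3 :=
  fun e => h.ind _ _ _ _ h1 h2 (rho_three.2 (Or.inr ⟨d, hm, e⟩))

theorem asg_iff (h : World cl B P) {x : Xv} {f c : ℕ} (hf : f < 3) (hc : c < 3) (h1 : P none f)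
    (h2 : P (lit (x, true)) c) : asg P x = true ↔ c = (f + 1) % 3 := by
  simp only [asg, decide_eq_true_eq]
  constructor
  · rintro ⟨g, hg, e1, e2⟩
    have := h.uq h1 e1
    have := h.uq h2 e2
    omega
  · rintro rfl
    exact ⟨f, hf, h1, h2⟩

theorem lit_col (h : World cl B P) {x : Xv} (hx : sz x + 4 ≤ B) {f : ℕ} (hf : f < 3)
    (h1 : P none f) (b : Bool) :
    P (lit (x, b)) (if asg P x = b then (f + 1) % 3 else f) := by
  obtain ⟨c, hc, p1⟩ := h.tot (lit (x, true)) (by simp [lit]; omega)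
  obtain ⟨c', hc', p2⟩ := h.tot (lit (x, false)) (by simp [lit]; omega)
  have e1 := h.edge p1 h1 (d := 2) (by simp [nb, lit])
  have e2 := h.edge p2 h1 (d := 2) (by simp [nb, lit])
  have e3 := h.edge p1 p2 (d := 0) (by simp [nb, lit])
  have e4 := h.asg_iff hf hc h1 p1
  cases b
  · by_cases e : asg P x = true
    · have := e4.1 e
      rw [if_neg (by simp [e]), show f = c' by omega]
      exact p2
    · have : ¬ c = (f + 1) % 3 := fun e' => e (e4.2 e')
      rw [if_pos (by simpa using e), show (f + 1) % 3 = c' by omega]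
      exact p2
  · by_cases e : asg P x = true
    · rw [if_pos e, ← e4.1 e]
      exact p1
    · have : ¬ c = (f + 1) % 3 := fun e' => e (e4.2 e')
      rw [if_neg e, show f = c by omega]
      exact p1

theorem sat (h : World cl B P) {i : Ci} {c : Cl3} (hi : sz i + 6 ≤ B) (hc : sz c + 4 ≤ B)
    (e : cl i = some c) : c.Sat (asg P) := by
  obtain ⟨⟨x0, b0⟩, ⟨x1, b1⟩, x2, b2⟩ := c
  simp only [sz_pair] at hc
  by_contra hs
  simp only [Cl3.Sat, not_or] at hs
  obtain ⟨f, hf, p⟩ := h.tot none (by simp)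
  have l0 := h.lit_col (x := x0) (by omega) hf p b0
  have l1 := h.lit_col (x := x1) (by omega) hf p b1
  have l2 := h.lit_col (x := x2) (by omega) hf p (!b2)
  rw [if_neg hs.1] at l0
  rw [if_neg hs.2.1] at l1
  rw [if_pos (by simpa [Bool.eq_not] using hs.2.2)] at l2
  obtain ⟨c0, h0, p0⟩ := h.tot (cor i 0) (by simp [cor]; omega)
  obtain ⟨c1, h1, p1⟩ := h.tot (cor i 1) (by simp [cor]; omega)
  obtain ⟨c2, h2, p2⟩ := h.tot (cor i 2) (by simp [cor]; omega)
  have e0 := h.edge p0 l0 (d := 0) (by simp [nb, cor, e, leg])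
  have e1 := h.edge p1 l1 (d := 0) (by simp [nb, cor, e, leg])
  have e2 := h.edge p2 l2 (d := 2) (by simp [nb, cor, e, leg])
  have e01 := h.edge p0 p1 (d := 0) (by simp [nb, cor, tri])
  have e02 := h.edge p0 p2 (d := 0) (by simp [nb, cor, tri])
  have e12 := h.edge p1 p2 (d := 0) (by simp [nb, cor, tri])
  omega

/-- two worlds with the same colours of the frame and of two literals -/
theorem asg_eq {P' : V → ℕ → Prop} (h : World cl B P) (h' : World cl B P') {x x' : Xv}
    (hx : sz x + 4 ≤ B) (h0 : ∀ c < 3, P none c → P' none c)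
    (h1 : ∀ c < 3, P (lit (x, true)) c → P' (lit (x', true)) c) : asg P' x' = asg P x := by
  obtain ⟨f, hf, p⟩ := h.tot none (by simp)
  obtain ⟨c, hc, q⟩ := h.tot (lit (x, true)) (by simp [lit]; omega)
  rw [Bool.eq_iff_iff, h.asg_iff hf hc p q, h'.asg_iff hf hc (h0 f hf p) (h1 c hc q)]

end World

theorem model_of {cl : Ci → Option Cl3} {b : ℕ}
    (h : Model fun j (a c : {a : Nm // sz a ≤ b + 20}) => rho cl j.val a.1 c.1 = true) :
    ModelC b cl := by
  obtain ⟨S, ⟨ω0, h0⟩, hS⟩ := h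
  let Q : Set {a : Nm // sz a ≤ b + 20} → V → ℕ → Prop := fun ω v c => ∃ h, ⟨(v, c), h⟩ ∈ ω
  have hW : ∀ ω ∈ S, World cl (b + 17) (Q ω) := by
    intro ω hω
    obtain ⟨h1, h2, _⟩ := hS ω hω
    refine ⟨fun v c v' c' ⟨_, p⟩ ⟨_, q⟩ => h1 _ p _ q, fun v hv => ?_⟩
    have hb : ∀ c < 3, sz ((v, c) : Nm) ≤ b + 20 := fun c hc => by
      simp only [sz_pair, sz_nat]; omega
    rcases h2 ⟨(v, 0), hb 0 (by decide)⟩ ⟨(v, 1), hb 1 (by decide)⟩ ⟨(v, 2), hb 2 (by decide)⟩
      (rho_three.2 (Or.inl ⟨rfl, by simp⟩)) (rho_three.2 (Or.inl ⟨rfl, by simp⟩))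
      (rho_three.2 (Or.inl ⟨rfl, by simp⟩)) with p | p | p
    exacts [⟨0, by decide, _, p⟩, ⟨1, by decide, _, p⟩, ⟨2, by decide, _, p⟩]
  refine ⟨(fun ω => asg (Q ω)) '' S, ⟨_, ω0, h0, rfl⟩, ?_⟩
  rintro _ ⟨ω, hω, rfl⟩
  refine ⟨fun i c hi hc e => (hW ω hω).sat (by omega) (by omega) e, fun j => ?_⟩
  have hj := j.2
  obtain ⟨⟨ω1, m1, s1⟩, ω2, m2, s2⟩ := (hS ω hω).2.2 j.succ
  have hb : ∀ (t : ℕ) (k : ℤ) (u c : ℕ), t ≤ 2 → sz (k, u) ≤ b → c < 3 →
      sz ((lit ((t, k, u), true), c) : Nm) ≤ b + 20 := fun t k u c ht hk hc => by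
    simp only [lit, sz_pair, sz_nat, sz_some, sz_inl, sz_true] at hk ⊢; omega
  have hx : ∀ (t : ℕ) (k : ℤ) (u : ℕ), t ≤ 2 → sz (k, u) ≤ b →
      sz ((t, k, u) : Xv) + 4 ≤ b + 17 := fun t k u ht hk => by
    simp only [sz_pair, sz_nat] at hk ⊢; omega
  refine ⟨⟨_, ⟨ω1, m1, rfl⟩, fun k u hk => ?_⟩, ⟨_, ⟨ω2, m2, rfl⟩, fun k u hk => ?_⟩⟩
  · refine (hW ω hω).asg_eq (hW ω1 m1) (hx 0 k u (by decide) hk) ?_ ?_
    · rintro c _ ⟨h, p⟩
      exact ⟨h, s1 _ _ ((rho_link j).2 ⟨rfl, by simp [sh]⟩) p⟩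
    · rintro c hc ⟨h, p⟩
      exact ⟨hb _ k u c (by omega) hk hc,
        s1 ⟨_, h⟩ _ ((rho_link j).2 ⟨rfl, by simp [sh, lit]⟩) p⟩
  · refine (hW ω hω).asg_eq (hW ω2 m2) (hx _ k u (by omega) hk) ?_ ?_
    · rintro c _ ⟨h, p⟩
      exact ⟨h, s2 _ _ ((rho_link j).2 ⟨rfl, by simp [sh]⟩) p⟩
    · rintro c hc ⟨h, p⟩
      exact ⟨hb _ k u c (by omega) hk hc,
        s2 _ ⟨_, h⟩ ((rho_link j).2 ⟨rfl, by simp [sh, lit]⟩) p⟩

end Co

theorem colSt : ColSt := fun cl b hcl hb =>
  ⟨fun x => Co.rho (fun i => cl (x.1, i)) x.2.1 x.2.2.1 x.2.2.2, fun w => b w + 20, Co.pt_rho hcl,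
    hb.add (PT.const 20), fun w => ⟨fun a => by simp [Co.rho], Co.yes_of,
      Co.model_of (cl := fun i => cl (w, i)) (b := b w)⟩⟩

end Pool.Agent.Lib.MP_cb9cb0_lc.X
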