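import Pool.Agent.Lib.MP_cb9cb0_lc.X.Basic

/-!
Monotone functions of unary parts can be pinned.
-/

set_option autoImplicit false

namespace Pool.Agent.Lib.MP_cb9cb0_lc.X

open Finset Function

section
variable {Z : Type} [DecidableEq Z]

lemma dpq_left {p q : Z} {D : (Z → Bool) → ℚ} {z : Z → Bool}
    (h : ∀ a b, D (upd p q z a b) = D (upd p q z false b)) : dpq p q D z = 0 := by
  rw [dpq, h true true, h true false]; ring

lemma dpq_right {p q : Z} {D : (Z → Bool) → ℚ} {z : Z → Bool}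
    (h : ∀ a b, D (upd p q z a b) = D (upd p q z a false)) : dpq p q D z = 0 := by
  rw [dpq, h true true, h false true]; ring

lemma dpq_blind {p q : Z} (hpq : p ≠ q) {D : (Z → Bool) → ℚ}
    (h : (∀ z a, D (update z p a) = D z) ∨ ∀ z a, D (update z q a) = D z) (z : Z → Bool) :
    dpq p q D z = 0 := by
  rcases h with h | h
  · exact dpq_left fun a b => by rw [upd, upd, update_comm hpq, update_comm hpq, h, h]
  · exact dpq_right fun a b => by rw [upd, upd, h, h]

lemma dpq_add (p q : Z) (D D' : (Z → Bool) → ℚ) (z : Z → Bool) :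
    dpq p q (fun z => D z + D' z) z = dpq p q D z + dpq p q D' z := by
  simp only [dpq]; ring

lemma dpq_mul (p q : Z) (k : ℚ) (D : (Z → Bool) → ℚ) (z : Z → Bool) :
    dpq p q (fun z => k * D z) z = k * dpq p q D z := by
  simp only [dpq]; ring

lemma dpq_sum {ι : Type} (s : Finset ι) (p q : Z) (D : ι → (Z → Bool) → ℚ) (z : Z → Bool) :
    dpq p q (fun z => ∑ i ∈ s, D i z) z = ∑ i ∈ s, dpq p q (D i) z := by
  simp only [dpq, sum_add_distrib, sum_sub_distrib]

/-- pin of a monotone function which ignores one variable -/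
lemma pin_blind [Fintype Z] (r : Z) (χ : (Z → Bool) → Bool) (hm : Monotone χ)
    (h : ∀ z a, χ (update z r a) = χ z) :
    ∃ D : (Z → Bool) → ℚ, (∀ z, |D z| ≤ 2 ^ Fintype.card Z + 1) ∧
      (∀ z a, D (update z r a) = D z) ∧
      Ex (fun x : Unit ⊕ Z → Bool =>
        - (bv (x (Sum.inl ())) * bv (χ (x ∘ Sum.inr))) + D (x ∘ Sum.inr)) := by
  obtain ⟨D, d1, d2, d3⟩ := pin0 (univ.erase r) χ hm fun z z' e => by
    have : z' = update z r (z' r) := by
      funext v
      by_cases hv : v = r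
      · subst hv; simp
      · rw [update_of_ne hv, e v (by simp [hv])]
    rw [this, h]
  refine ⟨D, fun z => (d1 z).trans ?_, fun z a => d2 _ _ fun v hv => ?_, d3⟩
  · have : (2 : ℚ) ^ (univ.erase r).card ≤ 2 ^ Fintype.card Z :=
      pow_le_pow_right₀ (by norm_num) (card_le_univ _)
    linarith
  · exact update_of_ne (ne_of_mem_erase hv) _ _

end

theorem compSt : CompSt := by
  intro Z ι _ _ _ p q Γ χ φ E hpq hE hZ hι hm hb hΓ hφ
  classical
  let G : (ι → Bool) → Bool := fun c => decide (∃ z, (∀ i, χ i z ≤ c i) ∧ φ z = true)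
  have Gm : Monotone G := fun c c' h => by
    refine Bool.le_iff_imp.2 fun k => ?_
    obtain ⟨z, h1, h2⟩ := of_decide_eq_true k
    exact decide_eq_true ⟨z, fun i => (h1 i).trans (h i), h2⟩
  have Ge : ∀ z, G (fun i => χ i z) = φ z := fun z => by
    rw [Bool.eq_iff_iff]
    constructor
    · intro k
      obtain ⟨z', h1, h2⟩ := of_decide_eq_true k
      exact Bool.le_iff_imp.1 (hφ z' z h1) h2
    · exact fun k => decide_eq_true ⟨z, fun _ => le_rfl, k⟩
  obtain ⟨DG, g1, -, g3⟩ := pin0 univ G Gm fun c c' e => by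
    rw [show c = c' from funext fun v => e v (mem_univ _)]
  rw [card_univ] at g1
  have key : ∀ i, ∃ D : (Z → Bool) → ℚ, (∀ z, |D z| ≤ 2 ^ Fintype.card Z + 1) ∧
      ((∀ z a, D (update z p a) = D z ∧ χ i (update z p a) = χ i z) ∨
        ∀ z a, D (update z q a) = D z ∧ χ i (update z q a) = χ i z) ∧
      Ex (fun x : Unit ⊕ Z → Bool =>
        - (bv (x (Sum.inl ())) * bv (χ i (x ∘ Sum.inr))) + D (x ∘ Sum.inr)) := fun i => by
    rcases hb i with h | h
    · obtain ⟨D, d1, d2, d3⟩ := pin_blind p (χ i) (hm i) h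
      exact ⟨D, d1, Or.inl fun z a => ⟨d2 z a, h z a⟩, d3⟩
    · obtain ⟨D, d1, d2, d3⟩ := pin_blind q (χ i) (hm i) h
      exact ⟨D, d1, Or.inr fun z a => ⟨d2 z a, h z a⟩, d3⟩
  choose D d1 d2 d3 using key
  have h1 := (g3.rename (Sum.elim (fun u => Sum.inr (Sum.inl u)) Sum.inl :
      Unit ⊕ ι → ι ⊕ (Unit ⊕ Z))).subst (K := 2 * E + 4) (fun y y' x => by
        have a1 := abs_le.1 (g1 y)
        have a2 := abs_le.1 (g1 y')
        have k : ∀ a b c : Bool, - (bv a * bv b) ≤ 1 - bv a * bv c := fun a b c => by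
          cases a <;> cases b <;> cases c <;> simp
        have a3 := k (x (Sum.inl ())) (G y) (G y')
        change - (bv (x (Sum.inl ())) * bv (G y)) + DG y
          - (- (bv (x (Sum.inl ())) * bv (G y')) + DG y') ≤ _
        have a4 := mul_nonneg (bv_nonneg (x (Sum.inl ()))) (bv_nonneg (G y))
        have a5 := mul_le_one₀ (bv_le (x (Sum.inl ()))) (bv_nonneg (G y')) (bv_le (G y'))
        linarith [a1.1, a1.2, a2.1, a2.2])
      (fun i x => χ i (x ∘ Sum.inr)) (fun i x => D i (x ∘ Sum.inr))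
      (fun i => (d3 i).rename (Sum.map id Sum.inr : Unit ⊕ Z → Unit ⊕ (Unit ⊕ Z)))
  refine ⟨fun z => DG (fun i => χ i z) + (2 * E + 4) * ∑ i, (2 * D i z - bv (χ i z)),
    fun z => ?_, fun z hz => ?_, h1.of_eq fun x => ?_⟩
  · have a1 : |∑ i, (2 * D i z - bv (χ i z))| ≤ E * (2 * E + 3) := by
      refine (abs_sum_le_sum_abs _ _).trans ((sum_le_card_nsmul _ _ (2 * E + 3) fun i _ => ?_).trans
        ?_)
      · have b1 := abs_le.1 (d1 i z)
        have b2 := bv_nonneg (χ i z)
        have b3 := bv_le (χ i z)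
        rw [abs_le]
        constructor <;> linarith [b1.1, b1.2]
      · have b1 : (Fintype.card ι : ℚ) ≤ 2 ^ Fintype.card ι := by
          exact_mod_cast (Nat.lt_two_pow_self (n := Fintype.card ι)).le
        rw [card_univ, nsmul_eq_mul]
        exact mul_le_mul_of_nonneg_right (b1.trans hι) (by linarith)
    have a2 := g1 fun i => χ i z
    refine (abs_add_le _ _).trans ?_
    rw [abs_mul, abs_of_nonneg (by linarith : 0 ≤ 2 * E + 4)]
    have a3 := mul_le_mul_of_nonneg_left a1 (by linarith : 0 ≤ 2 * E + 4)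
    have a4 : 100 * E ^ 3 ≤ E ^ 4 := by
      have : 0 ≤ E ^ 3 := by positivity
      nlinarith
    have a5 : 100 * E ^ 2 ≤ E ^ 3 := by nlinarith [sq_nonneg E]
    have a6 : 100 * E ≤ E ^ 2 := by nlinarith
    nlinarith
  · rw [dpq_add, dpq_mul, dpq_sum, sum_eq_zero fun i _ => dpq_blind hpq
      (D := fun z => 2 * D i z - bv (χ i z)) ((d2 i).imp
        (fun h z a => by rw [(h z a).1, (h z a).2])
        (fun h z a => by rw [(h z a).1, (h z a).2])) z, mul_zero, add_zero]
    rcases hΓ z hz with h | h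
    · exact dpq_left fun a b => congrArg DG (funext fun i => h i a b)
    · exact dpq_right fun a b => congrArg DG (funext fun i => h i a b)
  · change - (bv (x (Sum.inl ())) * bv (G fun i => χ i (x ∘ Sum.inr)))
      + DG (fun i => χ i (x ∘ Sum.inr)) + _ = _
    rw [Ge, add_assoc]

end Pool.Agent.Lib.MP_cb9cb0_lc.X
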