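import Pool.Agent.Lib.MP_cb9cb0_lc.X.Gate

/-!
Completeness of the concrete system from the parts.
-/

set_option autoImplicit false

namespace Pool.Agent.Lib.MP_cb9cb0_lc.X

open Finset Function

namespace Cpl

section cs
variable {α : Type}

lemma penc_nonneg (c : ℕ × List α) (z : α → Bool) : 0 ≤ penc c z := by
  unfold penc
  rcases le_or_gt (sig c z) 1 with h | h
  · exact mul_nonneg_of_nonpos_of_nonpos (by omega) (by omega)
  · exact mul_nonneg (by omega) (by omega)

lemma pen_nonneg (l : Cs α) (z : α → Bool) : 0 ≤ pen l z :=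
  List.sum_nonneg fun t ht => by
    obtain ⟨c, -, rfl⟩ := List.mem_map.1 ht
    exact penc_nonneg c z

lemma penc_le_pen {l : Cs α} {c : ℕ × List α} (h : c ∈ l) (z : α → Bool) : penc c z ≤ pen l z :=
  List.single_le_sum (fun t ht => by
    obtain ⟨c, -, rfl⟩ := List.mem_map.1 ht
    exact penc_nonneg c z) _ (List.mem_map_of_mem h)

lemma lamc_zero {c : ℕ × List α} {z : α → Bool} (h : lamc c z = 0) :
    sig c z = 1 ∨ sig c z = 2 := by
  unfold lamc at h
  rcases mul_eq_zero.1 h with h | h
  · rcases mul_eq_zero.1 h with h | h <;> omega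
  · omega

lemma one_le_penc {c : ℕ × List α} {z : α → Bool} (h : ¬ (sig c z = 1 ∨ sig c z = 2)) :
    1 ≤ penc c z := by
  have h0 := penc_nonneg c z
  have h1 : penc c z ≠ 0 := mul_ne_zero (by omega) (by omega)
  omega

lemma penc_congr {c : ℕ × List α} {z z' : α → Bool} (h : lamc c z = lamc c z') :
    penc c z = penc c z' := by
  unfold lamc at h
  unfold penc
  generalize sig c z = s at *
  generalize sig c z' = t at *
  by_cases e : s = t
  · rw [e]
  · have h1 : (s - t) * (3 * (s + t - 3) ^ 2 + (s - t) ^ 2 - 1) = 0 := by linear_combination 2 * h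
    have h2 := (mul_eq_zero.1 h1).resolve_left (sub_ne_zero.2 e)
    have h3 : s + t - 3 = 0 := by
      by_contra h3
      have : 0 < (s + t - 3) ^ 2 := by positivity
      have := sq_nonneg (s - t)
      omega
    linear_combination (s - t) * h3

lemma sig_bound (c : ℕ × List α) (z : α → Bool) : 0 ≤ sig c z ∧ sig c z ≤ c.1 + c.2.length := by
  have : ∀ l : List α, 0 ≤ (l.map fun v => ((z v).toNat : ℤ)).sum ∧
      (l.map fun v => ((z v).toNat : ℤ)).sum ≤ l.length := fun l => by
    induction l with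
    | nil => simp
    | cons a l ih =>
      simp only [List.map_cons, List.sum_cons, List.length_cons]
      cases z a <;> simp <;> omega
  have := this c.2
  unfold sig
  omega

lemma c_bound (c : ℕ × List α) (z : α → Bool) :
    penc c z ≤ ((6 * (c.1 + c.2.length + 1) ^ 3 : ℕ) : ℤ) ∧
      |lamc c z| ≤ ((6 * (c.1 + c.2.length + 1) ^ 3 : ℕ) : ℤ) := by
  obtain ⟨h0, h1⟩ := sig_bound c z
  unfold penc lamc
  push_cast
  have n0 : (0 : ℤ) ≤ c.1 + c.2.length := by positivity
  generalize (c.1 : ℤ) + c.2.length = n at *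
  generalize sig c z = s at *
  have a1 : |s - 1| ≤ n + 1 := abs_le.2 ⟨by omega, by omega⟩
  have a2 : |s - 2| ≤ 2 * (n + 1) := abs_le.2 ⟨by omega, by omega⟩
  have a3 : |2 * s - 3| ≤ 3 * (n + 1) := abs_le.2 ⟨by omega, by omega⟩
  have a4 : |(s - 1) * (s - 2)| ≤ (n + 1) * (2 * (n + 1)) := by
    rw [abs_mul]
    exact mul_le_mul a1 a2 (abs_nonneg _) (by omega)
  constructor
  · refine (le_abs_self _).trans (a4.trans ?_)
    have : 0 ≤ (n + 1) ^ 2 * (6 * n + 4) := by positivity
    linarith
  · rw [abs_mul]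
    refine (mul_le_mul a4 a3 (abs_nonneg _) (by positivity)).trans (le_of_eq ?_)
    ring

lemma cs_bound (l : Cs α) (z : α → Bool) :
    pen l z ≤ ((l.map fun c => 6 * (c.1 + c.2.length + 1) ^ 3).sum : ℕ) ∧
      |lam l z| ≤ ((l.map fun c => 6 * (c.1 + c.2.length + 1) ^ 3).sum : ℕ) := by
  induction l with
  | nil => simp [pen, lam]
  | cons c l ih =>
    obtain ⟨h1, h2⟩ := c_bound c z
    simp only [pen, lam, List.map_cons, List.sum_cons, Nat.cast_add] at ih ⊢
    exact ⟨add_le_add h1 ih.1, (abs_add_le _ _).trans (add_le_add h2 ih.2)⟩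

lemma pen_congr {l : Cs α} {z z' : α → Bool} (h : ∀ c ∈ l, ∀ v ∈ c.2, z v = z' v) :
    pen l z = pen l z' := by
  unfold pen
  congr 1
  refine List.map_congr_left fun c hc => ?_
  have : sig c z = sig c z' := by
    unfold sig
    congr 2
    exact List.map_congr_left fun v hv => by rw [h c hc v hv]
  unfold penc
  rw [this]

lemma lam_fin (l : Cs α) (z : α → Bool) : ∑ c : Fin l.length, lamc (l.get c) z = lam l z :=
  Fin.sum_univ_fun_getElem l fun c => lamc c z

lemma all_fin {β : Type} {l : List β} {Q : β → Prop} (h : ∀ c : Fin l.length, Q (l.get c)) :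
    ∀ c ∈ l, Q c := fun c hc => by
  obtain ⟨i, hi, rfl⟩ := List.getElem_of_mem hc
  exact h ⟨i, hi⟩

end cs

lemma ctl_mem (I : Inst) {k : ℕ} (h : k < 29) : ctl k ∈ vars I := by
  simp only [vars, vars0, ctl, List.mem_cons, List.mem_append, List.mem_map, List.mem_range'_1,
    Sum.inl.injEq]
  rcases Nat.lt_or_ge k 2 with h' | h'
  · omega
  · exact Or.inr (Or.inr (Or.inl ⟨k, ⟨h', by omega⟩, rfl⟩))

lemma emb_val (I : Inst) (v : ZI I) : emb I v.1 = v := by
  unfold emb
  rw [dif_pos v.2]

lemma bitZ_val (I : Inst) (k : Fin 9) : (bitZ I k).1 = ctl k.val := by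
  unfold bitZ emb
  rw [dif_pos (ctl_mem I (by omega))]

lemma bitZ_inj (I : Inst) : Injective (bitZ I) := fun a b h => by
  have := congrArg Subtype.val h
  rw [bitZ_val, bitZ_val] at this
  exact Fin.ext (Sum.inl.inj this)

lemma emb_eq_bit {I : Inst} {w : W} {k : Fin 9} (h : emb I w = bitZ I k) : w = ctl k.val := by
  have := congrArg Subtype.val h
  rw [bitZ_val] at this
  unfold emb at this
  split_ifs at this with h'
  · exact this
  · have := Sum.inl.inj this
    omega

lemma cs0_free (I : Inst) : ∀ c ∈ cs0 I, ∀ w ∈ c.2, w ≠ ctl 0 ∧ w ≠ ctl 1 := by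
  intro c hc w hw
  simp only [cs0, List.mem_append, List.mem_map, List.mem_flatMap] at hc
  rcases hc with ⟨d, hd, rfl⟩ | ⟨v, -, hv⟩ | ⟨d, -, hd⟩
  · obtain ⟨k, hk, rfl⟩ := List.mem_map.1 hw
    have : ∀ d ∈ ctl0, ∀ k ∈ d.2, 2 ≤ k := by decide
    have := this d hd k hk
    simp only [ctl, ne_eq, Sum.inl.injEq]
    omega
  · unfold busC at hv
    split_ifs at hv <;> simp only [List.mem_cons, List.not_mem_nil, or_false] at hv
    · rcases hv with rfl | rfl <;> simp only [List.mem_cons, List.not_mem_nil, or_false] at hw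
      · rcases hw with rfl | rfl <;> simp [ctl, xb]
      · rcases hw with rfl | rfl | rfl | rfl <;> simp [ctl, xb]
    · rcases hv with rfl | rfl <;> simp only [List.mem_cons, List.not_mem_nil, or_false] at hw
      · rcases hw with rfl | rfl <;> simp [ctl, xb]
      · rcases hw with rfl | rfl | rfl | rfl <;> simp [ctl, xb]
    · subst hv
      simp only [List.mem_cons, List.not_mem_nil, or_false] at hw
      rcases hw with rfl | rfl <;> simp [ctl, xb]
  · simp only [clC, List.mem_cons, List.mem_map] at hd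
    rcases hd with rfl | ⟨k, -, rfl⟩ <;>
      simp only [List.mem_cons, List.not_mem_nil, or_false] at hw
    · rcases hw with rfl | rfl | rfl | rfl
      · simp only [ctl, guard, ne_eq, Sum.inl.injEq]
        split_ifs
        · omega
        · simp
      all_goals simp [ctl, rl]
    · rcases hw with rfl | rfl <;> simp [ctl, rl, xb]

lemma vars_nodup (I : Inst) : (vars I).Nodup := by
  have h1 : ((List.range' 2 27).map ctl).Nodup :=
    (List.nodup_range' ..).map fun a b h => Sum.inl.inj h
  have h2 : ((List.range I.2.1).flatMap fun v => [xb v true, xb v false]).Nodup := by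
    refine List.nodup_flatMap.2 ⟨fun v _ => by simp [xb], List.nodup_range.imp fun h => ?_⟩
    simp [onFun, xb, h.symm]
  have h3 : ((List.range I.2.2.length).flatMap fun i => [rl i 0, rl i 1, rl i 2]).Nodup := by
    refine List.nodup_flatMap.2 ⟨fun v _ => by simp [rl], List.nodup_range.imp fun h => ?_⟩
    simp [onFun, rl, h.symm]
  unfold vars vars0
  refine List.nodup_cons.2 ⟨by simp [ctl, xb, rl], List.nodup_cons.2 ⟨by simp [ctl, xb, rl],
    h1.append (h2.append h3 ?_) ?_⟩⟩
  · intro w a b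
    simp only [List.mem_flatMap, List.mem_cons, List.not_mem_nil, or_false, xb, rl] at a b
    obtain ⟨_, -, rfl | rfl⟩ := a <;> simp at b
  · intro w a b
    obtain ⟨k, -, rfl⟩ := List.mem_map.1 a
    simp [ctl, xb, rl] at b

lemma sum_vars (I : Inst) (f : ZI I → ℚ) : ((vars I).map fun v => f (emb I v)).sum = ∑ v, f v := by
  rw [← List.sum_toFinset _ (vars_nodup I)]
  exact (Finset.sum_subtype (p := fun w => w ∈ vars I) _ (fun _ => List.mem_toFinset) _).trans
    (sum_congr rfl fun v _ => by rw [emb_val])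

lemma sum_vars0 (I : Inst) (f : ZI I → ℚ) : ((vars0 I).map fun v => f (emb I v)).sum
    = ∑ v ∈ univ \ {bitZ I 0, bitZ I 1}, f v := by
  have h1 := sum_vars I f
  have h2 := sum_sdiff (f := f) (subset_univ ({bitZ I 0, bitZ I 1} : Finset (ZI I)))
  rw [sum_pair ((bitZ_inj I).ne (by decide))] at h2
  simp only [vars, List.map_cons, List.sum_cons] at h1
  have e0 : emb I (ctl 0) = bitZ I 0 := rfl
  have e1 : emb I (ctl 1) = bitZ I 1 := rfl
  rw [e0, e1] at h1
  linarith

lemma card_ZI (I : Inst) : Fintype.card (ZI I) ≤ (vars I).length := by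
  rw [Fintype.card_of_subtype (vars I).toFinset fun _ => List.mem_toFinset]
  exact List.toFinset_card_le _

lemma upd_bit (I : Inst) (z : ZI I → Bool) (a b : Bool) :
    upd (bitZ I 0) (bitZ I 1) z a b ∘ bitZ I = update (update (z ∘ bitZ I) 0 a) 1 b := by
  unfold upd
  rw [update_comp_eq_of_injective _ (bitZ_inj I), update_comp_eq_of_injective _ (bitZ_inj I)]

lemma upd_emb (I : Inst) (z : ZI I → Bool) (a b : Bool) {w : W} (h : w ≠ ctl 0 ∧ w ≠ ctl 1) :
    upd (bitZ I 0) (bitZ I 1) z a b (emb I w) = z (emb I w) := by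
  unfold upd
  rw [update_of_ne fun e => h.2 (emb_eq_bit e), update_of_ne fun e => h.1 (emb_eq_bit e)]

end Cpl

open Cpl in
theorem completeSt (h0s : H0St) (px : PXSt) (pg : PGSt) (net : NetSt) (gate : GateSt)
    (fin : FinSt) (act : ActSt) : CompleteSt := by
  obtain ⟨M, P, D0, hD0, hP, hPX⟩ := px
  obtain ⟨K1, hK1⟩ := exists_osc fun x : Fin 10 ⊕ Fin 9 → Bool =>
    h0 M (x ∘ Sum.inl) (x ∘ Sum.inr)
  obtain ⟨K2, hK2⟩ := exists_osc P
  obtain ⟨K3, hK3⟩ := exists_osc D0
  obtain ⟨C, hC⟩ := exists_nat_ge (max (max K1 K2) (max K3 100))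
  simp only [max_le_iff] at hC
  obtain ⟨⟨c1, c2⟩, c3, c4⟩ := hC
  refine ⟨M, C, fun I E ε wf hB yes => ?_⟩
  obtain ⟨b1, b2, b3⟩ := hB
  have b1' : (C : ℚ) ≤ E := by exact_mod_cast b1
  have hE' : (100 : ℚ) ≤ E := c4.trans b1'
  have hE : 100 ≤ E := by exact_mod_cast hE'
  have E0 : (0 : ℚ) < E := by linarith
  have pw : ∀ a b : ℕ, a < b → 100 * (E : ℚ) ^ a ≤ (E : ℚ) ^ b := fun a b h => by
    have h1 : (E : ℚ) ^ (a + 1) ≤ (E : ℚ) ^ b := pow_le_pow_right₀ (by linarith) h
    rw [pow_succ] at h1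
    have := mul_le_mul_of_nonneg_left hE' (pow_pos E0 a).le
    linarith
  have hZ : 2 ^ Fintype.card (ZI I) ≤ E :=
    (Nat.pow_le_pow_right two_pos ((card_ZI I).trans (Nat.le_add_right _ _))).trans b2
  obtain ⟨a1, a2, a3, a4⟩ := act I ε E wf (by exact_mod_cast b2)
  obtain ⟨Nf, n1, n2, n3⟩ := net _ _ _ _ _ _ _ (a4 yes) fun z hz => (a1 z hz).1
  have hb : ∀ z : W → Bool, pen (cs I) z ≤ E ∧ |lam (cs I) z| ≤ E := fun z => by
    have b3' : ((((cs I).map fun c => 6 * (c.1 + c.2.length + 1) ^ 3).sum : ℕ) : ℤ) ≤ E := by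
      exact_mod_cast b3
    exact ⟨(cs_bound _ z).1.trans b3', (cs_bound _ z).2.trans b3'⟩
  have hs : ∀ z : W → Bool, ∑ c : Fin (cs I).length, lamc ((cs I).get c) z = lam (cs I) z :=
    lam_fin (cs I)
  have hall : ∀ {Q : ℕ × List W → Prop}, (∀ c : Fin (cs I).length, Q ((cs I).get c)) →
      ∀ c ∈ cs I, Q c := all_fin
  have er : ∀ (s : Tm) (z : ZI I → Bool), Sum.elim s z ∘ (Sum.map id (bitZ I) :
      Fin 10 ⊕ Fin 9 → Fin 10 ⊕ ZI I) = Sum.elim s (z ∘ bitZ I) :=
    fun s z => by funext w; cases w <;> rfl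
  have hPa : Adm (bitZ I 0) (bitZ I 1) (GZ I ε) E
      (fun x : Fin 10 ⊕ ZI I → Bool => P (x ∘ Sum.map id (bitZ I))) := by
    refine ⟨fun z => D0 (z ∘ bitZ I), fun z => (hK3 _).trans (c3.trans b1'), fun z _ => ?_,
      hP.rename (Sum.map id (bitZ I))⟩
    have : ∀ a b, D0 (upd (bitZ I 0) (bitZ I 1) z a b ∘ bitZ I) = D0 (z ∘ bitZ I) := fun a b =>
      hD0 _ _ fun i hi => by
        rw [upd_bit, update_of_ne (by rintro rfl; revert hi; decide),
          update_of_ne (by rintro rfl; revert hi; decide)]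
    simp only [dpq, this]
    ring
  obtain ⟨D, d1, d2, d3⟩ := gate (ZI I) (Fin (cs I).length) (bitZ I 0) (bitZ I 1) (GZ I ε)
    (fun c z => lamc ((cs I).get c) (z ∘ emb I)) (fun z => pen (cs I) (z ∘ emb I))
    (fun x => h0 M (x ∘ Sum.inl) (x ∘ Sum.inr ∘ bitZ I))
    (fun x => Nf x + P (x ∘ Sum.map id (bitZ I))) E hE hZ
    (fun φ h => a3 φ fun z z' h' => h z z' fun c => h' _ (List.get_mem _ c))
    (fun z z' h => congrArg List.sum (List.map_congr_left (hall fun c => penc_congr (h c))))
    (fun z h => List.sum_eq_zero fun t ht => by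
      obtain ⟨c, hc, rfl⟩ := List.mem_map.1 ht
      rcases hall (Q := fun c => sig c (z ∘ emb I) = 1 ∨ sig c (z ∘ emb I) = 2)
        (fun c => lamc_zero (h c)) c hc with e | e <;> simp [penc, e])
    (fun z ⟨c, hc⟩ => (one_le_penc fun h => hc (by
      rcases h with e | e <;> simp only [lamc, e] <;> norm_num)).trans
        (penc_le_pen (List.get_mem _ c) _))
    (fun z => (hb _).1) (fun z => by rw [hs]; exact (hb _).2)
    (fun z hz a b c => by
      rcases a2 z hz a b _ (List.get_mem _ c) with e | e <;> simp only [lamc, e] <;> norm_num)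
    (fun x => (hK1 (x ∘ Sum.map id (bitZ I))).trans (c1.trans b1'))
    (fun s z => by
      have := (h0s M (z ∘ bitZ I)).2.2.2.2.2.2.2.2 s
      simp only [← upd_bit] at this
      have e : ∀ y : ZI I → Bool, h0 M (Sum.elim s y ∘ Sum.inl) (Sum.elim s y ∘ Sum.inr ∘ bitZ I)
          = h0 M s (y ∘ bitZ I) := fun _ => rfl
      simp only [dpq, e]
      linarith)
    ((pg M (Nat.cast_nonneg M)).rename (Sum.map id (bitZ I)))
    (Gate.mono (Gate.add n1 hPa) (by
      have := pw 1 5 (by norm_num)
      have := pw 4 5 (by norm_num)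
      have := pow_pos E0 4
      rw [pow_one] at *
      linarith))
    (fun x => (abs_add_le _ _).trans (by
      have := n2 x
      have := hK2 (x ∘ Sum.map id (bitZ I))
      linarith))
    (fun s z h => by
      have hz : XZ I z := hall fun c => lamc_zero (h c)
      rw [n3 s z hz, er, hPX s _ (a1 z hz)]
      have e : h0 M (Sum.elim s z ∘ Sum.inl) (Sum.elim s z ∘ Sum.inr ∘ bitZ I)
          = h0 M s (z ∘ bitZ I) := rfl
      rw [e]
      ring)
  have p0 : ∀ z : W → Bool, (0 : ℚ) ≤ pen (cs0 I) z := fun z => by exact_mod_cast pen_nonneg _ z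
  have p1 : ∀ z : W → Bool, (pen (cs0 I) z : ℚ) ≤ E := fun z => by
    have h1 := (hb z).1
    have h2 := pen_nonneg spec z
    have h3 : pen (cs I) z = pen spec z + pen (cs0 I) z := by simp [pen, cs]
    have : pen (cs0 I) z ≤ E := by omega
    exact_mod_cast this
  have h14 := pow_pos E0 14
  have f1 := fin (ZI I) (bitZ I 0) (bitZ I 1) D (fun z => (E : ℚ) ^ 14 *
    (bv (z (emb I (ctl 9))) + pen (cs0 I) (z ∘ emb I) + bv ε)) E ((bitZ_inj I).ne (by decide)) hE'
    (by exact_mod_cast hZ) d1
    (fun z a b => by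
      rw [upd_emb I z a b (by simp [ctl]), pen_congr (z' := z ∘ emb I)
        (z := upd (bitZ I 0) (bitZ I 1) z a b ∘ emb I) fun c hc v hv => upd_emb I z a b (cs0_free I c hc v hv)])
    (fun z => by
      have := bv_le (z (emb I (ctl 9)))
      have := bv_le ε
      have := p1 (z ∘ emb I)
      have := pw 1 2 (by norm_num)
      rw [pow_one] at this
      calc _ ≤ (E : ℚ) ^ 14 * (E : ℚ) ^ 2 := mul_le_mul_of_nonneg_left (by linarith) h14.le
        _ = _ := by ring)
    (fun z => by
      have q1 := bv_nonneg (z (emb I (ctl 9)))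
      have q2 := bv_nonneg ε
      have q3 := p0 (z ∘ emb I)
      by_cases hz : GZ I ε z
      · rw [d2 z hz, neg_zero]
        positivity
      · have q4 : 1 ≤ bv (z (emb I (ctl 9))) + pen (cs0 I) (z ∘ emb I) + bv ε := by
          by_contra q4
          refine hz ⟨?_, ?_, fun c hc => ?_⟩
          · cases ε
            · rfl
            · simp only [bv_true] at q4
              exact absurd (by linarith) q4
          · revert q4
            cases z (emb I (ctl 9))
            · simp
            · simp only [bv_true]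
              exact fun q4 => absurd (by linarith) q4
          · by_contra h
            have : (1 : ℚ) ≤ pen (cs0 I) (z ∘ emb I) := by
              exact_mod_cast (one_le_penc h).trans (penc_le_pen hc _)
            exact q4 (by linarith)
        have q5 := mul_le_mul_of_nonneg_left q4 h14.le
        have := abs_le.1 (d1 (upd (bitZ I 0) (bitZ I 1) z true true))
        have := abs_le.1 (d1 (upd (bitZ I 0) (bitZ I 1) z true false))
        have := abs_le.1 (d1 (upd (bitZ I 0) (bitZ I 1) z false true))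
        have := abs_le.1 (d1 (upd (bitZ I 0) (bitZ I 1) z false false))
        have := pw 13 14 (by norm_num)
        have := pow_pos E0 13
        simp only [dpq]
        linarith)
  refine (d3.add (f1.rename Sum.inr)).of_eq fun x => ?_
  have s1 := sum_vars I fun v => bv (x (Sum.inr v))
  have s2 := sum_vars0 I fun v => bv (x (Sum.inr v))
  have e0 : emb I (ctl 0) = bitZ I 0 := rfl
  have e1 : emb I (ctl 1) = bitZ I 1 := rfl
  have e2 : (fun k : Fin 9 => x (Sum.inr (emb I (ctl k.val)))) = x ∘ Sum.inr ∘ bitZ I := rfl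
  simp only [fZ, FW, comp_apply, s1, s2, e0, e1, e2, hs, comp_assoc]
  ring

end Pool.Agent.Lib.MP_cb9cb0_lc.X
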