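import Pool.Agent.Lib.Complexity.CookLevin
import Pool.Agent.Lib.MP_cb9cb0_lc.Express
import Pool.Agent.Lib.MP_cb9cb0_lc.X.Cls

/-!
Definitions and statements of the parts of the completeness proof for doubly exponential time.
-/

set_option autoImplicit false

namespace Pool.Agent.Lib.MP_cb9cb0_lc.X

open Finset Function Pool.Agent.Lib.Complexity

/-! ### systems of names -/

/-- A solution: sets of density one third, coupled by three permutations. -/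
def Yes {ν : Type} (R : Fin 4 → ν → ν → Prop) (ε : Bool) : Prop :=
  ∃ (Ω : Type) (_ : Fintype Ω) (_ : DecidableEq Ω) (N : ℕ) (C : ν → Finset Ω)
    (π : Fin 3 → Equiv.Perm Ω), 0 < N ∧ Fintype.card Ω = 3 * N ∧ (∀ n, (C n).card = N) ∧ π 0 = 1 ∧
    (∀ (j : Fin 3) a b, R j.castSucc a b → ∀ ω, ω ∈ C a ↔ π j ω ∈ C b) ∧
    (ε = false → ∀ a b, R 3 a b → Disjoint (C a) (C b))

/-- A set of worlds closed under successors and predecessors. -/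
def Model {ν : Type} (R : Fin 4 → ν → ν → Prop) : Prop :=
  ∃ S : Set (Set ν), S.Nonempty ∧ ∀ ω ∈ S, (∀ a ∈ ω, ∀ b ∈ ω, ¬ R 3 a b) ∧
    (∀ a b c, R 3 a b → R 3 a c → R 3 b c → a ∈ ω ∨ b ∈ ω ∨ c ∈ ω) ∧
    ∀ j : Fin 3, (∃ ω' ∈ S, ∀ a b, R j.castSucc a b → a ∈ ω → b ∈ ω') ∧
      (∃ ω' ∈ S, ∀ a b, R j.castSucc a b → b ∈ ω → a ∈ ω')

/-! ### the polynomial in terminals and bits

Terminals `0..4` form the register `U`, terminals `5..9` the register `V`.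
Bits: `0 p, 1 q, 2 s, 3 p', 4 t', 5 a, 6 7 8` the three links. -/

abbrev Tm := Fin 10 → Bool
abbrev Bt := Fin 9 → Bool

def muU (b : Bt) : ℚ := bv (b 0) + bv (b 1) + bv (b 2)
def muV (b : Bt) : ℚ := bv (b 3) + 2 * bv (b 4)
def lnk (b : Bt) : ℚ := bv (b 6) + bv (b 7) + bv (b 8)
def sU (s : Tm) : ℚ := bv (s 0) + bv (s 1) + bv (s 2) + bv (s 3) + bv (s 4)
def sV (s : Tm) : ℚ := bv (s 5) + bv (s 6) + bv (s 7) + bv (s 8) + bv (s 9)

def a5 (x0 x1 x2 x3 x4 : ℚ) : ℚ :=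
  - (x0 * x1 + x0 * x2 + x0 * x3 + x0 * x4 + x1 * x2 + x1 * x3 + x1 * x4 + x2 * x3 + x2 * x4
    + x3 * x4) + x0 * x1 * (x2 + x3 + x4)

def aU (s : Tm) : ℚ := a5 (bv (s 0)) (bv (s 1)) (bv (s 2)) (bv (s 3)) (bv (s 4))
def aV (s : Tm) : ℚ := a5 (bv (s 5)) (bv (s 6)) (bv (s 7)) (bv (s 8)) (bv (s 9))
def aM (s : Tm) : ℚ := - (sU s * sV s) + bv (s 0) * bv (s 1) * sV s

/-- exact triples (for sets of three terminals) -/
def Exa (I : Finset (Fin 10)) : Prop := (0 ∈ I ∧ 1 ∈ I) ∨ (5 ∈ I ∧ 6 ∈ I ∧ ∀ i ∈ I, 5 ≤ i)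
def Mix (I : Finset (Fin 10)) : Prop := (∃ i ∈ I, i < 5) ∧ ∃ i ∈ I, 5 ≤ i

instance : DecidablePred Exa := fun _ => by unfold Exa; infer_instance
instance : DecidablePred Mix := fun _ => by unfold Mix; infer_instance

/-- monomials which carry slack -/
def Av (J : Finset (Fin 10 ⊕ Fin 9)) : Prop :=
  (J.toLeft.card = 2 ∧ Mix J.toLeft ∧ 5 ∈ J.toRight ∧ J.toRight.card ≤ 2) ∨
  (J.toLeft.card = 3 ∧ Exa J.toLeft ∧ Mix J.toLeft ∧ J.toRight = {5}) ∨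
  (J.toLeft.card = 3 ∧ ¬ Exa J.toLeft ∧ J.toRight.card ≤ 1) ∨
  (J.toLeft.card = 4 ∧ J.toRight = ∅)

instance : DecidablePred Av := fun _ => by unfold Av; infer_instance

def slack (s : Tm) (b : Bt) : ℚ := ∑ J ∈ univ.filter Av, an J (Sum.elim s b)

def h0 (M : ℚ) (s : Tm) (b : Bt) : ℚ := muU b * aU s + muV b * (aV s + aM s) - M * slack s b

/-- value of the intended network -/
def nf (s : Tm) (b : Bt) : ℚ :=
  - ((muU b - muV b * lnk b) * max (sU s - 1) 0) - (muV b - muV b * lnk b) * max (sV s - 1) 0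
    - muV b * lnk b * max (sU s + sV s - 1) 0

def BitOK (b : Bt) : Prop := lnk b ≤ 1 ∧ (b 5 = true ∨ lnk b = 1)

def ind (S : Finset (Fin 10)) : Tm := fun i => decide (i ∈ S)

/-- values of `h0` on small sets, and the absence of a product of the first two bits -/
def H0St : Prop := ∀ (M : ℚ) (b : Bt),
  h0 M (ind ∅) b = 0 ∧ (∀ i, h0 M (ind {i}) b = 0) ∧
  (∀ i j, i ≠ j → i < 5 → j < 5 → h0 M (ind {i, j}) b = - muU b) ∧
  (∀ i j, i ≠ j → 5 ≤ i → 5 ≤ j → h0 M (ind {i, j}) b = - muV b) ∧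
  (∀ i j, i < 5 → 5 ≤ j → b 5 = false → h0 M (ind {i, j}) b = - muV b) ∧
  (∀ x, 2 ≤ x → x < 5 → h0 M (ind {0, 1, x}) b = - (2 * muU b)) ∧
  (∀ x, 7 ≤ x → h0 M (ind {5, 6, x}) b = - (2 * muV b)) ∧
  (∀ x, 5 ≤ x → b 5 = false → h0 M (ind {0, 1, x}) b = - muU b - muV b) ∧
  ∀ s, h0 M s (update (update b 0 true) 1 true) + h0 M s (update (update b 0 false) 1 false)
    = h0 M s (update (update b 0 true) 1 false) + h0 M s (update (update b 0 false) 1 true)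

/-- the rest `h0 - nf` is paid by the slack -/
def PXSt : Prop := ∃ (M : ℕ) (P : (Fin 10 ⊕ Fin 9 → Bool) → ℚ) (D : Bt → ℚ),
  (∀ b b' : Bt, (∀ i, 2 ≤ i → b i = b' i) → D b = D b') ∧
  Ex (fun x => P x + D (x ∘ Sum.inr)) ∧
  ∀ s b, BitOK b → P (Sum.elim s b) = h0 M s b - nf s b

def PGSt : Prop := ∀ M : ℚ, 0 ≤ M → Ex (fun x : Fin 10 ⊕ Fin 9 → Bool =>
  h0 M (x ∘ Sum.inl) (x ∘ Sum.inr) - 24 * (sU (x ∘ Sum.inl) + sV (x ∘ Sum.inl)) ^ 2)

/-! ### soundness interface -/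

section paths
variable {Z ν : Type}

def Stp (X : (Z → Bool) → Prop) (bit : Fin 9 → Z) (K : Bt → Bt → Prop) (z z' : Z → Bool) : Prop :=
  X z ∧ X z' ∧ (z ≤ z' ∨ (z' ≤ z ∧ K (z ∘ bit) (z' ∘ bit)))

def Rl (X : (Z → Bool) → Prop) (bit : Fin 9 → Z) (K : Bt → Bt → Prop) :
    (Z → Bool) → (Z → Bool) → Prop := Relation.ReflTransGen (Stp X bit K)

def KU (b b' : Bt) : Prop := muU b = muU b'
def KV (b b' : Bt) : Prop := muV b = muV b'
def KM (b b' : Bt) : Prop := muU b = muU b' ∧ muV b = muV b' ∧ b 5 = false ∧ b' 5 = false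

/-- a point where the two registers are merged -/
def Mrg (X : (Z → Bool) → Prop) (bit : Fin 9 → Z) (x y z m : Z → Bool) : Prop :=
  X m ∧ muU (m ∘ bit) = 1 ∧ muV (m ∘ bit) = 1 ∧ m (bit 5) = false ∧
    Rl X bit KU x m ∧ Rl X bit KV y m ∧ Rl X bit KM m z

def Paths (X : (Z → Bool) → Prop) (bit : Fin 9 → Z) (F0 : (Z → Bool) → ℚ)
    (R : Fin 4 → ν → ν → Prop) : Prop :=
  ∃ (hp hq hv : ν → Z → Bool) (zs : Fin 3 → Z → Bool),
    (∀ n, X (hp n) ∧ muU (hp n ∘ bit) = 1) ∧ (∀ n, X (hq n) ∧ muU (hq n ∘ bit) = 1) ∧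
    (∀ n, X (hv n) ∧ muV (hv n ∘ bit) = 1) ∧ (∀ j, X (zs j)) ∧ muU (zs 0 ∘ bit) = 3 ∧
    (∀ n j, Rl X bit KU (hp n) (zs j)) ∧ (∀ n, Rl X bit KU (hq n) (zs 0)) ∧
    (∀ n j, Rl X bit KV (hv n) (zs j)) ∧
    (∀ (j : Fin 3) a b, R j.castSucc a b → ∃ m, Mrg X bit (hp a) (hv b) (zs j) m) ∧
    (∀ n, ∃ m, Mrg X bit (hq n) (hv n) (zs 0) m) ∧
    ∀ a b, R 3 a b → ∃ x y, X x ∧ X y ∧ X (x ⊓ y) ∧ X (x ⊔ y) ∧ muU ((x ⊓ y) ∘ bit) = 0 ∧
      F0 x + F0 y = F0 (x ⊓ y) + F0 (x ⊔ y) ∧ Rl X bit KU (hp a) x ∧ Rl X bit KU (hq b) y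

end paths

def SoundSt : Prop := ∀ (Z ν : Type) [Fintype Z] [Fintype ν] (M : ℚ) (X : (Z → Bool) → Prop)
  (bit : Fin 9 → Z) (f : (Fin 10 ⊕ Z → Bool) → ℚ) (R : Fin 4 → ν → ν → Prop), Ex f →
  (∀ z, X z → ∀ s, f (Sum.elim s z) = f (Sum.elim (fun _ => false) z) + h0 M s (z ∘ bit)) →
  (∀ a, R 0 a a) → Paths X bit (fun z => f (Sum.elim (fun _ => false) z)) R → Model R

/-! ### completeness interface -/

section adm
variable {Z : Type} [DecidableEq Z]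

def upd (p q : Z) (z : Z → Bool) (a b : Bool) : Z → Bool := update (update z p a) q b

/-- second difference in the variables `p`, `q` -/
def dpq (p q : Z) (D : (Z → Bool) → ℚ) (z : Z → Bool) : ℚ :=
  D (upd p q z true true) - D (upd p q z true false) - D (upd p q z false true)
    + D (upd p q z false false)

/-- expressible up to a bounded function of the context which is modular on the squares of `Γ` -/
def Adm (p q : Z) (Γ : (Z → Bool) → Prop) (B : ℚ) {W : Type} (Φ : (W ⊕ Z → Bool) → ℚ) : Prop :=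
  ∃ D : (Z → Bool) → ℚ, (∀ z, |D z| ≤ B) ∧ (∀ z, Γ z → dpq p q D z = 0) ∧
    Ex (fun x => Φ x + D (x ∘ Sum.inr))

def Pin (p q : Z) (Γ : (Z → Bool) → Prop) (B : ℚ) (φ : (Z → Bool) → Bool) : Prop :=
  Adm p q Γ B (fun x : Unit ⊕ Z → Bool => - (bv (x (Sum.inl ())) * bv (φ (x ∘ Sum.inr))))

end adm

/-- monotone functions of unary parts can be pinned -/
def CompSt : Prop := ∀ (Z ι : Type) [Fintype Z] [DecidableEq Z] [Fintype ι] (p q : Z)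
  (Γ : (Z → Bool) → Prop) (χ : ι → (Z → Bool) → Bool) (φ : (Z → Bool) → Bool) (E : ℚ),
  p ≠ q → 100 ≤ E → 2 ^ Fintype.card Z ≤ E → 2 ^ Fintype.card ι ≤ E → (∀ i, Monotone (χ i)) →
  (∀ i, (∀ z a, χ i (update z p a) = χ i z) ∨ (∀ z a, χ i (update z q a) = χ i z)) →
  (∀ z, Γ z → (∀ i a b, χ i (upd p q z a b) = χ i (upd p q z false b)) ∨
    (∀ i a b, χ i (upd p q z a b) = χ i (upd p q z a false))) →
  (∀ z z', (∀ i, χ i z ≤ χ i z') → φ z ≤ φ z') → Pin p q Γ (E ^ 4) φ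

/-- activation functions with the right counts -/
def Acts {Z : Type} [DecidableEq Z] (p q : Z) (Γ X : (Z → Bool) → Prop) (bit : Fin 9 → Z)
    (B : ℚ) : Prop :=
  ∃ (Ω : Type) (_ : Fintype Ω) (N : ℕ) (act act' : Ω → (Z → Bool) → Bool)
    (π : Fin 3 → Equiv.Perm Ω), 0 < N ∧ Fintype.card Ω = 3 * N ∧
    (∀ ω, Pin p q Γ B (act ω)) ∧ (∀ ω, Pin p q Γ B (act' ω)) ∧ ∀ z, X z →
      ((univ.filter fun ω => act ω z = true).card : ℚ) = N * muU (z ∘ bit) ∧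
      ((univ.filter fun ω => act' ω z = true).card : ℚ) = N * muV (z ∘ bit) ∧
      ∀ j : Fin 3, z (bit (j.natAdd 6)) = true → ∀ ω, act' (π j ω) z = true → act ω z = true

/-- the network on two copies of the solution -/
def NetSt : Prop := ∀ (Z : Type) [Fintype Z] [DecidableEq Z] (p q : Z) (Γ X : (Z → Bool) → Prop)
  (bit : Fin 9 → Z) (B : ℚ), Acts p q Γ X bit B → (∀ z, X z → lnk (z ∘ bit) ≤ 1) →
  ∃ Nf : (Fin 10 ⊕ Z → Bool) → ℚ, Adm p q Γ (48 * B) Nf ∧ (∀ x, |Nf x| ≤ 33) ∧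
    ∀ s z, X z → Nf (Sum.elim s z) = nf s (z ∘ bit)

/-- gluing of the regions on which the state is constant -/
def GateSt : Prop := ∀ (Z Cn : Type) [Fintype Z] [DecidableEq Z] [Fintype Cn] (p q : Z)
  (Γ : (Z → Bool) → Prop) (lam : Cn → (Z → Bool) → ℤ) (pen : (Z → Bool) → ℤ)
  (H Φ : (Fin 10 ⊕ Z → Bool) → ℚ) (E : ℕ), 100 ≤ E → 2 ^ Fintype.card Z ≤ E →
  (∀ φ : (Z → Bool) → Bool, (∀ z z', (∀ c, lam c z ≤ lam c z') → φ z ≤ φ z') →
    Pin p q Γ ((E : ℚ) ^ 4) φ) →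
  (∀ z z', (∀ c, lam c z = lam c z') → pen z = pen z') →
  (∀ z, (∀ c, lam c z = 0) → pen z = 0) → (∀ z, (∃ c, lam c z ≠ 0) → 1 ≤ pen z) →
  (∀ z, pen z ≤ E) → (∀ z, |∑ c, lam c z| ≤ E) →
  (∀ z, Γ z → ∀ a b c, lam c (upd p q z a b) = 0) →
  (∀ x, |H x| ≤ E) → (∀ s z, dpq p q (fun z => H (Sum.elim s z)) z = 0) →
  Ex (fun x => H x - 24 * (sU (x ∘ Sum.inl) + sV (x ∘ Sum.inl)) ^ 2) →
  Adm p q Γ ((E : ℚ) ^ 5) Φ → (∀ x, |Φ x| ≤ 2 * E) →
  (∀ s z, (∀ c, lam c z = 0) → Φ (Sum.elim s z) = H (Sum.elim s z)) →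
  Adm p q Γ ((E : ℚ) ^ 13) (fun x => H x
    - 24 * pen (x ∘ Sum.inr) * (sU (x ∘ Sum.inl) + sV (x ∘ Sum.inl)) ^ 2
    - (E : ℚ) ^ 5 * (∑ c, lam c (x ∘ Sum.inr) : ℤ) * (sU (x ∘ Sum.inl) + sV (x ∘ Sum.inl)))

/-- the context part pays for the debris -/
def FinSt : Prop := ∀ (Z : Type) [Fintype Z] [DecidableEq Z] (p q : Z) (D Q : (Z → Bool) → ℚ)
  (E : ℚ), p ≠ q → 100 ≤ E → 2 ^ Fintype.card Z ≤ E → (∀ z, |D z| ≤ E ^ 13) →
  (∀ z a b, Q (upd p q z a b) = Q z) → (∀ z, Q z ≤ E ^ 16) → (∀ z, - dpq p q D z ≤ Q z) →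
  Ex (fun z : Z → Bool => - (E ^ 21 * ((∑ v, bv (z v)) * ∑ v ∈ univ \ {p, q}, bv (z v)))
    - bv (z p) * bv (z q) * Q z - D z)

/-! ### the concrete system -/

abbrev Cs (α : Type) := List (ℕ × List α)

section cs
variable {α : Type}

/-- number of tokens -/
def sig (c : ℕ × List α) (z : α → Bool) : ℤ := c.1 + (c.2.map fun v => ((z v).toNat : ℤ)).sum
def penc (c : ℕ × List α) (z : α → Bool) : ℤ := (sig c z - 1) * (sig c z - 2)
def lamc (c : ℕ × List α) (z : α → Bool) : ℤ := (sig c z - 1) * (sig c z - 2) * (2 * sig c z - 3)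
def pen (cs : Cs α) (z : α → Bool) : ℤ := (cs.map fun c => penc c z).sum
def lam (cs : Cs α) (z : α → Bool) : ℤ := (cs.map fun c => lamc c z).sum
def InX (cs : Cs α) (z : α → Bool) : Prop := ∀ c ∈ cs, sig c z = 1 ∨ sig c z = 2

end cs

/-- labels of context variables: control, dual rail bits, clause rails -/
abbrev W := ℕ ⊕ (ℕ × Bool) ⊕ (ℕ × ℕ)

def ctl (k : ℕ) : W := Sum.inl k
def xb (v : ℕ) (b : Bool) : W := Sum.inr (Sum.inl (v, b))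
def rl (i k : ℕ) : W := Sum.inr (Sum.inr (i, k))

/-- length of names, number of variables, tagged clauses -/
abbrev Inst := ℕ × ℕ × List (ℕ × Clause)

def WF (I : Inst) : Prop :=
  2 * I.1 ≤ I.2.1 ∧ ∀ c ∈ I.2.2, c.1 < 4 ∧ c.2.length = 3 ∧ ∀ l ∈ c.2, l.1 < I.2.1

/-- the four relations between names -/
def RI (I : Inst) (j : Fin 4) (a b : Fin I.1 → Bool) : Prop :=
  ∃ v : ℕ → Bool, (∀ i : Fin I.1, v i = a i) ∧ (∀ i : Fin I.1, v (I.1 + i) = b i) ∧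
    ∀ c ∈ I.2.2, c.1 = j.val → ∃ l ∈ c.2, v l.1 = l.2

/-- Control variables: `0..8` the bits, `9 d`, `10..15` the duals of `p q s p' t' d`,
`16 17` the locks of the first bus, `18 19` the locks of the second bus, `20` dual of the links,
`21 22 23 24 25` the reasons for a link, `26 27 28` guards. -/
def ctl0 : Cs ℕ :=
  [(0, [2, 12]), (0, [3, 13]), (0, [4, 14]), (0, [9, 15]), (0, [9, 10]), (0, [9, 11]),
   (1, [2, 10]), (1, [2, 11]), (1, [4, 12]), (1, [4, 13]), (1, [17, 12]), (1, [18, 3]),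
   (1, [19, 14]), (1, [20, 6, 7, 8]), (1, [21, 10]), (1, [22, 10]), (1, [23, 10]), (1, [21, 26]),
   (1, [22, 27]), (1, [23, 28]), (1, [21, 7, 8]), (1, [22, 6, 8]), (1, [23, 6, 7]), (1, [24, 11]),
   (1, [24, 7, 8]), (1, [25, 12]), (1, [15, 2]), (1, [15, 16]), (1, [15, 18]),
   (0, [20, 21, 22, 23, 24, 25]), (0, [5, 6, 7, 8])]

/-- the four constraints which mention `p` or `q` -/
def spec : Cs W :=
  [(0, [ctl 0, ctl 10]), (1, [ctl 16, ctl 0]), (0, [ctl 1, ctl 11]), (1, [ctl 18, ctl 1])]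

def guard (g : ℕ) : ℕ := if g < 3 then 26 + g else 9

def busC (r v : ℕ) : Cs W :=
  if v < r then [(1, [xb v true, xb v false]), (0, [xb v true, xb v false, ctl 16, ctl 17])]
  else if v < 2 * r then
    [(1, [xb v true, xb v false]), (0, [xb v true, xb v false, ctl 18, ctl 19])]
  else [(0, [xb v true, xb v false])]

def clC (i : ℕ) (c : ℕ × Clause) : Cs W :=
  (0, [ctl (guard c.1), rl i 0, rl i 1, rl i 2]) :: (List.range 3).map fun k =>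
    (1, [rl i k, xb (c.2.getD k (0, false)).1 (!(c.2.getD k (0, false)).2)])

def cs0 (I : Inst) : Cs W :=
  ctl0.map (fun c => (c.1, c.2.map ctl)) ++ ((List.range I.2.1).flatMap (busC I.1) ++
    I.2.2.zipIdx.flatMap fun c => clC c.2 c.1)

def cs (I : Inst) : Cs W := spec ++ cs0 I

def vars0 (I : Inst) : List W :=
  (List.range' 2 27).map ctl ++ ((List.range I.2.1).flatMap (fun v => [xb v true, xb v false]) ++
    (List.range I.2.2.length).flatMap fun i => [rl i 0, rl i 1, rl i 2])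

def vars (I : Inst) : List W := ctl 0 :: ctl 1 :: vars0 I

/-- the function produced by the reduction -/
def FW (M E : ℚ) (I : Inst) (s : Tm) (z : W → Bool) : ℚ :=
  - (E ^ 21 * (((vars I).map fun v => bv (z v)).sum * ((vars0 I).map fun v => bv (z v)).sum))
    - E ^ 14 * (bv (z (ctl 0)) * bv (z (ctl 1)) * (bv (z (ctl 9)) + pen (cs0 I) z))
    + h0 M s (fun k => z (ctl k.val)) - 24 * pen (cs I) z * (sU s + sV s) ^ 2
    - E ^ 5 * lam (cs I) z * (sU s + sV s)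

abbrev ZI (I : Inst) := {w : W // w ∈ vars I}

open Classical in
noncomputable def emb (I : Inst) (w : W) : ZI I :=
  if h : w ∈ vars I then ⟨w, h⟩ else ⟨ctl 9, by simp [vars, vars0, ctl]⟩

noncomputable def bitZ (I : Inst) (k : Fin 9) : ZI I := emb I (ctl k.val)
def XZ (I : Inst) (z : ZI I → Bool) : Prop := InX (cs I) (z ∘ emb I)
def GZ (I : Inst) (ε : Bool) (z : ZI I → Bool) : Prop :=
  ε = false ∧ z (emb I (ctl 9)) = false ∧ InX (cs0 I) (z ∘ emb I)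

noncomputable def fZ (M E : ℚ) (I : Inst) (x : Fin 10 ⊕ ZI I → Bool) : ℚ :=
  FW M E I (x ∘ Sum.inl) (x ∘ Sum.inr ∘ emb I)

def BigE (C : ℕ) (I : Inst) (E : ℕ) : Prop :=
  C ≤ E ∧ 2 ^ ((vars I).length + 10) ≤ E ∧
    ((cs I).map fun c => 6 * (c.1 + c.2.length + 1) ^ 3).sum ≤ E

def PathsSt : Prop := ∀ (M E : ℚ) (I : Inst), WF I →
  Paths (XZ I) (bitZ I) (fun z => fZ M E I (Sum.elim (fun _ => false) z)) (RI I)

/-- pins for the state and for the activation functions of the concrete system -/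
def ActSt : Prop := ∀ (I : Inst) (ε : Bool) (E : ℚ), WF I → 2 ^ ((vars I).length + 10) ≤ E →
  (∀ z, XZ I z → BitOK (z ∘ bitZ I)) ∧
  (∀ z, GZ I ε z → ∀ a b, XZ I (upd (bitZ I 0) (bitZ I 1) z a b)) ∧
  (∀ φ : (ZI I → Bool) → Bool,
    (∀ z z', (∀ c ∈ cs I, lamc c (z ∘ emb I) ≤ lamc c (z' ∘ emb I)) → φ z ≤ φ z') →
    Pin (bitZ I 0) (bitZ I 1) (GZ I ε) (E ^ 4) φ) ∧
  (Yes (RI I) ε → Acts (bitZ I 0) (bitZ I 1) (GZ I ε) (XZ I) (bitZ I) (E ^ 4))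

def CompleteSt : Prop := ∃ M C : ℕ, ∀ (I : Inst) (E : ℕ) (ε : Bool), WF I → BigE C I E →
  Yes (RI I) ε → Ex (fun x => fZ M E I x - (E : ℚ) ^ 14 *
    (bv ε * (bv (x (Sum.inr (bitZ I 0))) * bv (x (Sum.inr (bitZ I 1))))))

def SubmodSt : Prop := ∀ (M E : ℚ) (I : Inst) (c : ℚ), 0 ≤ E →
  Submodular (fun x => fZ M E I x -
    c * (bv (x (Sum.inr (bitZ I 0))) * bv (x (Sum.inr (bitZ I 1))))) → Submodular (fZ M E I)

/-! ### lists of terms -/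

abbrev Poly (α : Type) := List (List α × ℤ)

def val {α : Type} (L : Poly α) (x : α → Bool) : ℚ :=
  (L.map fun t => (t.2 : ℚ) * (t.1.map fun i => bv (x i)).prod).sum

def TermSt : Prop := ∀ M C : ℕ, ∃ τ : Inst → ℕ × Poly ℕ, PT τ ∧ ∀ I, WF I →
  (∀ t ∈ (τ I).2, t.1.length ≤ 4 ∧ ∀ i ∈ t.1, i < (τ I).1) ∧
  ∃ (E : ℕ) (ι : Fin 10 ⊕ ZI I → ℕ), BigE C I E ∧ Injective ι ∧ (∀ v, ι v < (τ I).1) ∧
    ∀ x : ℕ → Bool, val (τ I).2 x = fZ M E I (x ∘ ι)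

def NormSt : Prop := ∃ φ : ℕ × Poly ℕ → Input,
  (∀ g : Str → ℕ × Poly ℕ, PT g → N68a2faeb.IsPolyTime fun w => φ (g w)) ∧
  ∀ (n : ℕ) (L : Poly ℕ) (V : Type) (ι : V → ℕ) (G : (V → Bool) → ℚ),
    (∀ t ∈ L, t.1.length ≤ 4 ∧ ∀ i ∈ t.1, i < n) → Injective ι → (∀ v, ι v < n) →
    (∀ x : ℕ → Bool, val L x = G (x ∘ ι)) →
    IsQuartic (φ (n, L)) ∧ (Submodular G → Submodular (value (φ (n, L)))) ∧
      (Expressible (value (φ (n, L))) ↔ Ex G)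

/-! ### the source problems -/

/-- labels of a grid; the arguments are the labels above and to the left -/
def grid (G : Option Str → Option Str → Str) : ℕ → ℕ → Str
  | 0, 0 => G none none
  | 0, i + 1 => G none (some (grid G 0 i))
  | t + 1, 0 => G (some (grid G t 0)) none
  | t + 1, i + 1 => G (some (grid G t (i + 1))) (some (grid G (t + 1) i))

def Clean (G : Option Str → Option Str → Str) (bad : Str → Bool) (e : ℕ) : Prop :=
  ∀ t < 2 ^ 2 ^ e, ∀ i < 2 ^ 2 ^ e, bad (grid G t i) = false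

def GridSt : Prop := ∀ L ∈ TwoEXP, ∃ (m e : Str → ℕ) (G : Str × Option Str × Option Str → Str)
  (bad : Str → Bool), PT m ∧ PT e ∧ PT G ∧ PT bad ∧ ∀ w,
    (∀ t i, (grid (fun u l => G (w, u, l)) t i).length = m w) ∧
    (L w = true ↔ Clean (fun u l => G (w, u, l)) bad (e w))

/-- block, position, index -/
abbrev Xv := ℕ × ℤ × ℕ
abbrev Lit := Xv × Bool
abbrev Ci := ℤ × ℕ
abbrev Cl3 := Lit × Lit × Lit

def Cl3.Sat (c : Cl3) (α : Xv → Bool) : Prop :=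
  α c.1.1 = c.1.2 ∨ α c.2.1.1 = c.2.1.2 ∨ α c.2.2.1 = c.2.2.2

def YesC (cl : Ci → Option Cl3) : Prop :=
  ∃ (Ω : Type) (_ : Fintype Ω) (α : Ω → Xv → Bool) (π : Fin 2 → Equiv.Perm Ω), Nonempty Ω ∧
    (∀ ω i c, cl i = some c → c.Sat (α ω)) ∧
    ∀ (j : Fin 2) ω k u, α ω (0, k, u) = α (π j ω) (j.val + 1, k, u)

def ModelC (b : ℕ) (cl : Ci → Option Cl3) : Prop :=
  ∃ S : Set (Xv → Bool), S.Nonempty ∧ ∀ α ∈ S,
    (∀ i c, sz i ≤ b → sz c ≤ b → cl i = some c → c.Sat α) ∧ ∀ j : Fin 2,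
      (∃ α' ∈ S, ∀ (k : ℤ) (u : ℕ), sz (k, u) ≤ b → α' (j.val + 1, k, u) = α (0, k, u)) ∧
      (∃ α' ∈ S, ∀ (k : ℤ) (u : ℕ), sz (k, u) ≤ b → α' (0, k, u) = α (j.val + 1, k, u))

def LinkSt : Prop := ∀ (m e : Str → ℕ) (G : Str × Option Str × Option Str → Str)
  (bad : Str → Bool), PT m → PT e → PT G → PT bad →
  ∃ (cl : Str × Ci → Option Cl3) (b : Str → ℕ), PT cl ∧ PT b ∧ ∀ w,
    (∀ t i, (grid (fun u l => G (w, u, l)) t i).length = m w) →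
    (Clean (fun u l => G (w, u, l)) bad (e w) → YesC fun i => cl (w, i)) ∧
    (ModelC (b w) (fun i => cl (w, i)) → Clean (fun u l => G (w, u, l)) bad (e w))

/-- vertex and colour -/
abbrev Nm := Option (Lit ⊕ (Ci × ℕ)) × ℕ

def ColSt : Prop := ∀ (cl : Str × Ci → Option Cl3) (b : Str → ℕ), PT cl → PT b →
  ∃ (ρ : Str × ℕ × Nm × Nm → Bool) (b' : Str → ℕ), PT ρ ∧ PT b' ∧ ∀ w,
    (∀ a, ρ (w, 0, a, a) = true) ∧
    (YesC (fun i => cl (w, i)) → Yes (fun j a c => ρ (w, j.val, a, c) = true) false) ∧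
    (Model (fun j (a c : {a : Nm // sz a ≤ b' w}) => ρ (w, j.val, a.1, c.1) = true) →
      ModelC (b w) fun i => cl (w, i))

def CnfSt : Prop := ∀ (ρ : Str × ℕ × Nm × Nm → Bool) (b : Str → ℕ), PT ρ → PT b →
  ∃ inst : Str → Inst, PT inst ∧ ∀ w, WF (inst w) ∧
    ((∀ a, ρ (w, 0, a, a) = true) → ∀ a, RI (inst w) 0 a a) ∧
    (Yes (fun j a c => ρ (w, j.val, a, c) = true) false → Yes (RI (inst w)) false) ∧
    (Model (RI (inst w)) →
      Model fun j (a c : {a : Nm // sz a ≤ b w}) => ρ (w, j.val, a.1, c.1) = true)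

/-! ### the upper bound -/

def LpSt : Prop := ∃ dec : List (List (ℤ × ℕ) × ℤ) → Bool, PT dec ∧ ∀ R, dec R = true ↔
  ∃ x : ℕ → ℚ, (∀ j, 0 ≤ x j) ∧ ∀ r ∈ R, (r.2 : ℚ) ≤ (r.1.map fun p => (p.1 : ℚ) * x p.2).sum

/-- a network on types with a certificate of optimality for every input -/
def Cert {V Y : Type} [Fintype V] [Fintype Y] (ty : Y → (V → Bool) → Bool)
    (f : (V → Bool) → ℚ) : Prop :=
  ∃ (c0 : ℚ) (b : V ⊕ Y → ℚ) (d : V ⊕ Y → V ⊕ Y → ℚ) (θ : (V → Bool) → V ⊕ Y → V ⊕ Y → ℚ),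
    ∀ x, (∀ u v, 0 ≤ θ x u v ∧ θ x u v ≤ d u v) ∧
      (∀ y, ty y x = true →
        b (Sum.inr y) - ∑ v, θ x (Sum.inr y) v - ∑ u, (d u (Sum.inr y) - θ x u (Sum.inr y)) ≤ 0) ∧
      (∀ y, ty y x = false →
        0 ≤ b (Sum.inr y) - ∑ v, θ x (Sum.inr y) v - ∑ u, (d u (Sum.inr y) - θ x u (Sum.inr y))) ∧
      c0 + ∑ w, (b w - ∑ v, θ x w v - ∑ u, (d u w - θ x u w)) *
        bv (Sum.elim x (fun y => ty y x) w) = f x ∧
      c0 + ∑ w, b w * bv (Sum.elim x (fun y => ty y x) w) - ∑ u, ∑ v, d u v *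
        (bv (Sum.elim x (fun y => ty y x) u) * bv (Sum.elim x (fun y => ty y x) v)) = f x

def CertSt : Prop := ∀ (V Y : Type) [Fintype V] [Fintype Y] (ty : Y → (V → Bool) → Bool)
  (f : (V → Bool) → ℚ), Surjective ty → (Ex f ↔ Cert ty f)

def AlgSt : Prop := ∃ A : Str × ℕ → Bool, PT A ∧ ∀ I : Input, IsQuartic I →
  (A (N487b59b3.bitEncode I, 2 ^ 2 ^ (N487b59b3.bitEncode I).length) = true ↔
    Expressible (value I))

def PadSt : Prop := ∀ A : Str × ℕ → Bool, PT A → (fun l : Str => A (l, 2 ^ 2 ^ l.length)) ∈ TwoEXP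

end Pool.Agent.Lib.MP_cb9cb0_lc.X
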