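import Pool.Agent.Lib.MP_cb9cb0_lc.X.Basic

/-!
Values of the polynomial `h0` on small sets, and expressibility of `h0` minus the penalty.
-/

set_option autoImplicit false

namespace Pool.Agent.Lib.MP_cb9cb0_lc.X

open Finset Function

namespace Fn

lemma slack_zero (S : Finset (Fin 10)) (b : Bt) (h3 : S.card ≤ 3) (hE : S.card = 3 → Exa S)
    (hM : Mix S → b 5 = false) : slack (ind S) b = 0 := by
  refine sum_eq_zero fun J hJ => ?_
  have hJ := (mem_filter.1 hJ).2
  by_cases hs : J.toLeft ⊆ S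
  · have hc := card_le_card hs
    have k : Mix J.toLeft → 5 ∈ J.toRight → an J (Sum.elim (ind S) b) = 0 := fun hm h5 => by
      obtain ⟨⟨i, hi, hi'⟩, j, hj, hj'⟩ := hm
      exact prod_eq_zero (mem_toRight.1 h5) (by simp [hM ⟨⟨i, hs hi, hi'⟩, j, hs hj, hj'⟩])
    rcases hJ with ⟨-, hm, h5, -⟩ | ⟨-, -, hm, h5⟩ | ⟨h, hn, -⟩ | ⟨h, -⟩
    · exact k hm h5
    · exact k hm (by simp [h5])
    · have e : J.toLeft = S := eq_of_subset_of_card_le hs (by omega)
      exact absurd (e ▸ hE (by omega)) hn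
    · omega
  · obtain ⟨i, hi, hi'⟩ := not_subset.1 hs
    exact prod_eq_zero (mem_toLeft.1 hi) (by simp [ind, hi'])

lemma h0_of (M : ℚ) (S : Finset (Fin 10)) (b : Bt) (h : S.card ≤ 3 ∧ (S.card = 3 → Exa S))
    (hM : Mix S → b 5 = false) {u w : ℚ} (e : aU (ind S) = u ∧ aV (ind S) + aM (ind S) = w) :
    h0 M (ind S) b = muU b * u + muV b * w := by
  rw [h0, slack_zero S b h.1 h.2 hM, e.1, e.2]
  ring

lemma not_both {J : Finset (Fin 10 ⊕ Fin 9)} (h : Av J) : Sum.inr 0 ∉ J ∨ Sum.inr 1 ∉ J := by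
  by_contra hc
  push Not at hc
  have h0 : 0 ∈ J.toRight := mem_toRight.2 hc.1
  have h1 : 1 ∈ J.toRight := mem_toRight.2 hc.2
  have h2 : ({0, 1} : Finset (Fin 9)).card ≤ J.toRight.card :=
    card_le_card (by intro i; simp only [mem_insert, mem_singleton]; rintro (rfl | rfl) <;> assumption)
  rcases h with ⟨-, -, h5, h⟩ | ⟨-, -, -, h⟩ | ⟨-, -, h⟩ | ⟨-, h⟩
  · have h3 : ({0, 1, 5} : Finset (Fin 9)).card ≤ J.toRight.card := card_le_card (by
      intro i
      simp only [mem_insert, mem_singleton]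
      rintro (rfl | rfl | rfl) <;> assumption)
    have : ({0, 1, 5} : Finset (Fin 9)).card = 3 := by decide
    omega
  · rw [h] at h0
    exact absurd h0 (by decide)
  · have : ({0, 1} : Finset (Fin 9)).card = 2 := by decide
    omega
  · rw [h] at h0
    exact absurd h0 (by decide)

lemma an_congr {V : Type} {J : Finset V} {x y : V → Bool} (h : ∀ v ∈ J, x v = y v) :
    an J x = an J y := prod_congr rfl fun v hv => by rw [h v hv]

lemma slack_mod (s : Tm) (b : Bt) :
    slack s (update (update b 0 true) 1 true) + slack s (update (update b 0 false) 1 false)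
      = slack s (update (update b 0 true) 1 false) + slack s (update (update b 0 false) 1 true) := by
  simp only [slack, ← sum_add_distrib]
  refine sum_congr rfl fun J hJ => ?_
  rcases not_both (mem_filter.1 hJ).2 with h | h
  · have k : ∀ c, an J (Sum.elim s (update (update b 0 true) 1 c))
        = an J (Sum.elim s (update (update b 0 false) 1 c)) := fun c => an_congr fun v hv => by
      rcases v with v | v
      · rfl
      · have : v ≠ 0 := fun e => h (e ▸ hv)
        simp [update_apply, this]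
    rw [k, k, add_comm]
  · have k : ∀ c, an J (Sum.elim s (update (update b 0 c) 1 true))
        = an J (Sum.elim s (update (update b 0 c) 1 false)) := fun c => an_congr fun v hv => by
      rcases v with v | v
      · rfl
      · have : v ≠ 1 := fun e => h (e ▸ hv)
        simp [update_apply, this]
    rw [k, k]

lemma v1 : ∀ i : Fin 10, aU (ind {i}) = 0 ∧ aV (ind {i}) + aM (ind {i}) = 0 := by
  decide +kernel

lemma v2 : ∀ i j : Fin 10, i ≠ j → i < 5 → j < 5 →
    aU (ind {i, j}) = -1 ∧ aV (ind {i, j}) + aM (ind {i, j}) = 0 := by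
  decide +kernel

lemma v3 : ∀ i j : Fin 10, i ≠ j → 5 ≤ i → 5 ≤ j →
    aU (ind {i, j}) = 0 ∧ aV (ind {i, j}) + aM (ind {i, j}) = -1 := by
  decide +kernel

lemma v4 : ∀ i j : Fin 10, i < 5 → 5 ≤ j →
    aU (ind {i, j}) = 0 ∧ aV (ind {i, j}) + aM (ind {i, j}) = -1 := by
  decide +kernel

lemma v5 : ∀ x : Fin 10, 2 ≤ x → x < 5 →
    aU (ind {0, 1, x}) = -2 ∧ aV (ind {0, 1, x}) + aM (ind {0, 1, x}) = 0 := by
  decide +kernel

lemma v6 : ∀ x : Fin 10, 7 ≤ x →
    aU (ind {5, 6, x}) = 0 ∧ aV (ind {5, 6, x}) + aM (ind {5, 6, x}) = -2 := by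
  decide +kernel

lemma v7 : ∀ x : Fin 10, 5 ≤ x →
    aU (ind {0, 1, x}) = -1 ∧ aV (ind {0, 1, x}) + aM (ind {0, 1, x}) = -1 := by
  decide +kernel

end Fn

open Fn

theorem h0St : H0St := by
  intro M b
  refine ⟨?_, fun i => ?_, fun i j h hi hj => ?_, fun i j h hi hj => ?_, fun i j hi hj h => ?_,
    fun x h h' => ?_, fun x h => ?_, fun x h h' => ?_, fun s => ?_⟩
  · rw [h0_of M ∅ b (by simp) (fun h => absurd h (by decide)) (u := 0) (w := 0)
      (by decide +kernel)]
    ring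
  · rw [h0_of M {i} b (by simp) (fun h => absurd h (by revert i; decide)) (v1 i)]
    ring
  · rw [h0_of M {i, j} b (by rw [card_pair h]; simp)
      (fun h' => absurd h' (by revert i j; decide)) (v2 i j h hi hj)]
    ring
  · rw [h0_of M {i, j} b (by rw [card_pair h]; simp)
      (fun h' => absurd h' (by revert i j; decide)) (v3 i j h hi hj)]
    ring
  · rw [h0_of M {i, j} b (by revert i j; decide) (fun _ => h) (v4 i j hi hj)]
    ring
  · rw [h0_of M {0, 1, x} b (by revert x; decide)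
      (fun h' => absurd h' (by revert x; decide)) (v5 x h h')]
    ring
  · rw [h0_of M {5, 6, x} b (by revert x; decide)
      (fun h' => absurd h' (by revert x; decide)) (v6 x h)]
    ring
  · rw [h0_of M {0, 1, x} b (by revert x; decide) (fun _ => h') (v7 x h)]
    ring
  · have := slack_mod s b
    simp only [h0, muU, muV, update_apply]
    simp only [Fin.reduceEq, if_true, if_false, bv_true, bv_false]
    linear_combination (-M) * this

namespace Fn

variable {V : Type}

lemma ex3 (a b c : V) : Ex (fun x => - (bv (x a) * bv (x b) * bv (x c))) := by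
  classical
  exact (ex_neg_an {a, b, c}).of_eq fun x => by
    simp only [an_insert]
    simp only [an, prod_singleton]
    ring

lemma ex_psi (a b c d : V) :
    Ex (fun x => psi (bv (x a)) (bv (x b)) (bv (x c) * bv (x d))) := by
  classical
  exact (ex_psi_and {a} {b} {c, d}).of_eq fun x => by
    simp only [an_insert]
    simp only [an, prod_singleton]

lemma ex_a5 (b x0 x1 x2 x3 x4 : V) : Ex (fun x => bv (x b) *
    a5 (bv (x x0)) (bv (x x1)) (bv (x x2)) (bv (x x3)) (bv (x x4)) - 3 * (bv (x x0) * bv (x x1))) :=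
  (((((((ex_psi x0 x1 x2 b).add (ex_psi x0 x1 x3 b)).add (ex_psi x0 x1 x4 b)).add
    (ex3 b x0 x1)).add (ex3 b x2 x3)).add (ex3 b x2 x4)).add (ex3 b x3 x4)).of_eq fun x => by
      simp only [psi, a5]
      ring

lemma ex_m1 (b v : Fin 10 ⊕ Fin 9) : Ex (fun x : Fin 10 ⊕ Fin 9 → Bool => bv (x b) * bv (x v) *
    (bv (x (Sum.inl 0)) * bv (x (Sum.inl 1)) - sU (x ∘ Sum.inl))
      - bv (x (Sum.inl 0)) * bv (x (Sum.inl 1))) :=
  ((((ex_psi (Sum.inl 0) (Sum.inl 1) v b).add (ex3 b v (Sum.inl 2))).add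
    (ex3 b v (Sum.inl 3))).add (ex3 b v (Sum.inl 4))).of_eq fun x => by
      simp only [psi, sU, comp_apply]
      ring

lemma ex_aM (b : Fin 10 ⊕ Fin 9) : Ex (fun x : Fin 10 ⊕ Fin 9 → Bool =>
    bv (x b) * aM (x ∘ Sum.inl) - 5 * (bv (x (Sum.inl 0)) * bv (x (Sum.inl 1)))) :=
  (((((ex_m1 b (Sum.inl 5)).add (ex_m1 b (Sum.inl 6))).add (ex_m1 b (Sum.inl 7))).add
    (ex_m1 b (Sum.inl 8))).add (ex_m1 b (Sum.inl 9))).of_eq fun x => by
      simp only [aM, sV, comp_apply]
      ring

lemma ex_slack : Ex (fun x : Fin 10 ⊕ Fin 9 → Bool => - slack (x ∘ Sum.inl) (x ∘ Sum.inr)) :=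
  (Ex.sum (univ.filter Av) fun J _ => ex_neg_an J).of_eq fun x => by
    simp only [slack, Sum.elim_comp_inl_inr, sum_neg_distrib]

lemma ex_sq : Ex (fun s : Tm => - (sU s + sV s) ^ 2 + bv (s 0) * bv (s 1) + bv (s 5) * bv (s 6)) := by
  refine (ex_negS ((univ.erase (0, 1)).erase (5, 6))).of_eq fun s => ?_
  have e : SS univ s = (sU s + sV s) ^ 2 := by
    simp only [SS, Fintype.sum_prod_type, ← sum_mul_sum]
    simp only [Fin.sum_univ_succ, Fin.sum_univ_zero, sU, sV]
    simp only [Fin.succ_zero_eq_one, Fin.reduceSucc, Fin.isValue]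
    ring
  rw [← e, SS, SS, ← add_sum_erase univ _ (mem_univ ((0, 1) : Fin 10 × Fin 10)),
    ← add_sum_erase (univ.erase (0, 1)) _ (a := ((5, 6) : Fin 10 × Fin 10)) (by decide)]
  ring

end Fn

theorem pgSt : PGSt := by
  intro M hM
  have u := fun b => ex_a5 (V := Fin 10 ⊕ Fin 9) (Sum.inr b) (Sum.inl 0) (Sum.inl 1) (Sum.inl 2)
    (Sum.inl 3) (Sum.inl 4)
  have v := fun b => (ex_a5 (V := Fin 10 ⊕ Fin 9) (Sum.inr b) (Sum.inl 5) (Sum.inl 6) (Sum.inl 7)
    (Sum.inl 8) (Sum.inl 9)).add (ex_aM (Sum.inr b))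
  refine ((((((((u 0).add (u 1)).add (u 2)).add (v 3)).add ((v 4).smul (k := 2) (by norm_num))).add
    (ex_slack.smul hM)).add ((ex_sq.rename Sum.inl).smul (k := 24) (by norm_num))).add
    ((Ex.neg (Sum.inl 5) (Sum.inl 6)).smul (k := 15) (by norm_num))).of_eq fun x => ?_
  simp only [h0, muU, muV, aU, aV, comp_apply]
  ring

end Pool.Agent.Lib.MP_cb9cb0_lc.X
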