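import Pool.Agent.Lib.MP_cb9cb0_lc.X.Basic

/-!
The context part pays for the debris, and submodularity does not depend on the flag.
-/

set_option autoImplicit false

namespace Pool.Agent.Lib.MP_cb9cb0_lc.X

open Finset Function

namespace F2

section fin
variable {V : Type} [Fintype V] [DecidableEq V] {P : Finset (V × V)}

lemma f2_point (A t : Finset V) (ht : t ⊆ A) (x : V → Bool) :
    an t x - orr (A \ t) x * an t x = if t = A.filter fun u => x u = true then 1 else 0 := by
  classical
  rw [an_eq_bv, orr_eq_bv]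
  split_ifs with h
  · have h1 : ∀ v ∈ t, x v = true := fun v hv => by
      rw [h] at hv
      exact (mem_filter.1 hv).2
    have h2 : ¬ ∃ v ∈ A \ t, x v = true := fun ⟨v, hv, hx⟩ =>
      (mem_sdiff.1 hv).2 (h ▸ mem_filter.2 ⟨(mem_sdiff.1 hv).1, hx⟩)
    rw [decide_eq_true h1, decide_eq_false h2]
    simp
  · by_cases h1 : ∀ v ∈ t, x v = true
    · have h2 : ∃ v ∈ A \ t, x v = true := by
        by_contra h2
        apply h
        ext u
        rw [mem_filter]
        refine ⟨fun hu => ⟨ht hu, h1 u hu⟩, fun hu => ?_⟩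
        by_contra h3
        exact h2 ⟨u, mem_sdiff.2 ⟨hu.1, h3⟩, hu.2⟩
      rw [decide_eq_true h1, decide_eq_true h2]
      simp
    · rw [decide_eq_false h1]
      simp

/-- a bounded function of pairwise allowed variables is paid by the allowed pairs -/
lemma pos_any (A : Finset V) (hA : Allowed P A) (G : (V → Bool) → ℚ) (B : ℚ)
    (hG : ∀ z z', (∀ v ∈ A, z v = z' v) → G z = G z') (hB : ∀ z, |G z| ≤ B) :
    Pos P (2 * 8 ^ Fintype.card V * B) G := by
  have hB0 : 0 ≤ B := (abs_nonneg _).trans (hB fun _ => false)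
  have key : ∀ t ∈ A.powerset, Pos P (B * (2 * 4 ^ Fintype.card V))
      (fun x => G (fun v => decide (v ∈ t)) * (an t x - orr (A \ t) x * an t x)) := by
    intro t ht
    have ht' := mem_powerset.1 ht
    obtain ⟨a1, a2⟩ := pos_an' t (hA.mono ht')
    obtain ⟨b1, b2⟩ := pos_or (A \ t) t (hA.mono (union_subset sdiff_subset ht'))
    have hle : (2 : ℚ) ^ Fintype.card V + (2 ^ (A \ t).card - 1) * 2 ^ Fintype.card V
        ≤ 2 * 4 ^ Fintype.card V := by
      have h1 : (2 : ℚ) ^ (A \ t).card ≤ 2 ^ Fintype.card V :=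
        pow_le_pow_right₀ (by norm_num) (card_le_univ _)
      have h2 : (0 : ℚ) < 2 ^ Fintype.card V := by positivity
      rw [show (4 : ℚ) = 2 * 2 by norm_num, mul_pow]
      nlinarith
    have h3 := abs_le.1 (hB fun v => decide (v ∈ t))
    have h4 : (0 : ℚ) ≤ 2 * 4 ^ Fintype.card V := by positivity
    rcases le_total 0 (G fun v => decide (v ∈ t)) with h | h
    · refine ((((a1.add b2).mono hle).smul h).mono
        (mul_le_mul_of_nonneg_right h3.2 h4)).of_eq fun x => by ring
    · refine ((((a2.add b1).mono hle).smul (neg_nonneg.2 h)).mono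
        (mul_le_mul_of_nonneg_right (by linarith [h3.1]) h4)).of_eq fun x => by ring
  refine ((Pos.sum A.powerset key).mono ?_).of_eq fun x => ?_
  · rw [sum_const, card_powerset, nsmul_eq_mul, show (8 : ℚ) = 2 * 4 by norm_num, mul_pow]
    have h1 : (2 : ℚ) ^ A.card ≤ 2 ^ Fintype.card V :=
      pow_le_pow_right₀ (by norm_num) (card_le_univ _)
    push_cast
    calc (2 : ℚ) ^ A.card * (B * (2 * 4 ^ Fintype.card V))
        ≤ 2 ^ Fintype.card V * (B * (2 * 4 ^ Fintype.card V)) := by gcongr
      _ = _ := by ring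
  · rw [sum_congr rfl fun t ht => by rw [f2_point A t (mem_powerset.1 ht) x]]
    simp only [mul_ite, mul_one, mul_zero]
    rw [sum_ite_eq' A.powerset, if_pos (mem_powerset.2 (filter_subset _ _))]
    exact hG _ _ fun v hv => by simp [hv]

end fin

section upd
variable {Z : Type} [DecidableEq Z] {p q : Z}

lemma upd_p (h : p ≠ q) (z : Z → Bool) (a b : Bool) : upd p q z a b p = a := by
  simp [upd, update_of_ne h]

lemma upd_q (z : Z → Bool) (a b : Bool) : upd p q z a b q = b := by simp [upd]

lemma upd_ne {v : Z} (h1 : v ≠ p) (h2 : v ≠ q) (z : Z → Bool) (a b : Bool) :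
    upd p q z a b v = z v := by simp [upd, update_of_ne h1, update_of_ne h2]

lemma upd_congr {z z' : Z → Bool} (h : ∀ v, v ≠ p → v ≠ q → z v = z' v) (a b : Bool) :
    upd p q z a b = upd p q z' a b := by
  funext v
  simp only [upd, update_apply]
  split_ifs with h1 h2
  · rfl
  · rfl
  · exact h v h2 h1

lemma upd_self (z : Z → Bool) : upd p q z (z p) (z q) = z := by simp [upd]

end upd

end F2

open F2 in
theorem finSt : FinSt := by
  intro Z _ _ p q D Q E hpq hE h2 hD hQ hQE hd
  set U : Finset Z := univ \ {p, q} with hU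
  have mU : ∀ v, v ≠ p → v ≠ q → v ∈ U := fun v h1 h2 => by simp [hU, h1, h2]
  have al : ∀ a, Allowed (univ ×ˢ U) (insert a U) := by
    intro a i hi j hj hij
    rcases mem_insert.1 hj with h | h
    · rcases mem_insert.1 hi with h' | h'
      · exact absurd (h'.trans h.symm) hij
      · exact Or.inr (mem_product.2 ⟨mem_univ _, h'⟩)
    · exact Or.inl (mem_product.2 ⟨mem_univ _, h⟩)
  have h1 := pos_any _ (al p) (fun z => - D (upd p q z (z p) false)) (E ^ 13)
    (fun z z' h => by
      rw [h p (mem_insert_self _ _),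
        upd_congr fun v a b => h v (mem_insert_of_mem (mU v a b))])
    (fun z => by rw [abs_neg]; exact hD _)
  have h3 := pos_any _ (al q)
    (fun z => D (upd p q z false false) - D (upd p q z false (z q))) (2 * E ^ 13)
    (fun z z' h => by
      have e := fun a b => upd_congr (p := p) (q := q)
        (fun v a b => h v (mem_insert_of_mem (mU v a b))) a b
      rw [h q (mem_insert_self _ _), e, e])
    (fun z => (abs_sub _ _).trans (by
      linarith [hD (upd p q z false false), hD (upd p q z false (z q))]))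
  have E0 : (0 : ℚ) < E := by linarith
  have e13 : 4 * E ^ 13 ≤ E ^ 16 := by
    have : (4 : ℚ) ≤ E ^ 3 := le_trans (by norm_num) (pow_le_pow_left₀ (by norm_num) hE 3)
    calc 4 * E ^ 13 ≤ E ^ 3 * E ^ 13 := by gcongr
      _ = _ := by ring
  have h4 := pos_main U p q (al p) (al q)
    (fun t => - dpq p q D (fun v => decide (v ∈ t)) - Q (fun v => decide (v ∈ t))) (2 * E ^ 16)
    (fun t _ => by
      have a0 := hd fun v => decide (v ∈ t)
      have a1 := hQE fun v => decide (v ∈ t)
      have a2 := fun a b => abs_le.1 (hD (upd p q (fun v => decide (v ∈ t)) a b))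
      refine ⟨by linarith, ?_⟩
      unfold dpq
      linarith [(a2 true true).2, (a2 true false).1, (a2 false true).1, (a2 false false).2])
  have e8 : (8 : ℚ) ^ Fintype.card Z ≤ E ^ 3 := by
    rw [show (8 : ℚ) = 2 ^ 3 by norm_num, ← pow_mul, mul_comm, pow_mul]
    gcongr
  have hle : 2 * 8 ^ Fintype.card Z * E ^ 13 + 2 * 8 ^ Fintype.card Z * (2 * E ^ 13)
      + 3 * 8 ^ Fintype.card Z * (2 * E ^ 16) ≤ E ^ 21 := by
    have b1 : (8 : ℚ) ≤ E ^ 2 := le_trans (by norm_num) (pow_le_pow_left₀ (by norm_num) hE 2)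
    have b2 : (0 : ℚ) < E ^ 13 := by positivity
    calc _ = 8 ^ Fintype.card Z * (6 * E ^ 13 + 6 * E ^ 16) := by ring
      _ ≤ E ^ 3 * (8 * E ^ 16) := by gcongr; linarith
      _ ≤ E ^ 3 * (E ^ 2 * E ^ 16) := by gcongr
      _ = _ := by ring
  refine Ex.of_eq (((h1.add h3).add h4).mono hle) fun z => ?_
  have e1 : ∀ a b, upd p q (fun v => decide (v ∈ U.filter fun u => z u = true)) a b
      = upd p q z a b := fun a b => upd_congr (fun v a b => by simp [mU v a b]) a b
  have e2 : Q (fun v => decide (v ∈ U.filter fun u => z u = true)) = Q z := by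
    rw [← hQ _ false false, e1, hQ]
  have e3 : SS (univ ×ˢ U) z = (∑ v, bv (z v)) * ∑ v ∈ U, bv (z v) := by
    rw [SS, sum_product, sum_mul_sum]
  have e4 : D z = D (upd p q z (z p) (z q)) := by rw [upd_self]
  beta_reduce
  rw [e2, e3, e4]
  simp only [dpq, e1]
  cases z p <;> cases z q <;> simp only [bv_true, bv_false] <;> ring

namespace F2

/-- submodularity up to one product, and a sign condition for that pair -/
lemma submod_of_pair {V : Type} [DecidableEq V] {p q : V} (hpq : p ≠ q) (f : (V → Bool) → ℚ)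
    (c : ℚ) (h : Submodular fun x => f x - c * (bv (x p) * bv (x q)))
    (hd : ∀ x, dpq p q f x ≤ 0) : Submodular f := by
  have nc : ∀ x y : V → Bool, (x p = false ∧ y p = false) ∨ (x q = false ∧ y q = false) ∨
      (x p = true ∧ y p = true) ∨ (x q = true ∧ y q = true) ∨ (x p = x q ∧ y p = y q) →
      f (x ⊓ y) + f (x ⊔ y) ≤ f x + f y := by
    intro x y hc
    have := h x y
    simp only [Pi.inf_apply, Pi.sup_apply] at this
    revert this hc
    cases x p <;> cases x q <;> cases y p <;> cases y q <;> simp <;> intro h <;> linarith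
  have cr : ∀ x y : V → Bool, x p = true → x q = false → y p = false → y q = true →
      f (x ⊓ y) + f (x ⊔ y) ≤ f x + f y := by
    intro x y a1 a2 a3 a4
    have b1 := nc x (upd p q y false false) (by simp [a2, upd_q])
    have b2 := nc y (upd p q (x ⊔ y) false false) (by simp [a3, upd_p hpq])
    have b3 := hd (x ⊔ y)
    have ex : ∀ {u w : V → Bool}, u p = w p → u q = w q → (∀ v, v ≠ p → v ≠ q → u v = w v) →
        u = w := fun {u w} c1 c2 c3 => by
      rw [← upd_self (p := p) (q := q) u, c1, c2, upd_congr c3, upd_self]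
    have c1 : x ⊓ upd p q y false false = x ⊓ y :=
      ex (by simp [upd_p hpq, a3]) (by simp [upd_q, a2]) fun v d1 d2 => by simp [upd_ne d1 d2]
    have c2 : x ⊔ upd p q y false false = upd p q (x ⊔ y) true false :=
      ex (by simp [upd_p hpq, a1]) (by simp [upd_q, a2]) fun v d1 d2 => by simp [upd_ne d1 d2]
    have c3 : y ⊓ upd p q (x ⊔ y) false false = upd p q y false false :=
      ex (by simp [upd_p hpq]) (by simp [upd_q]) fun v d1 d2 => by
        simp only [Pi.sup_apply, Pi.inf_apply, upd_ne d1 d2]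
        cases x v <;> cases y v <;> rfl
    have c4 : y ⊔ upd p q (x ⊔ y) false false = upd p q (x ⊔ y) false true :=
      ex (by simp [upd_p hpq, a3]) (by simp [upd_q, a4]) fun v d1 d2 => by
        simp only [Pi.sup_apply, upd_ne d1 d2]
        cases x v <;> cases y v <;> rfl
    have c5 : upd p q (x ⊔ y) true true = x ⊔ y :=
      ex (by simp [upd_p hpq, a1]) (by simp [upd_q, a4]) fun v d1 d2 => by simp [upd_ne d1 d2]
    rw [c1, c2] at b1
    rw [c3, c4] at b2
    rw [dpq, c5] at b3
    linarith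
  intro x y
  by_cases a : x p = true ∧ x q = false ∧ y p = false ∧ y q = true
  · exact cr x y a.1 a.2.1 a.2.2.1 a.2.2.2
  · by_cases b : y p = true ∧ y q = false ∧ x p = false ∧ x q = true
    · have := cr y x b.1 b.2.1 b.2.2.1 b.2.2.2
      rw [inf_comm, sup_comm] at this
      linarith
    · refine nc x y ?_
      revert a b
      cases x p <;> cases x q <;> cases y p <;> cases y q <;> simp

/-! ### the concrete system -/

lemma ctl_inj {a b : ℕ} : ctl a = ctl b ↔ a = b := by simp [ctl]

lemma ctl_mem (I : Inst) {k : ℕ} (hk : k < 29) : ctl k ∈ vars I := by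
  simp only [vars, vars0, List.mem_cons, List.mem_append, List.mem_map, List.mem_range'_1, ctl_inj]
  by_cases h0 : k = 0
  · exact Or.inl h0
  · by_cases h1 : k = 1
    · exact Or.inr (Or.inl h1)
    · exact Or.inr (Or.inr (Or.inl ⟨k, by omega, rfl⟩))

lemma emb_val {I : Inst} {w : W} (h : w ∈ vars I) : (emb I w).1 = w := by
  rw [emb, dif_pos h]

lemma emb_coe {I : Inst} (v : ZI I) : emb I v.1 = v := Subtype.ext (emb_val v.2)

lemma emb_eq_bit {I : Inst} {w : W} {k : Fin 9} : emb I w = bitZ I k ↔ w = ctl k.val := by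
  refine ⟨fun h => ?_, fun h => by rw [h]; rfl⟩
  have h1 := congrArg Subtype.val h
  rw [bitZ, emb_val (ctl_mem I (by omega))] at h1
  by_cases hw : w ∈ vars I
  · rwa [emb_val hw] at h1
  · rw [emb, dif_neg hw] at h1
    have := ctl_inj.1 h1
    omega

lemma bitZ_inj {I : Inst} {j k : Fin 9} : bitZ I j = bitZ I k ↔ j = k := by
  refine ⟨fun h => Fin.ext (ctl_inj.1 (emb_eq_bit.1 h)), fun h => by rw [h]⟩

lemma bit01 (I : Inst) : bitZ I 0 ≠ bitZ I 1 := fun h => absurd (bitZ_inj.1 h) (by decide)

lemma upd_emb (I : Inst) (z : ZI I → Bool) (a b : Bool) :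
    upd (bitZ I 0) (bitZ I 1) z a b ∘ emb I = upd (ctl 0) (ctl 1) (z ∘ emb I) a b := by
  funext w
  simp only [upd, comp_apply, update_apply, emb_eq_bit]
  rfl

lemma upd_bit (I : Inst) (z : ZI I → Bool) (a b : Bool) :
    upd (bitZ I 0) (bitZ I 1) z a b ∘ bitZ I = update (update (z ∘ bitZ I) 0 a) 1 b := by
  funext k
  simp only [upd, comp_apply, update_apply, bitZ_inj]

lemma upd_ctl (z : W → Bool) (a b : Bool) :
    (fun k : Fin 9 => upd (ctl 0) (ctl 1) z a b (ctl k.val))
      = update (update (fun k : Fin 9 => z (ctl k.val)) 0 a) 1 b := by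
  funext k
  simp only [upd, update_apply, ctl_inj, Fin.ext_iff]
  rfl

lemma cs0_ne (I : Inst) : ∀ c ∈ cs0 I, ∀ v ∈ c.2, v ≠ ctl 0 ∧ v ≠ ctl 1 := by
  intro c hc v hv
  rcases List.mem_append.1 hc with h | h
  · obtain ⟨d, hd, rfl⟩ := List.mem_map.1 h
    obtain ⟨k, hk, rfl⟩ := List.mem_map.1 hv
    have : ∀ d ∈ ctl0, ∀ k ∈ d.2, k ≠ 0 ∧ k ≠ 1 := by decide
    simpa [ctl_inj] using this d hd k hk
  · rcases List.mem_append.1 h with h | h
    · obtain ⟨u, -, hu⟩ := List.mem_flatMap.1 h
      unfold busC at hu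
      split_ifs at hu <;> simp only [List.mem_cons, List.not_mem_nil, or_false] at hu
      · rcases hu with rfl | rfl <;> simp only [List.mem_cons, List.not_mem_nil, or_false] at hv
        · rcases hv with rfl | rfl <;> simp [xb, ctl]
        · rcases hv with rfl | rfl | rfl | rfl <;> simp [xb, ctl]
      · rcases hu with rfl | rfl <;> simp only [List.mem_cons, List.not_mem_nil, or_false] at hv
        · rcases hv with rfl | rfl <;> simp [xb, ctl]
        · rcases hv with rfl | rfl | rfl | rfl <;> simp [xb, ctl]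
      · subst hu
        simp only [List.mem_cons, List.not_mem_nil, or_false] at hv
        rcases hv with rfl | rfl <;> simp [xb, ctl]
    · obtain ⟨u, -, hu⟩ := List.mem_flatMap.1 h
      rcases List.mem_cons.1 hu with rfl | hu
      · simp only [List.mem_cons, List.not_mem_nil, or_false] at hv
        rcases hv with rfl | rfl | rfl | rfl
        · have : 9 ≤ guard u.1.1 := by
            unfold guard
            split_ifs <;> omega
          simp only [ne_eq, ctl_inj]
          omega
        all_goals simp [rl, ctl]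
      · obtain ⟨k, -, rfl⟩ := List.mem_map.1 hu
        simp only [List.mem_cons, List.not_mem_nil, or_false] at hv
        rcases hv with rfl | rfl <;> simp [rl, xb, ctl]

lemma vars0_ne (I : Inst) : ∀ v ∈ vars0 I, v ≠ ctl 0 ∧ v ≠ ctl 1 := by
  intro v hv
  simp only [vars0, List.mem_append, List.mem_map, List.mem_range'_1, List.mem_flatMap,
    List.mem_cons, List.not_mem_nil, or_false] at hv
  rcases hv with ⟨k, hk, rfl⟩ | ⟨u, -, rfl | rfl⟩ | ⟨u, -, rfl | rfl | rfl⟩
  · simp only [ne_eq, ctl_inj]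
    omega
  all_goals simp [rl, xb, ctl]

lemma sig_congr {α : Type} {c : ℕ × List α} {z z' : α → Bool} (h : ∀ v ∈ c.2, z v = z' v) :
    sig c z = sig c z' := by
  unfold sig
  rw [List.map_congr_left fun v hv => by rw [h v hv]]

lemma pen0_upd (I : Inst) (z : W → Bool) (a b : Bool) :
    pen (cs0 I) (upd (ctl 0) (ctl 1) z a b) = pen (cs0 I) z := by
  unfold pen penc
  rw [List.map_congr_left fun c hc => by
    rw [sig_congr fun v hv => upd_ne (cs0_ne I c hc v hv).1 (cs0_ne I c hc v hv).2 z a b]]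

lemma lam0_upd (I : Inst) (z : W → Bool) (a b : Bool) :
    lam (cs0 I) (upd (ctl 0) (ctl 1) z a b) = lam (cs0 I) z := by
  unfold lam lamc
  rw [List.map_congr_left fun c hc => by
    rw [sig_congr fun v hv => upd_ne (cs0_ne I c hc v hv).1 (cs0_ne I c hc v hv).2 z a b]]

lemma penc_nonneg {α : Type} (c : ℕ × List α) (z : α → Bool) : 0 ≤ penc c z := by
  unfold penc
  rcases le_or_gt (sig c z) 1 with h | h
  · exact mul_nonneg_of_nonpos_of_nonpos (by omega) (by omega)
  · exact mul_nonneg (by omega) (by omega)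

lemma pen_nonneg {α : Type} (c : Cs α) (z : α → Bool) : 0 ≤ pen c z :=
  List.sum_nonneg fun t ht => by
    obtain ⟨d, -, rfl⟩ := List.mem_map.1 ht
    exact penc_nonneg d z

lemma pen_cs (I : Inst) (z : W → Bool) : pen (cs I) z = pen spec z + pen (cs0 I) z := by
  simp only [pen, cs, List.map_append, List.sum_append]

lemma lam_cs (I : Inst) (z : W → Bool) : lam (cs I) z = lam spec z + lam (cs0 I) z := by
  simp only [lam, cs, List.map_append, List.sum_append]

lemma spec_mod (z : W → Bool) :
    pen spec (upd (ctl 0) (ctl 1) z true true) + pen spec (upd (ctl 0) (ctl 1) z false false)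
      = pen spec (upd (ctl 0) (ctl 1) z true false) + pen spec (upd (ctl 0) (ctl 1) z false true) ∧
    lam spec (upd (ctl 0) (ctl 1) z true true) + lam spec (upd (ctl 0) (ctl 1) z false false)
      = lam spec (upd (ctl 0) (ctl 1) z true false)
        + lam spec (upd (ctl 0) (ctl 1) z false true) := by
  simp only [pen, lam, spec, penc, lamc, sig, upd, update_apply, ctl_inj, List.map_cons,
    List.map_nil, List.sum_cons, List.sum_nil]
  norm_num
  constructor <;> ring

lemma dpq_FW (h0s : H0St) (M E : ℚ) (I : Inst) (s : Tm) (z : W → Bool) :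
    dpq (ctl 0) (ctl 1) (FW M E I s) z = - (E ^ 14 * (bv (z (ctl 9)) + pen (cs0 I) z)) := by
  have n01 : ctl 0 ≠ ctl 1 := by simp [ctl_inj]
  have e1 : ∀ a b, ((vars0 I).map fun v => bv (upd (ctl 0) (ctl 1) z a b v))
      = (vars0 I).map fun v => bv (z v) := fun a b => List.map_congr_left fun v hv => by
    rw [upd_ne (vars0_ne I v hv).1 (vars0_ne I v hv).2]
  have e2 : ∀ a b, upd (ctl 0) (ctl 1) z a b (ctl 9) = z (ctl 9) := fun a b =>
    upd_ne (by simp [ctl_inj]) (by simp [ctl_inj]) z a b
  have e3 := (h0s M fun k : Fin 9 => z (ctl k.val)).2.2.2.2.2.2.2.2 s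
  obtain ⟨e4, e5⟩ := spec_mod z
  have e6 := congrArg (fun t : ℤ => (t : ℚ)) e4
  have e7 := congrArg (fun t : ℤ => (t : ℚ)) e5
  simp only [dpq, FW, vars, List.map_cons, List.sum_cons, e1, e2, upd_p n01, upd_q, upd_ctl,
    pen_cs, lam_cs, pen0_upd, lam0_upd, bv_true, bv_false]
  push_cast at e6 e7 ⊢
  linear_combination e3 - 24 * (sU s + sV s) ^ 2 * e6 - E ^ 5 * (sU s + sV s) * e7

end F2

open F2 in
theorem submodSt : H0St → SubmodSt := by
  intro h0s M E I c hE h
  refine submod_of_pair (p := Sum.inr (bitZ I 0)) (q := Sum.inr (bitZ I 1))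
    (fun e => bit01 I (Sum.inr.inj e)) _ c h fun x => ?_
  have e : ∀ a b, fZ M E I (upd (Sum.inr (bitZ I 0)) (Sum.inr (bitZ I 1)) x a b)
      = FW M E I (x ∘ Sum.inl) (upd (ctl 0) (ctl 1) (x ∘ Sum.inr ∘ emb I) a b) := by
    intro a b
    refine congrArg₂ (FW M E I) ?_ ?_
    · funext i
      simp [upd]
    · funext w
      simp only [upd, comp_apply, update_apply, Sum.inr.injEq, emb_eq_bit]
      rfl
  have h1 := dpq_FW h0s M E I (x ∘ Sum.inl) (x ∘ Sum.inr ∘ emb I)
  have h2 : (0 : ℚ) ≤ pen (cs0 I) (x ∘ Sum.inr ∘ emb I) := by exact_mod_cast pen_nonneg _ _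
  have h3 := bv_nonneg ((x ∘ Sum.inr ∘ emb I) (ctl 9))
  have h4 : 0 ≤ E ^ 14 * (bv ((x ∘ Sum.inr ∘ emb I) (ctl 9))
      + pen (cs0 I) (x ∘ Sum.inr ∘ emb I)) := by positivity
  unfold dpq at h1 ⊢
  simp only [e]
  linarith

end Pool.Agent.Lib.MP_cb9cb0_lc.X
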