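import Pool.Agent.Lib.MP_cb9cb0_lc.X.Fin

/-!
The rest `h0 - nf` is paid by the slack.
-/

set_option autoImplicit false

namespace Pool.Agent.Lib.MP_cb9cb0_lc.X

open Finset Function

namespace Fn

abbrev Vx := Fin 10 ⊕ Fin 9

/-- expressible after subtracting slack and adding debris -/
def Pay (F : (Vx → Bool) → ℚ) : Prop := ∃ (c : ℚ) (D : Bt → ℚ), 0 ≤ c ∧
  (∀ b b' : Bt, (∀ i, 2 ≤ i → b i = b' i) → D b = D b') ∧
  Ex (fun x => F x - c * slack (x ∘ Sum.inl) (x ∘ Sum.inr) + D (x ∘ Sum.inr))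

variable {F G : (Vx → Bool) → ℚ}

lemma Pay.of_eq (h : Pay F) (e : ∀ x, F x = G x) : Pay G := by
  have : F = G := funext e
  rwa [← this]

lemma Pay.of_ex (h : Ex F) : Pay F :=
  ⟨0, fun _ => 0, le_rfl, fun _ _ _ => rfl, h.of_eq fun x => by ring⟩

lemma Pay.add (h : Pay F) (h' : Pay G) : Pay (fun x => F x + G x) := by
  obtain ⟨c, D, c0, hD, h⟩ := h
  obtain ⟨c', D', c0', hD', h'⟩ := h'
  exact ⟨c + c', fun b => D b + D' b, add_nonneg c0 c0',
    fun b b' e => by beta_reduce; rw [hD b b' e, hD' b b' e], (h.add h').of_eq fun x => by ring⟩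

lemma Pay.smul (h : Pay F) {k : ℚ} (hk : 0 ≤ k) : Pay (fun x => k * F x) := by
  obtain ⟨c, D, c0, hD, h⟩ := h
  exact ⟨k * c, fun b => k * D b, mul_nonneg hk c0,
    fun b b' e => by beta_reduce; rw [hD b b' e], (h.smul hk).of_eq fun x => by ring⟩

lemma Pay.sum {I : Type} (s : Finset I) {c : I → (Vx → Bool) → ℚ} (h : ∀ i ∈ s, Pay (c i)) :
    Pay (fun z => ∑ i ∈ s, c i z) := by
  classical
  induction s using Finset.induction_on with
  | empty => exact (Pay.of_ex Ex.zero).of_eq (by simp)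
  | insert i s hi ih =>
    refine ((h i (by simp)).add (ih fun j hj => h j (by simp [hj]))).of_eq fun z => ?_
    rw [Finset.sum_insert hi]

lemma pay_neg (J : Finset Vx) : Pay (fun x => - an J x) := Pay.of_ex (ex_neg_an J)

lemma pay_av {J : Finset Vx} (h : Av J) : Pay (an J) := by
  refine ⟨1, fun _ => 0, zero_le_one, fun _ _ _ => rfl,
    (Ex.sum ((univ.filter Av).erase J) fun J _ => ex_neg_an J).of_eq fun x => ?_⟩
  simp only [slack, Sum.elim_comp_inl_inr, sum_neg_distrib]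
  rw [← add_sum_erase _ _ (mem_filter.2 ⟨mem_univ J, h⟩)]
  ring

lemma pay_deb {i j : Fin 9} (hi : 2 ≤ i) (hj : 2 ≤ j) : Pay (an {Sum.inr i, Sum.inr j}) :=
  ⟨0, fun b => - (bv (b i) * bv (b j)), le_rfl, fun b b' e => by
    beta_reduce
    rw [e i hi, e j hj], Ex.zero.of_eq fun x => by
      rw [an_insert]
      simp [an]⟩

lemma an_union {V : Type} [DecidableEq V] (A B : Finset V) (x : V → Bool) :
    an (A ∪ B) x = an A x * an B x := by
  induction A using Finset.induction_on with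
  | empty => simp [an]
  | insert a A _ ih => rw [insert_union, an_insert, an_insert, ih, mul_assoc]

lemma pay_psi (A B C : Finset Vx) {J : Finset Vx} (e : A ∪ B ∪ C = J) (h1 : Pay (an (A ∪ B)))
    (h2 : Pay (an (A ∪ C))) (h3 : Pay (an (B ∪ C))) : Pay (an J) :=
  ((((Pay.of_ex (ex_psi_and A B C)).add h1).add h2).add h3).of_eq fun x => by
    simp only [← e, an_union, psi]
    ring

lemma pay_erase {J : Finset Vx} {u v w : Vx} (huv : u ≠ v) (huw : u ≠ w) (hvw : v ≠ w)
    (h1 : Pay (an (J.erase u))) (h2 : Pay (an (J.erase v))) (h3 : Pay (an (J.erase w))) :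
    Pay (an J) := by
  have k : ∀ a b c : Vx, a ≠ b → a ≠ c → b ≠ c →
      ((J.erase a).erase b) ∪ ((J.erase a).erase c) = J.erase a := fun a b c _ _ h => by
    ext t
    simp only [mem_union, mem_erase]
    by_cases ht : t = b
    · subst ht
      tauto
    · tauto
  refine pay_psi ((J.erase u).erase v) ((J.erase u).erase w) ((J.erase v).erase w) ?_ ?_ ?_ ?_
  · ext t
    simp only [mem_union, mem_erase]
    by_cases a : t = u
    · subst a
      tauto
    · by_cases b : t = v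
      · subst b
        tauto
      · tauto
  · rwa [k u v w huv huw hvw]
  · rwa [erase_right_comm, k v u w huv.symm hvw huw]
  · rwa [erase_right_comm, erase_right_comm (a := v), k w u v huw.symm hvw.symm huv]

def Big (I : Finset (Fin 10)) : Prop := 4 ≤ I.card ∨ (I.card = 3 ∧ ¬ Exa I)
def Good (B : Finset (Fin 9)) : Prop := B.card ≤ 1 ∨ (B.card ≤ 2 ∧ ∀ i ∈ B, 2 ≤ i)

instance : DecidablePred Big := fun _ => by unfold Big; infer_instance

lemma two_non {I : Finset (Fin 10)} (h : I.card = 4) :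
    ∃ a ∈ I, ∃ b ∈ I, a ≠ b ∧ ¬ Exa (I.erase a) ∧ ¬ Exa (I.erase b) := by
  by_cases h1 : 0 ∈ I ∧ 1 ∈ I
  · refine ⟨0, h1.1, 1, h1.2, by decide, ?_, ?_⟩
    · rintro (h | ⟨-, -, h⟩)
      · simp at h
      · exact absurd (h 1 (by simp [h1.2])) (by decide)
    · rintro (h | ⟨-, -, h⟩)
      · simp at h
      · exact absurd (h 0 (by simp [h1.1])) (by decide)
  by_cases h2 : 5 ∈ I ∧ 6 ∈ I
  · refine ⟨5, h2.1, 6, h2.2, by decide, ?_, ?_⟩
    · rintro (h | ⟨h, -, -⟩)
      · exact h1 ⟨mem_of_mem_erase h.1, mem_of_mem_erase h.2⟩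
      · simp at h
    · rintro (h | ⟨-, h, -⟩)
      · exact h1 ⟨mem_of_mem_erase h.1, mem_of_mem_erase h.2⟩
      · simp at h
  obtain ⟨a, ha, b, hb, hab⟩ := one_lt_card.1 (by omega : 1 < I.card)
  have k : ∀ c, ¬ Exa (I.erase c) := fun c => by
    rintro (h | ⟨h, h', -⟩)
    · exact h1 ⟨mem_of_mem_erase h.1, mem_of_mem_erase h.2⟩
    · exact h2 ⟨mem_of_mem_erase h, mem_of_mem_erase h'⟩
  exact ⟨a, ha, b, hb, hab, k a, k b⟩

lemma eraseL (I : Finset (Fin 10)) (B : Finset (Fin 9)) (a : Fin 10) :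
    (I.disjSum B).erase (Sum.inl a) = (I.erase a).disjSum B := by
  ext (t | t) <;> simp

lemma eraseR (I : Finset (Fin 10)) (B : Finset (Fin 9)) (a : Fin 9) :
    (I.disjSum B).erase (Sum.inr a) = I.disjSum (B.erase a) := by
  ext (t | t) <;> simp

lemma pay3 {I : Finset (Fin 10)} {B : Finset (Fin 9)} (h : I.card = 3) (hn : ¬ Exa I)
    (hB : Good B) : Pay (an (I.disjSum B)) := by
  have k : ∀ B : Finset (Fin 9), B.card ≤ 1 → Pay (an (I.disjSum B)) := fun B hB =>
    pay_av (Or.inr (Or.inr (Or.inl (by simp [h, hn, hB]))))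
  by_cases h1 : B.card ≤ 1
  · exact k B h1
  obtain ⟨h2, h3⟩ := hB.resolve_left h1
  obtain ⟨i, j, -, rfl⟩ := card_eq_two.1 (by omega : B.card = 2)
  have e : ∀ i : Fin 9, I.disjSum ∅ ∪ {Sum.inr i} = I.disjSum {i} := fun i => by
    ext (t | t) <;> simp
  refine pay_psi (I.disjSum ∅) {Sum.inr i} {Sum.inr j} ?_ ?_ ?_ ?_
  · ext (t | t) <;> simp
  · rw [e]
    exact k _ (by simp)
  · rw [e]
    exact k _ (by simp)
  · exact pay_deb (h3 i (by simp)) (h3 j (by simp))

lemma pay4 {I : Finset (Fin 10)} (h : I.card = 4) : ∀ (n : ℕ) (B : Finset (Fin 9)), B.card = n →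
    Good B → Pay (an (I.disjSum B))
  | 0, B, hc, _ => pay_av (Or.inr (Or.inr (Or.inr (by
      rw [toLeft_disjSum, toRight_disjSum]
      exact ⟨h, card_eq_zero.1 hc⟩))))
  | n + 1, B, hc, hB => by
    obtain ⟨g, hg⟩ := card_pos.1 (by omega : 0 < B.card)
    obtain ⟨a, ha, b, hb, hab, na, nb⟩ := two_non h
    have hg' := card_erase_of_mem hg
    refine pay_erase (u := Sum.inl a) (v := Sum.inl b) (w := Sum.inr g) (by simpa using hab)
      (by simp) (by simp) ?_ ?_ ?_
    · rw [eraseL]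
      exact pay3 (by rw [card_erase_of_mem ha, h]) na hB
    · rw [eraseL]
      exact pay3 (by rw [card_erase_of_mem hb, h]) nb hB
    · rw [eraseR]
      refine pay4 h n _ (by omega) (Or.inl ?_)
      rcases hB with hB | hB <;> omega

lemma pay5 {B : Finset (Fin 9)} (hB : Good B) : ∀ (n : ℕ) (I : Finset (Fin 10)), I.card = n + 4 →
    Pay (an (I.disjSum B))
  | 0, _, h => pay4 h _ B rfl hB
  | n + 1, I, h => by
    obtain ⟨a, b, c, ha, hb, hc, hab, hac, hbc⟩ := two_lt_card_iff.1 (by omega : 2 < I.card)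
    have k : ∀ a ∈ I, Pay (an ((I.disjSum B).erase (Sum.inl a))) := fun a ha => by
      rw [eraseL]
      exact pay5 hB n _ (by rw [card_erase_of_mem ha, h]; omega)
    exact pay_erase (by simpa using hab) (by simpa using hac) (by simpa using hbc)
      (k a ha) (k b hb) (k c hc)

lemma pay_big {I : Finset (Fin 10)} {B : Finset (Fin 9)} (h : Big I) (hB : Good B) :
    Pay (an (I.disjSum B)) := by
  rcases h with h | ⟨h, hn⟩
  · exact pay5 hB (I.card - 4) I (by omega)
  · exact pay3 h hn hB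

lemma Big.insert {I : Finset (Fin 10)} (h : Big I) (i : Fin 10) : Big (insert i I) := by
  by_cases hi : i ∈ I
  · rwa [insert_eq_of_mem hi]
  · refine Or.inl ?_
    rw [card_insert_of_notMem hi]
    rcases h with h | h <;> omega

lemma pay_delta {B : Finset (Fin 9)} (hB : Good B) (T : Finset (Fin 10)) :
    ∀ I, Big I → ∀ k : ℚ, Pay (fun x => k * (an I (x ∘ Sum.inl) *
      ∏ i ∈ T, (1 - bv (x (Sum.inl i)))) * an B (x ∘ Sum.inr)) := by
  induction T using Finset.induction_on with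
  | empty =>
    intro I h k
    have e : ∀ x : Vx → Bool, an (I.disjSum B) x = an I (x ∘ Sum.inl) * an B (x ∘ Sum.inr) :=
      fun x => by simp [an, prod_disjSum]
    rcases le_total 0 k with hk | hk
    · exact ((pay_big h hB).smul hk).of_eq fun x => by rw [e, prod_empty]; ring
    · exact ((pay_neg (I.disjSum B)).smul (neg_nonneg.2 hk)).of_eq fun x => by
        rw [e, prod_empty]; ring
  | insert i T hi ih =>
    intro I h k
    exact ((ih I h k).add (ih _ (h.insert i) (-k))).of_eq fun x => by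
      rw [prod_insert hi, an_insert, comp_apply]
      ring

lemma expand (F : Tm → ℚ) (s : Tm) :
    F s = ∑ I : Finset (Fin 10), F (ind I) * (an I s * ∏ i ∈ Iᶜ, (1 - bv (s i))) := by
  rw [sum_eq_single (univ.filter fun i => s i = true)]
  · have e : ind (univ.filter fun i => s i = true) = s := by
      funext i
      simp [ind]
    rw [e, an, prod_eq_one, prod_eq_one]
    · ring
    · intro i hi
      have : s i = false := by simpa using hi
      simp [this]
    · intro i hi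
      simp [(mem_filter.1 hi).2]
  · intro I _ hI
    obtain ⟨i, hi⟩ : ∃ i, ¬ (i ∈ I ↔ s i = true) := by
      by_contra hc
      push Not at hc
      exact hI (by ext i; simp [hc i])
    by_cases h : i ∈ I
    · have : s i = false := by simpa [h] using hi
      rw [an, prod_eq_zero h (by simp [this])]
      ring
    · have : s i = true := by simpa [h] using hi
      rw [prod_eq_zero (mem_compl.2 h) (by simp [this])]
      ring
  · simp

lemma pay_soft {F : Tm → ℚ} (hF : ∀ I, ¬ Big I → F (ind I) = 0) {B : Finset (Fin 9)}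
    (hB : Good B) : Pay (fun x => F (x ∘ Sum.inl) * an B (x ∘ Sum.inr)) := by
  refine (Pay.sum univ (c := fun I x => F (ind I) * (an I (x ∘ Sum.inl) *
      ∏ i ∈ Iᶜ, (1 - bv (x (Sum.inl i)))) * an B (x ∘ Sum.inr)) fun I _ => ?_).of_eq fun x => ?_
  · by_cases h : Big I
    · exact pay_delta hB _ I h _
    · exact (Pay.of_ex Ex.zero).of_eq fun x => by simp [hF I h]
  · rw [expand F (x ∘ Sum.inl), sum_mul]
    rfl

def rU (s : Tm) : ℚ := aU s + max (sU s - 1) 0
def rV (s : Tm) : ℚ := aV s + max (sV s - 1) 0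
def rM (s : Tm) : ℚ := aM s + max (sU s + sV s - 1) 0 - max (sU s - 1) 0 - max (sV s - 1) 0

lemma small {I : Finset (Fin 10)} (h : ¬ Big I) : ∃ a b c, (I = ∅ ∨ I = {a, b} ∨
    (I = {a, b, c} ∧ ((a = 0 ∧ b = 1) ∨ (a = 5 ∧ b = 6 ∧ 5 ≤ c)))) := by
  have h3 : I.card ≤ 3 := by
    by_contra hc
    exact h (Or.inl (by omega))
  obtain h' | h' | h' | h' : I.card = 0 ∨ I.card = 1 ∨ I.card = 2 ∨ I.card = 3 := by omega
  · exact ⟨0, 0, 0, Or.inl (card_eq_zero.1 h')⟩
  · obtain ⟨a, rfl⟩ := card_eq_one.1 h'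
    exact ⟨a, a, a, Or.inr (Or.inl (by simp))⟩
  · obtain ⟨a, b, -, rfl⟩ := card_eq_two.1 h'
    exact ⟨a, b, a, Or.inr (Or.inl rfl)⟩
  · have hE : Exa I := by
      by_contra hc
      exact h (Or.inr ⟨h', hc⟩)
    have k : ∀ a b, a ∈ I → b ∈ I → a ≠ b → ∃ c ∈ I, I = {a, b, c} := fun a b ha hb hab => by
      have hb' : b ∈ I.erase a := mem_erase.2 ⟨hab.symm, hb⟩
      obtain ⟨c, hc⟩ := card_eq_one.1 (by
        rw [card_erase_of_mem hb', card_erase_of_mem ha, h'] : ((I.erase a).erase b).card = 1)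
      refine ⟨c, mem_of_mem_erase (mem_of_mem_erase (hc ▸ mem_singleton_self c)), ?_⟩
      rw [← hc, insert_erase hb', insert_erase ha]
    rcases hE with ⟨h0, h1⟩ | ⟨h5, h6, h7⟩
    · obtain ⟨c, -, e⟩ := k 0 1 h0 h1 (by decide)
      exact ⟨0, 1, c, Or.inr (Or.inr ⟨e, Or.inl ⟨rfl, rfl⟩⟩)⟩
    · obtain ⟨c, hc, e⟩ := k 5 6 h5 h6 (by decide)
      exact ⟨5, 6, c, Or.inr (Or.inr ⟨e, Or.inr ⟨rfl, rfl, h7 c hc⟩⟩)⟩

lemma soft {I : Finset (Fin 10)} (h : ¬ Big I) :
    rU (ind I) = 0 ∧ rV (ind I) = 0 ∧ rM (ind I) = 0 := by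
  obtain ⟨a, b, c, rfl | rfl | ⟨rfl, ⟨rfl, rfl⟩ | ⟨rfl, rfl, hc⟩⟩⟩ := small h
  · decide +kernel
  · clear h
    revert a b
    decide +kernel
  · clear h
    revert c
    decide +kernel
  · clear h
    revert c
    decide +kernel

lemma pay_sU (h : ∀ u, u < 5 → Pay fun x => F x * bv (x (Sum.inl u))) :
    Pay fun x => F x * sU (x ∘ Sum.inl) :=
  (((((h 0 (by decide)).add (h 1 (by decide))).add (h 2 (by decide))).add (h 3 (by decide))).add
    (h 4 (by decide))).of_eq fun x => by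
      simp only [sU, comp_apply]
      ring

lemma pay_sV (h : ∀ v, 5 ≤ v → Pay fun x => F x * bv (x (Sum.inl v))) :
    Pay fun x => F x * sV (x ∘ Sum.inl) :=
  (((((h 5 (by decide)).add (h 6 (by decide))).add (h 7 (by decide))).add (h 8 (by decide))).add
    (h 9 (by decide))).of_eq fun x => by
      simp only [sV, comp_apply]
      ring

lemma pay_mix {u v : Fin 10} (hu : u < 5) (hv : 5 ≤ v) (l : Fin 9) :
    Pay (an {Sum.inl u, Sum.inl v, Sum.inr 5, Sum.inr l}) :=
  pay_av (by revert u v l; decide +kernel)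

lemma pay_A (β : Fin 9) :
    Pay fun x => bv (x (Sum.inr β)) * bv (x (Sum.inr 5)) * aM (x ∘ Sum.inl) := by
  have h1 : Pay fun x => - (bv (x (Sum.inr β)) * bv (x (Sum.inr 5))) * sU (x ∘ Sum.inl)
      * sV (x ∘ Sum.inl) := pay_sV fun v _ =>
    (pay_sU (F := fun x => - (bv (x (Sum.inr β)) * bv (x (Sum.inr 5)) * bv (x (Sum.inl v))))
      fun u _ => (pay_neg {Sum.inl u, Sum.inl v, Sum.inr 5, Sum.inr β}).of_eq fun x => by
        simp only [an_insert]
        simp only [an, prod_singleton]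
        ring).of_eq fun x => by ring
  have h2 : Pay fun x => bv (x (Sum.inr β)) * bv (x (Sum.inr 5)) * bv (x (Sum.inl 0))
      * bv (x (Sum.inl 1)) * sV (x ∘ Sum.inl) := pay_sV fun v hv => by
    refine (pay_psi {Sum.inl 0, Sum.inl v, Sum.inr 5} {Sum.inl 1, Sum.inl v, Sum.inr 5}
      {Sum.inl v, Sum.inr 5, Sum.inr β} (J := {Sum.inl 0, Sum.inl 1, Sum.inl v, Sum.inr 5,
        Sum.inr β}) ?_ (pay_av ?_) (pay_av ?_) (pay_av ?_)).of_eq fun x => ?_
    iterate 4
      clear h1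
      revert v β
      decide +kernel
    simp only [an_insert]
    simp only [an, prod_singleton]
    ring
  exact (h1.add h2).of_eq fun x => by
    simp only [aM, comp_apply]
    ring

lemma pay_B {β l : Fin 9} (hβ : 2 ≤ β) (hl : 2 ≤ l) : Pay fun x =>
    - (bv (x (Sum.inr β)) * bv (x (Sum.inr l)) * bv (x (Sum.inr 5)) * aM (x ∘ Sum.inl)) := by
  have h1 : Pay fun x => (bv (x (Sum.inr β)) * bv (x (Sum.inr l)) * bv (x (Sum.inr 5)))
      * sU (x ∘ Sum.inl) * sV (x ∘ Sum.inl) := pay_sV fun v hv =>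
    (pay_sU (F := fun x => bv (x (Sum.inr β)) * bv (x (Sum.inr l)) * bv (x (Sum.inr 5))
      * bv (x (Sum.inl v))) fun u hu => by
        have e : ∀ t : Fin 9, ({Sum.inl u, Sum.inl v, Sum.inr 5} : Finset Vx) ∪ {Sum.inr t}
            = {Sum.inl u, Sum.inl v, Sum.inr 5, Sum.inr t} := fun t => by
          simp only [insert_eq, union_assoc]
        refine (pay_psi {Sum.inl u, Sum.inl v, Sum.inr 5} {Sum.inr β} {Sum.inr l} rfl ?_ ?_
          (pay_deb hβ hl)).of_eq fun x => ?_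
        · rw [e]
          exact pay_mix hu hv β
        · rw [e]
          exact pay_mix hu hv l
        · simp only [an_union, an_insert]
          simp only [an, prod_singleton]
          ring).of_eq fun x => by ring
  have h2 : Pay fun x => - (bv (x (Sum.inr β)) * bv (x (Sum.inr l)) * bv (x (Sum.inr 5))
      * bv (x (Sum.inl 0)) * bv (x (Sum.inl 1))) * sV (x ∘ Sum.inl) := pay_sV fun v _ =>
    (pay_neg {Sum.inl 0, Sum.inl 1, Sum.inl v, Sum.inr 5, Sum.inr β, Sum.inr l}).of_eq fun x => by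
      simp only [an_insert]
      simp only [an, prod_singleton]
      ring
  exact (h1.add h2).of_eq fun x => by
    simp only [aM, comp_apply]
    ring

lemma pay_one {F : Tm → ℚ} (hF : ∀ I, ¬ Big I → F (ind I) = 0) (β : Fin 9) :
    Pay fun x => bv (x (Sum.inr β)) * F (x ∘ Sum.inl) :=
  (pay_soft hF (B := {β}) (Or.inl (by simp))).of_eq fun x => by
    simp only [an, prod_singleton, comp_apply]
    ring

lemma pay_C {β l : Fin 9} (hβ : 2 ≤ β) (hl : 2 ≤ l) : Pay fun x =>
    bv (x (Sum.inr β)) * bv (x (Sum.inr l)) *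
      (rM (x ∘ Sum.inl) - bv (x (Sum.inr 5)) * aM (x ∘ Sum.inl)) :=
  ((pay_B hβ hl).add (pay_soft (fun _ h => (soft h).2.2) (B := {β, l})
    (Or.inr ⟨card_le_two, by simp [hβ, hl]⟩))).of_eq fun x => by
      rw [an_insert]
      simp only [an, prod_singleton, comp_apply]
      ring

lemma pay_V {β : Fin 9} (hβ : 2 ≤ β) : Pay fun x => bv (x (Sum.inr β)) * (rV (x ∘ Sum.inl) +
    bv (x (Sum.inr 5)) * aM (x ∘ Sum.inl) +
      lnk (x ∘ Sum.inr) * (rM (x ∘ Sum.inl) - bv (x (Sum.inr 5)) * aM (x ∘ Sum.inl))) :=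
  (((((pay_one (fun _ h => (soft h).2.1) β).add (pay_A β)).add
    (pay_C hβ (l := 6) (by decide))).add (pay_C hβ (l := 7) (by decide))).add
    (pay_C hβ (l := 8) (by decide))).of_eq fun x => by
      simp only [lnk, comp_apply]
      ring

end Fn

open Fn

theorem pxSt : PXSt := by
  have u := pay_one (F := rU) fun _ h => (soft h).1
  obtain ⟨c, D, -, hD, h⟩ := ((((u 0).add (u 1)).add (u 2)).add
    (pay_V (β := 3) (by decide))).add ((pay_V (β := 4) (by decide)).smul (k := 2) (by norm_num))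
  refine ⟨⌈c⌉₊, fun x => muU (x ∘ Sum.inr) * rU (x ∘ Sum.inl) + muV (x ∘ Sum.inr) *
    (rV (x ∘ Sum.inl) + bv (x (Sum.inr 5)) * aM (x ∘ Sum.inl) +
      lnk (x ∘ Sum.inr) * (rM (x ∘ Sum.inl) - bv (x (Sum.inr 5)) * aM (x ∘ Sum.inl)))
    - (⌈c⌉₊ : ℚ) * slack (x ∘ Sum.inl) (x ∘ Sum.inr), D, hD,
    (h.add (ex_slack.smul (sub_nonneg.2 (Nat.le_ceil c)))).of_eq fun x => ?_, fun s b hb => ?_⟩
  · simp only [muU, muV, comp_apply]
    ring
  · simp only [Sum.elim_comp_inl, Sum.elim_comp_inr, Sum.elim_inr, h0, nf, rU, rV, rM]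
    rcases hb.2 with h5 | h5
    · rw [h5, bv_true]
      ring
    · rw [h5]
      ring

end Pool.Agent.Lib.MP_cb9cb0_lc.X
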