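import Pool.Agent.Lib.MP_cb9cb0_lc.X.Basic

/-!
Gluing of the regions on which the state is constant.
-/

set_option autoImplicit false

namespace Pool.Agent.Lib.MP_cb9cb0_lc.X

open Finset Function

namespace Gate

section alg
variable {Z W W' : Type} [DecidableEq Z] {p q : Z} {Γ : (Z → Bool) → Prop}

lemma of_ex {Φ : (W ⊕ Z → Bool) → ℚ} (h : Ex Φ) : Adm p q Γ 0 Φ :=
  ⟨fun _ => 0, fun _ => by simp, fun _ _ => by simp [dpq], h.of_eq fun _ => by simp⟩

lemma mono {B B' : ℚ} {Φ : (W ⊕ Z → Bool) → ℚ} (h : Adm p q Γ B Φ) (hB : B ≤ B') :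
    Adm p q Γ B' Φ := by
  obtain ⟨D, h1, h2, h3⟩ := h
  exact ⟨D, fun z => (h1 z).trans hB, h2, h3⟩

lemma of_eq {B : ℚ} {Φ Φ' : (W ⊕ Z → Bool) → ℚ} (h : Adm p q Γ B Φ) (e : ∀ x, Φ x = Φ' x) :
    Adm p q Γ B Φ' := by
  have : Φ = Φ' := funext e
  rwa [← this]

lemma add {B B' : ℚ} {Φ Φ' : (W ⊕ Z → Bool) → ℚ} (h : Adm p q Γ B Φ) (h' : Adm p q Γ B' Φ') :
    Adm p q Γ (B + B') (fun x => Φ x + Φ' x) := by
  obtain ⟨D, h1, h2, h3⟩ := h
  obtain ⟨D', h1', h2', h3'⟩ := h'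
  refine ⟨fun z => D z + D' z, fun z => (abs_add_le _ _).trans (add_le_add (h1 z) (h1' z)),
    fun z hz => ?_, (h3.add h3').of_eq fun x => by ring⟩
  have a := h2 z hz
  have b := h2' z hz
  simp only [dpq] at a b ⊢
  linarith

lemma sum {I : Type} (s : Finset I) {B : ℚ} {Φ : I → (W ⊕ Z → Bool) → ℚ}
    (h : ∀ i ∈ s, Adm p q Γ B (Φ i)) : Adm p q Γ (s.card * B) (fun x => ∑ i ∈ s, Φ i x) := by
  classical
  induction s using Finset.induction_on with
  | empty => exact of_eq (mono (of_ex Ex.zero) (by simp)) (by simp)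
  | insert i s hi ih =>
    refine of_eq (mono (add (h i (by simp)) (ih fun j hj => h j (by simp [hj]))) ?_) fun z => ?_
    · rw [card_insert_of_notMem hi]
      push_cast
      linarith
    · rw [Finset.sum_insert hi]

/-- a function of the context is moved to the debris -/
lemma move {B B' : ℚ} {Φ : (W ⊕ Z → Bool) → ℚ} (G : (Z → Bool) → ℚ)
    (h : Adm p q Γ B (fun x => Φ x + G (x ∘ Sum.inr))) (h1' : ∀ z, |G z| ≤ B')
    (h2' : ∀ z, Γ z → dpq p q G z = 0) : Adm p q Γ (B + B') Φ := by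
  obtain ⟨D, h1, h2, h3⟩ := h
  refine ⟨fun z => D z + G z, fun z => (abs_add_le _ _).trans (add_le_add (h1 z) (h1' z)),
    fun z hz => ?_, h3.of_eq fun x => by ring⟩
  have a := h2 z hz
  have b := h2' z hz
  simp only [dpq] at a b ⊢
  linarith

lemma pin_at {B : ℚ} {φ : (Z → Bool) → Bool} (h : Pin p q Γ B φ) (t : W) :
    Adm p q Γ B (fun x : W ⊕ Z → Bool => - (bv (x (Sum.inl t)) * bv (φ (x ∘ Sum.inr)))) := by
  obtain ⟨D, h1, h2, h3⟩ := h
  exact ⟨D, h1, h2, h3.rename (Sum.map (fun _ => t) id)⟩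

end alg

/-- the gate -/
def gt (t i j : Bool) : Bool := (t && i) || j

lemma bv_gt (t i j : Bool) : bv (gt t i j) = bv t * bv i + bv j - bv t * bv i * bv j := by
  cases t <;> cases i <;> cases j <;> simp [gt]

section gate
variable {Z W : Type}

/-- debris of a gate -/
def dg (I J : (Z → Bool) → Bool) (DI DJ : (Z → Bool) → ℚ) (t : W) (u : W ⊕ Z → Bool) : ℚ :=
  bv (J (u ∘ Sum.inr)) - bv (u (Sum.inl t)) * bv (I (u ∘ Sum.inr)) * bv (J (u ∘ Sum.inr)) +
    2 * ((2 * DI (u ∘ Sum.inr) - bv (I (u ∘ Sum.inr))) +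
      (2 * DJ (u ∘ Sum.inr) - bv (J (u ∘ Sum.inr))))

/-- pin of a gate whose controls are pinned -/
lemma pin_gate (I J : (Z → Bool) → Bool) (DI DJ : (Z → Bool) → ℚ)
    (hI : Ex (fun x : Unit ⊕ Z → Bool =>
      - (bv (x (Sum.inl ())) * bv (I (x ∘ Sum.inr))) + DI (x ∘ Sum.inr)))
    (hJ : Ex (fun x : Unit ⊕ Z → Bool =>
      - (bv (x (Sum.inl ())) * bv (J (x ∘ Sum.inr))) + DJ (x ∘ Sum.inr))) (t : W) :
    Ex (fun x : Unit ⊕ (W ⊕ Z) → Bool => - (bv (x (Sum.inl ())) *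
      bv (gt ((x ∘ Sum.inr) (Sum.inl t)) (I ((x ∘ Sum.inr) ∘ Sum.inr))
        (J ((x ∘ Sum.inr) ∘ Sum.inr)))) + dg I J DI DJ t (x ∘ Sum.inr)) := by
  classical
  have h0 : Ex (fun x : Bool ⊕ (Unit ⊕ (W ⊕ Z)) → Bool => bv (x (Sum.inl true)) +
      psi (bv (x (Sum.inr (Sum.inl ())))) (bv (x (Sum.inl true)))
        (bv (x (Sum.inl false)) * bv (x (Sum.inr (Sum.inr (Sum.inl t)))))) :=
    ((Ex.lin (Sum.inl true) 0 1).add (ex_psi_and {Sum.inr (Sum.inl ())} {Sum.inl true}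
      {Sum.inl false, Sum.inr (Sum.inr (Sum.inl t))})).of_eq fun x => by
        simp [an]
  have h1 := h0.subst (K := 2) (fun y y' x => by
      simp only [Sum.elim_inl, Sum.elim_inr, psi]
      cases y true <;> cases y false <;> cases y' true <;> cases y' false <;>
        cases x (Sum.inl ()) <;> cases x (Sum.inr (Sum.inl t)) <;> norm_num)
    (fun b x => cond b (J (x ∘ Sum.inr ∘ Sum.inr)) (I (x ∘ Sum.inr ∘ Sum.inr)))
    (fun b x => cond b (DJ (x ∘ Sum.inr ∘ Sum.inr)) (DI (x ∘ Sum.inr ∘ Sum.inr)))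
    (fun b => by
      cases b
      · exact hI.rename (Sum.map id (Sum.inr ∘ Sum.inr))
      · exact hJ.rename (Sum.map id (Sum.inr ∘ Sum.inr)))
  refine h1.of_eq fun x => ?_
  simp only [Sum.elim_inl, Sum.elim_inr, psi, Fintype.sum_bool, cond_true, cond_false, bv_gt,
    comp_apply, comp_assoc, dg]
  ring

variable [DecidableEq Z] [Fintype W] {p q : Z} {Γ : (Z → Bool) → Prop}

/-- all terminals are sent through gates -/
lemma gated {B B0 K : ℚ} {I J : (Z → Bool) → Bool} (hI : Pin p q Γ B0 I) (hJ : Pin p q Γ B0 J)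
    (cI : ∀ z, Γ z → dpq p q (fun z => bv (I z)) z = 0)
    (cJ : ∀ z, Γ z → dpq p q (fun z => bv (J z)) z = 0) {Ψ : (W ⊕ Z → Bool) → ℚ}
    (hΨ : Adm p q Γ B Ψ) (hK : ∀ s s' z, Ψ (Sum.elim s z) - Ψ (Sum.elim s' z) ≤ K) :
    Adm p q Γ (B + K * (Fintype.card W * (16 * B0 + 9))) (fun x =>
      Ψ (Sum.elim (fun t => gt (x (Sum.inl t)) (I (x ∘ Sum.inr)) (J (x ∘ Sum.inr))) (x ∘ Sum.inr))
      - K * (bv (I (x ∘ Sum.inr)) * (1 + bv (J (x ∘ Sum.inr)))) * ∑ t, bv (x (Sum.inl t))) := by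
  obtain ⟨DI, a1, a2, a3⟩ := hI
  obtain ⟨DJ, b1, b2, b3⟩ := hJ
  obtain ⟨D, c1, c2, c3⟩ := hΨ
  have K0 : 0 ≤ K := by simpa using hK (fun _ => false) (fun _ => false) (fun _ => false)
  have e : ∀ (y : W → Bool) (x : W ⊕ Z → Bool),
      Sum.elim y x ∘ (Sum.map id Sum.inr : W ⊕ Z → W ⊕ (W ⊕ Z)) = Sum.elim y (x ∘ Sum.inr) :=
    fun y x => by funext w; cases w <;> rfl
  have h1 := (c3.rename (Sum.map id Sum.inr : W ⊕ Z → W ⊕ (W ⊕ Z))).subst (K := K)
    (fun y y' x => by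
      simp only [e, Sum.elim_comp_inr]
      have := hK y y' (x ∘ Sum.inr)
      linarith)
    (fun t x => gt (x (Sum.inl t)) (I (x ∘ Sum.inr)) (J (x ∘ Sum.inr))) (dg I J DI DJ)
    (fun t => pin_gate I J DI DJ a3 b3 t)
  refine ⟨fun z => D z + K * (Fintype.card W * (bv (J z) +
    4 * ((2 * DI z - bv (I z)) + (2 * DJ z - bv (J z))))), fun z => ?_, fun z hz => ?_,
    h1.of_eq fun x => ?_⟩
  · refine (abs_add_le _ _).trans (add_le_add (c1 z) ?_)
    rw [abs_mul, abs_mul, abs_of_nonneg K0, abs_of_nonneg (Nat.cast_nonneg _)]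
    refine mul_le_mul_of_nonneg_left (mul_le_mul_of_nonneg_left ?_ (Nat.cast_nonneg _)) K0
    have := abs_le.1 (a1 z)
    have := abs_le.1 (b1 z)
    have := bv_nonneg (I z)
    have := bv_le (I z)
    have := bv_nonneg (J z)
    have := bv_le (J z)
    rw [abs_le]
    constructor <;> linarith
  · have u1 := a2 z hz
    have u2 := b2 z hz
    have u3 := c2 z hz
    have u4 := cI z hz
    have u5 := cJ z hz
    simp only [dpq] at u1 u2 u3 u4 u5 ⊢
    linear_combination u3 + K * (Fintype.card W : ℚ) * (8 * u1 + 8 * u2 - 4 * u4 - 3 * u5)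
  · simp only [e, Sum.elim_comp_inr, bv_gt, dg]
    have : ∀ t : W, 2 * (bv (J (x ∘ Sum.inr)) - bv (x (Sum.inl t)) * bv (I (x ∘ Sum.inr)) *
        bv (J (x ∘ Sum.inr)) + 2 * ((2 * DI (x ∘ Sum.inr) - bv (I (x ∘ Sum.inr))) +
          (2 * DJ (x ∘ Sum.inr) - bv (J (x ∘ Sum.inr))))) - (bv (x (Sum.inl t)) *
          bv (I (x ∘ Sum.inr)) + bv (J (x ∘ Sum.inr)) - bv (x (Sum.inl t)) *
          bv (I (x ∘ Sum.inr)) * bv (J (x ∘ Sum.inr))) = (bv (J (x ∘ Sum.inr)) +
          4 * ((2 * DI (x ∘ Sum.inr) - bv (I (x ∘ Sum.inr))) +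
          (2 * DJ (x ∘ Sum.inr) - bv (J (x ∘ Sum.inr))))) - (bv (I (x ∘ Sum.inr)) *
          (1 + bv (J (x ∘ Sum.inr)))) * bv (x (Sum.inl t)) := fun t => by ring
    simp only [this, sum_sub_distrib, sum_const, card_univ, nsmul_eq_mul, ← mul_sum]
    ring

end gate

lemma layer0 (m N : ℕ) (h : m ≤ N) : ∑ k ∈ range N, bv (decide (k < m)) = m := by
  induction N, h using Nat.le_induction with
  | base =>
    rw [sum_congr rfl (g := fun _ => (1 : ℚ)) fun k hk => by simp [mem_range.1 hk]]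
    simp
  | succ N h ih =>
    rw [sum_range_succ, ih, decide_eq_false (by omega)]
    simp

lemma layer (B : ℕ) (n : ℤ) (h : |n| ≤ B) :
    ∑ k ∈ range (2 * B), bv (decide ((k : ℤ) - B + 1 ≤ n)) = n + B := by
  have h' := abs_le.1 h
  obtain ⟨m, hm⟩ : ∃ m : ℕ, (m : ℤ) = n + B := ⟨(n + B).toNat, by omega⟩
  rw [sum_congr rfl (g := fun k => bv (decide (k < m))) fun k _ => by
    congr 1
    exact decide_eq_decide.2 (by omega), layer0 m _ (by omega)]
  exact_mod_cast hm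

lemma e1_eq (s : Tm) : sU s + sV s = ∑ t, bv (s t) := by
  simp only [sU, sV, Fin.sum_univ_succ, Fin.sum_univ_zero]
  simp
  ring_nf

lemma e1_bound (s : Tm) : 0 ≤ sU s + sV s ∧ sU s + sV s ≤ 10 := by
  rw [e1_eq]
  refine ⟨sum_nonneg fun t _ => bv_nonneg _, ?_⟩
  refine (sum_le_card_nsmul _ _ 1 fun t _ => bv_le _).trans ?_
  simp

lemma ex_neg_sq {Z : Type} :
    Ex (fun x : Fin 10 ⊕ Z → Bool => - (sU (x ∘ Sum.inl) + sV (x ∘ Sum.inl)) ^ 2) :=
  (Ex.sum univ fun t _ => Ex.sum univ fun t' _ =>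
    Ex.neg (Sum.inl t : Fin 10 ⊕ Z) (Sum.inl t')).of_eq fun x => by
      rw [e1_eq, sq, sum_mul_sum]
      simp only [sum_neg_distrib, comp_apply]

section main
variable {Z Cn : Type} [DecidableEq Z] {p q : Z} {Γ : (Z → Bool) → Prop}

/-- one region -/
lemma region [DecidableEq (Cn → ℤ)] [DecidableLE (Cn → ℤ)] (st : (Z → Bool) → Cn → ℤ) (sg : Cn → ℤ) {B B0 K M : ℚ}
    (hpin : ∀ φ : (Z → Bool) → Bool, (∀ z z', st z ≤ st z' → φ z ≤ φ z') → Pin p q Γ B0 φ)
    (hΓ : ∀ z, Γ z → ∀ a b, st (upd p q z a b) = 0) {Ψ : (Fin 10 ⊕ Z → Bool) → ℚ}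
    (hΨ : Adm p q Γ B Ψ) (hM : ∀ x, |Ψ x| ≤ M) (hK : 2 * M ≤ K)
    (hd : sg ≠ 0 → ∀ s z, dpq p q (fun z => Ψ (Sum.elim s z)) z = 0) :
    Adm p q Γ (B + K * (10 * (16 * B0 + 9)) + M) (fun x =>
      (if st (x ∘ Sum.inr) = sg then Ψ x else 0)
      - K * (bv (decide (sg ≤ st (x ∘ Sum.inr))) * (1 + bv (decide (¬ st (x ∘ Sum.inr) ≤ sg)))) *
        (sU (x ∘ Sum.inl) + sV (x ∘ Sum.inl))) := by
  have M0 : 0 ≤ M := (abs_nonneg _).trans (hM fun _ => false)
  have hI := hpin (fun z => decide (sg ≤ st z)) fun z z' h => by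
    by_cases h1 : sg ≤ st z
    · simp [h1.trans h]
    · simp [h1]
  have hJ := hpin (fun z => decide (¬ st z ≤ sg)) fun z z' h => by
    by_cases h1 : st z' ≤ sg
    · simp [h.trans h1]
    · simp [h1]
  have h1 := gated hI hJ (fun z hz => by simp only [dpq, hΓ z hz]; ring)
    (fun z hz => by simp only [dpq, hΓ z hz]; ring) hΨ (K := K) (fun s s' z => by
      have := abs_le.1 (hM (Sum.elim s z))
      have := abs_le.1 (hM (Sum.elim s' z))
      linarith)
  refine move (fun z => if st z = sg then 0 else Ψ (Sum.elim (fun _ => decide (¬ st z ≤ sg)) z))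
    (of_eq (mono h1 (by simp)) fun x => ?_) (fun z => ?_) fun z hz => ?_
  · rw [e1_eq]
    simp only [comp_apply]
    by_cases h : st (x ∘ Sum.inr) = sg
    · have e : (fun t => gt (x (Sum.inl t)) (decide (sg ≤ st (x ∘ Sum.inr)))
          (decide (¬ st (x ∘ Sum.inr) ≤ sg))) = x ∘ Sum.inl := by
        funext t
        simp [gt, h]
      rw [e, Sum.elim_comp_inl_inr, if_pos h, if_pos h]
      ring
    · have e : (fun t => gt (x (Sum.inl t)) (decide (sg ≤ st (x ∘ Sum.inr)))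
          (decide (¬ st (x ∘ Sum.inr) ≤ sg))) = fun _ => decide (¬ st (x ∘ Sum.inr) ≤ sg) := by
        funext t
        by_cases h2 : st (x ∘ Sum.inr) ≤ sg
        · have h3 : ¬ sg ≤ st (x ∘ Sum.inr) := fun h3 => h (le_antisymm h2 h3)
          simp [gt, h2, h3]
        · simp [gt, h2]
      rw [e, if_neg h, if_neg h]
      ring
  · split_ifs
    · simpa using M0
    · exact hM _
  · by_cases h : sg = 0
    · simp [dpq, hΓ z hz, h]
    · have := hd h (fun _ => decide (¬ (0 : Cn → ℤ) ≤ sg)) z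
      simp only [dpq, hΓ z hz, if_neg (Ne.symm h)] at this ⊢
      exact this

/-- a bounded integer function which is monotone in the state multiplies the terminals -/
lemma cake (st : (Z → Bool) → Cn → ℤ) {B0 : ℚ}
    (hpin : ∀ φ : (Z → Bool) → Bool, (∀ z z', st z ≤ st z' → φ z ≤ φ z') → Pin p q Γ B0 φ)
    (ψ : (Z → Bool) → ℤ) (B : ℕ) (hB : ∀ z, |ψ z| ≤ B) (hm : ∀ z z', st z ≤ st z' → ψ z ≤ ψ z') :
    Adm p q Γ (20 * B * B0) (fun x : Fin 10 ⊕ Z → Bool =>
      - (ψ (x ∘ Sum.inr) * (sU (x ∘ Sum.inl) + sV (x ∘ Sum.inl)))) := by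
  have h1 : Adm p q Γ _ _ := sum (univ : Finset (Fin 10)) fun t _ => sum (range (2 * B))
    fun k _ => pin_at (hpin (fun z => decide ((k : ℤ) - B + 1 ≤ ψ z)) fun z z' h => by
      by_cases h1 : (k : ℤ) - B + 1 ≤ ψ z
      · simp only [decide_eq_true (h1.trans (hm z z' h)), Bool.le_true]
      · simp only [decide_eq_false h1, Bool.false_le]) t
  have h2 : Adm p q Γ 0 _ := of_ex (Ex.sum (univ : Finset (Fin 10)) fun t _ =>
    Ex.lin (Sum.inl t : Fin 10 ⊕ Z) 0 B)
  refine of_eq (mono (add h1 h2) (le_of_eq ?_)) fun x => ?_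
  · simp
    ring
  · rw [e1_eq, mul_sum, ← sum_add_distrib, ← sum_neg_distrib]
    refine sum_congr rfl fun t _ => ?_
    rw [sum_neg_distrib, ← mul_sum, layer B _ (hB _), comp_apply]
    ring

end main

end Gate

open Gate in
theorem gateSt : GateSt := by
  intro Z Cn _ _ _ p q Γ lam pen H Φ E hE hZ hpin hp1 hp0 hp2 hp3 hl hΓ hH hHd hPG hΦ hΦb hΦH
  classical
  let st : (Z → Bool) → Cn → ℤ := fun z c => lam c z
  have hE' : (100 : ℚ) ≤ E := by exact_mod_cast hE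
  have E0 : (0 : ℚ) < E := by linarith
  have rep : ∀ z, st (invFun st (st z)) = st z := fun z => invFun_eq ⟨z, rfl⟩
  let Ψ : (Cn → ℤ) → (Fin 10 ⊕ Z → Bool) → ℚ := fun sg x => if sg = 0 then Φ x else
    H x - 24 * pen (invFun st sg) * (sU (x ∘ Sum.inl) + sV (x ∘ Sum.inl)) ^ 2
  let S := univ.image st
  have hS : (S.card : ℚ) ≤ E := by
    have : S.card ≤ E := card_image_le.trans (by simpa using hZ)
    exact_mod_cast this
  have hpos : ∀ sg ∈ S, sg ≠ 0 → (1 : ℚ) ≤ pen (invFun st sg) := fun sg hs h0 => by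
    obtain ⟨z, -, rfl⟩ := mem_image.1 hs
    have : 1 ≤ pen (invFun st (st z)) := hp2 _ (by
      rw [← rep z] at h0
      exact ne_iff.1 h0)
    exact_mod_cast this
  have pw : ∀ a b : ℕ, a < b → 100 * (E : ℚ) ^ a ≤ (E : ℚ) ^ b := fun a b h => by
    have h1 : (E : ℚ) ^ (a + 1) ≤ (E : ℚ) ^ b := pow_le_pow_right₀ (by linarith) h
    rw [pow_succ] at h1
    have := mul_le_mul_of_nonneg_left hE' (pow_pos E0 a).le
    linarith
  have h1 := sum S (B := (E : ℚ) ^ 9) fun sg hs => mono (region (p := p) (q := q) (Γ := Γ) st sg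
    (B := (E : ℚ) ^ 5) (B0 := (E : ℚ) ^ 4) (K := (E : ℚ) ^ 3) (M := 2401 * E) (Ψ := Ψ sg) hpin
    (fun z hz a b => funext fun c => hΓ z hz a b c) ?_ ?_ ?_ ?_) ?_
  · let wt : (Z → Bool) → ℤ := fun z => (E : ℤ) ^ 3 * ∑ sg ∈ S,
      ((decide (sg ≤ st z)).toNat : ℤ) * (1 + (decide (¬ st z ≤ sg)).toNat)
    have w1 : ∀ z, 0 ≤ wt z := fun z => by positivity
    have w2 : ∀ z, wt z ≤ 2 * (E : ℤ) ^ 4 := fun z => by
      have a : ∑ sg ∈ S, ((decide (sg ≤ st z)).toNat : ℤ) * (1 + (decide (¬ st z ≤ sg)).toNat)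
          ≤ S.card • (2 : ℤ) := sum_le_card_nsmul _ _ _ fun sg _ => by
        cases decide (sg ≤ st z) <;> cases decide (¬ st z ≤ sg) <;> simp
      have b : (S.card : ℤ) ≤ E := by exact_mod_cast hS
      rw [nsmul_eq_mul] at a
      calc wt z ≤ (E : ℤ) ^ 3 * (2 * E) :=
            mul_le_mul_of_nonneg_left (by linarith) (by positivity)
        _ = _ := by ring
    have pz : ∀ a b : ℕ, a < b → 100 * (E : ℤ) ^ a ≤ (E : ℤ) ^ b := fun a b h => by
      exact_mod_cast pw a b h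
    have z4 : (0 : ℤ) ≤ (E : ℤ) ^ 4 := by positivity
    have z5 : (0 : ℤ) ≤ (E : ℤ) ^ 5 := by positivity
    have z6 : (0 : ℤ) ≤ (E : ℤ) ^ 6 := by positivity
    have h2 := cake (p := p) (q := q) (Γ := Γ) st hpin
      (fun z => (E : ℤ) ^ 5 * (∑ c, lam c z) - wt z) (E ^ 7) (fun z => by
        have a := abs_le.1 (hl z)
        have a1 := mul_le_mul_of_nonneg_left a.1 z5
        have a2 := mul_le_mul_of_nonneg_left a.2 z5
        have := w1 z
        have := w2 z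
        have := pz 4 7 (by norm_num)
        have := pz 6 7 (by norm_num)
        have e : (E : ℤ) ^ 5 * E = (E : ℤ) ^ 6 := by ring
        push_cast
        rw [abs_le]
        constructor <;> linarith)
      (fun z z' h => by
        rcases h.eq_or_lt with h | h
        · have e : ∀ c, lam c z = lam c z' := fun c => congrFun h c
          simp only [wt, h, e, le_refl]
        · obtain ⟨hle, c, hc⟩ := Pi.lt_def.1 h
          have a : ∑ c, lam c z < ∑ c, lam c z' :=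
            sum_lt_sum (fun c _ => hle c) ⟨c, mem_univ _, hc⟩
          have a1 := mul_le_mul_of_nonneg_left (Int.add_one_le_iff.2 a) z5
          have := w1 z
          have := w2 z'
          have := pz 4 5 (by norm_num)
          linarith)
    refine of_eq (mono (add h1 h2) ?_) fun x => ?_
    · have a : (S.card : ℚ) * (E : ℚ) ^ 9 ≤ E * (E : ℚ) ^ 9 :=
        mul_le_mul_of_nonneg_right hS (by positivity)
      have := pw 10 13 (by norm_num)
      have := pw 11 13 (by norm_num)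
      have e1 : (E : ℚ) * (E : ℚ) ^ 9 = (E : ℚ) ^ 10 := by ring
      have e2 : 20 * ((E ^ 7 : ℕ) : ℚ) * (E : ℚ) ^ 4 = 20 * (E : ℚ) ^ 11 := by
        push_cast
        ring
      have := pow_pos E0 10
      have := pow_pos E0 11
      linarith
    · have k : ∀ b : Bool, ((b.toNat : ℕ) : ℚ) = bv b := fun b => by cases b <;> simp
      have e : Ψ (st (x ∘ Sum.inr)) x =
          H x - 24 * pen (x ∘ Sum.inr) * (sU (x ∘ Sum.inl) + sV (x ∘ Sum.inl)) ^ 2 := by
        simp only [Ψ]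
        split_ifs with h
        · have h' : ∀ c, lam c (x ∘ Sum.inr) = 0 := fun c => congrFun h c
          have := hΦH (x ∘ Sum.inl) _ h'
          rw [Sum.elim_comp_inl_inr] at this
          rw [this, hp0 _ h']
          simp
        · rw [hp1 _ _ fun c => congrFun (rep (x ∘ Sum.inr)) c]
      rw [sum_sub_distrib, sum_ite_eq, if_pos (mem_image_of_mem st (mem_univ _)), e, ← sum_mul,
        ← mul_sum]
      simp only [wt]
      push_cast
      simp only [k]
      ring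
  · simp only [Ψ]
    split_ifs with h
    · exact hΦ
    · refine mono (of_ex ((hPG.add (ex_neg_sq.smul (k := 24 * (pen (invFun st sg) - 1)) ?_)).of_eq
        fun x => by ring)) (by positivity)
      have := hpos sg hs h
      linarith
  · intro x
    simp only [Ψ]
    split_ifs with h
    · exact (hΦb x).trans (by linarith)
    · have a1 := hpos sg hs h
      have a2 : (pen (invFun st sg) : ℚ) ≤ E := by exact_mod_cast hp3 _
      obtain ⟨b1, b2⟩ := e1_bound (x ∘ Sum.inl)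
      have b3 : (sU (x ∘ Sum.inl) + sV (x ∘ Sum.inl)) ^ 2 ≤ 100 := by nlinarith
      have b4 : 0 ≤ (pen (invFun st sg) : ℚ) * (sU (x ∘ Sum.inl) + sV (x ∘ Sum.inl)) ^ 2 :=
        mul_nonneg (by linarith) (sq_nonneg _)
      have b5 : (pen (invFun st sg) : ℚ) * (sU (x ∘ Sum.inl) + sV (x ∘ Sum.inl)) ^ 2 ≤ E * 100 :=
        mul_le_mul a2 b3 (sq_nonneg _) E0.le
      have := abs_le.1 (hH x)
      rw [abs_le]
      constructor <;> linarith
  · have := pw 1 2 (by norm_num)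
    have := pw 2 3 (by norm_num)
    rw [pow_one] at *
    linarith
  · intro h s z
    have := hHd s z
    simp only [Ψ, if_neg h, dpq, Sum.elim_comp_inl] at this ⊢
    linarith
  · have := pw 1 9 (by norm_num)
    have := pw 1 2 (by norm_num)
    have := pw 2 9 (by norm_num)
    have := pw 3 9 (by norm_num)
    have := pw 3 4 (by norm_num)
    have := pw 4 9 (by norm_num)
    have := pw 5 9 (by norm_num)
    have := pw 7 8 (by norm_num)
    have := pw 8 9 (by norm_num)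
    have e : (E : ℚ) ^ 3 * (10 * (16 * (E : ℚ) ^ 4 + 9)) = 160 * (E : ℚ) ^ 7 + 90 * (E : ℚ) ^ 3 := by
      ring
    have := pow_pos E0 3
    have := pow_pos E0 5
    have := pow_pos E0 7
    rw [pow_one] at *
    linarith

end Pool.Agent.Lib.MP_cb9cb0_lc.X
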