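import Pool.Agent.Lib.MP_cb9cb0_lc.X.GridA

/-!
A language in doubly exponential time is described by a clean grid.
-/

set_option autoImplicit false
set_option linter.unusedSectionVars false
set_option linter.style.haveILetI false

namespace Pool.Agent.Lib.MP_cb9cb0_lc.X

open Function Turing Pool.Agent.Lib.Complexity

namespace Gr

variable {K : Type} [DecidableEq K] {Γ : K → Type} {Λ σ : Type}

theorem cnxt_local [Fintype σ] (L : List (Σ k, Γ k)) (m : Λ → TM2.Stmt Γ Λ σ)
    (hm : ∀ l, ∀ s ∈ pushed (m l), s ∈ L) {d : ℕ} (hd : ∀ l, depth (m l) ≤ d)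
    (c : TM2.Cfg Γ Λ σ) (hc : Good L c.stk) :
    ccfg L (nxt m c) =
      ((cnxt L m (c.l, c.var, fun k => (cstk L c.stk k).take d)).1,
        (cnxt L m (c.l, c.var, fun k => (cstk L c.stk k).take d)).2.1,
        fun k => (cnxt L m (c.l, c.var, fun k => (cstk L c.stk k).take d)).2.2 k ++
          (cstk L c.stk k).drop d) := by
  have h1 := (cnxt_correct L m hm 1 ⟨c.l, c.var, fun k => (c.stk k).take d⟩
    fun k γ h => hc k γ (List.mem_of_mem_take h)).1
  have h2 : ccfg L (⟨c.l, c.var, fun k => (c.stk k).take d⟩ : TM2.Cfg Γ Λ σ) =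
      (c.l, c.var, fun k => (cstk L c.stk k).take d) := by
    simp only [ccfg, Prod.mk.injEq, true_and]
    funext k
    simp [cstk, List.map_take]
  rw [h2, iterate_one, iterate_one] at h1
  rw [h1]
  conv_lhs => rw [nxt_local m hd c]
  simp only [ccfg, Prod.mk.injEq, true_and]
  funext k
  simp [cstk, List.map_drop]

theorem cnxt_len [Fintype Λ] (L : List (Σ k, Γ k)) (m : Λ → TM2.Stmt Γ Λ σ) :
    ∃ C, ∀ (c : Option Λ × σ × (K → List ℕ)) (k : K),
      ((cnxt L m c).2.2 k).length ≤ sz (c.2.2 k) + C := by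
  choose C hC using fun l => cstep_growth L (m l)
  refine ⟨Finset.univ.sup C, ?_⟩
  rintro ⟨_ | l, v, S⟩ k
  · exact (length_le_sz _).trans (Nat.le_add_right _ _)
  · exact (length_le_sz _).trans ((hC l v S k).trans (Nat.add_le_add_left
      (Finset.le_sup (f := C) (Finset.mem_univ l)) _))

theorem nxt_halt (m : Λ → TM2.Stmt Γ Λ σ) (c : TM2.Cfg Γ Λ σ) {t T : ℕ}
    (h : ((nxt m)^[t] c).l = none) (h' : ((nxt m)^[T] c).l = none) :
    (nxt m)^[t] c = (nxt m)^[T] c := by
  wlog ht : t ≤ T generalizing t T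
  · exact (this h' h (le_of_not_ge ht)).symm
  obtain ⟨k, rfl⟩ := Nat.exists_eq_add_of_le ht
  rw [add_comm, iterate_add_apply]
  generalize (nxt m)^[t] c = x at h
  obtain ⟨l, v, S⟩ := x
  cases h
  exact (iterate_fixed (by rfl) _).symm

theorem lt_tower (a d : ℕ) : 2 ^ 2 ^ a < 2 ^ 2 ^ (a + d + 1) ∧
    2 ^ 2 ^ a * d < 2 ^ 2 ^ (a + d + 1) := by
  have h1 : 2 ^ a ≤ 2 ^ (a + d) := Nat.pow_le_pow_right two_pos (Nat.le_add_right _ _)
  have h2 : d < 2 ^ d := Nat.lt_two_pow_self
  have h3 : 2 ^ d ≤ 2 ^ (a + d) := Nat.pow_le_pow_right two_pos (Nat.le_add_left _ _)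
  have h4 : 2 ^ (a + d + 1) = 2 ^ (a + d) * 2 := pow_succ _ _
  have h5 : 0 < 2 ^ (a + d) := by positivity
  refine ⟨Nat.pow_lt_pow_right one_lt_two (by omega), ?_⟩
  calc 2 ^ 2 ^ a * d < 2 ^ 2 ^ a * 2 ^ d := Nat.mul_lt_mul_of_pos_left h2 (by positivity)
    _ = 2 ^ (2 ^ a + d) := (pow_add _ _ _).symm
    _ ≤ _ := Nat.pow_le_pow_right two_pos (by omega)

end Gr

open Gr in
theorem gridSt : GridSt := by
  classical
  rintro P ⟨k0, ⟨⟨tm, ia, oa⟩, time, out⟩, htime⟩
  letI := tm.kFin
  letI := tm.ΛFin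
  letI := tm.σFin
  letI := tm.Γk₀Fin
  letI := Enc.ofFintype tm.Λ
  letI := Enc.ofFintype tm.σ
  let L : List (Σ k, tm.Γ k) := ⟨tm.k₁, oa.symm false⟩ :: ⟨tm.k₁, oa.symm true⟩ ::
    (Finset.univ.toList.map (fun γ => ⟨tm.k₀, γ⟩) ++
      Finset.univ.toList.flatMap (fun l => pushed (tm.m l)))
  have hm : ∀ l, ∀ s ∈ pushed (tm.m l), s ∈ L := fun l s hs => by
    simp only [L, List.mem_cons, List.mem_append, List.mem_flatMap]
    exact Or.inr (Or.inr (Or.inr ⟨l, by simp, hs⟩))
  have henc : PT fun w : Str => (N487b59b3.bitEncode w : Str) :=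
    (PT.encode Str (f := fun w : Str => w) PT.id).of_eq fun w => by rw [down_str]
  let d : ℕ := Finset.univ.sup fun l => depth (tm.m l)
  have hd : ∀ l, depth (tm.m l) ≤ d := fun l =>
    Finset.le_sup (f := fun l => depth (tm.m l)) (Finset.mem_univ l)
  let x : Str → ℕ → TM2.Cfg tm.Γ tm.Λ tm.σ := fun w t =>
    (nxt tm.m)^[t] (initList tm (List.map ia.invFun (N487b59b3.bitEncode w)))
  have hgood : ∀ w t, Good L (x w t).stk := fun w t => by
    refine (cnxt_correct L tm.m hm t _ fun k γ hγ => ?_).2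
    by_cases hk : k = tm.k₀
    · subst hk
      simp only [L, List.mem_cons, List.mem_append, List.mem_map]
      exact Or.inr (Or.inr (Or.inl ⟨γ, by simp, rfl⟩))
    · simp [initList, hk] at hγ
  let c : Str → ℕ → Cf (Option tm.Λ × tm.σ) tm.K := fun w t =>
    (((x w t).l, (x w t).var), cstk L (x w t).stk)
  let F : Cf (Option tm.Λ × tm.σ) tm.K → Cf (Option tm.Λ × tm.σ) tm.K := fun y =>
    (((cnxt L tm.m (y.1.1, y.1.2, y.2)).1, (cnxt L tm.m (y.1.1, y.1.2, y.2)).2.1),
      (cnxt L tm.m (y.1.1, y.1.2, y.2)).2.2)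
  have hF : PT F := by
    have h : PT fun y : Cf (Option tm.Λ × tm.σ) tm.K => cnxt L tm.m (y.1.1, y.1.2, y.2) :=
      (pt_cnxt L tm.m).comp (by fun_prop)
    exact (h.fst.prodMk h.snd.fst).prodMk h.snd.snd
  have hi : PT fun w => c w 0 := by
    have h : PT fun w : Str => (((some tm.main, tm.initialState), update (fun _ => []) tm.k₀
        ((N487b59b3.bitEncode w : Str).map fun b => scode L tm.k₀ (ia.symm b))) :
          Cf (Option tm.Λ × tm.σ) tm.K) :=
      (PT.const _).prodMk ((PT.const _).update _ (PT.map (f := fun _ b => scode L tm.k₀ (ia.symm b))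
        henc ((PT.of_fintype (fun b => scode L tm.k₀ (ia.symm b))).comp (PT.snd PT.id))))
    refine h.of_eq fun w => ?_
    simp only [c, x, initList, iterate_zero, id_eq, Prod.mk.injEq, true_and]
    funext k
    by_cases hk : k = tm.k₀
    · subst hk; simp [cstk]
    · simp [cstk, hk]
  let B : (Option tm.Λ × tm.σ) × (tm.K → Option ℕ) → Bool := fun y =>
    y.1.1.isNone && decide (y.2 tm.k₁ = some (scode L tm.k₁ (oa.symm false)))
  have hB : PT B :=
    PT.and (by fun_prop) (PT.dec_eq ((PT.snd PT.id).apply _) (PT.const _))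
  obtain ⟨C, hC⟩ := cnxt_len L tm.m
  have hA : ∀ w t k, ∀ y ∈ (c w t).2 k, y ≤ L.length := fun w t k y hy => by
    obtain ⟨γ, -, rfl⟩ := List.mem_map.1 hy
    exact scode_le L k γ
  obtain ⟨m, G, bad, hm', hG, hbad, h⟩ := line hF d (c := c) hi hB (fun w t => by
      have := cnxt_local L tm.m hm hd (x w t) (hgood w t)
      have e : x w (t + 1) = nxt tm.m (x w t) := iterate_succ_apply' _ _ _
      rw [← e] at this
      simp only [ccfg, Prod.mk.injEq] at this
      simp only [c, F, loc, this.1, this.2.1, this.2.2])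
    (A := L.length + d * (L.length + 1) + C)
    (fun w t k y hy => by have := hA w t k y hy; omega) (fun w t k => by
      have h1 := hC ((c w t).1.1, (c w t).1.2, fun k => ((c w t).2 k).take d) k
      have h2 : sz (((c w t).2 k).take d) ≤ (((c w t).2 k).take d).length * (L.length + 1) :=
        sz_list_le fun a ha => by simpa using hA w t k a (List.mem_of_mem_take ha)
      have h3 : (((c w t).2 k).take d).length * (L.length + 1) ≤ d * (L.length + 1) :=
        Nat.mul_le_mul_right _ (List.length_take_le _ _)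
      simp only [loc, F]
      simp only at h1
      omega)
  refine ⟨m, fun w => (N487b59b3.bitEncode w : Str).length ^ k0 + k0 + d + 1, G, bad, hm',
    by fun_prop, hG, hbad, fun w => ⟨fun t i => (h w t i).1, ?_⟩⟩
  obtain ⟨⟨n, hn⟩, hle⟩ := out w
  have hT : x w (2 ^ 2 ^ ((N487b59b3.bitEncode w : Str).length ^ k0 + k0)) =
      haltList tm (List.map oa.invFun (N487b59b3.bitEncode (P w))) :=
    nxt_of_run_le tm.m hn rfl (hle.trans (htime _))
  beta_reduce
  generalize (N487b59b3.bitEncode w : Str).length ^ k0 + k0 = a at hT ⊢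
  have hS : cstk L (x w (2 ^ 2 ^ a)).stk tm.k₁ = [scode L tm.k₁ (oa.symm (P w))] := by
    rw [hT]
    simp only [cstk, haltList, dite_true]
    rfl
  have hl : (x w (2 ^ 2 ^ a)).l = none := by rw [hT]; rfl
  constructor
  · intro hP t _ i _
    rw [← Bool.not_eq_true, (h w t i).2]
    rintro ⟨-, hb⟩
    simp only [B, c, Bool.and_eq_true, Option.isNone_iff_eq_none, decide_eq_true_eq] at hb
    have e : x w t = x w (2 ^ 2 ^ a) := nxt_halt tm.m _ hb.1 hl
    have h1 := List.mem_of_getElem? hb.2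
    rw [e, hS, hP, List.mem_singleton] at h1
    have h2 := sdec_scode (L := L) (k := tm.k₁) (γ := oa.symm false) (by simp [L])
    rw [h1, sdec_scode (by simp [L])] at h2
    simp at h2
  · intro hc
    by_contra hP
    have h1 := hc _ (lt_tower a d).1 _ (lt_tower a d).2
    rw [← Bool.not_eq_true, (h w _ _).2] at h1
    refine h1 ⟨le_rfl, ?_⟩
    simp only [B, c, Bool.and_eq_true, Option.isNone_iff_eq_none, decide_eq_true_eq]
    rw [hS, Nat.sub_self, (Bool.not_eq_true _).mp hP]
    exact ⟨hl, rfl⟩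

end Pool.Agent.Lib.MP_cb9cb0_lc.X
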