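import Pool.Agent.Lib.MP_cb9cb0_lc.X.Basic

/-!
A grid of labels which simulates a system of stacks with local steps.
-/

set_option autoImplicit false
set_option linter.unusedSectionVars false
set_option linter.style.haveILetI false

namespace Pool.Agent.Lib.MP_cb9cb0_lc.X

open Function Pool.Agent.Lib.Complexity

namespace Gr

/-- a reader for a finite type -/
@[instance_reducible] noncomputable def rdFin (α : Type) [Enc α] [Fintype α] (a0 : α) : Rd α := by
  classical
  refine ⟨fun t => (Finset.univ.toList.find? fun a => decide (enc a = t)).getD a0, fun a => ?_, ?_⟩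
  · have h : ∀ l : List α, a ∈ l → l.find? (fun b => decide (enc b = enc a)) = some a := by
      intro l hl
      induction l with
      | nil => simp at hl
      | cons b l ih =>
        by_cases e : b = a
        · simp [e]
        · have e' : enc b ≠ enc a := fun h => e (Enc.inj h)
          rw [List.find?_cons_of_neg (by simpa using e')]
          exact ih ((List.mem_cons.1 hl).resolve_left (Ne.symm e))
    simp only [h _ (by simp : a ∈ Finset.univ.toList), Option.getD_some]
  · fun_prop

/-- a reader for functions on a finite type -/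
@[instance_reducible] noncomputable def rdPi (K β : Type) [Fintype K] [Enc β] [Rd β] (b0 : β) :
    Rd (K → β) := by
  classical
  refine ⟨fun t k => (rd t : List β).getD (Finset.univ.toList.idxOf k) b0, fun f => ?_, ?_⟩
  · funext k
    have h : (rd (enc f) : List β) = Finset.univ.toList.map f :=
      Rd.rd_enc (Finset.univ.toList.map f)
    have hk : (Finset.univ : Finset K).toList.idxOf k < (Finset.univ : Finset K).toList.length :=
      List.idxOf_lt_length_of_mem (by simp)
    rw [h, List.getD_eq_getElem _ _ (by simpa using hk)]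
    simp
  · exact PT.pi fun k => by fun_prop

theorem sz_pi_le {K β : Type} [Fintype K] [Enc β] {f : K → β} {C : ℕ} (h : ∀ k, sz (f k) ≤ C) :
    sz f ≤ Fintype.card K * (C + 1) := by
  have : sz (Finset.univ.toList.map f) ≤ (Finset.univ.toList.map f).length * (C + 1) :=
    sz_list_le fun a ha => by
      obtain ⟨k, -, rfl⟩ := List.mem_map.1 ha
      exact h k
  rw [List.length_map, Finset.length_toList, Finset.card_univ] at this
  exact this

theorem sz_le_pi {K β : Type} [Fintype K] [Enc β] (f : K → β) (k : K) : sz (f k) ≤ sz f :=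
  (sz_lt_of_mem (l := Finset.univ.toList.map f) (List.mem_map.2 ⟨k, by simp, rfl⟩)).le

variable {Q K : Type}

abbrev Cf (Q K : Type) := Q × (K → List ℕ)
abbrev Lab (Q K : Type) := ℕ × Option Q × (K → List (Option ℕ))

def hd (u : Option (Lab Q K)) (k : K) : Option ℕ :=
  (u.bind fun x => (x.2.2 k).head?).bind fun o => o

def go (r : Cf Q K) (u : Option (Lab Q K)) : Lab Q K :=
  (0, some r.1, fun k => (r.2 k).map some ++ [hd u k])

def dead : Lab Q K := (0, none, fun _ => [])

/-- the label from the labels above and to the left -/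
def stp (F : Cf Q K → Cf Q K) (d : ℕ) (c0 : Cf Q K) (u : Option (Lab Q K)) (l : Lab Q K) :
    Lab Q K :=
  l.2.1.elim
    (u.elim (go c0 u) fun x => x.2.1.elim dead fun q =>
      if l.1 < d then (l.1 + 1, none, fun k => l.2.2 k ++ [hd u k])
      else go (F (q, fun k => (l.2.2 k).filterMap fun o => o)) u)
    fun q => (0, some q, fun k => (l.2.2 k).tail ++ [hd u k])

def win (S : List ℕ) (j n : ℕ) : List (Option ℕ) := (List.range n).map fun x => S[j + x]?

def live (c : Cf Q K) (ell : K → ℕ) (j : ℕ) : Lab Q K :=
  (0, some c.1, fun k => win (c.2 k) j (ell k + 1))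

def coll (c : Cf Q K) (n : ℕ) : Lab Q K := (n, none, fun k => win (c.2 k) 0 n)

theorem win_succ (S : List ℕ) (j n : ℕ) : win S j (n + 1) = win S j n ++ [S[j + n]?] := by
  simp [win, List.range_succ]

theorem win_cons (S : List ℕ) (j n : ℕ) : win S j (n + 1) = S[j]? :: win S (j + 1) n := by
  simp [win, List.range_succ_eq_map, comp_def, add_assoc, add_comm 1]

theorem win_take (S : List ℕ) (n : ℕ) : (win S 0 n).filterMap (fun o => o) = S.take n := by
  induction n with
  | zero => simp [win]
  | succ n ih =>
    rw [win_succ, List.filterMap_append, ih, List.take_add_one, zero_add]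
    cases S[n]? <;> rfl

theorem win_app (R D : List ℕ) : win (R ++ D) 0 R.length = R.map some := by
  refine List.ext_getElem (by simp [win]) fun i h1 h2 => ?_
  have : i < R.length := by simpa using h2
  simp [win, List.getElem?_append_left this, this]

theorem hd_live (c : Cf Q K) (ell : K → ℕ) (j : ℕ) (k : K) :
    hd (some (live c ell j)) k = (c.2 k)[j]? := by
  simp [hd, live, win_cons]

theorem coll_zero (c : Cf Q K) : coll c 0 = dead := rfl

section
variable {F : Cf Q K → Cf Q K} {d : ℕ} {c0 : Cf Q K}

theorem stp_live {u : Option (Lab Q K)} {c : Cf Q K} {ell : K → ℕ} {j : ℕ}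
    (h : ∀ k, hd u k = (c.2 k)[j + 1 + ell k]?) :
    stp F d c0 u (live c ell j) = live c ell (j + 1) := by
  simp only [stp, live, Option.elim_some, win_cons _ j, List.tail_cons, h, win_succ _ (j + 1)]

theorem go_eq {u : Option (Lab Q K)} {r : Cf Q K} {D : K → List ℕ} (h : ∀ k, hd u k = (D k)[0]?) :
    go r u = live (r.1, fun k => r.2 k ++ D k) (fun k => (r.2 k).length) 0 := by
  simp [go, live, win_succ, win_app, h, List.getElem?_append_right]

variable (F d) (c : ℕ → Cf Q K)

/-- the result of the local step -/
def loc (t : ℕ) : Cf Q K := F ((c t).1, fun k => ((c t).2 k).take d)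

def ell : ℕ → K → ℕ
  | 0 => fun k => ((c 0).2 k).length
  | t + 1 => fun k => ((loc F d c t).2 k).length

def lab : ℕ → ℕ → Lab Q K
  | 0, i => live (c 0) (ell F d c 0) i
  | t + 1, i => if (t + 1) * d ≤ i then live (c (t + 1)) (ell F d c (t + 1)) (i - (t + 1) * d)
      else coll (c t) (i + 1 - t * d)

variable {F d c}

theorem lab_live {t i : ℕ} (h : t * d ≤ i) :
    lab F d c t i = live (c t) (ell F d c t) (i - t * d) := by
  cases t with
  | zero => simp [lab]
  | succ t => simp [lab, h]

theorem lab_dead {t i : ℕ} (h : i < t * d) : (lab F d c t i).2.1 = none := by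
  cases t with
  | zero => simp at h
  | succ t => simp [lab, not_le.2 h, coll]

theorem lab_00 : stp F d (c 0) none dead = lab F d c 0 0 := by
  have := go_eq (u := none) (r := c 0) (D := fun _ => []) (fun k => rfl)
  simpa [stp, dead, lab, ell] using this

theorem lab_0s (i : ℕ) : stp F d (c 0) none (lab F d c 0 i) = lab F d c 0 (i + 1) :=
  stp_live fun k => by
    rw [List.getElem?_eq_none (by simp only [ell]; omega)]; rfl

theorem lab_coll (hs : ∀ t, c (t + 1) = ((loc F d c t).1,
    fun k => (loc F d c t).2 k ++ ((c t).2 k).drop d)) {t i : ℕ} (h : i ≤ (t + 1) * d) :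
    stp F d (c 0) (some (lab F d c t i)) (coll (c t) (i - t * d)) = lab F d c (t + 1) i := by
  have e : (t + 1) * d = t * d + d := by ring
  rcases lt_or_ge i (t * d) with h1 | h1
  · have h2 : ¬ (t + 1) * d ≤ i := by omega
    have h3 : i + 1 - t * d = 0 := by omega
    simp only [stp, coll, Option.elim_none, Option.elim_some, lab_dead h1]
    simp only [lab, h2, h3, if_false]
    rfl
  · rw [lab_live h1]
    rcases h.lt_or_eq with h2 | h2
    · have h3 : i - t * d < d := by omega
      have h4 : i + 1 - t * d = i - t * d + 1 := by omega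
      have h5 := hd_live (c t) (ell F d c t) (i - t * d)
      simp only [lab, not_le.2 h2, if_false, h4]
      simp only [stp, coll, Option.elim_none, Option.elim_some, h5, win_succ, zero_add, h3, if_true]
      rfl
    · have h3 : i - t * d = d := by omega
      have h5 := hd_live (c t) (ell F d c t) d
      rw [lab_live h2.ge, h2, Nat.sub_self, hs t, ← h2, h3]
      have := go_eq (u := some (live (c t) (ell F d c t) d)) (r := loc F d c t)
        (D := fun k => ((c t).2 k).drop d) (fun k => by simp [h5])
      simp only [stp, coll, Option.elim_none, Option.elim_some, lt_irrefl, if_false, win_take]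
      exact this

theorem lab_s0 (hs : ∀ t, c (t + 1) = ((loc F d c t).1,
    fun k => (loc F d c t).2 k ++ ((c t).2 k).drop d)) (t : ℕ) :
    stp F d (c 0) (some (lab F d c t 0)) dead = lab F d c (t + 1) 0 := by
  have := lab_coll hs (t := t) (Nat.zero_le _)
  rwa [Nat.zero_sub] at this

theorem lab_ss (hs : ∀ t, c (t + 1) = ((loc F d c t).1,
    fun k => (loc F d c t).2 k ++ ((c t).2 k).drop d)) (t i : ℕ) :
    stp F d (c 0) (some (lab F d c t (i + 1))) (lab F d c (t + 1) i) =
      lab F d c (t + 1) (i + 1) := by
  have e : (t + 1) * d = t * d + d := by ring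
  rcases lt_or_ge i ((t + 1) * d) with h | h
  · rw [← lab_coll hs (Nat.succ_le_of_lt h)]
    simp only [lab, not_le.2 h, if_false]
  · rw [lab_live h, lab_live (t := t + 1) (h.trans (Nat.le_succ i)), lab_live (t := t) (by omega),
      show i + 1 - (t + 1) * d = i - (t + 1) * d + 1 by omega]
    refine stp_live fun k => ?_
    rw [hd_live, hs t]
    simp only [ell]
    rw [List.getElem?_append_right (by omega), List.getElem?_drop]
    congr 1
    omega

theorem sz_win {A : ℕ} {S : List ℕ} (h : ∀ x ∈ S, x ≤ A) (j n : ℕ) :
    sz (win S j n) ≤ n * (A + 2) := by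
  have : sz (win S j n) ≤ (win S j n).length * (A + 1 + 1) := sz_list_le fun a ha => by
    obtain ⟨x, -, rfl⟩ := List.mem_map.1 ha
    rcases e : S[j + x]? with _ | y
    · simp
    · have := h y (List.mem_of_getElem? e)
      simp only [sz_some, sz_nat]; omega
  simpa [win] using this

theorem sz_lab [Enc Q] [Fintype K] {A : ℕ} (hq : ∀ q : Q, sz q ≤ A) (hd : d ≤ A)
    (hA : ∀ t k, ∀ x ∈ (c t).2 k, x ≤ A) (hl : ∀ t k, ell F d c t k ≤ A) (t i : ℕ) :
    sz (lab F d c t i) ≤ 2 * A + 3 + Fintype.card K * ((A + 1) * (A + 2) + 1) := by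
  rcases lt_or_ge i (t * d) with h | h
  · obtain ⟨t, rfl⟩ : ∃ t', t = t' + 1 := ⟨t - 1, by cases t <;> simp at h ⊢⟩
    have e : (t + 1) * d = t * d + d := by ring
    have h1 : i + 1 - t * d ≤ A := by omega
    have h2 := sz_pi_le (f := fun k => win ((c t).2 k) 0 (i + 1 - t * d))
      (C := (A + 1) * (A + 2)) fun k =>
        (sz_win (hA t k) _ _).trans (Nat.mul_le_mul_right _ (by omega))
    simp only [lab, not_le.2 h, if_false, coll, sz_pair, sz_nat, sz_none]
    omega
  · have h2 := sz_pi_le (f := fun k => win ((c t).2 k) (i - t * d) (ell F d c t k + 1))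
      (C := (A + 1) * (A + 2)) fun k =>
        (sz_win (hA t k) _ _).trans (Nat.mul_le_mul_right _ (by have := hl t k; omega))
    have := hq (c t).1
    simp only [lab_live h, live, sz_pair, sz_nat, sz_some]
    omega

end

section
variable [Enc Q] [Fintype K]

theorem pt_hd {α : Type} [Enc α] {u : α → Option (Lab Q K)} (hu : PT u) (k : K) :
    PT fun a => hd (u a) k := by
  have h : PT fun x : Lab Q K => x.2.2 k := (PT.snd (PT.snd PT.id)).apply k
  unfold hd
  exact PT.option_bind (PT.option_bind hu ((h.comp (PT.snd PT.id)).head?)) (PT.snd PT.id)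

theorem pt_go {α : Type} [Enc α] {r : α → Cf Q K} {u : α → Option (Lab Q K)} (hr : PT r)
    (hu : PT u) : PT fun a => go (r a) (u a) := by
  refine (PT.const 0).prodMk (hr.fst.some.prodMk (PT.pi fun k => ?_))
  have h1 := hr.snd.apply k
  have h2 := pt_hd hu k
  fun_prop

theorem pt_stp {F : Cf Q K → Cf Q K} (hF : PT F) (d : ℕ) :
    PT fun x : Cf Q K × Option (Lab Q K) × Lab Q K => stp F d x.1 x.2.1 x.2.2 := by
  unfold stp
  refine PT.option_elim (by fun_prop) (PT.option_elim (by fun_prop) (pt_go (by fun_prop)
    (by fun_prop)) (PT.option_elim (by fun_prop) (PT.const _) (PT.ite (by fun_prop) ?_ ?_))) ?_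
  · refine PT.prodMk (by fun_prop) ((PT.const _).prodMk (PT.pi fun k => ?_))
    exact PT.append (PT.apply (by fun_prop) k) ((pt_hd (by fun_prop) k).cons (PT.const _))
  · refine pt_go (hF.comp (PT.prodMk (by fun_prop) (PT.pi fun k => ?_))) (by fun_prop)
    exact PT.filterMap (PT.apply (by fun_prop) k) (PT.snd PT.id)
  · refine (PT.const _).prodMk (PT.prodMk (by fun_prop) (PT.pi fun k => ?_))
    exact PT.append (PT.apply (by fun_prop) k).tail ((pt_hd (by fun_prop) k).cons (PT.const _))

end

/-- codes of fixed length -/
def code {α : Type} [Enc α] (m : ℕ) (x : α) : Str := ((enc x).bits ++ List.replicate m false).take m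

theorem length_code {α : Type} [Enc α] (m : ℕ) (x : α) : (code m x).length = m := by
  simp [code]

theorem rd_code {α : Type} [Enc α] [Rd α] {m : ℕ} {x : α} (h : 2 * sz x + 1 ≤ m) :
    (rd (PT.parse (code m x)) : α) = x := by
  have h1 : (enc x).bits.length ≤ m := by rw [T.length_bits]; exact h
  have : PT.parse (code m x) = enc x := by
    rw [code, List.take_append, List.take_of_length_le h1, PT.parse, PT.parse_bits]; rfl
  rw [this, Rd.rd_enc]

theorem line [Enc Q] [Fintype Q] [Fintype K] {F : Cf Q K → Cf Q K} (hF : PT F) (d : ℕ)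
    {c : Str → ℕ → Cf Q K} (hi : PT fun w => c w 0) {B : Q × (K → Option ℕ) → Bool} (hB : PT B)
    (hs : ∀ w t, c w (t + 1) = ((loc F d (c w) t).1,
      fun k => (loc F d (c w) t).2 k ++ ((c w t).2 k).drop d))
    {A : ℕ} (hA : ∀ w t k, ∀ x ∈ (c w t).2 k, x ≤ A)
    (hl : ∀ w t k, ((loc F d (c w) t).2 k).length ≤ A) :
    ∃ (m : Str → ℕ) (G : Str × Option Str × Option Str → Str) (bad : Str → Bool),
      PT m ∧ PT G ∧ PT bad ∧ ∀ w t i, (grid (fun u l => G (w, u, l)) t i).length = m w ∧
        (bad (grid (fun u l => G (w, u, l)) t i) = true ↔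
          t * d ≤ i ∧ B ((c w t).1, fun k => ((c w t).2 k)[i - t * d]?) = true) := by
  letI : Rd Q := rdFin Q (c [] 0).1
  letI : Rd (K → List (Option ℕ)) := rdPi K _ []
  obtain ⟨C, hC⟩ := exists_sz_bound Q
  let a : Str → ℕ := fun w => C + d + A + sz (c w 0)
  let m : Str → ℕ := fun w =>
    2 * (2 * a w + 3 + Fintype.card K * ((a w + 1) * (a w + 2) + 1)) + 1
  let r : Str → Lab Q K := fun s => rd (PT.parse s)
  have hp := PT.parse'
  have ha : PT a := by simp only [a]; fun_prop
  have hm : PT m := by simp only [m]; fun_prop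
  have hr : PT r := by simp only [r]; fun_prop
  have hrd : ∀ w t i, r (code (m w) (lab F d (c w) t i)) = lab F d (c w) t i := fun w t i => by
    refine rd_code ?_
    have := sz_lab (F := F) (d := d) (c := c w) (A := a w)
      (fun q => by have := hC q; simp only [a]; omega) (by simp only [a]; omega)
      (fun t k x hx => by have := hA w t k x hx; simp only [a]; omega) (fun t k => by
        cases t with
        | zero =>
          have h1 := length_le_sz ((c w 0).2 k)
          have h2 := sz_le_pi (c w 0).2 k
          have h3 := sz_prod (c w 0)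
          simp only [a, ell]; omega
        | succ t => have := hl w t k; simp only [a, ell]; omega) t i
    simp only [m]; omega
  refine ⟨m, fun x => code (m x.1) (stp F d (c x.1 0) (x.2.1.map r) ((x.2.2.map r).getD dead)),
    fun s => (r s).2.1.elim false fun q => B (q, fun k => hd (some (r s)) k), hm, ?_, ?_,
    fun w t i => ?_⟩
  · have h1 : PT fun x : Str × Option Str × Option Str =>
        stp F d (c x.1 0) (x.2.1.map r) ((x.2.2.map r).getD dead) :=
      (pt_stp hF d).comp (f := fun x : Str × Option Str × Option Str =>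
        (c x.1 0, x.2.1.map r, (x.2.2.map r).getD dead))
        ((hi.comp (PT.fst PT.id)).prodMk (by fun_prop))
    unfold code
    fun_prop
  · refine PT.option_elim (by fun_prop) (PT.const _) (hB.comp (PT.prodMk (by fun_prop)
      (PT.pi fun k => pt_hd (by fun_prop) k)))
  · have key : ∀ t i, grid (fun u l => code (m w) (stp F d (c w 0) (u.map r)
        ((l.map r).getD dead))) t i = code (m w) (lab F d (c w) t i) := by
      intro t
      induction t with
      | zero =>
        intro i
        induction i with
        | zero => rw [grid, ← lab_00]; rfl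
        | succ i ih => rw [grid, ih, ← lab_0s, Option.map_some, hrd]; rfl
      | succ t iht =>
        intro i
        induction i with
        | zero => rw [grid, iht, ← lab_s0 (hs w), Option.map_some, hrd]; rfl
        | succ i ih =>
          rw [grid, iht, ih, ← lab_ss (hs w), Option.map_some, Option.map_some, hrd, hrd]; rfl
    simp only [key, length_code, hrd, true_and]
    rcases lt_or_ge i (t * d) with h | h
    · simp [lab_dead h, not_le.2 h]
    · simp only [lab_live h, hd_live, h, true_and]
      rfl

end Gr

end Pool.Agent.Lib.MP_cb9cb0_lc.X
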