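import Pool.Agent.Lib.MP_cb9cb0_lc.X.LinkA

/-! From clean grids to linked systems of clauses. -/

set_option autoImplicit false

namespace Pool.Agent.Lib.MP_cb9cb0_lc.X

open Pool.Agent.Lib.Complexity

namespace Link

theorem exists_cnf {m : Str → ℕ} {G : Str × Option Str × Option Str → Str} {bad : Str → Bool}
    (hm : PT m) (hG : PT G) (hb : PT bad) : ∃ ψ : Str × Bool × Bool → CNF, PT ψ ∧
      (∀ x, ∀ c ∈ ψ x, c.length = 3) ∧ ∀ x v,
        chk (m x.1) (fun u l => G (x.1, u, l)) bad x.2.1 x.2.2 v = true ↔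
          ∃ v' : ℕ → Bool, (∀ i < 10 + 3 * m x.1, v' i = v i) ∧ (ψ x).Sat v' := by
  have hR : PT fun y : (Str × Bool × Bool) × Str => chk (m y.1.1) (fun u l => G (y.1.1, u, l)) bad
      y.1.2.1 y.1.2.2 fun i => y.2.getD i false := by
    unfold chk rd
    fun_prop
  obtain ⟨ψ, h1, h2, h3⟩ := cook_levin_pt3 hR
  refine ⟨fun x => ψ (x, 10 + 3 * m x.1), by fun_prop, fun x => h2 _, fun x v => ?_⟩
  have e := h3 x ((List.range (10 + 3 * m x.1)).map v)
  simp only [List.length_map, List.length_range] at e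
  rw [chk_congr (v' := v) _ _ _ _ fun i hi => by simp [List.getD_eq_getElem?_getD, hi]] at e
  rw [e]
  refine exists_congr fun v' => and_congr_left fun _ => forall₂_congr fun i hi => ?_
  simp [hi, eq_comm]

/-- a renamed literal -/
def lit (m : ℕ) (k : ℤ) (c : Clause) (n : ℕ) : Lit :=
  (ren m k (c.getD n (0, false)).1, (c.getD n (0, false)).2)

/-- a renamed clause -/
def cl3 (m : ℕ) (k : ℤ) (c : Clause) : Cl3 := (lit m k c 0, lit m k c 1, lit m k c 2)

theorem cl3_sat {m : ℕ} {k : ℤ} {c : Clause} (hc : c.length = 3) (α : Xv → Bool) :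
    (cl3 m k c).Sat α ↔ ∃ l ∈ c, α (ren m k l.1) = l.2 := by
  obtain ⟨a, b, d, rfl⟩ := List.length_eq_three.1 hc
  simp [cl3, lit, Cl3.Sat]

theorem sz_ren (m : ℕ) {k : ℤ} {B : ℕ} (h0 : sz (0 : ℤ) ≤ B) (h1 : sz k ≤ B) (h2 : sz (k + 1) ≤ B)
    (u : ℕ) : sz (ren m k u) ≤ B + u + 6 := by
  unfold ren
  split_ifs <;> simp only [sz_pair, sz_nat] <;> omega

theorem sz_cl3 (m : ℕ) {k : ℤ} {B D : ℕ} (h0 : sz (0 : ℤ) ≤ B) (h1 : sz k ≤ B)
    (h2 : sz (k + 1) ≤ B) {c : Clause} (hc : c.length = 3) (hD : ∀ l ∈ c, l.1 < D) :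
    sz (cl3 m k c) ≤ 3 * (B + D + 10) := by
  obtain ⟨a, b, d, rfl⟩ := List.length_eq_three.1 hc
  have a1 := hD a (by simp)
  have a2 := hD b (by simp)
  have a3 := hD d (by simp)
  have b1 := sz_ren m h0 h1 h2 a.1
  have b2 := sz_ren m h0 h1 h2 b.1
  have b3 := sz_ren m h0 h1 h2 d.1
  have c1 := sz_bool a.2
  have c2 := sz_bool b.2
  have c3 := sz_bool d.2
  simp only [cl3, lit, List.getD_cons_zero, List.getD_cons_succ, sz_pair]
  omega

theorem ren_low {m : ℕ} (k : ℤ) {u : ℕ} (h : u < 10 + 3 * m) :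
    ¬((ren m k u).1 = 3 ∧ 10 + 3 * m ≤ (ren m k u).2.2) := by
  unfold ren
  split_ifs <;> simp only <;> omega

theorem ren_high {m : ℕ} (k : ℤ) {u : ℕ} (h : 10 + 3 * m ≤ u) : ren m k u = (3, k, u) := by
  unfold ren
  split_ifs <;> first | rfl | omega

/-- the clauses of one input -/
def cls (m : ℕ) (K : ℤ) (ψ : Bool → Bool → CNF) (i : Ci) : Option Cl3 :=
  if 0 ≤ i.1 ∧ i.1 < K then
    ((ψ (decide (i.1 = 0)) (decide (i.1 + 1 = K)))[i.2]?).map fun c => cl3 m i.1 c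
  else none

section one

variable {m K : ℕ} {g : Option Str → Option Str → Str} {bad : Str → Bool} {ψ : Bool → Bool → CNF}
  (h3 : ∀ f l, ∀ c ∈ ψ f l, c.length = 3)
  (hψ : ∀ f l v, chk m g bad f l v = true ↔
    ∃ v' : ℕ → Bool, (∀ i < 10 + 3 * m, v' i = v i) ∧ (ψ f l).Sat v')

include h3 hψ

theorem extend {β : Xv → Bool} (h : Loc m K g bad β) : ∃ α : Xv → Bool,
    (∀ x : Xv, x.1 ≠ 3 → α x = β x) ∧ ∀ i c, cls m K ψ i = some c → c.Sat α := by
  have h1 : ∀ k : ℤ, ∃ v' : ℕ → Bool, 0 ≤ k ∧ k < K →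
      (∀ i < 10 + 3 * m, v' i = β (ren m k i)) ∧
        (ψ (decide (k = 0)) (decide (k + 1 = K))).Sat v' := by
    intro k
    by_cases c : 0 ≤ k ∧ k < K
    · obtain ⟨n, rfl⟩ := Int.eq_ofNat_of_zero_le c.1
      obtain ⟨v', hv⟩ := (hψ _ _ _).1 (h n (by omega))
      exact ⟨v', fun _ => hv⟩
    · exact ⟨fun _ => false, fun e => absurd e c⟩
  choose v hv using h1
  refine ⟨fun x => if x.1 = 3 ∧ 10 + 3 * m ≤ x.2.2 then v x.2.1 x.2.2 else β x,
    fun x hx => if_neg fun e => hx e.1, fun i c hc => ?_⟩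
  unfold cls at hc
  split_ifs at hc with c1
  obtain ⟨d, hd, rfl⟩ := Option.map_eq_some_iff.1 hc
  have hd' := List.mem_of_getElem? hd
  obtain ⟨l, hl, e⟩ := (hv _ c1).2 d hd'
  refine (cl3_sat (h3 _ _ d hd') _).2 ⟨l, hl, ?_⟩
  rw [← e]
  by_cases c2 : l.1 < 10 + 3 * m
  · rw [if_neg (ren_low _ c2), (hv _ c1).1 _ c2]
  · rw [ren_high _ (not_lt.1 c2), if_pos ⟨rfl, not_lt.1 c2⟩]

theorem yes (hl : ∀ t i, (grid g t i).length = m)
    (hc : ∀ t < 2 ^ K, ∀ i < 2 ^ K, bad (grid g t i) = false) : YesC (cls m K ψ) := by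
  have hv : ∀ t : ZMod (2 ^ K), t.val = ((t - 1).val + 1) % 2 ^ K := fun t => by
    conv_lhs => rw [← sub_add_cancel t 1, ZMod.val_add, ZMod.val_one_eq_one_mod, Nat.add_mod_mod]
  have h1 := fun ω : ZMod (2 ^ K) × ZMod (2 ^ K) => extend h3 hψ (complete hl
    (ZMod.val_lt (ω.1 - 1)) (ZMod.val_lt (ω.2 - 1)) (hv ω.1) (hv ω.2)
    (hc _ (ZMod.val_lt _) _ (ZMod.val_lt _)))
  choose α a1 a2 using h1
  refine ⟨ZMod (2 ^ K) × ZMod (2 ^ K), inferInstance, α,
    ![Equiv.addRight (1, 0), Equiv.addRight (0, 1)], inferInstance, a2, fun j ω k u => ?_⟩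
  rw [a1 _ _ (by simp), a1 _ _ (by have := j.2; simp only; omega)]
  fin_cases j <;> simp [asg]

theorem model {e b : ℕ} (hK : K = 2 ^ e) (b1 : 4 * e + m + 20 ≤ b)
    (b2 : ∀ f l, 3 * (4 * e + (ψ f l).top + 20) + (ψ f l).length ≤ b)
    (h : ModelC b (cls m K ψ)) : ∀ t < 2 ^ K, ∀ i < 2 ^ K, bad (grid g t i) = false := by
  obtain ⟨S, hS, h⟩ := h
  have K0 : 0 < K := by rw [hK]; positivity
  have s1 : ∀ k : ℤ, 0 ≤ k → k ≤ K → sz k ≤ 4 * e + 5 := fun k k1 k2 =>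
    sz_int_le (k := e + 1) (by rw [pow_succ, ← hK]; omega)
  refine sound (m := m) K0 S hS (fun α hα k hk => ?_) (fun k u => sz (k, u) ≤ b) (fun k hk => ?_)
    (fun j hj => ?_) (fun α hα j => ((h α hα).2 j).1) fun α hα j => ((h α hα).2 j).2
  · refine (hψ _ _ _).2 ⟨_, fun _ _ => rfl, fun c hc => ?_⟩
    obtain ⟨i, hi, rfl⟩ := List.getElem_of_mem hc
    have z0 := s1 0 le_rfl (by omega)
    have z1 := s1 k (by omega) (by omega)
    have z2 := s1 (k + 1) (by omega) (by omega)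
    have z3 := b2 (decide ((k : ℤ) = 0)) (decide ((k : ℤ) + 1 = K))
    have z4 := sz_cl3 m z0 z1 z2 (h3 _ _ _ hc) fun l hl => CNF.lt_top hc hl
    refine (cl3_sat (h3 _ _ _ hc) α).1 ((h α hα).1 (k, i) _ ?_ (by omega) ?_)
    · simp only [sz_pair, sz_nat]
      omega
    · unfold cls
      rw [if_pos ⟨by simp, by simpa using hk⟩, List.getElem?_eq_getElem hi]
      rfl
  · have z1 := s1 k (by omega) (by omega)
    simp only [sz_pair, sz_nat]
    omega
  · have z0 := s1 0 le_rfl (by omega)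
    simp only [sz_pair, sz_nat]
    omega

end one

end Link

open Link in
theorem linkSt : LinkSt := by
  intro m e G bad hm he hG hb
  obtain ⟨ψ, h1, h2, h3⟩ := exists_cnf hm hG hb
  have ht : PT fun x => (ψ x).top := pt_top.comp h1
  let s : Str × Bool × Bool → ℕ := fun x => 3 * (ψ x).top + (ψ x).length
  have hs : PT s := by fun_prop
  refine ⟨fun x => cls (m x.1) (2 ^ e x.1) (fun f l => ψ (x.1, f, l)) x.2,
    fun w => 12 * e w + m w + 60 + s (w, true, true) + s (w, true, false) + s (w, false, true) +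
      s (w, false, false), ?_, by fun_prop, fun w hl => ⟨fun hc => ?_, fun hc => ?_⟩⟩
  · unfold cls cl3 lit ren
    fun_prop
  · have := yes (K := 2 ^ e w) (ψ := fun f l => ψ (w, f, l)) (fun f l => h2 _)
      (fun f l v => h3 (w, f, l) v) hl hc
    simpa using this
  · refine model (K := 2 ^ e w) (e := e w) (ψ := fun f l => ψ (w, f, l)) (fun f l => h2 _)
      (fun f l v => h3 (w, f, l) v) rfl ?_ (fun f l => ?_) (by simpa using hc)
    · omega
    · cases f <;> cases l <;> simp only [s] <;> omega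

end Pool.Agent.Lib.MP_cb9cb0_lc.X
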