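import Pool.Agent.Lib.MP_cb9cb0_lc.X.Basic

/-! Counters, the local check and the two directions on the level of assignments. -/

set_option autoImplicit false

namespace Pool.Agent.Lib.MP_cb9cb0_lc.X.Link

open Pool.Agent.Lib.Complexity

theorem grid_eq (g : Option Str → Option Str → Str) (t i : ℕ) :
    grid g t i = g (if t = 0 then none else some (grid g (t - 1) i))
      (if i = 0 then none else some (grid g t (i - 1))) := by
  cases t <;> cases i <;> simp [grid]

theorem sound_abs {σ : Type} (S : Set σ) (hS : S.Nonempty) (N : ℕ) (T I : ℕ → σ → ℕ)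
    (lab : ℕ → σ → Str) (g : Option Str → Option Str → Str) (bad : Str → Bool)
    (hT : ∀ j x, T j x < N) (hI : ∀ j x, I j x < N)
    (loc : ∀ x ∈ S, ∃ c e : Bool, T 0 x + N * c.toNat = T 1 x + 1 ∧ T 2 x = T 0 x ∧
      I 0 x + N * e.toNat = I 2 x + 1 ∧ I 1 x = I 0 x ∧
      lab 0 x = g (cond c none (some (lab 1 x))) (cond e none (some (lab 2 x))) ∧
      bad (lab 0 x) = false)
    (suc : ∀ x ∈ S, ∀ j : Fin 2, ∃ y ∈ S, T (j + 1) y = T 0 x ∧ I (j + 1) y = I 0 x)
    (pre : ∀ x ∈ S, ∀ j : Fin 2, ∃ y ∈ S, T 0 y = T (j + 1) x ∧ I 0 y = I (j + 1) x ∧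
      lab 0 y = lab (j + 1) x) : ∀ t < N, ∀ i < N, bad (grid g t i) = false := by
  have key : ∀ n, ∀ x ∈ S, T 0 x + I 0 x = n → lab 0 x = grid g (T 0 x) (I 0 x) := by
    intro n
    induction n using Nat.strong_induction_on with
    | _ n ih =>
      intro x hx hn
      obtain ⟨c, e, h1, h2, h3, h4, h5, -⟩ := loc x hx
      obtain ⟨y, hy, y1, y2, y3⟩ := pre x hx 0
      obtain ⟨z, hz, z1, z2, z3⟩ := pre x hx 1
      change T 0 y = T 1 x at y1
      change I 0 y = I 1 x at y2
      change lab 0 y = lab 1 x at y3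
      change T 0 z = T 2 x at z1
      change I 0 z = I 2 x at z2
      change lab 0 z = lab 2 x at z3
      have a1 := hT 1 x
      have a2 := hI 2 x
      rw [h5, grid_eq]
      congr 1
      · cases c
        · simp only [Bool.toNat_false, mul_zero, add_zero] at h1
          rw [if_neg (by omega), cond_false, ← y3, ih _ (by omega) y hy rfl, y1, y2, h4, h1,
            Nat.add_sub_cancel]
        · simp only [Bool.toNat_true, mul_one] at h1
          rw [if_pos (by omega), cond_true]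
      · cases e
        · simp only [Bool.toNat_false, mul_zero, add_zero] at h3
          rw [if_neg (by omega), cond_false, ← z3, ih _ (by omega) z hz rfl, z1, z2, h2, h3,
            Nat.add_sub_cancel]
        · simp only [Bool.toNat_true, mul_one] at h3
          rw [if_pos (by omega), cond_true]
  have md : ∀ a b (c : Bool), a < N → a + N * c.toNat = b + 1 → a = (b + 1) % N := by
    intro a b c ha h
    rw [← h, Nat.add_mul_mod_self_left, Nat.mod_eq_of_lt ha]
  have r1 : ∀ n, ∀ x ∈ S, ∃ y ∈ S, T 0 y = (T 0 x + n) % N ∧ I 0 y = I 0 x := by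
    intro n x hx
    induction n with
    | zero => exact ⟨x, hx, by rw [add_zero, Nat.mod_eq_of_lt (hT 0 x)], rfl⟩
    | succ n ih =>
      obtain ⟨y, hy, y1, y2⟩ := ih
      obtain ⟨z, hz, z1, z2⟩ := suc y hy 0
      change T 1 z = T 0 y at z1
      change I 1 z = I 0 y at z2
      obtain ⟨c, e, h1, -, -, h4, -, -⟩ := loc z hz
      refine ⟨z, hz, ?_, by omega⟩
      rw [md _ _ c (hT 0 z) h1, z1, y1, Nat.mod_add_mod, add_assoc]
  have r2 : ∀ n, ∀ x ∈ S, ∃ y ∈ S, I 0 y = (I 0 x + n) % N ∧ T 0 y = T 0 x := by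
    intro n x hx
    induction n with
    | zero => exact ⟨x, hx, by rw [add_zero, Nat.mod_eq_of_lt (hI 0 x)], rfl⟩
    | succ n ih =>
      obtain ⟨y, hy, y1, y2⟩ := ih
      obtain ⟨z, hz, z1, z2⟩ := suc y hy 1
      change T 2 z = T 0 y at z1
      change I 2 z = I 0 y at z2
      obtain ⟨c, e, -, h2, h3, -, -, -⟩ := loc z hz
      refine ⟨z, hz, ?_, by omega⟩
      rw [md _ _ e (hI 0 z) h3, z2, y1, Nat.mod_add_mod, add_assoc]
  intro t ht i hi
  obtain ⟨x, hx⟩ := hS
  obtain ⟨y, hy, y1, -⟩ := r1 (N - T 0 x + t) x hx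
  obtain ⟨z, hz, z1, z2⟩ := r2 (N - I 0 y + i) y hy
  have b1 := hT 0 x
  have b2 := hI 0 y
  rw [show T 0 x + (N - T 0 x + t) = t + N by omega, Nat.add_mod_right, Nat.mod_eq_of_lt ht] at y1
  rw [show I 0 y + (N - I 0 y + i) = i + N by omega, Nat.add_mod_right, Nat.mod_eq_of_lt hi] at z1
  obtain ⟨c, e, -, -, -, -, -, h6⟩ := loc z hz
  rwa [key _ z hz rfl, z1, z2, y1] at h6

/-- the value of the first `n` bits -/
def vl (f : ℕ → Bool) : ℕ → ℕ
  | 0 => 0
  | n + 1 => vl f n + 2 ^ n * (f n).toNat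

theorem vl_lt (f : ℕ → Bool) (n : ℕ) : vl f n < 2 ^ n := by
  induction n with
  | zero => simp [vl]
  | succ n ih => rw [vl, pow_succ]; cases f n <;> simp <;> omega

theorem vl_congr {f g : ℕ → Bool} {n : ℕ} (h : ∀ k < n, f k = g k) : vl f n = vl g n := by
  induction n with
  | zero => rfl
  | succ n ih => rw [vl, vl, ih fun k hk => h k (by omega), h n (by omega)]

theorem vl_inc {a b c : ℕ → Bool} (h0 : c 0 = true) {n : ℕ}
    (h : ∀ k < n, a k = (b k ^^ c k) ∧ c (k + 1) = (b k && c k)) :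
    vl a n + 2 ^ n * (c n).toNat = vl b n + 1 := by
  induction n with
  | zero => simp [vl, h0]
  | succ n ih =>
    have := ih fun k hk => h k (by omega)
    obtain ⟨h1, h2⟩ := h n (by omega)
    rw [vl, vl, h1, h2, pow_succ]
    cases hb : b n <;> cases hc : c n <;> simp [hc] at this ⊢ <;> omega

theorem bit_succ (s k : ℕ) :
    (s + 1).testBit k = (s.testBit k ^^ decide (2 ^ k ∣ s + 1)) ∧
      decide (2 ^ (k + 1) ∣ s + 1) = (s.testBit k && decide (2 ^ k ∣ s + 1)) := by
  rw [Nat.testBit_eq_decide_div_mod_eq, Nat.testBit_eq_decide_div_mod_eq]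
  by_cases h : 2 ^ k ∣ s + 1
  · have e := Nat.succ_div_of_dvd h
    have e2 : 2 ^ (k + 1) ∣ s + 1 ↔ 2 ∣ (s + 1) / 2 ^ k := by
      rw [Nat.dvd_div_iff_mul_dvd h, pow_succ]
    simp only [e2, e, h, decide_true, Bool.xor_true, Bool.and_true]
    constructor
    · rw [← decide_not, decide_eq_decide]; omega
    · rw [decide_eq_decide]; omega
  · have e := Nat.succ_div_of_not_dvd h
    have e2 : ¬2 ^ (k + 1) ∣ s + 1 := fun c => h ((pow_dvd_pow 2 k.le_succ).trans c)
    simp [e, h, e2]

/-- a block of `m` bits -/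
def rd (m : ℕ) (v : ℕ → Bool) (o : ℕ) : Str := (List.range m).map fun j => v (o + j)

theorem rd_congr {m o o' : ℕ} {v v' : ℕ → Bool} (h : ∀ j < m, v (o + j) = v' (o' + j)) :
    rd m v o = rd m v' o' :=
  List.map_congr_left fun j hj => h j (List.mem_range.1 hj)

theorem rd_getD {m o : ℕ} {v : ℕ → Bool} {l : Str} (hl : l.length = m)
    (h : ∀ j < m, v (o + j) = l.getD j false) : rd m v o = l := by
  refine List.ext_getElem (by simp [rd, hl]) fun j h1 h2 => ?_
  simp only [rd, List.getElem_map, List.getElem_range]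
  rw [h j (by omega), List.getD_eq_getElem _ _ h2]

/-- the local check -/
def chk (m : ℕ) (g : Option Str → Option Str → Str) (bad : Str → Bool) (f l : Bool)
    (v : ℕ → Bool) : Bool :=
  decide (v 0 = (v 1 ^^ v 6)) && decide (v 7 = (v 1 && v 6)) && decide (v 2 = v 0) &&
  decide (v 3 = (v 5 ^^ v 8)) && decide (v 9 = (v 5 && v 8)) && decide (v 4 = v 3) &&
  (!f || (v 6 && v 8)) &&
  (!l || (decide (rd m v 10 = g (cond (v 7) none (some (rd m v (10 + m))))
    (cond (v 9) none (some (rd m v (10 + 2 * m))))) && !bad (rd m v 10)))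

theorem chk_congr {m : ℕ} (g : Option Str → Option Str → Str) (bad : Str → Bool) (f l : Bool)
    {v v' : ℕ → Bool} (h : ∀ i < 10 + 3 * m, v i = v' i) : chk m g bad f l v = chk m g bad f l v' := by
  unfold chk
  rw [h 0 (by omega), h 1 (by omega), h 2 (by omega), h 3 (by omega), h 4 (by omega),
    h 5 (by omega), h 6 (by omega), h 7 (by omega), h 8 (by omega), h 9 (by omega),
    rd_congr (v' := v') (o := 10) (o' := 10) fun j _ => h _ (by omega),
    rd_congr (v' := v') (o := 10 + m) (o' := 10 + m) fun j _ => h _ (by omega),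
    rd_congr (v' := v') (o := 10 + 2 * m) (o' := 10 + 2 * m) fun j _ => h _ (by omega)]

/-- names of the variables of the check at the position `k` -/
def ren (m : ℕ) (k : ℤ) (u : ℕ) : Xv :=
  if u < 3 then (u, k, 0) else if u < 6 then (u - 3, k, 1) else if u = 6 then (3, k, 0)
  else if u = 7 then (3, k + 1, 0) else if u = 8 then (3, k, 1) else if u = 9 then (3, k + 1, 1)
  else if u < 10 + m then (0, 0, u - 8) else if u < 10 + 2 * m then (1, 0, u - m - 8)
  else if u < 10 + 3 * m then (2, 0, u - 2 * m - 8) else (3, k, u)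

/-- the label of a block -/
def lab (m j : ℕ) (α : Xv → Bool) : Str := rd m (fun u => α (j, 0, u)) 2

theorem chk_ren {m : ℕ} (g : Option Str → Option Str → Str) (bad : Str → Bool) (f l : Bool)
    (k : ℤ) (α : Xv → Bool) : chk m g bad f l (fun u => α (ren m k u)) = true ↔
      (α (0, k, 0) = (α (1, k, 0) ^^ α (3, k, 0)) ∧ α (3, k + 1, 0) = (α (1, k, 0) && α (3, k, 0))) ∧
      α (2, k, 0) = α (0, k, 0) ∧
      (α (0, k, 1) = (α (2, k, 1) ^^ α (3, k, 1)) ∧ α (3, k + 1, 1) = (α (2, k, 1) && α (3, k, 1))) ∧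
      α (1, k, 1) = α (0, k, 1) ∧ (f = true → α (3, k, 0) = true ∧ α (3, k, 1) = true) ∧
      (l = true → lab m 0 α = g (cond (α (3, k + 1, 0)) none (some (lab m 1 α)))
        (cond (α (3, k + 1, 1)) none (some (lab m 2 α))) ∧ bad (lab m 0 α) = false) := by
  have e0 : rd m (fun u => α (ren m k u)) 10 = lab m 0 α := rd_congr fun j hj => by
    unfold ren
    rw [if_neg (by omega), if_neg (by omega), if_neg (by omega), if_neg (by omega),
      if_neg (by omega), if_neg (by omega), if_pos (by omega), show 10 + j - 8 = 2 + j by omega]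
  have e1 : rd m (fun u => α (ren m k u)) (10 + m) = lab m 1 α := rd_congr fun j hj => by
    unfold ren
    rw [if_neg (by omega), if_neg (by omega), if_neg (by omega), if_neg (by omega),
      if_neg (by omega), if_neg (by omega), if_neg (by omega), if_pos (by omega),
      show 10 + m + j - m - 8 = 2 + j by omega]
  have e2 : rd m (fun u => α (ren m k u)) (10 + 2 * m) = lab m 2 α := rd_congr fun j hj => by
    unfold ren
    rw [if_neg (by omega), if_neg (by omega), if_neg (by omega), if_neg (by omega),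
      if_neg (by omega), if_neg (by omega), if_neg (by omega), if_neg (by omega), if_pos (by omega),
      show 10 + 2 * m + j - 2 * m - 8 = 2 + j by omega]
  unfold chk
  rw [e0, e1, e2]
  cases f <;> cases l <;> simp [ren, and_assoc]

/-- all local checks -/
def Loc (m K : ℕ) (g : Option Str → Option Str → Str) (bad : Str → Bool) (α : Xv → Bool) : Prop :=
  ∀ k : ℕ, k < K → chk m g bad (decide ((k : ℤ) = 0)) (decide ((k : ℤ) + 1 = K))
    (fun u => α (ren m k u)) = true

theorem sound {m K : ℕ} (hK : 0 < K) {g : Option Str → Option Str → Str} {bad : Str → Bool}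
    (S : Set (Xv → Bool)) (hS : S.Nonempty) (loc : ∀ α ∈ S, Loc m K g bad α) (P : ℤ → ℕ → Prop)
    (p1 : ∀ k : ℕ, k < K → P k 0 ∧ P k 1) (p2 : ∀ j < m, P 0 (2 + j))
    (suc : ∀ α ∈ S, ∀ j : Fin 2, ∃ α' ∈ S, ∀ k u, P k u → α' (j.val + 1, k, u) = α (0, k, u))
    (pre : ∀ α ∈ S, ∀ j : Fin 2, ∃ α' ∈ S, ∀ k u, P k u → α' (0, k, u) = α (j.val + 1, k, u)) :
    ∀ t < 2 ^ K, ∀ i < 2 ^ K, bad (grid g t i) = false := by
  refine sound_abs S hS (2 ^ K) (fun j α => vl (fun k => α (j, k, 0)) K)
    (fun j α => vl (fun k => α (j, k, 1)) K) (lab m) g bad (fun _ _ => vl_lt _ _)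
    (fun _ _ => vl_lt _ _) (fun α hα => ?_) (fun α hα j => ?_) fun α hα j => ?_
  · have h := fun k hk => (chk_ren g bad _ _ _ α).1 (loc α hα k hk)
    have h0 := (h 0 hK).2.2.2.2.1 (by simp)
    have e : ((K - 1 : ℕ) : ℤ) + 1 = K := by omega
    have h1 := (h (K - 1) (by omega)).2.2.2.2.2 (decide_eq_true e)
    rw [e] at h1
    refine ⟨α (3, K, 0), α (3, K, 1), vl_inc (c := fun k => α (3, k, 0)) h0.1 fun k hk => (h k hk).1,
      vl_congr fun k hk => (h k hk).2.1,
      vl_inc (c := fun k => α (3, k, 1)) h0.2 fun k hk => (h k hk).2.2.1,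
      vl_congr fun k hk => (h k hk).2.2.2.1, h1⟩
  · obtain ⟨β, hβ, e⟩ := suc α hα j
    exact ⟨β, hβ, vl_congr fun k hk => e _ _ (p1 k hk).1, vl_congr fun k hk => e _ _ (p1 k hk).2⟩
  · obtain ⟨β, hβ, e⟩ := pre α hα j
    exact ⟨β, hβ, vl_congr fun k hk => e _ _ (p1 k hk).1, vl_congr fun k hk => e _ _ (p1 k hk).2,
      rd_congr fun j hj => e _ _ (p2 j hj)⟩

/-- the bits of a cell -/
def cell (g : Option Str → Option Str → Str) (t i : ℕ) (k : ℤ) (u : ℕ) : Bool :=
  if u = 0 then t.testBit k.toNat else if u = 1 then i.testBit k.toNat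
  else (grid g t i).getD (u - 2) false

/-- the intended assignment -/
def asg (g : Option Str → Option Str → Str) (t i s r : ℕ) (x : Xv) : Bool :=
  if x.1 = 0 then cell g t i x.2.1 x.2.2 else if x.1 = 1 then cell g s i x.2.1 x.2.2
  else if x.1 = 2 then cell g t r x.2.1 x.2.2
  else if x.2.2 = 0 then decide (2 ^ x.2.1.toNat ∣ s + 1) else decide (2 ^ x.2.1.toNat ∣ r + 1)

theorem wrap {N s t : ℕ} (hs : s < N) (ht : t = (s + 1) % N) {β : Type} (F : ℕ → β) :
    (if t = 0 then none else some (F (t - 1))) = cond (decide (N ∣ s + 1)) none (some (F s)) := by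
  rcases (Nat.succ_le_of_lt hs).eq_or_lt with e | e
  · rw [if_pos (by rw [ht, ← e, Nat.mod_self]), decide_eq_true (by rw [← e]), cond_true]
  · rw [Nat.mod_eq_of_lt e] at ht
    rw [if_neg (by omega), decide_eq_false (Nat.not_dvd_of_pos_of_lt (by omega) e), cond_false, ht,
      Nat.succ_sub_one]

theorem complete {m K : ℕ} {g : Option Str → Option Str → Str} {bad : Str → Bool}
    (hl : ∀ t i, (grid g t i).length = m) {t i s r : ℕ} (hs : s < 2 ^ K) (hr : r < 2 ^ K)
    (ht : t = (s + 1) % 2 ^ K) (hi : i = (r + 1) % 2 ^ K) (hb : bad (grid g t i) = false) :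
    Loc m K g bad (asg g t i s r) := by
  intro k hk
  have l0 : lab m 0 (asg g t i s r) = grid g t i := rd_getD (hl _ _) fun j _ => by
    simp [asg, cell, show 2 + j ≠ 1 by omega]
  have l1 : lab m 1 (asg g t i s r) = grid g s i := rd_getD (hl _ _) fun j _ => by
    simp [asg, cell, show 2 + j ≠ 1 by omega]
  have l2 : lab m 2 (asg g t i s r) = grid g t r := rd_getD (hl _ _) fun j _ => by
    simp [asg, cell, show 2 + j ≠ 1 by omega]
  have e1 : ((k : ℤ) + 1).toNat = k + 1 := by omega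
  have b1 : t.testBit k = (s + 1).testBit k := by rw [ht, Nat.testBit_mod_two_pow]; simp [hk]
  have b2 : i.testBit k = (r + 1).testBit k := by rw [hi, Nat.testBit_mod_two_pow]; simp [hk]
  rw [chk_ren, l0, l1, l2]
  simp only [asg, cell, if_true, Int.toNat_natCast, e1, one_ne_zero, if_false, b1, b2,
    OfNat.ofNat_ne_zero, OfNat.ofNat_ne_one, show (3 : ℕ) ≠ 2 by omega, decide_eq_true_eq]
  refine ⟨bit_succ s k, trivial, bit_succ r k, trivial, fun h => ?_, fun h => ⟨?_, hb⟩⟩
  · obtain rfl : k = 0 := by omega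
    simp
  · obtain rfl : k + 1 = K := by omega
    rw [grid_eq, wrap hs ht fun a => grid g a i, wrap hr hi fun a => grid g t a]

end Pool.Agent.Lib.MP_cb9cb0_lc.X.Link
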