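import Pool.Agent.Lib.MP_cb9cb0_lc.X.Basic
import Pool.Agent.Lib.MP_7285af_lc.LPB

/-! Feasibility of integer systems of weak linear inequalities over the rationals. -/

set_option autoImplicit false

namespace Pool.Agent.Lib.MP_cb9cb0_lc.X

open Finset Pool.Agent.Lib.Complexity Pool.Agent.Lib.MP_7285af_lc

namespace Lp

open Matrix LP

theorem vertex_obj {m n : Type} [Fintype m] [Fintype n] (A : m → n → ℝ) (b : m → ℝ)
    (hker : ∀ d : n → ℝ, (∀ i, ∑ j, A i j * d j = 0) → d = 0)
    (x : n → ℝ) (hx : ∀ i, b i ≤ ∑ j, A i j * x j) (o : m) :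
    ∃ y : n → ℝ, ((∀ i, b i ≤ ∑ j, A i j * y j) ∧ ∑ j, A o j * y j ≤ ∑ j, A o j * x j) ∧
      ∀ d : n → ℝ, (∀ i, b i = ∑ j, A i j * y j → ∑ j, A i j * d j = 0) → d = 0 := by
  classical
  let S : (n → ℝ) → Finset m := fun y => univ.filter fun i => b i = ∑ j, A i j * y j
  have hex : ∃ k, ∃ y : n → ℝ, ((∀ i, b i ≤ ∑ j, A i j * y j) ∧
      ∑ j, A o j * y j ≤ ∑ j, A o j * x j) ∧ Fintype.card m - (S y).card = k :=
    ⟨_, x, ⟨hx, le_rfl⟩, rfl⟩
  obtain ⟨y, ⟨hy, ho⟩, hk⟩ := Nat.find_spec hex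
  have hmin : ∀ y' : n → ℝ, ((∀ i, b i ≤ ∑ j, A i j * y' j) ∧
      ∑ j, A o j * y' j ≤ ∑ j, A o j * x j) →
      Nat.find hex ≤ Fintype.card m - (S y').card := fun y' h => Nat.find_min' hex ⟨y', h, rfl⟩
  refine ⟨y, ⟨hy, ho⟩, ?_⟩
  have key : ∀ d : n → ℝ, (∀ i, b i = ∑ j, A i j * y j → ∑ j, A i j * d j = 0) →
      ∑ j, A o j * d j ≤ 0 → ∀ i, 0 ≤ ∑ j, A i j * d j := by
    intro d hd hod
    by_contra hn
    push Not at hn
    have hne : (univ.filter fun i => ∑ j, A i j * d j < 0).Nonempty := by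
      obtain ⟨i, hi⟩ := hn
      exact ⟨i, by simpa using hi⟩
    obtain ⟨i0, hi0, hmin0⟩ := exists_min_image _
      (fun i => (∑ j, A i j * y j - b i) / (-∑ j, A i j * d j)) hne
    simp only [mem_filter, mem_univ, true_and] at hi0 hmin0
    set t := (∑ j, A i0 j * y j - b i0) / (-∑ j, A i0 j * d j) with ht
    have ht0 : 0 ≤ t := div_nonneg (by linarith [hy i0]) (by linarith)
    have hlin : ∀ i, ∑ j, A i j * (y j + t * d j) = ∑ j, A i j * y j + t * ∑ j, A i j * d j := by
      intro i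
      rw [mul_sum, ← sum_add_distrib]
      exact sum_congr rfl fun j _ => by ring
    have hfeas : ∀ i, b i ≤ ∑ j, A i j * (y j + t * d j) := by
      intro i
      rw [hlin]
      by_cases h : ∑ j, A i j * d j < 0
      · have := hmin0 i h
        rw [le_div_iff₀ (by linarith)] at this
        linarith
      · have := mul_nonneg ht0 (not_lt.1 h)
        linarith [hy i]
    have hsub : S y ⊂ S (fun j => y j + t * d j) := by
      rw [ssubset_iff_of_subset]
      · refine ⟨i0, ?_, ?_⟩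
        · simp only [S, mem_filter, mem_univ, true_and]
          rw [hlin, ht]
          have : ∑ j, A i0 j * d j ≠ 0 := hi0.ne
          field_simp
          ring
        · simp only [S, mem_filter, mem_univ, true_and]
          intro h
          exact hi0.ne (hd i0 h)
      · intro i hi
        simp only [S, mem_filter, mem_univ, true_and] at hi ⊢
        rw [hlin, hd i hi, ← hi]
        ring
    have h1 := card_lt_card hsub
    have h2 := hmin _ ⟨hfeas, by
      rw [hlin]
      linarith [mul_nonneg ht0 (neg_nonneg.2 hod)]⟩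
    have h3 : (S (fun j => y j + t * d j)).card ≤ Fintype.card m := card_le_univ _
    omega
  intro d hd
  have kn : 0 ≤ ∑ j, A o j * d j → ∀ i, ∑ j, A i j * d j ≤ 0 := fun h i => by
    have := key (-d) (fun i hi => by
      have := hd i hi
      simp only [Pi.neg_apply, mul_neg, sum_neg_distrib, this, neg_zero]) (by
      simp only [Pi.neg_apply, mul_neg, sum_neg_distrib]
      linarith) i
    simp only [Pi.neg_apply, mul_neg, sum_neg_distrib] at this
    linarith
  rcases le_total (∑ j, A o j * d j) 0 with h | h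
  · exact hker d fun i => le_antisymm (kn (key d hd h o) i) (key d hd h i)
  · exact hker d fun i => le_antisymm (kn h i) (key d hd (kn h o) i)

theorem small_obj {m n : Type} [Fintype m] [Fintype n] (A : m → n → ℤ) (b : m → ℤ) (K : ℤ)
    (hA : ∀ i j, |A i j| ≤ K)
    (hker : ∀ d : n → ℝ, (∀ i, ∑ j, (A i j : ℝ) * d j = 0) → d = 0)
    (x : n → ℝ) (hx : ∀ i, (b i : ℝ) ≤ ∑ j, (A i j : ℝ) * x j) (o : m) :
    ∃ (z : n → ℤ) (D : ℤ), 1 ≤ D ∧ (∀ i, D * b i ≤ ∑ j, A i j * z j) ∧
      ((∑ j, A o j * z j : ℤ) : ℝ) ≤ D * ∑ j, (A o j : ℝ) * x j ∧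
      D ≤ (Fintype.card n).factorial * (Fintype.card m * K ^ 2) ^ Fintype.card n := by
  classical
  obtain ⟨y, ⟨hy, ho⟩, hd⟩ := vertex_obj (fun i j => (A i j : ℝ)) (fun i => (b i : ℝ)) hker x hx o
  let S : Finset m := univ.filter fun i => (b i : ℝ) = ∑ j, (A i j : ℝ) * y j
  let M : Matrix n n ℤ := fun j k => ∑ i ∈ S, A i j * A i k
  let v : n → ℤ := fun j => ∑ i ∈ S, A i j * b i
  have hbound : ∀ (f g : m → ℤ), (∀ i, |f i| ≤ K) → (∀ i, |g i| ≤ K) →
      |∑ i ∈ S, f i * g i| ≤ Fintype.card m * K ^ 2 := by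
    intro f g hf hg
    calc |∑ i ∈ S, f i * g i| ≤ ∑ i ∈ S, |f i * g i| := abs_sum_le_sum_abs _ _
      _ ≤ ∑ i : m, |f i * g i| :=
        sum_le_sum_of_subset_of_nonneg (subset_univ _) fun _ _ _ => abs_nonneg _
      _ ≤ ∑ _i : m, K ^ 2 := sum_le_sum fun i _ => by
        rw [abs_mul, sq]
        exact mul_le_mul (hf i) (hg i) (abs_nonneg _) ((abs_nonneg _).trans (hf i))
      _ = _ := by simp
  let M' : Matrix n n ℝ := M.map (Int.castRingHom ℝ)
  have hM' : ∀ d : n → ℝ, ∀ j, (M' *ᵥ d) j = ∑ i ∈ S, (A i j : ℝ) * ∑ k, (A i k : ℝ) * d k := by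
    intro d j
    simp only [M', M, mulVec, dotProduct, Matrix.map_apply, map_sum, map_mul, eq_intCast, sum_mul, mul_sum]
    rw [sum_comm]
    exact sum_congr rfl fun i _ => sum_congr rfl fun k _ => by ring
  have hdet : M.det ≠ 0 := by
    intro h0
    have h1 : M'.det = 0 := by
      have := (Int.castRingHom ℝ).map_det M
      rw [h0, map_zero] at this
      exact this.symm
    obtain ⟨d, hd0, hd1⟩ := exists_mulVec_eq_zero_iff.2 h1
    refine hd0 (hd d fun i hi => ?_)
    have h2 : ∑ i ∈ S, (∑ k, (A i k : ℝ) * d k) ^ 2 = 0 := by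
      have : ∑ j, d j * (M' *ᵥ d) j = 0 := by simp [hd1]
      rw [← this]
      simp only [hM', mul_sum]
      rw [sum_comm]
      refine sum_congr rfl fun i _ => ?_
      rw [sq, sum_mul]
      refine sum_congr rfl fun j _ => ?_
      rw [mul_sum]
      exact sum_congr rfl fun k _ => by ring
    have := (sum_eq_zero_iff_of_nonneg fun i _ => sq_nonneg _).1 h2 i (by simpa [S] using hi)
    exact pow_eq_zero_iff two_ne_zero |>.1 this
  have hMy : M' *ᵥ y = fun j => (v j : ℝ) := by
    funext j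
    rw [hM']
    simp only [v, Int.cast_sum, Int.cast_mul]
    refine sum_congr rfl fun i hi => ?_
    simp only [S, mem_filter, mem_univ, true_and] at hi
    rw [hi]
  have hcr : ∀ j, ((M.cramer v j : ℤ) : ℝ) = (M.det : ℝ) * y j := by
    have h1 : M' *ᵥ (fun j => ((M.cramer v j : ℤ) : ℝ)) = M' *ᵥ (fun j => (M.det : ℝ) * y j) := by
      have h2 := mulVec_cramer M v
      funext j
      have h3 := congrFun h2 j
      have h4 := congrFun hMy j
      simp only [mulVec, dotProduct, M', Matrix.map_apply, eq_intCast, Pi.smul_apply, smul_eq_mul] at h3 h4 ⊢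
      have h5 : ∑ k, (M j k : ℝ) * ((M.det : ℝ) * y k) = (M.det : ℝ) * (v j : ℝ) := by
        rw [← h4, mul_sum]
        exact sum_congr rfl fun k _ => by ring
      rw [h5]
      exact_mod_cast h3
    have hdet' : M'.det ≠ 0 := by
      have := (Int.castRingHom ℝ).map_det M
      change _ = M'.det at this
      rw [← this]
      simpa using hdet
    have hinj : Function.Injective M'.mulVec := mulVec_injective_iff_isUnit.2
      ((isUnit_iff_isUnit_det _).2 (Ne.isUnit hdet'))
    exact fun j => congrFun (hinj h1) j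
  have h1 : ∀ i, ∑ j, ((A i j * (M.det.sign * M.cramer v j) : ℤ) : ℝ)
      = ((|M.det| : ℤ) : ℝ) * ∑ j, (A i j : ℝ) * y j := fun i => by
    rw [mul_sum]
    refine sum_congr rfl fun j _ => ?_
    rw [← Int.sign_mul_self_eq_abs, Int.cast_mul, Int.cast_mul, Int.cast_mul, hcr]
    ring
  refine ⟨fun j => M.det.sign * M.cramer v j, |M.det|, Int.one_le_abs hdet, fun i => ?_, ?_, ?_⟩
  · have h2 : ((|M.det| * b i : ℤ) : ℝ) ≤ ((∑ j, A i j * (M.det.sign * M.cramer v j) : ℤ) : ℝ) := by
      rw [Int.cast_sum, h1, Int.cast_mul]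
      exact mul_le_mul_of_nonneg_left (hy i) (by exact_mod_cast abs_nonneg _)
    exact_mod_cast h2
  · rw [Int.cast_sum, h1]
    exact mul_le_mul_of_nonneg_left ho (by exact_mod_cast abs_nonneg _)
  · have := det_le (A := M) (abv := AbsoluteValue.abs) (x := Fintype.card m * K ^ 2)
      (fun a c => hbound _ _ (fun i => hA i a) (fun i => hA i c))
    simpa using this

/-- a bound above the denominators of the vertices -/
def qq (N : ℕ) : ℕ := (N + 1) ^ (N + 1) * ((2 * N + 1) * ((N + 1) * 2 ^ N) ^ 2) ^ (N + 1) + 1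

/-- the perturbed homogeneous system -/
def rows (Q : ℤ) (N : ℕ) (R : List (List (ℤ × ℕ) × ℤ)) : List (List (ℤ × ℕ)) :=
  R.map (fun r => (1 - Q * r.2, N) :: r.1.map fun p => (Q * p.1, p.2)) ++
    ([(1, N)] :: (List.range N).map fun j => [(1, N), (Q, j)])

theorem pt_qq : PT fun N : ℕ => (qq N : ℤ) := by
  have h1 : PTB fun N : ℕ => N + 1 := PTB.of_unary (by fun_prop)
  have h2 : PTB fun N : ℕ => 2 * N + 1 := PTB.of_unary (by fun_prop)
  have h3 : PT fun N : ℕ => N + 1 := by fun_prop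
  exact PT.int_of_bin (((h1.pow h3).mul ((h2.mul ((h1.mul ((PTB.const 2).pow PT.id)).pow
    (PT.const 2))).pow h3)).add (PTB.const 1))

theorem val_scale (Q : ℤ) (x : ℕ → ℝ) (r : List (ℤ × ℕ)) :
    LP.val x (r.map fun p => (Q * p.1, p.2)) = Q * LP.val x r := by
  induction r with
  | nil => simp [LP.val]
  | cons p r ih =>
    simp only [LP.val, List.map_cons, List.sum_cons, Int.cast_mul] at ih ⊢
    rw [ih]
    ring

theorem val_cons (x : ℕ → ℝ) (p : ℤ × ℕ) (r : List (ℤ × ℕ)) :
    LP.val x (p :: r) = p.1 * x p.2 + LP.val x r := by simp [LP.val]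

theorem val_cast (x : ℕ → ℚ) (r : List (ℤ × ℕ)) :
    (((r.map fun p => (p.1 : ℚ) * x p.2).sum : ℚ) : ℝ) = LP.val (fun j => x j) r := by
  induction r with
  | nil => simp [LP.val]
  | cons p r ih => rw [val_cons, ← ih]; simp

theorem co_le {r : List (ℤ × ℕ)} {B : ℤ} (B0 : 0 ≤ B) (h : ∀ p ∈ r, |p.1| ≤ B) (j : ℕ) :
    |co r j| ≤ r.length * B := by
  induction r with
  | nil => simp [co]
  | cons p r ih =>
    have a1 := ih fun q hq => h q (List.mem_cons_of_mem _ hq)
    have a2 := h p List.mem_cons_self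
    simp only [co, List.map_cons, List.sum_cons, List.length_cons, Nat.cast_add, Nat.cast_one,
      add_mul, one_mul] at a1 ⊢
    refine (abs_add_le _ _).trans ?_
    split_ifs
    · linarith
    · rw [abs_zero]; linarith

theorem sat_rows {Q : ℤ} {N : ℕ} {R : List (List (ℤ × ℕ) × ℤ)} {x : ℕ → ℝ} :
    (∀ r ∈ rows Q N R, 0 < LP.val x r) ↔ (∀ r ∈ R, 0 < (1 - Q * r.2) * x N + Q * LP.val x r.1) ∧
      0 < x N ∧ ∀ j < N, 0 < x N + Q * x j := by
  simp only [rows, List.forall_mem_append, List.forall_mem_map, List.forall_mem_cons, val_cons,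
    val_scale, List.mem_range]
  simp [LP.val]

theorem exact_of_strict {N : ℕ} {R : List (List (ℤ × ℕ) × ℤ)} (hN : sz R ≤ N) {x : ℕ → ℝ}
    (h : ∀ r ∈ rows (qq N) N R, 0 < LP.val x r) :
    ∃ x : ℕ → ℚ, (∀ j, 0 ≤ x j) ∧ ∀ r ∈ R, (r.2 : ℚ) ≤ (r.1.map fun p => (p.1 : ℚ) * x p.2).sum := by
  obtain ⟨h1, h2, h3⟩ := sat_rows.1 h
  have hp : ∀ r ∈ R, r.1.length ≤ N ∧ ∀ p ∈ r.1, p.2 < N ∧ |p.1| ≤ 2 ^ N := fun r hr => by
    have a1 := sz_lt_of_mem hr
    have a2 := length_le_sz r.1
    rw [sz_prod] at a1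
    refine ⟨by omega, fun p hp => ?_⟩
    have a3 := sz_lt_of_mem hp
    rw [sz_prod, sz_nat] at a3
    refine ⟨by omega, ?_⟩
    have a4 := (natAbs_lt_two_pow_sz p.1).le.trans
      (Nat.pow_le_pow_right two_pos (by omega : sz p.1 ≤ N))
    rw [Int.abs_eq_natAbs]
    exact_mod_cast a4
  have Q0 : (0 : ℝ) < (qq N : ℤ) := by unfold qq; positivity
  let A : Fin R.length ⊕ Option (Fin N) → Option (Fin N) → ℤ := fun i j =>
    j.elim 1 fun j => i.elim (fun i => co R[i].1 j) fun i => if i = some j then 1 else 0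
  let b : Fin R.length ⊕ Option (Fin N) → ℤ := fun i => i.elim (fun i => R[i].2) fun _ => 0
  have K1 : (1 : ℤ) ≤ (N + 1) * 2 ^ N := by
    have : (0 : ℤ) < (N + 1) * 2 ^ N := by positivity
    omega
  obtain ⟨z, D, d1, d2, d3, d4⟩ := small_obj A b ((N + 1) * 2 ^ N) (by
      rintro (i | i) (_ | j)
      · simpa [A] using K1
      · obtain ⟨a1, a2⟩ := hp _ (List.getElem_mem i.2)
        refine (co_le (by positivity) (fun p hp => (a2 p hp).2) j).trans ?_
        gcongr
        exact_mod_cast a1.trans N.le_succ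
      · simpa [A] using K1
      · simp only [A, Option.elim_some, Sum.elim_inr]
        split_ifs
        · simpa using K1
        · simpa using zero_le_one.trans K1)
    (fun d hd => by
      have a0 : d none = 0 := by simpa [A, Fintype.sum_option] using hd (.inr none)
      funext j
      rcases j with _ | j
      · exact a0
      · simpa [A, Fintype.sum_option, a0] using hd (.inr (some j)))
    (fun j => j.elim (1 / (qq N : ℤ)) fun j => x j / x N) (by
      rintro (i | _ | j)
      · have a1 := h1 _ (List.getElem_mem i.2)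
        rw [val_eq x fun p hp' => ((hp _ (List.getElem_mem i.2)).2 p hp').1] at a1
        simp only [A, b, Fintype.sum_option, Option.elim_none, Option.elim_some, Sum.elim_inl,
          Int.cast_one, one_mul, ← mul_div_assoc, ← sum_div, Fin.getElem_fin]
        rw [div_add_div _ _ Q0.ne' h2.ne', le_div_iff₀ (mul_pos Q0 h2)]
        linarith
      · simpa [A, b, Fintype.sum_option] using Q0.le
      · have a1 := h3 j j.2
        simp only [A, b, Fintype.sum_option, Option.elim_none, Option.elim_some, Sum.elim_inr,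
          Int.cast_one, one_mul, Option.some.injEq, Int.cast_ite, Int.cast_zero, ite_mul, zero_mul,
          sum_ite_eq, mem_univ, if_true]
        rw [div_add_div _ _ Q0.ne' h2.ne', le_div_iff₀ (mul_pos Q0 h2)]
        linarith) (.inr none)
  have d5 : D < qq N := by
    refine d4.trans_lt ?_
    have a1 : R.length ≤ N := (length_le_sz R).trans hN
    simp only [Fintype.card_option, Fintype.card_fin, Fintype.card_sum, qq]
    push_cast
    refine Int.lt_add_one_of_le ?_
    have a2 : (R.length : ℤ) + (N + 1) ≤ 2 * N + 1 := by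
      have : (R.length : ℤ) ≤ N := by exact_mod_cast a1
      linarith
    have a3 : (((N + 1).factorial : ℕ) : ℤ) ≤ (N + 1) ^ (N + 1) := by
      exact_mod_cast Nat.factorial_le_pow (N + 1)
    exact mul_le_mul a3 (by gcongr) (by positivity) (by positivity)
  have z0 : z none = 0 := by
    have a1 : 0 ≤ z none := by simpa [A, b, Fintype.sum_option] using d2 (.inr none)
    have a2 : (z none : ℝ) ≤ D * (1 / (qq N : ℤ)) := by
      simpa [A, Fintype.sum_option] using d3
    have a3 : (D : ℝ) * (1 / (qq N : ℤ)) < 1 := by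
      rw [mul_one_div, div_lt_one Q0]
      exact_mod_cast d5
    have : z none < 1 := by exact_mod_cast a2.trans_lt a3
    omega
  have D0 : (0 : ℚ) < D := by exact_mod_cast d1
  refine ⟨fun j => if h : j < N then z (some ⟨j, h⟩) / D else 0, fun j => ?_, fun r hr => ?_⟩
  · beta_reduce
    split_ifs with h
    · refine div_nonneg ?_ D0.le
      simpa [A, b, Fintype.sum_option, z0] using d2 (.inr (some ⟨j, h⟩))
    · rfl
  · obtain ⟨i, hi, rfl⟩ := List.getElem_of_mem hr
    have a1 : D * R[i].2 ≤ ∑ j : Fin N, co R[i].1 j * z (some j) := by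
      simpa [A, b, Fintype.sum_option, z0] using d2 (.inl ⟨i, hi⟩)
    have D1 : (0 : ℝ) < D := by exact_mod_cast d1
    rw [← Rat.cast_le (K := ℝ)]
    refine le_of_le_of_eq ?_
      (val_cast (fun j => if h : j < N then (z (some ⟨j, h⟩) : ℚ) / D else 0) _).symm
    rw [val_eq _ fun p hp' => ((hp _ hr).2 p hp').1]
    simp only [Fin.is_lt, dif_pos, Rat.cast_div, Rat.cast_intCast, ← mul_div_assoc, ← sum_div,
      Fin.eta]
    rw [le_div_iff₀ D1, mul_comm]
    exact_mod_cast a1

end Lp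

open Lp Pool.Agent.Lib.MP_7285af_lc.LP in
theorem lpSt : LpSt := by
  refine ⟨fun R => lp (rows (qq (sz R)) (sz R) R), pt_lp ?_, fun R => ?_⟩
  · have h : PT fun R : List (List (ℤ × ℕ) × ℤ) => (qq (sz R) : ℤ) := pt_qq.comp (by fun_prop)
    have h' : PT fun x : ℤ × ℕ × List (List (ℤ × ℕ) × ℤ) => rows x.1 x.2.1 x.2.2 := by
      unfold rows
      fun_prop
    exact h'.comp (h.prodMk (by fun_prop : PT fun R : List (List (ℤ × ℕ) × ℤ) => (sz R, R)))
  · rw [lp_iff]
    refine ⟨fun ⟨x, h⟩ => exact_of_strict le_rfl h, fun ⟨x, h0, h⟩ => ?_⟩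
    have hN : ∀ r ∈ R, ∀ p ∈ r.1, p.2 < sz R := fun r hr p hp => by
      have a1 := sz_lt_of_mem hr
      have a3 := sz_lt_of_mem hp
      rw [sz_prod] at a1
      rw [sz_prod, sz_nat] at a3
      omega
    generalize sz R = N at *
    have Q0 : (0 : ℝ) ≤ (qq N : ℤ) := by positivity
    refine ⟨fun j => if j = N then 1 else x j, sat_rows.2 ⟨fun r hr => ?_, by simp, fun j hj => ?_⟩⟩
    · have a1 : (r.2 : ℝ) ≤ LP.val (fun j => x j) r.1 := by
        rw [← val_cast]
        exact_mod_cast h r hr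
      have e : LP.val (fun j => if j = N then 1 else (x j : ℝ)) r.1 = LP.val (fun j => x j) r.1 := by
        rw [val_eq _ (hN r hr), val_eq _ (hN r hr)]
        exact sum_congr rfl fun j _ => by rw [if_neg j.2.ne]
      rw [e, if_pos rfl]
      nlinarith [mul_le_mul_of_nonneg_left a1 Q0]
    · have a1 : (0 : ℝ) ≤ x j := by exact_mod_cast h0 j
      rw [if_pos rfl, if_neg hj.ne]
      positivity

end Pool.Agent.Lib.MP_cb9cb0_lc.X
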