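import Pool.Agent.Lib.MP_cb9cb0_lc.X.Defs

/-!
Assembly of the parts.
-/

set_option autoImplicit false

namespace Pool.Agent.Lib.MP_cb9cb0_lc.X

open Finset Function Pool.Agent.Lib.Complexity

theorem yes_true {ν : Type} (R : Fin 4 → ν → ν → Prop) : Yes R true :=
  ⟨Fin 3, inferInstance, inferInstance, 1, fun _ => {0}, fun _ => 1, one_pos, by simp,
    fun _ => by simp, rfl, fun _ _ _ _ _ => Iff.rfl, fun h => by cases h⟩

theorem pen_of_inX {α : Type} {c : Cs α} {z : α → Bool} (h : InX c z) : pen c z = 0 :=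
  List.sum_eq_zero fun t ht => by
    obtain ⟨d, hd, rfl⟩ := List.mem_map.1 ht
    rcases h d hd with e | e <;> simp [penc, e]

theorem lam_of_inX {α : Type} {c : Cs α} {z : α → Bool} (h : InX c z) : lam c z = 0 :=
  List.sum_eq_zero fun t ht => by
    obtain ⟨d, hd, rfl⟩ := List.mem_map.1 ht
    rcases h d hd with e | e <;> simp [lamc, e]

theorem fZ_on (h0s : H0St) (M E : ℚ) (I : Inst) (z : ZI I → Bool) (hz : XZ I z) (s : Tm) :
    fZ M E I (Sum.elim s z) = fZ M E I (Sum.elim (fun _ => false) z) + h0 M s (z ∘ bitZ I) := by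
  have e0 : h0 M (fun _ => false) (z ∘ bitZ I) = 0 := by
    have := (h0s M (z ∘ bitZ I)).1
    rwa [show ind ∅ = fun _ => false from funext fun i => by simp [ind]] at this
  have e1 : ∀ s : Tm, fZ M E I (Sum.elim s z) = FW M E I s (z ∘ emb I) := fun _ => rfl
  have e2 : (fun k : Fin 9 => (z ∘ emb I) (ctl k.val)) = z ∘ bitZ I := rfl
  rw [e1, e1, FW, FW, pen_of_inX hz, lam_of_inX hz, e2, e0]
  push_cast
  ring

theorem hard_of (h0s : H0St) (snd : SoundSt) (pth : PathsSt) (cmp : CompleteSt) (sub : SubmodSt)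
    (trm : TermSt) (nrm : NormSt) (grd : GridSt) (lk : LinkSt) (col : ColSt) (cnf : CnfSt) :
    ∀ L ∈ TwoEXP, ∃ φ : List Bool → Input, N68a2faeb.IsPolyTime φ ∧
      ∀ w, IsQuartic (φ w) ∧ Submodular (value (φ w)) ∧
        (L w = true ↔ Expressible (value (φ w))) := by
  intro L hL
  obtain ⟨m, e, G, bad, hm, he, hG, hb, h1⟩ := grd L hL
  obtain ⟨cl, b, hcl, hb', h2⟩ := lk m e G bad hm he hG hb
  obtain ⟨ρ, b', hρ, hb'', h3⟩ := col cl b hcl hb'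
  obtain ⟨inst, hi, h4⟩ := cnf ρ b' hρ hb''
  obtain ⟨M, C, h5⟩ := cmp
  obtain ⟨τ, hτ, h6⟩ := trm M C
  obtain ⟨φ, hφ, h7⟩ := nrm
  refine ⟨fun w => φ (τ (inst w)), hφ _ (hτ.comp hi), fun w => ?_⟩
  obtain ⟨wf, r0, y1, m1⟩ := h4 w
  obtain ⟨t1, E, ι, hE, i1, i2, i3⟩ := h6 _ wf
  obtain ⟨n1, n2, n3⟩ := h7 _ _ _ ι _ t1 i1 i2 i3
  refine ⟨n1, n2 (sub M E _ ((E : ℚ) ^ 14) (Nat.cast_nonneg E)
    ((h5 _ E true wf hE (yes_true _)).of_eq fun x => by simp).submodular), ?_⟩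
  refine (h1 w).2.trans (Iff.trans ⟨fun h => ?_, fun h => ?_⟩ n3.symm)
  · exact (h5 _ E false wf hE (y1 ((h3 w).2.1 ((h2 w (h1 w).1).1 h)))).of_eq fun x => by simp
  · exact (h2 w (h1 w).1).2 ((h3 w).2.2 (m1 (snd _ _ M _ _ _ _ h (fZ_on h0s M E _)
      (r0 (h3 w).1) (pth M E _ wf))))

theorem upper_of (alg : AlgSt) (pad : PadSt) : ∃ D ∈ TwoEXP, ∀ I : Input, IsQuartic I →
    (D (N487b59b3.bitEncode I) = true ↔ Expressible (value I)) := by
  obtain ⟨A, hA, h⟩ := alg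
  exact ⟨_, pad A hA, h⟩

end Pool.Agent.Lib.MP_cb9cb0_lc.X
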