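import Pool.Agent.Lib.MP_cb9cb0_lc.X.Comp

/-!
The network on two copies of the solution.
-/

set_option autoImplicit false

namespace Pool.Agent.Lib.MP_cb9cb0_lc.X

open Finset Function

/-- cost of a pair of nodes -/
def netE (u v : ℚ) (l a a' k k' : Bool) : ℚ :=
  bv k * (9 - u - 8 * bv a) + bv k' * (9 - v - 8 * bv a') - bv l * (bv k * bv k')

/-- least cost of a pair of nodes -/
def netT (u v : ℚ) (l a a' : Bool) : ℚ :=
  - ((bv a - bv a' * bv l) * max (u - 1) 0) - (bv a' - bv a' * bv l) * max (v - 1) 0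
    - bv a' * bv l * max (u + v - 1) 0

lemma net_pair {u v : ℚ} (u0 : 0 ≤ u) (u5 : u ≤ 5) (v0 : 0 ≤ v) (v5 : v ≤ 5) (l a a' : Bool)
    (h : l = true → a' = true → a = true) :
    (∃ k k', netE u v l a a' k k' = netT u v l a a') ∧
      ∀ k k', netT u v l a a' ≤ netE u v l a a' k k' := by
  have a1 := le_max_left (u - 1) 0
  have a2 := le_max_right (u - 1) 0
  have b1 := le_max_left (v - 1) 0
  have b2 := le_max_right (v - 1) 0
  have c1 := le_max_left (u + v - 1) 0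
  have c2 := le_max_right (u + v - 1) 0
  constructor
  · cases l
    · refine ⟨a && decide (1 ≤ u), a' && decide (1 ≤ v), ?_⟩
      by_cases hu : 1 ≤ u <;> by_cases hv : 1 ≤ v <;> cases a <;> cases a' <;>
        simp only [netE, netT, hu, hv, decide_true, decide_false, Bool.and_true, Bool.and_false,
          bv_true, bv_false] <;>
        rcases max_cases (u - 1) 0 with ⟨e, e'⟩ | ⟨e, e'⟩ <;>
        rcases max_cases (v - 1) 0 with ⟨f, f'⟩ | ⟨f, f'⟩ <;> rw [e, f] <;> linarith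
    · cases a'
      · refine ⟨a && decide (1 ≤ u), false, ?_⟩
        by_cases hu : 1 ≤ u <;> cases a <;>
          simp only [netE, netT, hu, decide_true, decide_false, Bool.and_true, Bool.and_false,
            bv_true, bv_false] <;>
          rcases max_cases (u - 1) 0 with ⟨e, e'⟩ | ⟨e, e'⟩ <;> rw [e] <;> linarith
      · rw [h rfl rfl]
        refine ⟨decide (1 ≤ u + v), decide (1 ≤ u + v), ?_⟩
        by_cases hu : 1 ≤ u + v <;>
          simp only [netE, netT, hu, decide_true, decide_false, bv_true, bv_false] <;>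
          rcases max_cases (u + v - 1) 0 with ⟨e, e'⟩ | ⟨e, e'⟩ <;> rw [e] <;> linarith
  · intro k k'
    cases l <;> cases a <;> cases a' <;> cases k <;> cases k' <;>
      first
      | exact absurd (h rfl rfl) (by decide)
      | (simp only [netE, netT, bv_true, bv_false]; linarith)

lemma sU_bd (s : Tm) : 0 ≤ sU s ∧ sU s ≤ 5 := by
  have := fun i => bv_nonneg (s i)
  have := fun i => bv_le (s i)
  unfold sU
  constructor <;> grind

lemma sV_bd (s : Tm) : 0 ≤ sV s ∧ sV s ≤ 5 := by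
  have := fun i => bv_nonneg (s i)
  have := fun i => bv_le (s i)
  unfold sV
  constructor <;> grind

lemma sum_bv_card {Ω : Type} [Fintype Ω] (a : Ω → Bool) :
    ∑ ω, bv (a ω) = ((univ.filter fun ω => a ω = true).card : ℚ) := by
  simp [bv]

/-- a node with five terminals and a pinned activation -/
lemma ex_node {W Z : Type} (k : W) (t : Fin 5 → W) (ι : Z → W) {a : (Z → Bool) → Bool}
    {D : (Z → Bool) → ℚ} (h : Ex (fun x : Unit ⊕ Z → Bool =>
      - (bv (x (Sum.inl ())) * bv (a (x ∘ Sum.inr))) + D (x ∘ Sum.inr))) :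
    Ex (fun x : W → Bool => bv (x k) * (9 - (bv (x (t 0)) + bv (x (t 1)) + bv (x (t 2))
      + bv (x (t 3)) + bv (x (t 4))) - 8 * bv (a (x ∘ ι))) + 8 * D (x ∘ ι)) := by
  refine (((Ex.lin k 0 9).add (Ex.sum univ fun i _ => Ex.neg k (t i))).add
    ((h.rename (Sum.elim (fun _ => k) ι : Unit ⊕ Z → W)).smul (k := 8) (by norm_num))).of_eq
    fun x => ?_
  change _ + 8 * (- (bv (x k) * bv (a (x ∘ ι))) + D (x ∘ ι)) = _
  rw [Fin.sum_univ_five]
  ring

lemma ex_tri {W : Type} (a b c : W) :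
    Ex (fun x : W → Bool => - (bv (x a) * (bv (x b) * bv (x c)))) := by
  classical
  refine (ex_neg_an (insert a (insert b {c}))).of_eq fun x => ?_
  rw [an_insert, an_insert, an, prod_singleton]

theorem netSt : NetSt := by
  intro Z _ _ p q Γ X bit B ⟨Ω, _, N, act, act', π, hN, hΩ, hp, hp', hX⟩ hl
  classical
  choose D d1 d2 d3 using hp
  choose D' d1' d2' d3' using hp'
  have N0 : (0 : ℚ) < N := by exact_mod_cast hN
  have cΩ : (Fintype.card Ω : ℚ) = 3 * N := by exact_mod_cast hΩ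
  let cost : (Fin 10 ⊕ Z → Bool) → (Ω ⊕ Ω → Bool) → ℚ := fun x y => (N : ℚ)⁻¹ *
    (∑ ω, bv (y (Sum.inl ω)) * (9 - sU (x ∘ Sum.inl) - 8 * bv (act ω (x ∘ Sum.inr)))
      + ∑ ω, bv (y (Sum.inr ω)) * (9 - sV (x ∘ Sum.inl) - 8 * bv (act' ω (x ∘ Sum.inr)))
      - ∑ j : Fin 3, ∑ ω, bv (x (Sum.inr (bit (j.natAdd 6)))) *
        (bv (y (Sum.inl ω)) * bv (y (Sum.inr (π j ω)))))
  have hmin : ∀ x, ∃ v, IsLeast (Set.range (cost x)) v := fun x => by
    obtain ⟨y, -, h⟩ := exists_min_image univ (cost x) univ_nonempty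
    exact ⟨_, ⟨y, rfl⟩, by rintro _ ⟨w, rfl⟩; exact h w (mem_univ _)⟩
  choose Nf hNf using hmin
  refine ⟨Nf, ⟨fun z => (N : ℚ)⁻¹ * (∑ ω, 8 * D ω z + ∑ ω, 8 * D' ω z), fun z => ?_,
    fun z hz => ?_, ?_⟩, fun x => ?_, fun s z hz => ?_⟩
  · have k : ∀ F : Ω → ℚ, (∀ ω, |F ω| ≤ B) → |∑ ω, 8 * F ω| ≤ N * (24 * B) := fun F h => by
      refine (abs_sum_le_sum_abs _ _).trans ((sum_le_card_nsmul _ _ (8 * B) fun i _ => ?_).trans
        (le_of_eq ?_))
      · rw [abs_mul, abs_of_nonneg (by norm_num : (0 : ℚ) ≤ 8)]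
        linarith [h i]
      · rw [card_univ, nsmul_eq_mul, cΩ]; ring
    rw [abs_mul, abs_of_nonneg (inv_nonneg.2 N0.le), inv_mul_le_iff₀ N0]
    linarith [abs_add_le (∑ ω, 8 * D ω z) (∑ ω, 8 * D' ω z), k _ fun ω => d1 ω z,
      k _ fun ω => d1' ω z]
  · rw [dpq_mul, dpq_add, dpq_sum, dpq_sum, sum_eq_zero fun ω _ => by
      rw [dpq_mul, d2 ω z hz, mul_zero], sum_eq_zero fun ω _ => by
      rw [dpq_mul, d2' ω z hz, mul_zero], add_zero, mul_zero]
  · have h1 := (((Ex.sum (V := (Fin 10 ⊕ Z) ⊕ (Ω ⊕ Ω)) univ fun ω _ =>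
      ex_node (Sum.inr (Sum.inl ω)) (fun i => Sum.inl (Sum.inl (i.castAdd 5)))
        (fun z => Sum.inl (Sum.inr z)) (d3 ω)).add (Ex.sum univ fun ω _ =>
      ex_node (Sum.inr (Sum.inr ω)) (fun i => Sum.inl (Sum.inl (i.natAdd 5)))
        (fun z => Sum.inl (Sum.inr z)) (d3' ω))).add (Ex.sum univ fun (j : Fin 3) _ =>
      Ex.sum univ fun ω _ => ex_tri (Sum.inl (Sum.inr (bit (j.natAdd 6)))) (Sum.inr (Sum.inl ω))
        (Sum.inr (Sum.inr (π j ω))))).smul (inv_nonneg.2 N0.le)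
    have h2 : Ex (fun w : (Fin 10 ⊕ Z) ⊕ (Ω ⊕ Ω) → Bool => cost (w ∘ Sum.inl) (w ∘ Sum.inr) +
        (N : ℚ)⁻¹ * (∑ ω, 8 * D ω ((w ∘ Sum.inl) ∘ Sum.inr)
          + ∑ ω, 8 * D' ω ((w ∘ Sum.inl) ∘ Sum.inr))) := h1.of_eq fun w => by
      simp only [cost, sum_add_distrib, sum_neg_distrib]
      rw [← mul_add]
      congr 1
      change (∑ ω, bv (w (Sum.inr (Sum.inl ω))) * (9 - sU ((w ∘ Sum.inl) ∘ Sum.inl)
          - 8 * bv (act ω ((w ∘ Sum.inl) ∘ Sum.inr))) + ∑ ω, 8 * D ω ((w ∘ Sum.inl) ∘ Sum.inr))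
        + (∑ ω, bv (w (Sum.inr (Sum.inr ω))) * (9 - sV ((w ∘ Sum.inl) ∘ Sum.inl)
          - 8 * bv (act' ω ((w ∘ Sum.inl) ∘ Sum.inr)))
          + ∑ ω, 8 * D' ω ((w ∘ Sum.inl) ∘ Sum.inr)) + _ = _
      simp only [comp_apply]
      ring
    refine h2.min fun x => ?_
    obtain ⟨⟨y, hy⟩, hlo⟩ := hNf x
    refine ⟨⟨y, ?_⟩, ?_⟩
    · change cost x y + _ = _
      rw [hy]
      rfl
    · rintro _ ⟨w, rfl⟩
      exact add_le_add (hlo ⟨w, rfl⟩) le_rfl
  · obtain ⟨⟨y, hy⟩, hlo⟩ := hNf x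
    have a0 : Nf x ≤ 0 := (hlo ⟨fun _ => false, rfl⟩).trans (by simp [cost])
    have k : ∀ (u : ℚ) (a b : Ω → Bool), u ≤ 5 →
        N * (-12) ≤ ∑ ω, bv (b ω) * (9 - u - 8 * bv (a ω)) := fun u a b hu => by
      refine le_trans (le_of_eq ?_) (card_nsmul_le_sum univ _ (-4) fun i _ => ?_)
      · rw [card_univ, nsmul_eq_mul, cΩ]; ring
      · cases a i <;> cases b i <;> simp only [bv_true, bv_false] <;> linarith
    have a1 : ∑ j : Fin 3, ∑ ω, bv (x (Sum.inr (bit (j.natAdd 6)))) *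
        (bv (y (Sum.inl ω)) * bv (y (Sum.inr (π j ω)))) ≤ N * 9 := by
      refine (sum_le_card_nsmul _ _ (N * 3 : ℚ) fun j _ =>
        (sum_le_card_nsmul _ _ 1 fun ω _ => ?_).trans (le_of_eq ?_)).trans (le_of_eq ?_)
      · exact mul_le_one₀ (bv_le _) (mul_nonneg (bv_nonneg _) (bv_nonneg _))
          (mul_le_one₀ (bv_le _) (bv_nonneg _) (bv_le _))
      · rw [card_univ, nsmul_eq_mul, cΩ]; ring
      · simp only [card_univ, Fintype.card_fin, nsmul_eq_mul]; push_cast; ring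
    have a2 : -33 ≤ Nf x := by
      rw [← hy]
      refine (le_inv_mul_iff₀ N0).2 ?_
      linarith [k _ (fun ω => act ω (x ∘ Sum.inr)) (fun ω => y (Sum.inl ω))
          (sU_bd (x ∘ Sum.inl)).2,
        k _ (fun ω => act' ω (x ∘ Sum.inr)) (fun ω => y (Sum.inr ω))
          (sV_bd (x ∘ Sum.inl)).2]
    rw [abs_le]
    constructor <;> linarith
  · obtain ⟨c1, c2, c3⟩ := hX z hz
    have hl' := hl z hz
    have key : ∃ (σ : Equiv.Perm Ω) (l : Bool), lnk (z ∘ bit) = bv l ∧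
        (l = true → ∀ ω, act' (σ ω) z = true → act ω z = true) ∧
        ∀ F : Equiv.Perm Ω → ℚ, ∑ j : Fin 3, bv (z (bit (j.natAdd 6))) * F (π j) = bv l * F σ := by
      have e6 : (0 : Fin 3).natAdd 6 = 6 := rfl
      have e7 : (1 : Fin 3).natAdd 6 = 7 := rfl
      have e8 : (2 : Fin 3).natAdd 6 = 8 := rfl
      have c6 := c3 0
      have c7 := c3 1
      have c8 := c3 2
      simp only [lnk, comp_apply, Fin.sum_univ_three, e6, e7, e8] at hl' c6 c7 c8 ⊢
      cases h6 : z (bit 6) <;> cases h7 : z (bit 7) <;> cases h8 : z (bit 8) <;>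
        simp only [h6, h7, h8, bv_true, bv_false] at hl' ⊢
      · exact ⟨1, false, by simp, by simp, fun F => by simp⟩
      · exact ⟨π 2, true, by simp, fun _ => c8 h8, fun F => by simp⟩
      · exact ⟨π 1, true, by simp, fun _ => c7 h7, fun F => by simp⟩
      · norm_num at hl'
      · exact ⟨π 0, true, by simp, fun _ => c6 h6, fun F => by simp⟩
      · norm_num at hl'
      · norm_num at hl'
      · norm_num at hl'
    obtain ⟨σ, l, l1, l2, l3⟩ := key
    have e1 : ∀ y, cost (Sum.elim s z) y = (N : ℚ)⁻¹ * ∑ ω, netE (sU s) (sV s) l (act ω z)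
        (act' (σ ω) z) (y (Sum.inl ω)) (y (Sum.inr (σ ω))) := fun y => by
      have := l3 fun τ => ∑ ω, bv (y (Sum.inl ω)) * bv (y (Sum.inr (τ ω)))
      simp only [mul_sum] at this
      simp only [cost, netE, sum_add_distrib, sum_sub_distrib, Sum.elim_comp_inl,
        Sum.elim_comp_inr, Sum.elim_inr]
      rw [this, Equiv.sum_comp σ fun ω => bv (y (Sum.inr ω)) * (9 - sV s - 8 * bv (act' ω z))]
    have e2 : (N : ℚ)⁻¹ * ∑ ω, netT (sU s) (sV s) l (act ω z) (act' (σ ω) z) = nf s (z ∘ bit) := by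
      have f1 : ∑ ω, bv (act ω z) = N * muU (z ∘ bit) := by rw [sum_bv_card, c1]
      have f2 : ∑ ω, bv (act' (σ ω) z) = N * muV (z ∘ bit) := by
        rw [Equiv.sum_comp σ fun ω => bv (act' ω z), sum_bv_card, c2]
      simp only [netT, sum_sub_distrib, sum_neg_distrib, ← sum_mul]
      rw [f1, f2, nf, l1]
      field_simp
    have e3 := fun ω => net_pair (sU_bd s).1 (sU_bd s).2 (sV_bd s).1 (sV_bd s).2 l (act ω z)
      (act' (σ ω) z) fun h => l2 h ω
    choose k k' hk using fun ω => (e3 ω).1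
    refine (hNf _).unique ⟨⟨Sum.elim k (k' ∘ σ.symm), ?_⟩, ?_⟩
    · rw [e1, ← e2]
      simp only [Sum.elim_inl, Sum.elim_inr, comp_apply, Equiv.symm_apply_apply, hk]
    · rintro _ ⟨y, rfl⟩
      rw [e1, ← e2]
      exact mul_le_mul_of_nonneg_left (sum_le_sum fun ω _ => (e3 ω).2 _ _) (inv_nonneg.2 N0.le)

end Pool.Agent.Lib.MP_cb9cb0_lc.X
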