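import Pool.Agent.Lib.MP_cb9cb0_lc.X.Basic
import Pool.Agent.Lib.MP_cb9cb0_lc.Reduce

/-!
Normalisation of a list of terms to an input of the problem.
-/

set_option autoImplicit false

namespace Pool.Agent.Lib.MP_cb9cb0_lc.X

open Finset Function Pool.Agent.Lib.Complexity N487b59b3 N68a2faeb

namespace Nrm

/-- the members of `l` below `n` in increasing order -/
def srt (n : ℕ) (l : List ℕ) : List ℕ := (List.range n).filter fun i => decide (i ∈ l)

/-- first occurrences -/
def fst1 (K : List (List ℕ)) : List (List ℕ) :=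
  (K.zipIdx.filter fun x => !decide (x.1 ∈ K.take x.2)).map fun x => x.1

def keys (n : ℕ) (L : Poly ℕ) : List (List ℕ) := fst1 (L.map fun t => srt n t.1)

def coef (n : ℕ) (L : Poly ℕ) (k : List ℕ) : ℤ :=
  (L.map fun t => if srt n t.1 = k then t.2 else 0).sum

def mns (n : ℕ) (L : Poly ℕ) : Poly ℕ :=
  (((keys n L).map fun k => (k, coef n L k)).filter fun t => !decide (t.2 = 0)) ++
    [([n, n + 1, n + 2, n + 3], -1)]

def phi (b : ℕ × Poly ℕ) : Input := (b.1 + 4, (mns b.1 b.2).map conv)

lemma mem_srt {n i : ℕ} {l : List ℕ} : i ∈ srt n l ↔ i < n ∧ i ∈ l := by simp [srt]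

lemma srt_sorted (n : ℕ) (l : List ℕ) : (srt n l).Pairwise (· < ·) :=
  List.pairwise_lt_range.filter _

lemma mem_fst1 {K : List (List ℕ)} {k : List ℕ} : k ∈ fst1 K ↔ k ∈ K := by
  simp only [fst1, List.mem_map, List.mem_filter, List.mem_zipIdx_iff_getElem?]
  constructor
  · rintro ⟨x, ⟨h, -⟩, rfl⟩
    exact List.mem_of_getElem? h
  · intro h
    refine ⟨(k, K.idxOf k), ⟨List.getElem?_idxOf h, ?_⟩, rfl⟩
    simp [List.mem_take_iff_idxOf_lt h]

lemma fst1_nodup (K : List (List ℕ)) : (fst1 K).Nodup := by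
  have h0 : K.zipIdx.Nodup := List.Nodup.of_map Prod.snd (by
    rw [List.zipIdx_map_snd]; exact List.nodup_range')
  refine (h0.filter _).map_on ?_
  have key : ∀ x y : List ℕ × ℕ, K[x.2]? = some x.1 → y.1 ∉ K.take y.2 → x.1 = y.1 →
      y.2 ≤ x.2 := fun x y hx hy e => by
    by_contra hlt
    refine hy (List.mem_of_getElem? (i := x.2) ?_)
    rw [List.getElem?_take_of_lt (by omega), hx, e]
  intro x hx y hy e
  simp only [List.mem_filter, List.mem_zipIdx_iff_getElem?, Bool.not_eq_true',
    decide_eq_false_iff_not] at hx hy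
  exact Prod.ext e (le_antisymm (key y x hy.1 hx.2 e.symm) (key x y hx.1 hy.2 e))

lemma mem_keys {n : ℕ} {L : Poly ℕ} {k : List ℕ} : k ∈ keys n L ↔ ∃ t ∈ L, srt n t.1 = k := by
  simp only [keys, mem_fst1, List.mem_map]

lemma mem_mns {n : ℕ} {L : Poly ℕ} {t : List ℕ × ℤ} (h : t ∈ mns n L) :
    (t.2 ≠ 0 ∧ ∃ s ∈ L, srt n s.1 = t.1) ∨ t = ([n, n + 1, n + 2, n + 3], -1) := by
  simp only [mns, List.mem_append, List.mem_filter, List.mem_map, List.mem_singleton,
    Bool.not_eq_true', decide_eq_false_iff_not] at h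
  rcases h with ⟨⟨k, hk, rfl⟩, h⟩ | h
  · exact Or.inl ⟨h, mem_keys.1 hk⟩
  · exact Or.inr h

lemma mns_good {n : ℕ} {L : Poly ℕ} {t : List ℕ × ℤ} (h : t ∈ mns n L) :
    t.1.Pairwise (· < ·) ∧ (∀ i ∈ t.1, i < n + 4) ∧ t.2 ≠ 0 := by
  rcases mem_mns h with ⟨h1, s, -, e⟩ | rfl
  · rw [← e]
    exact ⟨srt_sorted _ _, fun i hi => by have := (mem_srt.1 hi).1; omega, h1⟩
  · exact ⟨by simp, by simp, by simp⟩

lemma mns_nodup (n : ℕ) (L : Poly ℕ) : ((mns n L).map Prod.fst).Nodup := by
  rw [mns, List.map_append]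
  refine List.nodup_append.2 ⟨?_, by simp, fun a ha b hb e => ?_⟩
  · refine List.Nodup.sublist (List.filter_sublist.map _) ?_
    rw [List.map_map]
    exact (List.map_id _).symm ▸ fst1_nodup _
  · obtain ⟨t, ht, rfl⟩ := List.mem_map.1 ha
    obtain ⟨k, hk, rfl⟩ := List.mem_map.1 (List.mem_filter.1 ht).1
    obtain ⟨s, -, rfl⟩ := mem_keys.1 hk
    have : n ∈ srt n s.1 := by
      simp only [List.map_cons, List.map_nil, List.mem_singleton] at hb
      rw [show srt n s.1 = b from e, hb]
      simp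
    exact lt_irrefl _ (mem_srt.1 this).1

lemma phi_quartic (n : ℕ) (L : Poly ℕ) (hL : ∀ t ∈ L, t.1.length ≤ 4) :
    IsQuartic (phi (n, L)) := by
  refine ⟨?_, ?_, ?_⟩
  · have : (phi (n, L)).2.map Prod.fst = ((mns n L).map Prod.fst).map List.toFinset := by
      simp [phi, conv, Function.comp_def]
    rw [this]
    refine (mns_nodup n L).map_on ?_
    intro a ha b hb hab
    obtain ⟨s, hs, rfl⟩ := List.mem_map.1 ha
    obtain ⟨t, ht, rfl⟩ := List.mem_map.1 hb
    rw [← sort_toFinset (mns_good hs).1, hab, sort_toFinset (mns_good ht).1]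
  · intro t ht
    obtain ⟨s, hs, rfl⟩ := List.mem_map.1 ht
    obtain ⟨-, h2, h4⟩ := mns_good hs
    refine ⟨by simpa [conv] using h4, fun i hi => ?_, ?_⟩
    · simpa [phi] using h2 i (by simpa [conv] using hi)
    · rcases mem_mns hs with ⟨-, u, hu, e⟩ | rfl
      · refine (card_le_card (t := u.1.toFinset) fun i hi => ?_).trans
          ((List.toFinset_card_le _).trans (hL u hu))
        simp only [conv, ← e, List.mem_toFinset] at hi ⊢
        exact (mem_srt.1 hi).2
      · exact List.toFinset_card_le _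
  · refine ⟨conv ([n, n + 1, n + 2, n + 3], -1), List.mem_map_of_mem (by simp [mns]), ?_⟩
    simp only [conv]
    rw [List.toFinset_card_of_nodup (by simp)]
    rfl

lemma prod_bv (l : List ℕ) (x : ℕ → Bool) : (l.map fun i => bv (x i)).prod = bv (l.all x) := by
  induction l with
  | nil => simp
  | cons a l ih => rw [List.map_cons, List.prod_cons, ih, List.all_cons]; cases x a <;> simp

lemma val_filter (L : Poly ℕ) (x : ℕ → Bool) :
    val (L.filter fun t => !decide (t.2 = 0)) x = val L x := by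
  induction L with
  | nil => rfl
  | cons t L ih =>
    by_cases h : t.2 = 0 <;> simp only [val] at ih ⊢ <;> simp [h, ih]

lemma val_keys (n : ℕ) (K : List (List ℕ)) (hK : K.Nodup) (x : ℕ → Bool) (L : Poly ℕ)
    (h : ∀ t ∈ L, srt n t.1 ∈ K ∧ ∀ i ∈ t.1, i < n) :
    val (K.map fun k => (k, coef n L k)) x = val L x := by
  simp only [val, List.map_map, comp_def, prod_bv]
  rw [← List.sum_toFinset _ hK]
  induction L with
  | nil => simp [coef]
  | cons t L ih =>
    obtain ⟨h1, h2⟩ := h t (by simp)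
    have e : (srt n t.1).all x = t.1.all x := by
      rw [Bool.eq_iff_iff, List.all_eq_true, List.all_eq_true]
      exact ⟨fun k i hi => k i (mem_srt.2 ⟨h2 i hi, hi⟩), fun k i hi => k i (mem_srt.1 hi).2⟩
    rw [List.map_cons, List.sum_cons, ← ih fun s hs => h s (by simp [hs]), ← e]
    simp only [coef, List.map_cons, List.sum_cons, Int.cast_add, add_mul, sum_add_distrib]
    congr 1
    rw [sum_eq_single (srt n t.1) (fun k _ hk => by simp [hk.symm])
      (fun hk => absurd (List.mem_toFinset.2 h1) hk), if_pos rfl]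

/-- extension of an assignment by `false` -/
def xt {n : ℕ} (x : Fin n → Bool) (i : ℕ) : Bool := if h : i < n then x ⟨i, h⟩ else false

lemma value_phi (n : ℕ) (L : Poly ℕ) (hL : ∀ t ∈ L, ∀ i ∈ t.1, i < n) (x : Fin (n + 4) → Bool) :
    value (phi (n, L)) x
      = val L (xt x) + - an (univ.filter fun i : Fin (n + 4) => n ≤ i.val) x := by
  have e0 : ext x = fun i => bv (xt x i) := by
    funext i
    unfold ext xt
    split_ifs <;> rfl
  have h0 : value (phi (n, L)) x = val (mns n L) (xt x) := by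
    simp only [value, phi, val, List.map_map]
    congr 1
    refine List.map_congr_left fun t ht => ?_
    obtain ⟨h1, h2, -⟩ := mns_good ht
    exact congrArg (fun s => (t.2 : ℚ) * s) ((prod_eq x t.1 h1 h2).trans (by rw [e0]))
  have h1 : ∀ A B : Poly ℕ, val (A ++ B) (xt x) = val A (xt x) + val B (xt x) := fun A B => by
    simp [val]
  rw [h0, mns, h1, val_filter, val_keys n (keys n L) (fst1_nodup _) _ L
    fun t ht => ⟨mem_keys.2 ⟨t, ht, rfl⟩, hL t ht⟩]
  congr 1
  have h2 := prod_eq x [n, n + 1, n + 2, n + 3] (by simp) (by simp)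
  rw [e0] at h2
  simp only [val, List.map_cons, List.map_nil, List.sum_cons, List.sum_nil] at h2 ⊢
  rw [← h2, an]
  have h3 : (univ.filter fun i : Fin (n + 4) => i.val ∈ [n, n + 1, n + 2, n + 3].toFinset)
      = univ.filter fun i : Fin (n + 4) => n ≤ i.val := filter_congr fun i _ => by
    have := i.2
    simp only [List.mem_toFinset, List.mem_cons, List.not_mem_nil, or_false]
    omega
  rw [h3]
  simp [bv]

/-- the data written by the normalisation, with binary numbers -/
def outp (b : ℕ × Poly ℕ) : ℤ × List (List ℤ × ℤ × ℤ) :=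
  ((b.1 + 4 : ℕ), (mns b.1 b.2).map fun t => (t.1.map (fun i : ℕ => (i : ℤ)), t.2, 1))

lemma pt_outp : PT outp := by
  unfold outp mns coef keys fst1 srt
  fun_prop

lemma enc_outp (b : ℕ × Poly ℕ) :
    bitEncode (Rep.down (outp b) : ℕ × List (List ℕ × ℤ × ℕ)) = bitEncode (phi b) := by
  have h : ∀ t ∈ mns b.1 b.2,
      bitEncode ((t.1, t.2, 1) : List ℕ × ℤ × ℕ) = bitEncode (conv t) := by
    intro t ht
    have h1 := sort_toFinset (mns_good ht).1
    show delimit (bitEncode t.1) ++ bitEncode ((t.2, 1) : ℤ × ℕ)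
      = delimit (bitEncode (t.1.toFinset.sort (· ≤ ·)))
        ++ bitEncode (((t.2 : ℚ).num, (t.2 : ℚ).den) : ℤ × ℕ)
    rw [h1]; simp
  show delimit (bitEncode _) ++ (((List.map _ _).map bitEncode).map delimit).flatten
    = delimit (bitEncode (b.1 + 4)) ++ (((List.map _ _).map bitEncode).map delimit).flatten
  congr 1
  congr 2
  simp only [outp, List.map_map]
  refine List.map_congr_left fun t ht => ?_
  rw [Function.comp, Function.comp, Function.comp, ← h t ht]
  simp [Function.comp_def]

end Nrm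

open Nrm in
theorem normSt : NormSt := by
  refine ⟨phi, fun g hg => ?_, fun n L V ι G hL hι hn hG => ?_⟩
  · have h1 : PT fun l : Str => ((bitDecode l : Option Str).map Rep.up).elim []
        fun a => bitEncode (Rep.down (outp (g a)) : ℕ × List (List ℕ × ℤ × ℕ)) :=
      PT.option_elim (Rep.dec_pt (α := Str)) (PT.const _)
        ((Rep.enc_pt (α := ℕ × List (List ℕ × ℤ × ℕ))).comp
          (pt_outp.comp (hg.comp (PT.snd PT.id))))
    exact tm2_of_str h1 fun a => by
      change ((bitDecode (bitEncode a) : Option Str).map Rep.up).elim _ _ = bitEncode _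
      rw [bitDecode_bitEncode, Option.map_some, up_str, Option.elim_some, enc_outp]
  · classical
    let κ : V → Fin (n + 4) := fun v => ⟨ι v, by have := hn v; omega⟩
    let A := univ.filter fun i : Fin (n + 4) => n ≤ i.val
    have e : ∀ x : Fin (n + 4) → Bool, value (phi (n, L)) x = G (x ∘ κ) + - an A x := fun x => by
      rw [value_phi n L fun t ht => (hL t ht).2, hG]
      congr 2
      funext v
      exact dif_pos (κ v).2
    have e' : value (phi (n, L)) = fun x : Fin (n + 4) → Bool => G (x ∘ κ) + - an A x := funext e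
    have s1 : Submodular G → Submodular fun x : Fin (n + 4) → Bool => G (x ∘ κ) + - an A x :=
      fun h x y => by
        have k1 := h (x ∘ κ) (y ∘ κ)
        have k2 := (ex_neg_an A).submodular x y
        change G (x ∘ κ ⊓ y ∘ κ) + _ + (G (x ∘ κ ⊔ y ∘ κ) + _) ≤ _
        beta_reduce
        linarith
    have s2 : Ex (fun x : Fin (n + 4) → Bool => G (x ∘ κ) + - an A x) → Ex G := fun h => by
      refine (h.fix fun i => if h : ∃ v, κ v = i then Sum.inr h.choose else Sum.inl false).of_eq
        fun y => ?_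
      rw [an, prod_eq_zero (i := ⟨n, by omega⟩) (by simp [A]), neg_zero, add_zero]
      · congr 1
        funext v
        have hv : ∃ w, κ w = κ v := ⟨v, rfl⟩
        rw [comp_apply, dif_pos hv, Sum.elim_inr, hι (congrArg Fin.val hv.choose_spec)]
      · rw [dif_neg fun ⟨v, hv⟩ => (hn v).ne (congrArg Fin.val hv)]
        rfl
    refine ⟨phi_quartic n L fun t ht => (hL t ht).1, fun h => ?_,
      (expressible_iff _).trans ⟨fun h => s2 ?_, fun h => ?_⟩⟩
    · rw [e']
      exact s1 h
    · rw [e'] at h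
      exact h
    · rw [e']
      exact (h.rename κ).add (ex_neg_an A)

end Pool.Agent.Lib.MP_cb9cb0_lc.X
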