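import Pool.Agent.Lib.MP_cb9cb0_lc.X.Basic

/-! From a padded polynomial time decision to doubly exponential time. -/

set_option autoImplicit false

namespace Pool.Agent.Lib.MP_cb9cb0_lc.X

open Function Turing N487b59b3
open Pool.Agent.Lib.Complexity

namespace Pad

theorem iter_min {f : ℕ → ℕ} (hq : ∀ x, x ≤ f x) (q n x : ℕ) :
    (fun z => min (f z) q)^[n] (min x q) = min (f^[n] x) q := by
  induction n with
  | zero => rfl
  | succ n ih =>
    rw [iterate_succ_apply', iterate_succ_apply', ih]
    rcases le_total (f^[n] x) q with l | l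
    · rw [min_eq_left l]
    · rw [min_eq_right l, min_eq_right (hq q), min_eq_right (l.trans (hq _))]

theorem iter_two (n : ℕ) : (fun z => 2 * z)^[n] 1 = 2 ^ n := by
  induction n with
  | zero => rfl
  | succ n ih => rw [iterate_succ_apply', ih, pow_succ, mul_comm]

variable {A : Type} [Enc A]

theorem pt_pow {y q : A → ℕ} (hy : PT y) (hq : PT q) : PT fun a => min (2 ^ y a) (q a) := by
  have e : ∀ a i, (fun z => min (2 * z) (q a))^[i] (min 1 (q a)) = min (2 ^ i) (q a) := by
    intro a i
    rw [iter_min (f := fun z => 2 * z) (fun x => by omega), iter_two]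
  refine (PT.iterate (step := fun a z => min (2 * z) (q a)) (init := fun a => min 1 (q a)) hy
    (by fun_prop) (by fun_prop) hq.pb_nat fun a i _ => ?_).of_eq fun a => e a _
  rw [e, sz_nat]
  exact min_le_right _ _

theorem pt_pow2 {y q : A → ℕ} (hy : PT y) (hq : PT q) :
    PT fun a => min (2 ^ 2 ^ y a) (q a) := by
  refine (pt_pow (pt_pow hy hq) hq).of_eq fun a => ?_
  rcases le_total (2 ^ y a) (q a) with l | l
  · rw [min_eq_left l]
  · have a1 := (Nat.lt_two_pow_self (n := q a)).le
    have a2 : 2 ^ q a ≤ 2 ^ 2 ^ y a := Nat.pow_le_pow_right (by omega) l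
    rw [min_eq_right l, min_eq_right a1, min_eq_right (a1.trans a2)]

theorem pt_pow2_le {y p : A → ℕ} (hy : PT y) (hp : PT p) :
    PT fun a => decide (2 ^ 2 ^ y a ≤ p a) :=
  ((pt_pow2 hy hp.succ).dec_le hp).of_eq fun a => by
    refine decide_eq_decide.2 ?_
    omega

def whileP (P : Prog) (N : ℕ) : Prog := .loop N (.seq P (.ite 0 .skip (.pop N)))

theorem while_eval {P : Prog} {N : ℕ} (hN : 0 < N) {G : Str → Str} {U : Str → ℕ}
    (hG : ∀ x, Spec P N x (G x) (U x)) (W m : ℕ) :
    ∀ (x : Str) (s : St), s 0 = x → s N = [true] → (∀ i, 0 < i → i < N → s i = []) →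
      (∀ i ≤ m, U (G^[i] x) ≤ W) → (∀ i < m, (G^[i + 1] x).head? = some true) →
      (G^[m + 1] x).head? ≠ some true →
      Eval (whileP P N) s (update (update s N []) 0 (G^[m + 1] x)) ((m + 1) * (W + 3) + 1) := by
  have n0 : N ≠ 0 := by omega
  induction m with
  | zero =>
    intro x s h0 h1 hs hW _ hF
    have a1 := hG x s h0 hs
    have a2 : Eval (.ite 0 .skip (.pop N)) (update s 0 (G x)) _ _ :=
      Eval.iteF (by simpa using hF) (Eval.pop N _)
    have hW0 := hW 0 le_rfl
    refine (Eval.loopS (by simp [h1]) (a1.seq a2) (Eval.loop0 (by simp [n0, h1]))).of_eq ?_ ?_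
    · funext i
      simp only [update_apply]
      split_ifs <;> simp_all
    · simp only [iterate_zero, id_eq] at hW0; omega
  | succ m ih =>
    intro x s h0 h1 hs hW hT hF
    have a1 := hG x s h0 hs
    have a2 : Eval (.ite 0 .skip (.pop N)) (update s 0 (G x)) _ _ :=
      Eval.iteT (by simpa using hT 0 (by omega)) (Eval.skip _)
    have a3 := ih (G x) (update s 0 (G x)) (by simp) (by simp [n0, h1])
      (fun i i0 iN => by rw [update_of_ne (by omega)]; exact hs i i0 iN)
      (fun i hi => by simpa using hW (i + 1) (by omega))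
      (fun i hi => by simpa using hT (i + 1) (by omega)) (by simpa using hF)
    have hW0 := hW 0 (by omega)
    refine (Eval.loopS (by simp [h1]) (a1.seq a2) a3).of_eq ?_ ?_
    · funext i
      simp only [update_apply]
      split_ifs <;> simp_all
    · simp only [iterate_zero, id_eq] at hW0; nlinarith

theorem spec_tm {P : Prog} {N : ℕ} {x y : Str} {T : ℕ} (h : Spec P N x y T) :
    Nonempty (TM2OutputsInTime P.machine x (some y) T) := by
  have h1 := h (update (fun _ => []) 0 x) (by simp) (fun i h1 _ => by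
    rw [update_of_ne (by omega)])
  obtain ⟨n, ln, e⟩ :=
    h1.sim (M := P.bnd) (P.code (rho P.bnd) id .halt) id .halt le_rfl (fun _ => rfl)
  have e1 : initList P.machine x
      = ⟨some P.entry, false, res P.bnd (update (fun _ => []) 0 x)⟩ := by
    simp only [initList, Prog.machine]
    congr 1
    funext k
    by_cases hk : k = 0
    · subst hk; simp [res]
    · have : k.val ≠ 0 := fun e => hk (Fin.ext e)
      simp [res, hk]
  have e2 : haltList P.machine y
      = ⟨none, false, res P.bnd (update (update (fun _ => []) 0 x) 0 y)⟩ := by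
    simp only [haltList, Prog.machine]
    congr 1
    funext k
    by_cases hk : k = 0
    · subst hk; simp [res]
    · have : k.val ≠ 0 := fun e => hk (Fin.ext e)
      simp [res, hk]
  refine ⟨⟨⟨n, ?_⟩, ln⟩⟩
  change (flip bind P.machine.step)^[n] (some (initList P.machine x))
    = some (haltList P.machine y)
  rw [e1, e2]
  exact e

/-! ### the search for the padding -/

def st (l : Str) (p : ℕ) : Str := true :: (enc (l, p)).bits

def un (x : Str) : Str × ℕ := rd (PT.parse x.tail)

theorem un_st (l : Str) (p : ℕ) : un (st l p) = (l, p) := by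
  simp only [un, st, List.tail_cons, PT.parse_bits', Rd.rd_enc]

theorem pt_un : PT un := PT.rd (PT.parse'.comp (PT.tail PT.id))

theorem length_st (l : Str) (p : ℕ) : (st l p).length ≤ 4 * (l.length + p) + 4 := by
  have := PT.sz_str_le l
  have e : (enc (l, p)).size = sz l + p + 1 := by
    rw [← sz_nat p, ← sz_pair, sz_nat]; rfl
  simp only [st, List.length_cons, T.length_bits, e]
  omega

def dec (x : Str) : Str := ((bitDecode x : Option Str).map Rep.up).getD []

theorem pt_dec : PT dec := (PT.decode Str PT.id).option_getD (PT.const _)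

theorem dec_enc (l : Str) : dec (bitEncode l) = l := by
  simp only [dec, bitDecode_bitEncode, Option.map_some, Option.getD_some, up_str]

def bd (x : Str) : ℕ := 2 ^ 2 ^ (dec x).length

def stepG (F : Str × ℕ → Bool) (x : Str) : Str :=
  if bd (un x).1 ≤ (un x).2 then [false, F (un x)] else st (un x).1 ((un x).2 + 1)

theorem pt_st {l : A → Str} {p : A → ℕ} (hl : PT l) (hp : PT p) : PT fun a => st (l a) (p a) := by
  unfold st
  fun_prop

theorem pt_stepG {F : Str × ℕ → Bool} (hF : PT F) : PT (stepG F) := by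
  have u := pt_un
  exact PT.ite (pt_pow2_le (pt_dec.comp u.fst).length u.snd)
    (PT.cons (PT.const _) (PT.cons (hF.comp u) (PT.const _))) (pt_st u.fst u.snd.succ)

theorem stepG_iter (F : Str × ℕ → Bool) (l : Str) (i : ℕ) (hi : i ≤ bd l) :
    (stepG F)^[i] (st l 0) = st l i := by
  induction i with
  | zero => rfl
  | succ i ih =>
    rw [iterate_succ_apply', ih (by omega), stepG, un_st, if_neg (by dsimp only; omega)]

theorem stepG_last (F : Str × ℕ → Bool) (l : Str) :
    (stepG F)^[bd l + 1] (st l 0) = [false, F (l, bd l)] := by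
  rw [iterate_succ_apply', stepG_iter F l _ le_rfl, stepG, un_st, if_pos le_rfl]

theorem prog_ex {F : Str × ℕ → Bool} (hF : PT F) :
    ∃ (P : Prog) (N : ℕ) (q : Polynomial ℕ),
      ∀ l, Spec P N l [F (l, bd l)] (q.eval (l.length + bd l)) := by
  obtain ⟨P₀, N₀, q₀, h₀⟩ := (pt_st (A := Str) PT.id (PT.const 0)).raw
  obtain ⟨P₁, N₁, q₁, h₁⟩ := (pt_stepG hF).raw
  obtain ⟨N, hN⟩ : ∃ N, N = max N₀ N₁ + 1 := ⟨_, rfl⟩
  have pb : PB (fun x : ℕ => x) fun x =>
      q₀.eval x + 1 + ((x + 1) * (q₁.eval (4 * x + 4) + 3) + 1) + 1 :=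
    (((PB.self.eval q₀).add (PB.const 1)).add (((PB.self.add (PB.const 1)).mul
      (((((PB.const 4).mul PB.self).add (PB.const 4)).eval q₁).add (PB.const 3))).add
      (PB.const 1))).add (PB.const 1)
  obtain ⟨q, hq⟩ := pb
  refine ⟨.seq (.seq (.seq P₀ (.push N true)) (whileP P₁ N)) (.pop 0), N + 1, q,
    fun l s s0 hs => ?_⟩
  have n0 : N ≠ 0 := by omega
  have sN : s N = [] := hs N (by omega) (by omega)
  have a1 := (h₀ l s s0 fun i i0 iN => hs i i0 (by omega)).seq (Eval.push N true _)
  have a2 := while_eval (P := P₁) (N := N) (by omega) (G := stepG F)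
    (U := fun x => q₁.eval x.length) (fun x => (h₁ x).mono (by omega) le_rfl)
    (q₁.eval (4 * (l.length + bd l) + 4)) (bd l) (st l 0)
    (update (update s 0 (st l 0)) N (true :: update s 0 (st l 0) N))
    (by simp [n0.symm]) (by simp [n0, sN])
    (fun i i0 iN => by
      rw [update_of_ne (by omega), update_of_ne (by omega)]; exact hs i i0 (by omega))
    (fun i hi => by
      rw [stepG_iter F l i hi]
      exact peval_mono _ ((length_st l i).trans (by omega)))
    (fun i hi => by rw [stepG_iter F l (i + 1) hi]; rfl)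
    (by rw [stepG_last]; simp)
  rw [stepG_last] at a2
  refine ((a1.seq a2).seq (Eval.pop 0 _)).of_eq ?_ (le_trans ?_ (hq _))
  · funext i
    simp only [update_apply]
    split_ifs <;> simp_all
  · have b1 : q₀.eval l.length ≤ q₀.eval (l.length + bd l) := peval_mono _ (by omega)
    have b2 : (bd l + 1) * (q₁.eval (4 * (l.length + bd l) + 4) + 3) ≤
        (l.length + bd l + 1) * (q₁.eval (4 * (l.length + bd l) + 4) + 3) :=
      Nat.mul_le_mul_right _ (by omega)
    dsimp only
    omega

theorem eval_le (q : Polynomial ℕ) : ∃ c, ∀ m e, m ≤ 2 ^ e → q.eval m ≤ 2 ^ (c * (e + 1)) := by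
  induction q using Polynomial.induction_on' with
  | add p q hp hq =>
    obtain ⟨c, hc⟩ := hp
    obtain ⟨d, hd⟩ := hq
    refine ⟨c + d + 1, fun m e h => ?_⟩
    have e1 : 2 ^ (c * (e + 1)) ≤ 2 ^ ((c + d) * (e + 1)) :=
      Nat.pow_le_pow_right (by omega) (by nlinarith)
    have e2 : 2 ^ (d * (e + 1)) ≤ 2 ^ ((c + d) * (e + 1)) :=
      Nat.pow_le_pow_right (by omega) (by nlinarith)
    have e3 : 2 ^ ((c + d) * (e + 1) + 1) ≤ 2 ^ ((c + d + 1) * (e + 1)) :=
      Nat.pow_le_pow_right (by omega) (by nlinarith)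
    have := hc m e h
    have := hd m e h
    rw [Polynomial.eval_add]
    rw [pow_succ] at e3
    omega
  | monomial k c =>
    refine ⟨c + k, fun m e h => ?_⟩
    rw [Polynomial.eval_monomial]
    calc c * m ^ k ≤ 2 ^ c * (2 ^ e) ^ k :=
          Nat.mul_le_mul Nat.lt_two_pow_self.le (Nat.pow_le_pow_left h k)
      _ = 2 ^ (c + e * k) := by rw [← pow_mul, ← pow_add]
      _ ≤ _ := Nat.pow_le_pow_right (by omega) (by nlinarith)

theorem length_enc (l : Str) : l.length ≤ (bitEncode l).length := by
  have := length_le_length_flatten_delimit (l.map bitEncode)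
  rw [List.length_map] at this
  exact this

end Pad

open Pad

theorem padSt : PadSt := by
  intro A hA
  obtain ⟨P, N, q, hP⟩ := prog_ex (F := fun p => A (dec p.1, p.2))
    (hA.comp (PT.prodMk (pt_dec.comp (PT.fst PT.id)) (PT.snd PT.id)))
  obtain ⟨c, hc⟩ := eval_le q
  have t : ∀ l : Str, q.eval ((bitEncode l).length + bd (bitEncode l)) ≤
      2 ^ 2 ^ ((bitEncode l).length ^ (c + 2) + (c + 2)) := by
    intro l
    have h1 := length_enc l
    rw [bd, dec_enc]
    generalize (bitEncode l).length = n at h1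
    have h2 : 2 ^ 2 ^ l.length ≤ 2 ^ 2 ^ n :=
      Nat.pow_le_pow_right (by omega) (Nat.pow_le_pow_right (by omega) h1)
    have h3 : n ≤ 2 ^ 2 ^ n := Nat.lt_two_pow_self.le.trans Nat.lt_two_pow_self.le
    refine (hc _ (2 ^ n + 1) (by rw [pow_succ]; omega)).trans (Nat.pow_le_pow_right (by omega) ?_)
    have h4 : n ≤ n ^ (c + 2) := Nat.le_self_pow (by omega) n
    have h5 : 2 ^ n ≤ 2 ^ (n ^ (c + 2)) := Nat.pow_le_pow_right (by omega) h4
    have h6 : 1 ≤ 2 ^ n := Nat.one_le_two_pow
    have h7 := (Nat.lt_two_pow_self (n := c)).le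
    rw [pow_add 2 (n ^ (c + 2)), pow_add 2 c]
    generalize 2 ^ (n ^ (c + 2)) = X at h5
    generalize 2 ^ n = Y at h5 h6
    generalize 2 ^ c = Z at h7
    nlinarith
  refine ⟨c + 2,
    { tm := P.machine
      inputAlphabet := Equiv.refl Bool
      outputAlphabet := Equiv.refl Bool
      time := fun n => 2 ^ 2 ^ (n ^ (c + 2) + (c + 2))
      outputsFun := fun l => ?_ }, fun n => le_rfl⟩
  have a := (spec_tm ((hP (bitEncode l)).mono le_rfl (t l))).some
  have e0 : bd (bitEncode l) = 2 ^ 2 ^ l.length := by rw [bd, dec_enc]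
  simp only [dec_enc] at a
  rw [e0] at a
  have e1 : ∀ l : List Bool, List.map (Equiv.refl Bool).invFun l = l := fun l => List.map_id _
  exact (congrArg₂ (fun x y => TM2OutputsInTime P.machine x (some y)
    (2 ^ 2 ^ ((bitEncode l).length ^ (c + 2) + (c + 2)))) (e1 _) (e1 _)).mpr a

end Pool.Agent.Lib.MP_cb9cb0_lc.X
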