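import Pool.Agent.Lib.MP_cb9cb0_lc.X.PathsA

/-!
The paths of the concrete system: explicit lists of states.
-/

set_option autoImplicit false

namespace Pool.Agent.Lib.MP_cb9cb0_lc.X

open Function Pool.Agent.Lib.Complexity

namespace Pth

variable {I : Inst} {v v' : ℕ → Bool} {g g' : ℕ} {s s' : St}

def sHP : St := ([0, 5, 9, 11, 12, 13, 14, 18, 20, 26, 27, 28], true, false, false, false)
def sHQ : St := ([1, 5, 9, 10, 12, 13, 14, 16, 20, 26, 27, 28], false, true, false, false)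
def sHV : St := ([3, 5, 9, 10, 11, 12, 14, 16, 20, 26, 27, 28], false, true, false, false)
def sMQ : St := ([1, 3, 6, 9, 10, 12, 14, 16, 24, 26, 27, 28], false, true, false, false)
def sZ : Fin 3 → St := ![([0, 1, 2, 3, 4, 6, 9, 17, 19, 25, 26, 27, 28], false, false, false, false),
  ([0, 1, 2, 3, 4, 7, 9, 17, 19, 25, 26, 27, 28], false, false, false, false),
  ([0, 1, 2, 3, 4, 8, 9, 17, 19, 25, 26, 27, 28], false, false, false, false)]
def sM : Fin 3 → St := ![([0, 3, 6, 9, 11, 12, 14, 21, 27, 28], true, true, true, true),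
  ([0, 3, 7, 9, 11, 12, 14, 22, 26, 28], true, true, true, true),
  ([0, 3, 8, 9, 11, 12, 14, 23, 26, 27], true, true, true, true)]
def sQ (l : List ℕ) : St := (l ++ [5, 10, 11, 12, 13, 14, 15, 20, 26, 27, 28], true, true, true, true)

def hpz : Fin 3 → List St :=
  ![[([0, 5, 9, 11, 12, 13, 14, 18, 20, 26, 27, 28], true, true, false, false),
    ([0, 5, 9, 11, 12, 13, 14, 20, 26, 27, 28], true, true, false, false),
    ([0, 1, 3, 5, 9, 11, 12, 13, 14, 20, 26, 27, 28], true, true, false, false),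
    ([0, 1, 3, 5, 9, 12, 14, 20, 26, 27, 28], true, true, false, false),
    ([0, 1, 2, 3, 5, 9, 12, 14, 20, 26, 27, 28], true, true, false, false),
    ([0, 1, 2, 3, 5, 9, 14, 20, 26, 27, 28], true, true, false, false),
    ([0, 1, 2, 3, 4, 5, 9, 14, 17, 20, 25, 26, 27, 28], true, true, false, false),
    ([0, 1, 2, 3, 4, 5, 9, 17, 25, 26, 27, 28], false, true, false, false),
    ([0, 1, 2, 3, 4, 5, 6, 9, 17, 19, 25, 26, 27, 28], false, true, false, false),
    ([0, 1, 2, 3, 4, 6, 9, 17, 19, 25, 26, 27, 28], false, false, false, false)],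
   [([0, 5, 9, 11, 12, 13, 14, 18, 20, 26, 27, 28], true, true, false, false),
    ([0, 5, 9, 11, 12, 13, 14, 20, 26, 27, 28], true, true, false, false),
    ([0, 1, 3, 5, 9, 11, 12, 13, 14, 20, 26, 27, 28], true, true, false, false),
    ([0, 1, 3, 5, 9, 12, 14, 20, 26, 27, 28], true, true, false, false),
    ([0, 1, 2, 3, 5, 9, 12, 14, 20, 26, 27, 28], true, true, false, false),
    ([0, 1, 2, 3, 5, 9, 14, 20, 26, 27, 28], true, true, false, false),
    ([0, 1, 2, 3, 4, 5, 9, 14, 17, 20, 25, 26, 27, 28], true, true, false, false),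
    ([0, 1, 2, 3, 4, 5, 9, 17, 25, 26, 27, 28], false, true, false, false),
    ([0, 1, 2, 3, 4, 5, 7, 9, 17, 19, 25, 26, 27, 28], false, true, false, false),
    ([0, 1, 2, 3, 4, 7, 9, 17, 19, 25, 26, 27, 28], false, false, false, false)],
   [([0, 5, 9, 11, 12, 13, 14, 18, 20, 26, 27, 28], true, true, false, false),
    ([0, 5, 9, 11, 12, 13, 14, 20, 26, 27, 28], true, true, false, false),
    ([0, 1, 3, 5, 9, 11, 12, 13, 14, 20, 26, 27, 28], true, true, false, false),
    ([0, 1, 3, 5, 9, 12, 14, 20, 26, 27, 28], true, true, false, false),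
    ([0, 1, 2, 3, 5, 9, 12, 14, 20, 26, 27, 28], true, true, false, false),
    ([0, 1, 2, 3, 5, 9, 14, 20, 26, 27, 28], true, true, false, false),
    ([0, 1, 2, 3, 4, 5, 9, 14, 17, 20, 25, 26, 27, 28], true, true, false, false),
    ([0, 1, 2, 3, 4, 5, 9, 17, 25, 26, 27, 28], false, true, false, false),
    ([0, 1, 2, 3, 4, 5, 8, 9, 17, 19, 25, 26, 27, 28], false, true, false, false),
    ([0, 1, 2, 3, 4, 8, 9, 17, 19, 25, 26, 27, 28], false, false, false, false)]]

def hvz : Fin 3 → List St :=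
  ![[([3, 5, 9, 10, 11, 12, 14, 16, 20, 26, 27, 28], true, true, false, false),
    ([3, 5, 9, 10, 11, 12, 14, 20, 26, 27, 28], true, true, false, false),
    ([0, 1, 3, 5, 9, 10, 11, 12, 14, 20, 26, 27, 28], true, true, false, false),
    ([0, 1, 3, 5, 9, 12, 14, 20, 26, 27, 28], true, true, false, false),
    ([0, 1, 2, 3, 5, 9, 12, 14, 20, 26, 27, 28], true, true, false, false),
    ([0, 1, 2, 3, 5, 9, 14, 20, 26, 27, 28], true, true, false, false),
    ([0, 1, 2, 3, 4, 5, 9, 14, 17, 20, 25, 26, 27, 28], true, true, false, false),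
    ([0, 1, 2, 3, 4, 5, 9, 17, 25, 26, 27, 28], false, true, false, false),
    ([0, 1, 2, 3, 4, 5, 6, 9, 17, 19, 25, 26, 27, 28], false, true, false, false),
    ([0, 1, 2, 3, 4, 6, 9, 17, 19, 25, 26, 27, 28], false, false, false, false)],
   [([3, 5, 9, 10, 11, 12, 14, 16, 20, 26, 27, 28], true, true, false, false),
    ([3, 5, 9, 10, 11, 12, 14, 20, 26, 27, 28], true, true, false, false),
    ([0, 1, 3, 5, 9, 10, 11, 12, 14, 20, 26, 27, 28], true, true, false, false),
    ([0, 1, 3, 5, 9, 12, 14, 20, 26, 27, 28], true, true, false, false),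
    ([0, 1, 2, 3, 5, 9, 12, 14, 20, 26, 27, 28], true, true, false, false),
    ([0, 1, 2, 3, 5, 9, 14, 20, 26, 27, 28], true, true, false, false),
    ([0, 1, 2, 3, 4, 5, 9, 14, 17, 20, 25, 26, 27, 28], true, true, false, false),
    ([0, 1, 2, 3, 4, 5, 9, 17, 25, 26, 27, 28], false, true, false, false),
    ([0, 1, 2, 3, 4, 5, 7, 9, 17, 19, 25, 26, 27, 28], false, true, false, false),
    ([0, 1, 2, 3, 4, 7, 9, 17, 19, 25, 26, 27, 28], false, false, false, false)],
   [([3, 5, 9, 10, 11, 12, 14, 16, 20, 26, 27, 28], true, true, false, false),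
    ([3, 5, 9, 10, 11, 12, 14, 20, 26, 27, 28], true, true, false, false),
    ([0, 1, 3, 5, 9, 10, 11, 12, 14, 20, 26, 27, 28], true, true, false, false),
    ([0, 1, 3, 5, 9, 12, 14, 20, 26, 27, 28], true, true, false, false),
    ([0, 1, 2, 3, 5, 9, 12, 14, 20, 26, 27, 28], true, true, false, false),
    ([0, 1, 2, 3, 5, 9, 14, 20, 26, 27, 28], true, true, false, false),
    ([0, 1, 2, 3, 4, 5, 9, 14, 17, 20, 25, 26, 27, 28], true, true, false, false),
    ([0, 1, 2, 3, 4, 5, 9, 17, 25, 26, 27, 28], false, true, false, false),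
    ([0, 1, 2, 3, 4, 5, 8, 9, 17, 19, 25, 26, 27, 28], false, true, false, false),
    ([0, 1, 2, 3, 4, 8, 9, 17, 19, 25, 26, 27, 28], false, false, false, false)]]

def hpm : Fin 3 → List St :=
  ![[([0, 5, 9, 11, 12, 13, 14, 18, 20, 26, 27, 28], true, true, false, false),
    ([0, 5, 9, 11, 12, 13, 14, 20, 26, 27, 28], true, true, false, false),
    ([0, 3, 5, 9, 11, 12, 13, 14, 20, 26, 27, 28], true, true, false, false),
    ([0, 3, 5, 9, 11, 12, 14, 20, 26, 27, 28], true, true, true, false),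
    ([0, 3, 5, 9, 11, 12, 14, 20, 26, 27, 28], true, true, true, true),
    ([0, 3, 5, 9, 11, 12, 14, 20, 27, 28], true, true, true, true),
    ([0, 3, 5, 9, 11, 12, 14, 20, 21, 27, 28], true, true, true, true),
    ([0, 3, 5, 9, 11, 12, 14, 21, 27, 28], true, true, true, true),
    ([0, 3, 5, 6, 9, 11, 12, 14, 21, 27, 28], true, true, true, true),
    ([0, 3, 6, 9, 11, 12, 14, 21, 27, 28], true, true, true, true)],
   [([0, 5, 9, 11, 12, 13, 14, 18, 20, 26, 27, 28], true, true, false, false),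
    ([0, 5, 9, 11, 12, 13, 14, 20, 26, 27, 28], true, true, false, false),
    ([0, 3, 5, 9, 11, 12, 13, 14, 20, 26, 27, 28], true, true, false, false),
    ([0, 3, 5, 9, 11, 12, 14, 20, 26, 27, 28], true, true, true, false),
    ([0, 3, 5, 9, 11, 12, 14, 20, 26, 27, 28], true, true, true, true),
    ([0, 3, 5, 9, 11, 12, 14, 20, 26, 28], true, true, true, true),
    ([0, 3, 5, 9, 11, 12, 14, 20, 22, 26, 28], true, true, true, true),
    ([0, 3, 5, 9, 11, 12, 14, 22, 26, 28], true, true, true, true),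
    ([0, 3, 5, 7, 9, 11, 12, 14, 22, 26, 28], true, true, true, true),
    ([0, 3, 7, 9, 11, 12, 14, 22, 26, 28], true, true, true, true)],
   [([0, 5, 9, 11, 12, 13, 14, 18, 20, 26, 27, 28], true, true, false, false),
    ([0, 5, 9, 11, 12, 13, 14, 20, 26, 27, 28], true, true, false, false),
    ([0, 3, 5, 9, 11, 12, 13, 14, 20, 26, 27, 28], true, true, false, false),
    ([0, 3, 5, 9, 11, 12, 14, 20, 26, 27, 28], true, true, true, false),
    ([0, 3, 5, 9, 11, 12, 14, 20, 26, 27, 28], true, true, true, true),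
    ([0, 3, 5, 9, 11, 12, 14, 20, 26, 27], true, true, true, true),
    ([0, 3, 5, 9, 11, 12, 14, 20, 23, 26, 27], true, true, true, true),
    ([0, 3, 5, 9, 11, 12, 14, 23, 26, 27], true, true, true, true),
    ([0, 3, 5, 8, 9, 11, 12, 14, 23, 26, 27], true, true, true, true),
    ([0, 3, 8, 9, 11, 12, 14, 23, 26, 27], true, true, true, true)]]

def hvm : Fin 3 → List St :=
  ![[([3, 5, 9, 10, 11, 12, 14, 16, 20, 26, 27, 28], true, true, false, false),
    ([3, 5, 9, 10, 11, 12, 14, 20, 26, 27, 28], true, true, false, false),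
    ([0, 3, 5, 9, 10, 11, 12, 14, 20, 26, 27, 28], true, true, false, false),
    ([0, 3, 5, 9, 11, 12, 14, 20, 26, 27, 28], true, true, true, false),
    ([0, 3, 5, 9, 11, 12, 14, 20, 26, 27, 28], true, true, true, true),
    ([0, 3, 5, 9, 11, 12, 14, 20, 27, 28], true, true, true, true),
    ([0, 3, 5, 9, 11, 12, 14, 20, 21, 27, 28], true, true, true, true),
    ([0, 3, 5, 9, 11, 12, 14, 21, 27, 28], true, true, true, true),
    ([0, 3, 5, 6, 9, 11, 12, 14, 21, 27, 28], true, true, true, true),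
    ([0, 3, 6, 9, 11, 12, 14, 21, 27, 28], true, true, true, true)],
   [([3, 5, 9, 10, 11, 12, 14, 16, 20, 26, 27, 28], true, true, false, false),
    ([3, 5, 9, 10, 11, 12, 14, 20, 26, 27, 28], true, true, false, false),
    ([0, 3, 5, 9, 10, 11, 12, 14, 20, 26, 27, 28], true, true, false, false),
    ([0, 3, 5, 9, 11, 12, 14, 20, 26, 27, 28], true, true, true, false),
    ([0, 3, 5, 9, 11, 12, 14, 20, 26, 27, 28], true, true, true, true),
    ([0, 3, 5, 9, 11, 12, 14, 20, 26, 28], true, true, true, true),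
    ([0, 3, 5, 9, 11, 12, 14, 20, 22, 26, 28], true, true, true, true),
    ([0, 3, 5, 9, 11, 12, 14, 22, 26, 28], true, true, true, true),
    ([0, 3, 5, 7, 9, 11, 12, 14, 22, 26, 28], true, true, true, true),
    ([0, 3, 7, 9, 11, 12, 14, 22, 26, 28], true, true, true, true)],
   [([3, 5, 9, 10, 11, 12, 14, 16, 20, 26, 27, 28], true, true, false, false),
    ([3, 5, 9, 10, 11, 12, 14, 20, 26, 27, 28], true, true, false, false),
    ([0, 3, 5, 9, 10, 11, 12, 14, 20, 26, 27, 28], true, true, false, false),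
    ([0, 3, 5, 9, 11, 12, 14, 20, 26, 27, 28], true, true, true, false),
    ([0, 3, 5, 9, 11, 12, 14, 20, 26, 27, 28], true, true, true, true),
    ([0, 3, 5, 9, 11, 12, 14, 20, 26, 27], true, true, true, true),
    ([0, 3, 5, 9, 11, 12, 14, 20, 23, 26, 27], true, true, true, true),
    ([0, 3, 5, 9, 11, 12, 14, 23, 26, 27], true, true, true, true),
    ([0, 3, 5, 8, 9, 11, 12, 14, 23, 26, 27], true, true, true, true),
    ([0, 3, 8, 9, 11, 12, 14, 23, 26, 27], true, true, true, true)]]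

def mz : Fin 3 → List St :=
  ![[([0, 1, 3, 6, 9, 11, 12, 14, 21, 27, 28], true, true, true, true),
    ([0, 1, 3, 6, 9, 12, 14, 21, 27, 28], true, true, true, true),
    ([0, 1, 2, 3, 6, 9, 12, 14, 21, 27, 28], true, true, true, true),
    ([0, 1, 2, 3, 6, 9, 14, 21, 27, 28], true, true, true, true),
    ([0, 1, 2, 3, 4, 6, 9, 14, 17, 21, 25, 27, 28], true, true, true, true),
    ([0, 1, 2, 3, 4, 6, 9, 17, 25, 27, 28], true, true, true, true),
    ([0, 1, 2, 3, 4, 6, 9, 17, 19, 25, 26, 27, 28], true, true, true, true),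
    ([0, 1, 2, 3, 4, 6, 9, 17, 19, 25, 26, 27, 28], false, false, true, false),
    ([0, 1, 2, 3, 4, 6, 9, 17, 19, 25, 26, 27, 28], false, false, false, false)],
   [([0, 1, 3, 7, 9, 11, 12, 14, 22, 26, 28], true, true, true, true),
    ([0, 1, 3, 7, 9, 12, 14, 22, 26, 28], true, true, true, true),
    ([0, 1, 2, 3, 7, 9, 12, 14, 22, 26, 28], true, true, true, true),
    ([0, 1, 2, 3, 7, 9, 14, 22, 26, 28], true, true, true, true),
    ([0, 1, 2, 3, 4, 7, 9, 14, 17, 22, 25, 26, 28], true, true, true, true),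
    ([0, 1, 2, 3, 4, 7, 9, 17, 25, 26, 28], true, true, true, true),
    ([0, 1, 2, 3, 4, 7, 9, 17, 19, 25, 26, 27, 28], true, true, true, true),
    ([0, 1, 2, 3, 4, 7, 9, 17, 19, 25, 26, 27, 28], false, false, true, false),
    ([0, 1, 2, 3, 4, 7, 9, 17, 19, 25, 26, 27, 28], false, false, false, false)],
   [([0, 1, 3, 8, 9, 11, 12, 14, 23, 26, 27], true, true, true, true),
    ([0, 1, 3, 8, 9, 12, 14, 23, 26, 27], true, true, true, true),
    ([0, 1, 2, 3, 8, 9, 12, 14, 23, 26, 27], true, true, true, true),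
    ([0, 1, 2, 3, 8, 9, 14, 23, 26, 27], true, true, true, true),
    ([0, 1, 2, 3, 4, 8, 9, 14, 17, 23, 25, 26, 27], true, true, true, true),
    ([0, 1, 2, 3, 4, 8, 9, 17, 25, 26, 27], true, true, true, true),
    ([0, 1, 2, 3, 4, 8, 9, 17, 19, 25, 26, 27, 28], true, true, true, true),
    ([0, 1, 2, 3, 4, 8, 9, 17, 19, 25, 26, 27, 28], false, false, true, false),
    ([0, 1, 2, 3, 4, 8, 9, 17, 19, 25, 26, 27, 28], false, false, false, false)]]

def hqz0 : List St :=
   [([1, 5, 9, 10, 12, 13, 14, 16, 20, 26, 27, 28], true, true, false, false),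
    ([1, 5, 9, 10, 12, 13, 14, 20, 26, 27, 28], true, true, false, false),
    ([0, 1, 3, 5, 9, 10, 12, 13, 14, 20, 26, 27, 28], true, true, false, false),
    ([0, 1, 3, 5, 9, 12, 14, 20, 26, 27, 28], true, true, false, false),
    ([0, 1, 2, 3, 5, 9, 12, 14, 20, 26, 27, 28], true, true, false, false),
    ([0, 1, 2, 3, 5, 9, 14, 20, 26, 27, 28], true, true, false, false),
    ([0, 1, 2, 3, 4, 5, 9, 14, 17, 20, 25, 26, 27, 28], true, true, false, false),
    ([0, 1, 2, 3, 4, 5, 9, 17, 25, 26, 27, 28], false, true, false, false),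
    ([0, 1, 2, 3, 4, 5, 6, 9, 17, 19, 25, 26, 27, 28], false, true, false, false),
    ([0, 1, 2, 3, 4, 6, 9, 17, 19, 25, 26, 27, 28], false, false, false, false)]

def hqmq : List St :=
   [([1, 3, 5, 9, 10, 12, 13, 14, 16, 20, 24, 26, 27, 28], false, true, false, false),
    ([1, 3, 5, 9, 10, 12, 14, 16, 24, 26, 27, 28], false, true, false, false),
    ([1, 3, 5, 6, 9, 10, 12, 14, 16, 24, 26, 27, 28], false, true, false, false),
    ([1, 3, 6, 9, 10, 12, 14, 16, 24, 26, 27, 28], false, true, false, false)]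

def hvmq : List St :=
   [([1, 3, 5, 9, 10, 11, 12, 14, 16, 20, 26, 27, 28], false, true, false, false),
    ([1, 3, 5, 9, 10, 12, 14, 16, 20, 26, 27, 28], false, true, false, false),
    ([1, 3, 5, 9, 10, 12, 14, 16, 20, 24, 26, 27, 28], false, true, false, false),
    ([1, 3, 5, 9, 10, 12, 14, 16, 24, 26, 27, 28], false, true, false, false),
    ([1, 3, 5, 6, 9, 10, 12, 14, 16, 24, 26, 27, 28], false, true, false, false),
    ([1, 3, 6, 9, 10, 12, 14, 16, 24, 26, 27, 28], false, true, false, false)]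

def mqz0 : List St :=
   [([1, 3, 6, 9, 10, 12, 14, 16, 24, 26, 27, 28], true, true, false, false),
    ([1, 3, 6, 9, 10, 12, 14, 24, 26, 27, 28], true, true, false, false),
    ([0, 1, 3, 6, 9, 10, 12, 14, 24, 26, 27, 28], true, true, false, false),
    ([0, 1, 3, 6, 9, 12, 14, 24, 26, 27, 28], true, true, false, false),
    ([0, 1, 2, 3, 6, 9, 12, 14, 24, 26, 27, 28], true, true, false, false),
    ([0, 1, 2, 3, 6, 9, 14, 24, 26, 27, 28], true, true, false, false),
    ([0, 1, 2, 3, 4, 6, 9, 14, 17, 24, 25, 26, 27, 28], true, true, false, false),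
    ([0, 1, 2, 3, 4, 6, 9, 17, 25, 26, 27, 28], false, true, false, false),
    ([0, 1, 2, 3, 4, 6, 9, 17, 19, 25, 26, 27, 28], false, true, false, false),
    ([0, 1, 2, 3, 4, 6, 9, 17, 19, 25, 26, 27, 28], false, false, false, false)]

def hpsq : List St :=
   [([0, 5, 9, 10, 11, 12, 13, 14, 18, 20, 26, 27, 28], true, true, false, false),
    ([0, 5, 9, 10, 11, 12, 13, 14, 20, 26, 27, 28], true, true, true, false),
    ([0, 5, 9, 10, 11, 12, 13, 14, 15, 20, 26, 27, 28], true, true, true, true),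
    ([0, 5, 10, 11, 12, 13, 14, 15, 20, 26, 27, 28], true, true, true, true)]

def hqsq : List St :=
   [([1, 5, 9, 10, 11, 12, 13, 14, 16, 20, 26, 27, 28], true, true, false, false),
    ([1, 5, 9, 10, 11, 12, 13, 14, 20, 26, 27, 28], true, true, true, false),
    ([1, 5, 9, 10, 11, 12, 13, 14, 15, 20, 26, 27, 28], true, true, true, true),
    ([1, 5, 10, 11, 12, 13, 14, 15, 20, 26, 27, 28], true, true, true, true)]

theorem checks : (∀ j, chk 0 false 0 sHP (hpz j) = true ∧ (hpz j).getLastD sHP = sZ j) ∧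
    (∀ j, chk 1 false 0 sHV (hvz j) = true ∧ (hvz j).getLastD sHV = sZ j) ∧
    (∀ j : Fin 3, chk 0 true j sHP (hpm j) = true ∧ (hpm j).getLastD sHP = sM j) ∧
    (∀ j : Fin 3, chk 1 true j sHV (hvm j) = true ∧ (hvm j).getLastD sHV = sM j) ∧
    (∀ j : Fin 3, chk 2 true j (sM j) (mz j) = true ∧ (mz j).getLastD (sM j) = sZ j) ∧
    (chk 0 false 0 sHQ hqz0 = true ∧ hqz0.getLastD sHQ = sZ 0) ∧
    (chk 0 false 0 sHQ hqmq = true ∧ hqmq.getLastD sHQ = sMQ) ∧
    (chk 1 false 0 sHV hvmq = true ∧ hvmq.getLastD sHV = sMQ) ∧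
    (chk 2 false 0 sMQ mqz0 = true ∧ mqz0.getLastD sMQ = sZ 0) ∧
    (chk 0 true 3 sHP hpsq = true ∧ hpsq.getLastD sHP = sQ [0]) ∧
    (chk 0 true 3 sHQ hqsq = true ∧ hqsq.getLastD sHQ = sQ [1]) := by
  refine ⟨?_, ?_, ?_, ?_, ?_, ?_, ?_, ?_, ?_, ?_, ?_⟩ <;> decide +kernel

theorem oks : ok false 0 sHP = true ∧ ok false 0 sHQ = true ∧ ok false 0 sHV = true ∧
    ok false 0 sMQ = true ∧ (∀ j, ok false 0 (sZ j) = true) ∧ (∀ j : Fin 3, ok true j (sM j) = true) ∧
    ok true 3 (sQ [0]) = true ∧ ok true 3 (sQ [1]) = true ∧ ok true 3 (sQ []) = true ∧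
    ok true 3 (sQ [0, 1]) = true := by decide +kernel

theorem F0_sq (h0s : H0St) (M E : ℚ) (l : List ℕ) (hl : ∀ k ∈ l, k < 2)
    (hX : XZ I (pt I v g (sQ l))) :
    fZ M E I (Sum.elim (fun _ => false) (pt I v g (sQ l))) =
      - (E ^ 21 * ((bv (decide (0 ∈ l)) + (bv (decide (1 ∈ l)) +
        ((vars0 I).map fun w => bv (zeta I v g (sQ []) w)).sum)) *
        ((vars0 I).map fun w => bv (zeta I v g (sQ []) w)).sum)) := by
  have e0 : ∀ b, h0 M (fun _ => false) b = 0 := fun b => by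
    have := (h0s M b).1
    rwa [show ind ∅ = fun _ => false from funext fun i => by simp [ind]] at this
  have e1 : ((vars0 I).map fun w => bv ((pt I v g (sQ l) ∘ emb I) w))
      = (vars0 I).map fun w => bv (zeta I v g (sQ []) w) := List.map_congr_left fun w hw => by
    rw [comp_apply, pt_emb (List.mem_cons_of_mem _ (List.mem_cons_of_mem _ hw))]
    rcases w with k | ⟨u, e⟩ | ⟨i, k⟩
    · have : 2 ≤ k := by simpa [vars0, ctl, xb, rl] using And.left (by
        simpa [vars0, ctl, xb, rl] using hw : 2 ≤ k ∧ k < 29)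
      have : k ∉ l := fun c => by have := hl k c; omega
      simp [zeta, sQ, this]
    · rfl
    · rfl
  have e2 : pen (cs0 I) (pt I v g (sQ l) ∘ emb I) = 0 :=
    pen_of_inX fun c hc => hX c (List.mem_append_right _ hc)
  have e3 : ∀ k < 29, (pt I v g (sQ l) ∘ emb I) (ctl k) = decide (k ∈ (sQ l).1) :=
    fun k hk => pt_emb (ctl_mem hk)
  have e4 : (9 : ℕ) ∉ l := fun c => by have := hl 9 c; omega
  change FW M E I (fun _ => false) (pt I v g (sQ l) ∘ emb I) = _
  rw [FW, e0, e2, vars, List.map_cons, List.map_cons, List.sum_cons, List.sum_cons, e1,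
    e3 0 (by omega), e3 1 (by omega), e3 9 (by omega)]
  simp [sQ, sU, sV, e4]

theorem mu_facts : muU (bS sHP.1) = 1 ∧ muU (bS sHQ.1) = 1 ∧ muV (bS sHV.1) = 1 ∧
    muU (bS (sZ 0).1) = 3 ∧ (∀ j, muU (bS (sM j).1) = 1 ∧ muV (bS (sM j).1) = 1 ∧
      bS (sM j).1 5 = false) ∧
    (muU (bS sMQ.1) = 1 ∧ muV (bS sMQ.1) = 1 ∧ bS sMQ.1 5 = false) ∧ muU (bS (sQ []).1) = 0 := by
  decide +kernel

end Pth

open Pth

theorem pathsSt (h0s : H0St) : PathsSt := by
  intro M E I wf
  obtain ⟨c1, c2, c3, c4, c5, c6, c7, c8, c9, c10, c11⟩ := checks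
  obtain ⟨o1, o2, o3, o4, o5, o6, o7, o8, o9, o10⟩ := oks
  obtain ⟨m1, m2, m3, m4, m5, m6, m7⟩ := mu_facts
  let e1 : (Fin I.1 → Bool) → ℕ → Bool := fun n u => if h : u < I.1 then n ⟨u, h⟩ else false
  let e2 : (Fin I.1 → Bool) → ℕ → Bool := fun n u => e1 n (u - I.1)
  have X0 : ∀ {v s}, ok false 0 s = true → XZ I (pt I v 0 s) := fun h => pt_X wf h (by simp)
  have P0 : ∀ {kd s l s'} (v), chk kd false 0 s l = true ∧ l.getLastD s = s' →
      Rl (XZ I) (bitZ I) (KK kd) (pt I v 0 s) (pt I v 0 s') :=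
    fun v h => h.2 ▸ pt_path wf (by simp) _ _ h.1
  have P1 : ∀ {kd g s l s' v}, (∀ c ∈ I.2.2, c.1 = g → ∃ l ∈ c.2, v l.1 = l.2) →
      chk kd true g s l = true ∧ l.getLastD s = s' →
      Rl (XZ I) (bitZ I) (KK kd) (pt I v g s) (pt I v g s') :=
    fun hs h => h.2 ▸ pt_path wf (fun _ => hs) _ _ h.1
  have zz : ∀ j v g, pt I v g (sZ j) = pt I (fun _ => false) 0 (sZ j) := fun j v g =>
    pt_congr (by fin_cases j <;> simp [sZ]) (by fin_cases j <;> simp [sZ])
      (by fin_cases j <;> rfl) (by fin_cases j <;> rfl)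
  have q1 : ∀ {a v} g, (∀ i : Fin I.1, v i = a i) → pt I (e1 a) 0 sHP = pt I v g sHP :=
    fun g h => pt_congr (fun _ u hu => by simp only [e1, dif_pos hu]; exact (h ⟨u, hu⟩).symm)
      (by simp [sHP]) rfl rfl
  have q2 : ∀ {b v} g s, s.2.1 = false → s.2.2.2.1 = false → s.2.2.2.2 = false →
      (∀ i : Fin I.1, v (I.1 + i) = b i) → pt I (e2 b) 0 s = pt I v g s :=
    fun g s s1 s2 s3 h => pt_congr (by simp [s1]) (fun _ u h1 h2 => by
      have hu : u - I.1 < I.1 := by omega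
      simp only [e1, e2, dif_pos hu]
      rw [← h ⟨_, hu⟩]
      congr 1
      simp only
      omega) s2 s3
  have tr : ∀ {K : Bt → Bt → Prop} {x x' y y'}, x = x' → y = y' → Rl (XZ I) (bitZ I) K x' y →
      Rl (XZ I) (bitZ I) K x y' := fun h1 h2 h => h1 ▸ h2 ▸ h
  refine ⟨fun n => pt I (e1 n) 0 sHP, fun n => pt I (e2 n) 0 sHQ, fun n => pt I (e2 n) 0 sHV,
    fun j => pt I (fun _ => false) 0 (sZ j), fun n => ⟨X0 o1, by rw [pt_bit, m1]⟩,
    fun n => ⟨X0 o2, by rw [pt_bit, m2]⟩, fun n => ⟨X0 o3, by rw [pt_bit, m3]⟩,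
    fun j => X0 (o5 j), by rw [pt_bit, m4], fun n j => tr rfl (zz j _ _) (P0 _ (c1 j)),
    fun n => tr rfl (zz 0 _ _) (P0 _ c6), fun n j => tr rfl (zz j _ _) (P0 _ (c2 j)), ?_,
    fun n => ?_, ?_⟩
  · rintro j a b ⟨v, h1, h2, h3⟩
    refine ⟨pt I v j (sM j), pt_X wf (o6 j) fun _ => h3, by rw [pt_bit, (m5 j).1],
      by rw [pt_bit, (m5 j).2.1], (congrFun pt_bit 5).trans (m5 j).2.2, ?_, ?_, ?_⟩
    · exact tr (q1 j h1) rfl (P1 h3 (c3 j))
    · exact tr (q2 j sHV rfl rfl rfl h2) rfl (P1 h3 (c4 j))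
    · exact tr rfl (zz j _ _) (P1 h3 (c5 j))
  · exact ⟨pt I (e2 n) 0 sMQ, X0 o4, by rw [pt_bit, m6.1], by rw [pt_bit, m6.2.1],
      (congrFun pt_bit 5).trans m6.2.2, P0 _ c7, P0 _ c8, tr rfl (zz 0 _ _) (P0 _ c9)⟩
  · rintro a b ⟨v, h1, h2, h3⟩
    have i1 : pt I v 3 (sQ [0]) ⊓ pt I v 3 (sQ [1]) = pt I v 3 (sQ []) := by
      funext w
      obtain ⟨k | ⟨u, e⟩ | ⟨i, k⟩, -⟩ := w
      · change (decide (k ∈ (sQ [0]).1) && decide (k ∈ (sQ [1]).1)) = decide (k ∈ (sQ []).1)
        rw [← Bool.decide_and, decide_eq_decide]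
        simp only [sQ, List.cons_append, List.nil_append, List.mem_cons, List.not_mem_nil, or_false]
        omega
      · exact inf_idem _
      · exact inf_idem _
    have i2 : pt I v 3 (sQ [0]) ⊔ pt I v 3 (sQ [1]) = pt I v 3 (sQ [0, 1]) := by
      funext w
      obtain ⟨k | ⟨u, e⟩ | ⟨i, k⟩, -⟩ := w
      · change (decide (k ∈ (sQ [0]).1) || decide (k ∈ (sQ [1]).1)) = decide (k ∈ (sQ [0, 1]).1)
        rw [← Bool.decide_or, decide_eq_decide]
        simp only [sQ, List.cons_append, List.nil_append, List.mem_cons, List.not_mem_nil, or_false]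
        omega
      · exact sup_idem _
      · exact sup_idem _
    have x1 := pt_X (v := v) wf o7 fun _ => h3
    have x2 := pt_X (v := v) wf o8 fun _ => h3
    have x3 := pt_X (v := v) wf o9 fun _ => h3
    have x4 := pt_X (v := v) wf o10 fun _ => h3
    refine ⟨_, _, x1, x2, i1 ▸ x3, i2 ▸ x4, by rw [i1, pt_bit, m7], ?_,
      tr (q1 3 h1) rfl (P1 h3 c10), tr (q2 3 sHQ rfl rfl rfl h2) rfl (P1 h3 c11)⟩
    beta_reduce
    rw [i1, i2, F0_sq h0s M E _ (by simp) x1, F0_sq h0s M E _ (by simp) x2,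
      F0_sq h0s M E _ (by simp) x3, F0_sq h0s M E _ (by simp) x4]
    simp
    ring

end Pool.Agent.Lib.MP_cb9cb0_lc.X
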