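import Pool.Agent.Lib.MP_cb9cb0_lc.X.Main

/-!
The paths of the concrete system.
-/

set_option autoImplicit false

namespace Pool.Agent.Lib.MP_cb9cb0_lc.X

open Function Pool.Agent.Lib.Complexity

namespace Pth

/-- control variables which are on; first bus, second bus, witness, rails loaded -/
abbrev St := List ℕ × Bool × Bool × Bool × Bool

def zeta (I : Inst) (v : ℕ → Bool) (g : ℕ) (s : St) : W → Bool
  | Sum.inl k => decide (k ∈ s.1)
  | Sum.inr (Sum.inl (u, b)) => if u < I.1 then s.2.1 && (v u == b)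
      else if u < 2 * I.1 then s.2.2.1 && (v u == b) else (!s.2.2.2.1 || (v u == b))
  | Sum.inr (Sum.inr (i, k)) => s.2.2.2.2 && (I.2.2[i]?).any fun c =>
      decide (c.1 = g) && decide (k = c.2.findIdx fun l => v l.1 == l.2)

def pt (I : Inst) (v : ℕ → Bool) (g : ℕ) (s : St) : ZI I → Bool := fun w => zeta I v g s w.1

def spec0 : Cs ℕ := [(0, [0, 10]), (1, [16, 0]), (0, [1, 11]), (1, [18, 1])]

instance {α : Type} (c : Cs α) (z : α → Bool) : Decidable (InX c z) := by
  unfold InX; infer_instance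

def lock (f a b : Bool) : Bool := (f || a || b) && !(f && a && b)

def ok (sat : Bool) (g : ℕ) (s : St) : Bool :=
  decide (InX (spec0 ++ ctl0) fun k => decide (k ∈ s.1)) &&
  lock s.2.1 (decide (16 ∈ s.1)) (decide (17 ∈ s.1)) &&
  lock s.2.2.1 (decide (18 ∈ s.1)) (decide (19 ∈ s.1)) &&
  decide (∀ t : ℕ, t < 4 → X.guard t ∈ s.1 ∨ (s.2.2.2.2 = true ∧ t = g)) &&
  (!s.2.2.2.2 || (sat && s.2.2.2.1))

def le (s s' : St) : Bool :=
  decide (∀ k ∈ s.1, k ∈ s'.1) && (!s.2.1 || s'.2.1) && (!s.2.2.1 || s'.2.2.1) &&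
    (!s'.2.2.2.1 || s.2.2.2.1) && (!s.2.2.2.2 || s'.2.2.2.2)

def bS (S : List ℕ) : Bt := fun k => decide (k.val ∈ S)

def same (S S' : List ℕ) (k : ℕ) : Bool := decide (k ∈ S) == decide (k ∈ S')

def chkK (kd : ℕ) (S S' : List ℕ) : Bool :=
  (kd == 1 || (same S S' 0 && same S S' 1 && same S S' 2)) &&
  (kd == 0 || (same S S' 3 && same S S' 4)) &&
  (kd == 0 || kd == 1 || (decide (5 ∉ S) && decide (5 ∉ S')))

def KK (kd : ℕ) : Bt → Bt → Prop := if kd = 0 then KU else if kd = 1 then KV else KM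

def chk (kd : ℕ) (sat : Bool) (g : ℕ) : St → List St → Bool
  | _, [] => true
  | s, s' :: l => ok sat g s && ok sat g s' && (le s s' || (le s' s && chkK kd s.1 s'.1)) &&
      chk kd sat g s' l

theorem chkK_spec {kd : ℕ} {S S' : List ℕ} (h : chkK kd S S' = true) : KK kd (bS S) (bS S') := by
  simp only [chkK, same, Bool.and_eq_true, Bool.or_eq_true, beq_iff_eq, decide_eq_true_eq] at h
  obtain ⟨⟨h1, h2⟩, h3⟩ := h
  have a : kd ≠ 1 → muU (bS S) = muU (bS S') := fun c => by
    obtain ⟨⟨e0, e1⟩, e2⟩ := h1.resolve_left c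
    exact congrArg₂ _ (congrArg₂ _ (congrArg bv e0) (congrArg bv e1)) (congrArg bv e2)
  have b : kd ≠ 0 → muV (bS S) = muV (bS S') := fun c => by
    obtain ⟨e0, e1⟩ := h2.resolve_left c
    exact congrArg₂ _ (congrArg bv e0) (congrArg _ (congrArg bv e1))
  unfold KK
  split_ifs with c c'
  · exact a (by omega)
  · exact b c
  · obtain ⟨e0, e1⟩ := h3.resolve_left (by omega)
    exact ⟨a c', b c, decide_eq_false e0, decide_eq_false e1⟩

variable {I : Inst} {v v' : ℕ → Bool} {g g' : ℕ} {s s' : St}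

theorem emb_val {w : W} (h : w ∈ vars I) : (emb I w).1 = w := by rw [emb, dif_pos h]

theorem ctl_mem {k : ℕ} (h : k < 29) : ctl k ∈ vars I := by
  simp only [vars, vars0, List.mem_cons, List.mem_append, List.mem_map, List.mem_range'_1, ctl,
    Sum.inl.injEq, exists_eq_right]
  omega

theorem xb_mem {u : ℕ} (h : u < I.2.1) (b : Bool) : xb u b ∈ vars I := by
  cases b <;> simp [vars, vars0, xb, ctl, rl, h]

theorem rl_mem {i k : ℕ} (h : i < I.2.2.length) (hk : k < 3) : rl i k ∈ vars I := by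
  interval_cases k <;> simp [vars, vars0, xb, ctl, rl, h]

theorem pt_emb {w : W} (h : w ∈ vars I) : pt I v g s (emb I w) = zeta I v g s w := by
  rw [pt, emb_val h]

theorem pt_bit : pt I v g s ∘ bitZ I = bS s.1 :=
  funext fun k => pt_emb (ctl_mem (by omega))

theorem pt_le (h : le s s' = true) : pt I v g s ≤ pt I v g s' := by
  obtain ⟨S, a, b, c, d⟩ := s
  obtain ⟨S', a', b', c', d'⟩ := s'
  simp only [le, Bool.and_eq_true, decide_eq_true_eq] at h
  obtain ⟨⟨⟨⟨h0, h1⟩, h2⟩, h3⟩, h4⟩ := h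
  have k1 : ∀ x y t : Bool, (!x || y) = true → (x && t) ≤ (y && t) := by decide
  have k2 : ∀ x y t : Bool, (!y || x) = true → (!x || t) ≤ (!y || t) := by decide
  rintro ⟨k | ⟨u, e⟩ | ⟨i, k⟩, -⟩ <;> simp only [pt, zeta]
  · exact Bool.le_iff_imp.2 fun h => decide_eq_true (h0 k (of_decide_eq_true h))
  · split_ifs
    exacts [k1 _ _ _ h1, k1 _ _ _ h2, k2 _ _ _ h3]
  · exact k1 _ _ _ h4

theorem pt_congr (h1 : s.2.1 = true → ∀ u < I.1, v u = v' u)
    (h2 : s.2.2.1 = true → ∀ u, I.1 ≤ u → u < 2 * I.1 → v u = v' u) (h3 : s.2.2.2.1 = false)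
    (h4 : s.2.2.2.2 = false) : pt I v g s = pt I v' g' s := by
  funext w
  obtain ⟨k | ⟨u, e⟩ | ⟨i, k⟩, -⟩ := w <;> simp only [pt, zeta, h3, h4]
  · split_ifs with c c'
    · cases h : s.2.1
      · rfl
      · rw [h1 h u c]
    · cases h : s.2.2.1
      · rfl
      · rw [h2 h u (not_lt.1 c) c']
    · rfl
  · rfl

theorem pt_X (wf : WF I) {sat : Bool} (h : ok sat g s = true)
    (hs : sat = true → ∀ c ∈ I.2.2, c.1 = g → ∃ l ∈ c.2, v l.1 = l.2) : XZ I (pt I v g s) := by
  obtain ⟨S, a, b, fw, fr⟩ := s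
  simp only [ok, Bool.and_eq_true, decide_eq_true_eq] at h
  obtain ⟨⟨⟨⟨h0, h1⟩, h2⟩, h3⟩, h4⟩ := h
  have c0 : ∀ k < 29, pt I v g (S, a, b, fw, fr) (emb I (ctl k)) = decide (k ∈ S) :=
    fun k hk => pt_emb (ctl_mem hk)
  have base : ∀ c ∈ spec0 ++ ctl0, sig (c.1, c.2.map ctl) (pt I v g (S, a, b, fw, fr) ∘ emb I)
      = sig c fun k => decide (k ∈ S) := fun c hc => by
    have : ∀ c ∈ spec0 ++ ctl0, ∀ k ∈ c.2, k < 29 := by decide
    simp only [sig, List.map_map]
    congr 2
    exact List.map_congr_left fun k hk => by simp only [comp_apply, c0 k (this c hc k hk)]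
  intro c hc
  simp only [cs, cs0, List.mem_append, List.mem_map, List.mem_flatMap, List.mem_range] at hc
  rcases hc with hc | ⟨c, hc, rfl⟩ | ⟨u, hu, hc⟩ | ⟨⟨c', i⟩, hi, hc⟩
  · obtain ⟨c, hc', rfl⟩ := List.mem_map.1
      (show c ∈ spec0.map fun c => (c.1, c.2.map ctl) from hc)
    rw [base c (List.mem_append_left _ hc')]
    exact h0 c (List.mem_append_left _ hc')
  · rw [base c (List.mem_append_right _ hc)]
    exact h0 c (List.mem_append_right _ hc)
  · have x0 : ∀ e, pt I v g (S, a, b, fw, fr) (emb I (xb u e)) = if u < I.1 then a && (v u == e)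
        else if u < 2 * I.1 then b && (v u == e) else (!fw || (v u == e)) :=
      fun e => pt_emb (xb_mem hu e)
    have k1 : ∀ f t x y : Bool, lock f x y = true → ((((1 : ℕ) : ℤ) + (((f && (t == true)).toNat : ℤ)
        + (((f && (t == false)).toNat : ℤ) + 0)) = 1) ∨ ((1 : ℕ) : ℤ) + (((f && (t == true)).toNat : ℤ)
        + (((f && (t == false)).toNat : ℤ) + 0)) = 2) ∧
        ((((0 : ℕ) : ℤ) + (((f && (t == true)).toNat : ℤ) + (((f && (t == false)).toNat : ℤ)
        + ((x.toNat : ℤ) + ((y.toNat : ℤ) + 0)))) = 1) ∨ ((0 : ℕ) : ℤ) + (((f && (t == true)).toNat : ℤ)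
        + (((f && (t == false)).toNat : ℤ) + ((x.toNat : ℤ) + ((y.toNat : ℤ) + 0)))) = 2) := by
      decide
    unfold busC at hc
    split_ifs at hc with c1 c2 <;>
      simp only [List.mem_cons, List.not_mem_nil, or_false] at hc
    · rcases hc with rfl | rfl <;>
        simp only [sig, List.map_cons, List.map_nil, List.sum_cons, List.sum_nil, comp_apply, x0,
          c0 16 (by omega), c0 17 (by omega), if_pos c1]
      exacts [(k1 _ _ _ _ h1).1, (k1 _ _ _ _ h1).2]
    · rcases hc with rfl | rfl <;>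
        simp only [sig, List.map_cons, List.map_nil, List.sum_cons, List.sum_nil, comp_apply, x0,
          c0 18 (by omega), c0 19 (by omega), if_neg c1, if_pos c2]
      exacts [(k1 _ _ _ _ h2).1, (k1 _ _ _ _ h2).2]
    · subst hc
      simp only [sig, List.map_cons, List.map_nil, List.sum_cons, List.sum_nil, comp_apply, x0,
        if_neg c1, if_neg c2]
      generalize v u = t
      clear * -
      revert fw t
      decide
  · rw [List.mem_zipIdx_iff_getElem?] at hi
    simp only at hi hc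
    have hm : c' ∈ I.2.2 := List.mem_of_getElem? hi
    have hl : i < I.2.2.length := (List.getElem?_eq_some_iff.1 hi).1
    obtain ⟨w1, w2, w3⟩ := wf.2 c' hm
    have r0 : ∀ k < 3, pt I v g (S, a, b, fw, fr) (emb I (rl i k)) =
        (fr && (decide (c'.1 = g) && decide (k = c'.2.findIdx fun l => v l.1 == l.2))) :=
      fun k hk => (pt_emb (rl_mem hl hk)).trans (by simp [rl, zeta, hi])
    have onn : fr = true → c'.1 = g → fw = true ∧ (c'.2.findIdx fun l => v l.1 == l.2) < 3 :=
      fun e1 e2 => by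
        simp only [e1, Bool.not_true, Bool.false_or, Bool.and_eq_true] at h4
        obtain ⟨l, l1, l2⟩ := hs h4.1 c' hm e2
        exact ⟨h4.2, w2 ▸ List.findIdx_lt_length_of_exists ⟨l, l1, by simpa using l2⟩⟩
    simp only [clC, List.mem_cons, List.mem_map, List.mem_range] at hc
    rcases hc with rfl | ⟨k, hk, rfl⟩
    · simp only [sig, List.map_cons, List.map_nil, List.sum_cons, List.sum_nil, comp_apply,
        c0 (X.guard c'.1) (by unfold X.guard; split_ifs <;> omega), r0 0 (by omega), r0 1 (by omega),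
        r0 2 (by omega)]
      by_cases e : fr = true ∧ c'.1 = g
      · have := (onn e.1 e.2).2
        generalize c'.2.findIdx _ = n at this
        simp only [e.1, e.2, decide_true, Bool.true_and]
        interval_cases n <;> cases decide (X.guard g ∈ S) <;> decide
      · have e' : ∀ t : Bool, (fr && (decide (c'.1 = g) && t)) = false := fun t => by
          by_contra c
          simp only [Bool.not_eq_false, Bool.and_eq_true, decide_eq_true_eq] at c
          exact e ⟨c.1, c.2.1⟩
        simp [e', (h3 _ w1).resolve_right e]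
    · have hk' : k < c'.2.length := by omega
      have e0 : c'.2.getD k (0, false) = c'.2[k] := by simp [hk']
      simp only [sig, List.map_cons, List.map_nil, List.sum_cons, List.sum_nil, comp_apply, r0 k hk,
        e0, pt_emb (xb_mem (w3 _ (List.getElem_mem hk')) _)]
      cases e : (fr && (decide (c'.1 = g) && decide (k = c'.2.findIdx fun l => v l.1 == l.2)))
      · cases zeta I v g (S, a, b, fw, fr) (xb c'.2[k].1 !c'.2[k].2) <;> decide
      · simp only [Bool.and_eq_true, decide_eq_true_eq] at e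
        obtain ⟨e1, e2, e3⟩ := e
        have e4 : v c'.2[k].1 = c'.2[k].2 := by
          subst e3
          simpa using List.findIdx_getElem (w := hk')
        have : zeta I v g (S, a, b, fw, fr) (xb c'.2[k].1 !c'.2[k].2) = false := by
          simp [xb, zeta, e4, (onn e1 e2).1]
        rw [this]
        decide

theorem pt_path (wf : WF I) {kd : ℕ} {sat : Bool}
    (hs : sat = true → ∀ c ∈ I.2.2, c.1 = g → ∃ l ∈ c.2, v l.1 = l.2) (l : List St) :
    ∀ s, chk kd sat g s l = true →
      Rl (XZ I) (bitZ I) (KK kd) (pt I v g s) (pt I v g (l.getLastD s)) := by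
  induction l with
  | nil => exact fun _ _ => Relation.ReflTransGen.refl
  | cons s' l ih =>
    intro s h
    simp only [chk, Bool.and_eq_true, Bool.or_eq_true] at h
    obtain ⟨⟨⟨h1, h2⟩, h3⟩, h4⟩ := h
    rw [List.getLastD_cons]
    refine Relation.ReflTransGen.head ⟨pt_X wf h1 hs, pt_X wf h2 hs, h3.imp pt_le fun h =>
      ⟨pt_le h.1, ?_⟩⟩ (ih s' h4)
    rw [pt_bit, pt_bit]
    exact chkK_spec h.2

end Pth

end Pool.Agent.Lib.MP_cb9cb0_lc.X
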