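import Pool.Agent.Lib.MP_cb9cb0_lc.X.Basic

/-!
Optimal sets of a network and their transport between contexts.
-/

set_option autoImplicit false
set_option linter.unusedSectionVars false

namespace Pool.Agent.Lib.MP_cb9cb0_lc.X.Snd

open Finset Function

section quad
variable {W : Type} [Fintype W] [DecidableEq W]

def io (A : Finset W) (u : W) : ℚ := if u ∈ A then 1 else 0

/-- a quadratic set function -/
def kap (e : W → W → ℚ) (w : W → ℚ) (A : Finset W) : ℚ :=
  ∑ u, w u * io A u - ∑ p : W × W, e p.1 p.2 * (io A p.1 * io A p.2)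

/-- no edge between the two differences -/
def NoE (e : W → W → ℚ) (A B : Finset W) : Prop :=
  ∀ u ∈ A, u ∉ B → ∀ v ∈ B, v ∉ A → e u v = 0 ∧ e v u = 0

variable {e : W → W → ℚ} {w w' : W → ℚ} {A B : Finset W}

theorem kap_empty : kap e w ∅ = 0 := by simp [kap, io]

theorem kap_congr (h : ∀ y ∈ A, w y = w' y) : kap e w A = kap e w' A := by
  unfold kap
  congr 1
  refine sum_congr rfl fun u _ => ?_
  unfold io
  split_ifs with hu
  · rw [h u hu]
  · simp

theorem kap_id (A B : Finset W) : kap e w A + kap e w B - kap e w (A ∩ B) - kap e w (A ∪ B) =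
    ∑ p : W × W, e p.1 p.2 * (io (A \ B) p.1 * io (B \ A) p.2 + io (B \ A) p.1 * io (A \ B) p.2) := by
  have h1 : ∑ u, w u * io A u + ∑ u, w u * io B u =
      ∑ u, w u * io (A ∩ B) u + ∑ u, w u * io (A ∪ B) u := by
    simp only [← sum_add_distrib]
    refine sum_congr rfl fun u _ => ?_
    by_cases a : u ∈ A <;> by_cases b : u ∈ B <;> simp [io, a, b]
  have h2 : ∑ p : W × W, e p.1 p.2 * (io (A ∩ B) p.1 * io (A ∩ B) p.2) +
      ∑ p : W × W, e p.1 p.2 * (io (A ∪ B) p.1 * io (A ∪ B) p.2) =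
      ∑ p : W × W, e p.1 p.2 * (io A p.1 * io A p.2) + ∑ p : W × W, e p.1 p.2 * (io B p.1 * io B p.2)
      + ∑ p : W × W, e p.1 p.2 *
        (io (A \ B) p.1 * io (B \ A) p.2 + io (B \ A) p.1 * io (A \ B) p.2) := by
    simp only [← sum_add_distrib]
    refine sum_congr rfl fun p _ => ?_
    by_cases a : p.1 ∈ A <;> by_cases b : p.1 ∈ B <;> by_cases c : p.2 ∈ A <;>
      by_cases d : p.2 ∈ B <;> simp [io, a, b, c, d]
  unfold kap
  linarith

theorem io_nonneg (A : Finset W) (u : W) : 0 ≤ io A u := by unfold io; split_ifs <;> simp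

theorem cr_nonneg (he : ∀ u v, 0 ≤ e u v) (A B : Finset W) (p : W × W) :
    0 ≤ e p.1 p.2 * (io (A \ B) p.1 * io (B \ A) p.2 + io (B \ A) p.1 * io (A \ B) p.2) :=
  mul_nonneg (he _ _) (add_nonneg (mul_nonneg (io_nonneg _ _) (io_nonneg _ _))
    (mul_nonneg (io_nonneg _ _) (io_nonneg _ _)))

theorem kap_sub (he : ∀ u v, 0 ≤ e u v) (A B : Finset W) :
    kap e w (A ∩ B) + kap e w (A ∪ B) ≤ kap e w A + kap e w B := by
  have := kap_id (e := e) (w := w) A B
  have h := sum_nonneg (s := univ) fun p _ => cr_nonneg he A B p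
  linarith

theorem noE_of_tight (he : ∀ u v, 0 ≤ e u v)
    (h : kap e w A + kap e w B ≤ kap e w (A ∩ B) + kap e w (A ∪ B)) : NoE e A B := by
  have h1 := kap_id (e := e) (w := w) A B
  have h2 := (sum_eq_zero_iff_of_nonneg (s := univ) fun p _ => cr_nonneg he A B p).1
    (le_antisymm (by linarith) (sum_nonneg fun p _ => cr_nonneg he A B p))
  intro u a b v c d
  have k1 := h2 (u, v) (mem_univ _)
  have k2 := h2 (v, u) (mem_univ _)
  simp [io, a, b, c, d] at k1 k2
  exact ⟨k1, k2⟩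

theorem NoE.modular (h : NoE e A B) :
    kap e w A + kap e w B = kap e w (A ∩ B) + kap e w (A ∪ B) := by
  have h1 := kap_id (e := e) (w := w) A B
  rw [sum_eq_zero] at h1
  · linarith
  · rintro ⟨u, v⟩ _
    by_cases a : u ∈ A <;> by_cases b : u ∈ B <;> by_cases c : v ∈ A <;>
      by_cases d : v ∈ B <;> simp [io, a, b, c, d]
    · exact (h u a b v d c).1
    · exact (h v c d u b a).2

theorem kap_four (he : ∀ u v, 0 ≤ e u v) (A B C : Finset W) :
    kap e w (A ∩ B) + kap e w (A ∩ C) + kap e w (B ∩ C) + kap e w (A ∪ B ∪ C) ≤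
      kap e w A + kap e w B + kap e w C + kap e w (A ∩ B ∩ C) := by
  have h1 : ∑ u, w u * io (A ∩ B) u + ∑ u, w u * io (A ∩ C) u + ∑ u, w u * io (B ∩ C) u +
      ∑ u, w u * io (A ∪ B ∪ C) u = ∑ u, w u * io A u + ∑ u, w u * io B u + ∑ u, w u * io C u +
      ∑ u, w u * io (A ∩ B ∩ C) u := by
    simp only [← sum_add_distrib]
    refine sum_congr rfl fun u _ => ?_
    by_cases a : u ∈ A <;> by_cases b : u ∈ B <;> by_cases c : u ∈ C <;> simp [io, a, b, c]
  have h2 : ∑ p : W × W, e p.1 p.2 * (io A p.1 * io A p.2) +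
      ∑ p : W × W, e p.1 p.2 * (io B p.1 * io B p.2) + ∑ p : W × W, e p.1 p.2 * (io C p.1 * io C p.2)
      + ∑ p : W × W, e p.1 p.2 * (io (A ∩ B ∩ C) p.1 * io (A ∩ B ∩ C) p.2) ≤
      ∑ p : W × W, e p.1 p.2 * (io (A ∩ B) p.1 * io (A ∩ B) p.2) +
      ∑ p : W × W, e p.1 p.2 * (io (A ∩ C) p.1 * io (A ∩ C) p.2) +
      ∑ p : W × W, e p.1 p.2 * (io (B ∩ C) p.1 * io (B ∩ C) p.2) +
      ∑ p : W × W, e p.1 p.2 * (io (A ∪ B ∪ C) p.1 * io (A ∪ B ∪ C) p.2) := by
    simp only [← sum_add_distrib, ← mul_add]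
    refine sum_le_sum fun p _ => mul_le_mul_of_nonneg_left ?_ (he _ _)
    by_cases a : p.1 ∈ A <;> by_cases b : p.1 ∈ B <;> by_cases c : p.1 ∈ C <;>
      by_cases a' : p.2 ∈ A <;> by_cases b' : p.2 ∈ B <;> by_cases c' : p.2 ∈ C <;>
      simp [io, a, b, c, a', b', c']
  unfold kap
  linarith

/-- weights relative to a base set -/
def wtB (e : W → W → ℚ) (w : W → ℚ) (B : Finset W) (y : W) : ℚ :=
  w y - ∑ v, (e y v + e v y) * io B v

theorem kap_base (h : Disjoint A B) : kap e w (B ∪ A) = kap e w B + kap e (wtB e w B) A := by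
  have hd : ∀ u, io (B ∪ A) u = io B u + io A u := fun u => by
    by_cases a : u ∈ A <;> by_cases b : u ∈ B <;> simp [io, a, b]
    exact disjoint_left.1 h a b
  have e1 : ∑ u, (∑ v, (e u v + e v u) * io B v) * io A u =
      ∑ p : W × W, e p.1 p.2 * (io A p.1 * io B p.2) +
        ∑ p : W × W, e p.1 p.2 * (io B p.1 * io A p.2) := by
    rw [Fintype.sum_prod_type, Fintype.sum_prod_type_right, ← sum_add_distrib]
    refine sum_congr rfl fun u _ => ?_
    rw [sum_mul, ← sum_add_distrib]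
    exact sum_congr rfl fun v _ => by ring
  have e2 : ∑ p : W × W, e p.1 p.2 * ((io B p.1 + io A p.1) * (io B p.2 + io A p.2)) =
      ∑ p : W × W, e p.1 p.2 * (io B p.1 * io B p.2) + ∑ p : W × W, e p.1 p.2 * (io A p.1 * io A p.2)
      + (∑ p : W × W, e p.1 p.2 * (io A p.1 * io B p.2) +
        ∑ p : W × W, e p.1 p.2 * (io B p.1 * io A p.2)) := by
    simp only [← sum_add_distrib]
    exact sum_congr rfl fun p _ => by ring
  simp only [kap, wtB, hd, sub_mul, sum_sub_distrib, e1, e2]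
  simp only [mul_add, sum_add_distrib]
  ring

end quad

abbrev Nd (Z Y : Type) := (Fin 10 ⊕ Z) ⊕ Y

section net
variable {Z Y : Type} [Fintype Z] [Fintype Y] [DecidableEq Z] [DecidableEq Y]

def Feas (S : Finset (Fin 10)) (z : Z → Bool) (X : Finset (Nd Z Y)) : Prop :=
  (∀ t, Sum.inl (Sum.inl t) ∈ X ↔ t ∈ S) ∧ ∀ v, Sum.inl (Sum.inr v) ∈ X ↔ z v = true

theorem Feas.inter {S S' : Finset (Fin 10)} {z z' : Z → Bool} {X X' : Finset (Nd Z Y)}
    (h : Feas S z X) (h' : Feas S' z' X') : Feas (S ∩ S') (z ⊓ z') (X ∩ X') :=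
  ⟨fun t => by simp [h.1, h'.1], fun v => by simp [h.2, h'.2]⟩

theorem Feas.union {S S' : Finset (Fin 10)} {z z' : Z → Bool} {X X' : Finset (Nd Z Y)}
    (h : Feas S z X) (h' : Feas S' z' X') : Feas (S ∪ S') (z ⊔ z') (X ∪ X') :=
  ⟨fun t => by simp [h.1, h'.1], fun v => by simp [h.2, h'.2]⟩

/-- a network together with its optimal values -/
structure Net (Z Y : Type) [Fintype Z] [Fintype Y] [DecidableEq Z] [DecidableEq Y] where
  e : Nd Z Y → Nd Z Y → ℚ
  b : Nd Z Y → ℚ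
  he : ∀ u v, 0 ≤ e u v
  vl : Finset (Fin 10) → (Z → Bool) → ℚ
  le : ∀ S z X, Feas S z X → vl S z ≤ kap e b X
  ex : ∀ S z, ∃ X, Feas S z X ∧ kap e b X ≤ vl S z

theorem exists_net {f : (Fin 10 ⊕ Z → Bool) → ℚ} (h : Ex f) :
    ∃ (Y : Type) (_ : Fintype Y) (_ : DecidableEq Y) (N : Net Z Y) (c : ℚ),
      ∀ S z, N.vl S z = f (Sum.elim (ind S) z) - c := by
  classical
  obtain ⟨Y, _, c, h1, h2⟩ := h
  obtain ⟨c0, b, e, he, hc⟩ := h1.nf
  have key : ∀ X : Finset (Nd Z Y), c (fun w => decide (w ∈ X)) = c0 + kap e b X := fun X => by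
    have : ∀ w, bv (decide (w ∈ X)) = io X w := fun w => by by_cases h : w ∈ X <;> simp [io, h]
    rw [hc, kap, Fintype.sum_prod_type]
    simp only [this]
    ring
  refine ⟨Y, inferInstance, inferInstance, ⟨e, b, he, fun S z => f (Sum.elim (ind S) z) - c0,
    fun S z X hX => ?_, fun S z => ?_⟩, c0, fun _ _ => rfl⟩
  · have := (h2 (Sum.elim (ind S) z)).2 ⟨fun y => decide (Sum.inr y ∈ X), rfl⟩
    have e1 : Sum.elim (Sum.elim (ind S) z) (fun y => decide (Sum.inr y ∈ X))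
        = fun w => decide (w ∈ X) := by
      funext w
      rcases w with (t | v) | y
      · simp [ind, hX.1]
      · simp [hX.2]
      · rfl
    beta_reduce at this
    rw [e1, key] at this
    linarith
  · obtain ⟨y, hy⟩ := (h2 (Sum.elim (ind S) z)).1
    refine ⟨univ.filter fun w => Sum.elim (Sum.elim (ind S) z) y w = true,
      ⟨fun t => by simp [ind], fun v => by simp⟩, ?_⟩
    have := key (univ.filter fun w => Sum.elim (Sum.elim (ind S) z) y w = true)
    simp only [mem_filter, mem_univ, true_and, Bool.decide_eq_true] at this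
    beta_reduce at hy
    have e1 : (fun w => Sum.elim (Sum.elim (ind S) z) y w) = Sum.elim (Sum.elim (ind S) z) y := rfl
    rw [e1, hy] at this
    linarith

namespace Net
variable (N : Net Z Y) {S S' : Finset (Fin 10)} {z z' : Z → Bool} {X X' : Finset (Nd Z Y)}

/-- optimal full sets -/
def FO (S : Finset (Fin 10)) (z : Z → Bool) (X : Finset (Nd Z Y)) : Prop :=
  Feas S z X ∧ kap N.e N.b X ≤ N.vl S z

variable {N}

theorem FO.tight (h : N.FO S z X) (h' : N.FO S' z' X')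
    (t : N.vl S z + N.vl S' z' ≤ N.vl (S ∩ S') (z ⊓ z') + N.vl (S ∪ S') (z ⊔ z')) :
    N.FO (S ∩ S') (z ⊓ z') (X ∩ X') ∧ N.FO (S ∪ S') (z ⊔ z') (X ∪ X') ∧ NoE N.e X X' := by
  have a1 := N.le _ _ _ (h.1.inter h'.1)
  have a2 := N.le _ _ _ (h.1.union h'.1)
  have a3 := kap_sub (w := N.b) N.he X X'
  have a4 := h.2
  have a5 := h'.2
  exact ⟨⟨h.1.inter h'.1, by linarith⟩, ⟨h.1.union h'.1, by linarith⟩,
    noE_of_tight (w := N.b) N.he (by linarith)⟩

theorem exists_base (N : Net Z Y) (z : Z → Bool) :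
    ∃ B, N.FO ∅ z B ∧ ∀ X, N.FO ∅ z X → X ⊆ B := by
  classical
  obtain ⟨X0, h0⟩ := N.ex ∅ z
  obtain ⟨B, hB, hm⟩ := exists_max_image (univ.filter (N.FO ∅ z)) card
    ⟨X0, mem_filter.2 ⟨mem_univ _, h0⟩⟩
  have hB' := (mem_filter.1 hB).2
  refine ⟨B, hB', fun X hX => ?_⟩
  have := (hX.tight hB' (by simp)).2.1
  rw [union_empty, sup_idem] at this
  have := eq_of_subset_of_card_le subset_union_right (hm _ (mem_filter.2 ⟨mem_univ _, this⟩))
  exact this ▸ subset_union_left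

variable (N)

/-- the largest optimal set without terminals -/
noncomputable def bs (z : Z → Bool) : Finset (Nd Z Y) := (N.exists_base z).choose

theorem bs_fo (z : Z → Bool) : N.FO ∅ z (N.bs z) := (N.exists_base z).choose_spec.1

noncomputable def wt (z : Z → Bool) : Nd Z Y → ℚ := wtB N.e N.b (N.bs z)
noncomputable def k (z : Z → Bool) (X : Finset (Nd Z Y)) : ℚ := kap N.e (N.wt z) X
def g (S : Finset (Fin 10)) (z : Z → Bool) : ℚ := N.vl S z - N.vl ∅ z

def ok (z : Z → Bool) (S : Finset (Fin 10)) (X : Finset (Nd Z Y)) : Prop :=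
  Disjoint X (N.bs z) ∧ (∀ t, Sum.inl (Sum.inl t) ∈ X ↔ t ∈ S) ∧ ∀ v, Sum.inl (Sum.inr v) ∉ X

def Opt (z : Z → Bool) (S : Finset (Fin 10)) (X : Finset (Nd Z Y)) : Prop :=
  N.ok z S X ∧ N.k z X ≤ N.g S z

variable {N}

theorem FO.sub_bs (h : N.FO ∅ z X) : X ⊆ N.bs z := (N.exists_base z).choose_spec.2 X h

theorem bs_mono (h : z ≤ z') : N.bs z ⊆ N.bs z' := by
  have := ((N.bs_fo z).tight (N.bs_fo z') (by simp [h])).2.1
  rw [union_empty, sup_eq_right.2 h] at this
  exact subset_union_left.trans this.sub_bs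

theorem kap_bs (h : Disjoint X (N.bs z)) : kap N.e N.b (N.bs z ∪ X) = N.vl ∅ z + N.k z X := by
  rw [kap_base h, le_antisymm (N.bs_fo z).2 (N.le _ _ _ (N.bs_fo z).1)]
  rfl

theorem ok.feas (h : N.ok z S X) : Feas S z (N.bs z ∪ X) :=
  ⟨fun t => by simp [(N.bs_fo z).1.1, h.2.1], fun v => by simp [(N.bs_fo z).1.2, h.2.2]⟩

theorem ok.le (h : N.ok z S X) : N.g S z ≤ N.k z X := by
  have := N.le _ _ _ h.feas
  rw [kap_bs h.1] at this
  unfold g
  linarith

theorem Opt.fo (h : N.Opt z S X) : N.FO S z (N.bs z ∪ X) :=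
  ⟨h.1.feas, by have := h.2; unfold g at this; rw [kap_bs h.1.1]; linarith⟩

theorem FO.opt (h : N.FO S z X) (hb : N.bs z ⊆ X) : N.Opt z S (X \ N.bs z) := by
  refine ⟨⟨sdiff_disjoint, fun t => by simp [(N.bs_fo z).1.1, h.1.1],
    fun v => by simp [(N.bs_fo z).1.2, h.1.2]⟩, ?_⟩
  have := kap_bs (N := N) (z := z) (X := X \ N.bs z) sdiff_disjoint
  rw [union_sdiff_of_subset hb] at this
  have := h.2
  unfold g
  linarith

theorem ok.eq_empty (h : N.ok z ∅ X) (h0 : N.k z X ≤ 0) : X = ∅ := by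
  have : N.FO ∅ z (N.bs z ∪ X) := Opt.fo ⟨h, by simpa [g] using h0⟩
  exact disjoint_self.1 (h.1.mono_right (subset_union_right.trans this.sub_bs))

theorem ok.inter (h : N.ok z S X) (h' : N.ok z S' X') : N.ok z (S ∩ S') (X ∩ X') :=
  ⟨h.1.mono_left inter_subset_left, fun t => by simp [h.2.1, h'.2.1], fun v => by simp [h.2.2]⟩

theorem ok.union (h : N.ok z S X) (h' : N.ok z S' X') : N.ok z (S ∪ S') (X ∪ X') :=
  ⟨disjoint_union_left.2 ⟨h.1, h'.1⟩, fun t => by simp [h.2.1, h'.2.1],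
    fun v => by simp [h.2.2, h'.2.2]⟩

theorem k_sub (z : Z → Bool) (X X' : Finset (Nd Z Y)) :
    N.k z (X ∩ X') + N.k z (X ∪ X') ≤ N.k z X + N.k z X' := kap_sub N.he X X'

theorem Opt.tight (h : N.Opt z S X) (h' : N.Opt z S' X')
    (t : N.g S z + N.g S' z ≤ N.g (S ∩ S') z + N.g (S ∪ S') z) :
    N.Opt z (S ∩ S') (X ∩ X') ∧ N.Opt z (S ∪ S') (X ∪ X') ∧ NoE N.e X X' := by
  have a1 := (h.1.inter h'.1).le
  have a2 := (h.1.union h'.1).le
  have a3 := k_sub (N := N) z X X'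
  have a4 := h.2
  have a5 := h'.2
  exact ⟨⟨h.1.inter h'.1, by linarith⟩, ⟨h.1.union h'.1, by linarith⟩,
    noE_of_tight (w := N.wt z) N.he (by unfold k at *; linarith)⟩

theorem Opt.same (h : N.Opt z S X) (h' : N.Opt z S X') :
    N.Opt z S (X ∩ X') ∧ N.Opt z S (X ∪ X') ∧ NoE N.e X X' := by
  simpa using h.tight h' (by simp)

theorem exists_least (N : Net Z Y) (z : Z → Bool) (S : Finset (Fin 10)) :
    ∃ D, N.Opt z S D ∧ ∀ X, N.Opt z S X → D ⊆ X := by
  classical
  obtain ⟨X0, h0⟩ := N.ex S z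
  have h1 : N.FO S z (X0 ∪ N.bs z) := by
    have a1 : Feas ∅ z (X0 ∩ N.bs z) := by simpa using h0.1.inter (N.bs_fo z).1
    have a2 : Feas S z (X0 ∪ N.bs z) := by simpa using h0.1.union (N.bs_fo z).1
    have a3 := kap_sub (w := N.b) N.he X0 (N.bs z)
    exact ⟨a2, by linarith [N.le _ _ _ a1, (N.bs_fo z).2, h0.2]⟩
  obtain ⟨D, hD, hm⟩ := exists_min_image (univ.filter (N.Opt z S)) card
    ⟨_, mem_filter.2 ⟨mem_univ _, h1.opt subset_union_right⟩⟩
  have hD' := (mem_filter.1 hD).2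
  refine ⟨D, hD', fun X hX => ?_⟩
  have := eq_of_subset_of_card_le inter_subset_left
    (hm _ (mem_filter.2 ⟨mem_univ _, (hD'.same hX).1⟩))
  exact this ▸ inter_subset_right

variable (N) in
/-- the least optimal set -/
noncomputable def D (z : Z → Bool) (S : Finset (Fin 10)) : Finset (Nd Z Y) :=
  (N.exists_least z S).choose

theorem D_opt (z : Z → Bool) (S : Finset (Fin 10)) : N.Opt z S (N.D z S) :=
  (N.exists_least z S).choose_spec.1

theorem Opt.D_sub (h : N.Opt z S X) : N.D z S ⊆ X := (N.exists_least z S).choose_spec.2 X h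

theorem Opt.up (h : N.Opt z S X) (hz : z ≤ z') (hg : N.g S z ≤ N.g S z') :
    N.Opt z' S X ∧ ∀ y ∈ X, N.wt z' y = N.wt z y := by
  obtain ⟨a1, a2, a3⟩ := h.fo.tight (N.bs_fo z') (by
    rw [inter_empty, union_empty, inf_eq_left.2 hz, sup_eq_right.2 hz]
    unfold g at hg
    linarith)
  rw [inter_empty, inf_eq_left.2 hz] at a1
  rw [union_empty, sup_eq_right.2 hz] at a2
  have hd : Disjoint X (N.bs z') := disjoint_left.2 fun y hy hy' =>
    disjoint_left.1 h.1.1 hy (a1.sub_bs (mem_inter.2 ⟨mem_union_right _ hy, hy'⟩))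
  have hb := bs_mono (N := N) hz
  constructor
  · have := a2.opt subset_union_right
    rwa [union_sdiff_right, union_sdiff_distrib, sdiff_eq_empty_iff_subset.2 hb, empty_union,
      sdiff_eq_self_of_disjoint hd] at this
  · intro y hy
    unfold wt wtB
    congr 1
    refine sum_congr rfl fun v _ => ?_
    by_cases c : v ∈ N.bs z
    · simp [io, c, hb c]
    · by_cases c' : v ∈ N.bs z'
      · obtain ⟨e1, e2⟩ := a3 y (mem_union_right _ hy) (disjoint_left.1 hd hy) v c' (by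
          rw [mem_union, not_or]
          exact ⟨c, disjoint_right.1 hd c'⟩)
        simp [e1, e2]
      · simp [io, c, c']

theorem D_nest (hz : z ≤ z') (S : Finset (Fin 10)) : N.D z S ⊆ N.bs z' ∪ N.D z' S := by
  have a1 := ((D_opt (N := N) z S).fo.tight (D_opt z' S).fo (by simp [hz])).1
  rw [inter_self, inf_eq_left.2 hz] at a1
  have := (a1.opt (subset_inter subset_union_left
    ((bs_mono hz).trans subset_union_left))).D_sub
  exact this.trans (sdiff_subset.trans inter_subset_right)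

theorem D_down (hz : z ≤ z') (hg : N.g S z = N.g S z') :
    N.D z S = N.D z' S ∧ ∀ y ∈ N.D z S, N.wt z' y = N.wt z y := by
  obtain ⟨a1, a2⟩ := (D_opt (N := N) z S).up hz hg.le
  have a3 := D_opt (N := N) z' S
  refine ⟨Subset.antisymm (Opt.D_sub ⟨⟨a3.1.1.mono_right (bs_mono hz), a3.1.2⟩, ?_⟩) a1.D_sub, a2⟩
  rw [hg]
  exact (kap_congr fun y hy => (a2 y (a1.D_sub hy)).symm).trans_le a3.2

end Net

end net

end Pool.Agent.Lib.MP_cb9cb0_lc.X.Snd
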