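import Pool.Agent.Lib.MP_cb9cb0_lc.X.SndA

/-!
Cores: existence, algebra at one context, transport.
-/

set_option autoImplicit false
set_option linter.unusedSectionVars false

namespace Pool.Agent.Lib.MP_cb9cb0_lc.X.Snd.Net

open Finset Function

variable {Z Y : Type} [Fintype Z] [Fintype Y] [DecidableEq Z] [DecidableEq Y] {N : Net Z Y}
  {S S' I : Finset (Fin 10)} {z z' : Z → Bool} {X X' A A' C C' L : Finset (Nd Z Y)}
  {i j α β : Fin 10}

theorem ok.inter_left (h : N.ok z ∅ X) (h' : N.ok z S A) : N.ok z ∅ (X ∩ A) := by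
  simpa using h.inter h'

theorem ok.union_right (h' : N.ok z S A) (h : N.ok z ∅ X) : N.ok z S (A ∪ X) := by
  simpa using h'.union h

theorem Opt.sl (hA : N.Opt z S A) (h : N.ok z ∅ X) : N.k z (X ∩ A) ≤ N.k z X := by
  have a1 := (hA.1.union_right h).le
  have a2 := k_sub (N := N) z X A
  rw [union_comm] at a2
  linarith [hA.2]

theorem Opt.absorb (hA : N.Opt z S A) (h : N.ok z ∅ X) (e : N.k z X ≤ N.k z (X ∩ A)) :
    N.Opt z S (A ∪ X) := by
  refine ⟨hA.1.union_right h, ?_⟩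
  have a2 := k_sub (N := N) z X A
  rw [union_comm] at a2
  linarith [hA.2]

theorem Opt.pair (hA : N.Opt z {i} A) (hA' : N.Opt z {j} A') :
    N.k z (A ∩ A') ≤ N.g {i} z + N.g {j} z - N.g {i, j} z := by
  have a1 := (hA.1.union hA'.1).le
  have a2 := k_sub (N := N) z A A'
  rw [← insert_eq] at a1
  linarith [hA.2, hA'.2]

theorem ok.pair (hA : N.ok z {i} A) (hA' : N.ok z {j} A') (h : i ≠ j) : N.ok z ∅ (A ∩ A') := by
  simpa [h] using hA.inter hA'

variable (N) in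
/-- the confinement region -/
noncomputable def DD (z : Z → Bool) (I : Finset (Fin 10)) (α β : Fin 10) : Finset (Nd Z Y) :=
  I.biUnion fun x => N.D z {α, x} ∪ N.D z {β, x}

variable (N) in
def Live (z : Z → Bool) (I : Finset (Fin 10)) (α β : Fin 10) (A : Fin 10 → Finset (Nd Z Y))
    (w : Nd Z Y → ℚ) : Prop :=
  ∀ i ∈ I, N.Opt z {i} (A i) ∧ A i ⊆ N.DD z I α β ∧ ∀ y ∈ A i, N.wt z y = w y

def Star (I : Finset (Fin 10)) (A : Fin 10 → Finset (Nd Z Y)) (C : Finset (Nd Z Y)) : Prop :=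
  ∀ i ∈ I, ∀ j ∈ I, i ≠ j → A i ∩ A j = C

theorem Live.up {A : Fin 10 → Finset (Nd Z Y)} {w : Nd Z Y → ℚ} (h : N.Live z I α β A w)
    (hz : z ≤ z') (hg : ∀ i, N.g {i} z = N.g {i} z') : N.Live z' I α β A w := by
  intro i hi
  obtain ⟨a1, a2, a3⟩ := h i hi
  obtain ⟨b1, b2⟩ := a1.up hz (hg i).le
  refine ⟨b1, fun y hy => ?_, fun y hy => (b2 y hy).trans (a3 y hy)⟩
  have hn := disjoint_left.1 b1.1.1 hy
  obtain ⟨x, hx, hy'⟩ := mem_biUnion.1 (a2 hy)
  refine mem_biUnion.2 ⟨x, hx, ?_⟩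
  rcases mem_union.1 hy' with c | c
  · exact mem_union_left _ ((mem_union.1 (D_nest hz _ c)).resolve_left hn)
  · exact mem_union_right _ ((mem_union.1 (D_nest hz _ c)).resolve_left hn)

theorem Live.down {A : Fin 10 → Finset (Nd Z Y)} {w : Nd Z Y → ℚ} (h : N.Live z' I α β A w)
    (hz : z ≤ z') (hg : ∀ i, N.g {i} z = N.g {i} z')
    (hp : ∀ x ∈ I, N.g {α, x} z = N.g {α, x} z' ∧ N.g {β, x} z = N.g {β, x} z') :
    N.Live z I α β A w := by
  intro i hi
  obtain ⟨a1, a2, a3⟩ := h i hi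
  have key : ∀ y ∈ A i, y ∈ N.DD z I α β ∧ N.wt z' y = N.wt z y := fun y hy => by
    obtain ⟨x, hx, hy'⟩ := mem_biUnion.1 (a2 hy)
    obtain ⟨c1, c2⟩ := D_down hz (hp x hx).1
    obtain ⟨d1, d2⟩ := D_down hz (hp x hx).2
    rw [← c1, ← d1] at hy'
    exact ⟨mem_biUnion.2 ⟨x, hx, hy'⟩, (mem_union.1 hy').elim (c2 y) (d2 y)⟩
  refine ⟨⟨⟨a1.1.1.mono_right (bs_mono hz), a1.1.2⟩, ?_⟩, fun y hy => (key y hy).1,
    fun y hy => (key y hy).2.symm.trans (a3 y hy)⟩
  rw [hg]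
  exact (kap_congr fun y hy => (key y hy).2.symm).trans_le a1.2

theorem exists_max (i : Fin 10) (R : Finset (Nd Z Y)) (h : N.Opt z {i} A) (hR : A ⊆ R) :
    ∃ B, N.Opt z {i} B ∧ B ⊆ R ∧ ∀ X, N.Opt z {i} X → X ⊆ R → X ⊆ B := by
  classical
  obtain ⟨B, hB, hm⟩ := exists_max_image (univ.filter fun X => N.Opt z {i} X ∧ X ⊆ R) card
    ⟨A, mem_filter.2 ⟨mem_univ _, h, hR⟩⟩
  obtain ⟨h1, h2⟩ := (mem_filter.1 hB).2
  refine ⟨B, h1, h2, fun X hX hX' => ?_⟩
  have := eq_of_subset_of_card_le subset_union_right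
    (hm _ (mem_filter.2 ⟨mem_univ _, (hX.same h1).2.1, union_subset hX' h2⟩))
  exact this ▸ subset_union_left

theorem triple {x : Fin 10} {μ : ℚ} (h1 : α ≠ β) (h2 : x ≠ α) (h3 : x ≠ β)
    (s : ∀ i, N.g {i} z = 0) (p1 : N.g {α, β} z = -μ) (p2 : N.g {α, x} z = -μ)
    (p3 : N.g {β, x} z = -μ) (t : N.g {α, β, x} z = -(2 * μ)) :
    N.Opt z {α} (N.D z {α, β} ∩ N.D z {α, x}) ∧ N.Opt z {β} (N.D z {α, β} ∩ N.D z {β, x}) ∧
      N.Opt z {x} (N.D z {α, x} ∩ N.D z {β, x}) ∧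
      μ ≤ N.k z (N.D z {α, β} ∩ N.D z {α, x} ∩ N.D z {β, x}) := by
  have a := D_opt (N := N) z {α, β}
  have b := D_opt (N := N) z {α, x}
  have c := D_opt (N := N) z {β, x}
  have e1 : ({α, β} : Finset (Fin 10)) ∩ {α, x} = {α} := by
    ext y; simp only [mem_inter, mem_insert, mem_singleton]; grind
  have e2 : ({α, β} : Finset (Fin 10)) ∩ {β, x} = {β} := by
    ext y; simp only [mem_inter, mem_insert, mem_singleton]; grind
  have e3 : ({α, x} : Finset (Fin 10)) ∩ {β, x} = {x} := by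
    ext y; simp only [mem_inter, mem_insert, mem_singleton]; grind
  have u1 : ({α, β} : Finset (Fin 10)) ∪ {α, x} = {α, β, x} := by
    ext y; simp only [mem_union, mem_insert, mem_singleton]; grind
  have u2 : ({α, β} : Finset (Fin 10)) ∪ {β, x} = {α, β, x} := by
    ext y; simp only [mem_union, mem_insert, mem_singleton]; grind
  have u3 : ({α, x} : Finset (Fin 10)) ∪ {β, x} = {α, β, x} := by
    ext y; simp only [mem_union, mem_insert, mem_singleton]; grind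
  have u4 : ({α, β, x} : Finset (Fin 10)) ∪ {β, x} = {α, β, x} := by
    ext y; simp only [mem_union, mem_insert, mem_singleton]; grind
  have o1 := (a.tight b (by rw [e1, u1, s, p1, p2, t]; linarith)).1
  have o2 := (a.tight c (by rw [e2, u2, s, p1, p3, t]; linarith)).1
  have o3 := (b.tight c (by rw [e3, u3, s, p2, p3, t]; linarith)).1
  rw [e1] at o1
  rw [e2] at o2
  rw [e3] at o3
  refine ⟨o1, o2, o3, ?_⟩
  have f := kap_four (w := N.wt z) N.he (N.D z {α, β}) (N.D z {α, x}) (N.D z {β, x})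
  have f1 := ((a.1.union b.1).union c.1).le
  rw [u1, u4, t] at f1
  have f2 := o1.1.le
  have f3 := o2.1.le
  have f4 := o3.1.le
  have g1 := a.2
  have g2 := b.2
  have g3 := c.2
  rw [s] at f2 f3 f4
  unfold k at *
  linarith

theorem exists_core {μ : ℚ} {x0 : Fin 10} (ha : α ∈ I) (hb : β ∈ I) (h1 : α ≠ β) (hx : x0 ∈ I)
    (h2 : x0 ≠ α) (h3 : x0 ≠ β) (s : ∀ i, N.g {i} z = 0)
    (p : ∀ i ∈ I, ∀ j ∈ I, i ≠ j → N.g {i, j} z = -μ)
    (t : ∀ x ∈ I, x ≠ α → x ≠ β → N.g {α, β, x} z = -(2 * μ)) :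
    ∃ A C, N.Live z I α β A (N.wt z) ∧ Star I A C ∧ N.k z C = μ := by
  have tr := fun x (hx : x ∈ I) (h2 : x ≠ α) (h3 : x ≠ β) => triple (N := N) (z := z) h1 h2 h3 s
    (p _ ha _ hb h1) (p _ ha _ hx h2.symm) (p _ hb _ hx h3.symm) (t x hx h2 h3)
  have d1 : ∀ x ∈ I, N.D z {α, x} ⊆ N.DD z I α β := fun x hx =>
    subset_union_left.trans (subset_biUnion_of_mem (fun x => N.D z {α, x} ∪ N.D z {β, x}) hx)
  have ex : ∀ i ∈ I, ∃ B, N.Opt z {i} B ∧ B ⊆ N.DD z I α β ∧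
      ∀ X, N.Opt z {i} X → X ⊆ N.DD z I α β → X ⊆ B := fun i hi => by
    by_cases c : i = α
    · rw [c]
      exact exists_max α _ (tr x0 hx h2 h3).1 (inter_subset_left.trans (d1 β hb))
    by_cases c' : i = β
    · rw [c']
      exact exists_max β _ (tr x0 hx h2 h3).2.1 (inter_subset_left.trans (d1 β hb))
    · exact exists_max i _ (tr i hi c c').2.2.1 (inter_subset_left.trans (d1 i hi))
  choose! A o1 o2 o3 using ex
  have okC : N.ok z ∅ (A α ∩ A β) := (o1 α ha).1.pair (o1 β hb).1 h1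
  have up : ∀ i ∈ I, ∀ j ∈ I, i ≠ j → N.k z (A i ∩ A j) ≤ μ := fun i hi j hj h => by
    have := (o1 i hi).pair (o1 j hj)
    rw [s, s, p i hi j hj h] at this
    linarith
  have lo : ∀ x ∈ I, x ≠ α → x ≠ β →
      μ ≤ N.k z (A α ∩ A β ∩ (N.D z {α, x} ∩ N.D z {β, x})) := fun x hx c c' => by
    obtain ⟨t1, t2, t3, t4⟩ := tr x hx c c'
    have s1 := o3 α ha _ t1 (inter_subset_left.trans (d1 β hb))
    have s2 := o3 β hb _ t2 (inter_subset_left.trans (d1 β hb))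
    refine t4.trans (le_of_eq_of_le ?_ (t1.sl (okC.inter_left t3.1)))
    congr 1
    ext y
    have := @s1 y
    have := @s2 y
    simp only [mem_inter] at *
    tauto
  have eC : N.k z (A α ∩ A β) = μ :=
    le_antisymm (up α ha β hb h1) ((lo x0 hx h2 h3).trans ((tr x0 hx h2 h3).2.2.1.sl okC))
  have sub : ∀ i ∈ I, A α ∩ A β ⊆ A i := fun i hi => by
    by_cases c : i = α
    · rw [c]; exact inter_subset_left
    by_cases c' : i = β
    · rw [c']; exact inter_subset_right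
    · exact subset_union_right.trans (o3 i hi _ ((tr i hi c c').2.2.1.absorb okC
        (eC.trans_le (lo i hi c c'))) (union_subset (inter_subset_left.trans (d1 i hi))
          (inter_subset_left.trans (o2 α ha))))
  refine ⟨A, A α ∩ A β, fun i hi => ⟨o1 i hi, o2 i hi, fun _ _ => rfl⟩, fun i hi j hj h => ?_, eC⟩
  have okW := (o1 i hi).1.pair (o1 j hj).1 h
  have key : ∀ γ ∈ I, ∀ δ ∈ I, A γ ∩ A δ = A α ∩ A β → A i ∩ A j ⊆ A γ := fun γ hγ δ hδ e => by
    refine subset_union_right.trans (o3 γ hγ _ ((o1 γ hγ).absorb okW ((up i hi j hj h).trans ?_))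
      (union_subset (o2 γ hγ) (inter_subset_left.trans (o2 i hi))))
    refine eC.symm.trans_le (le_of_eq_of_le ?_ ((o1 δ hδ).sl (okW.inter_left (o1 γ hγ).1)))
    rw [inter_assoc, e, inter_eq_right.2 (subset_inter (sub i hi) (sub j hj))]
  exact Subset.antisymm (subset_inter (key α ha β hb rfl) (key β hb α ha (inter_comm _ _)))
    (subset_inter (sub i hi) (sub j hj))

variable (N) in
def IsCore (z : Z → Bool) (I : Finset (Fin 10)) (C : Finset (Nd Z Y)) : Prop :=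
  ∃ A : Fin 10 → Finset (Nd Z Y), (∀ i ∈ I, N.Opt z {i} (A i)) ∧ Star I A C

theorem Star.sub {A : Fin 10 → Finset (Nd Z Y)} (h : Star I A C) (hI : I.card = 5) (hi : i ∈ I) :
    C ⊆ A i := by
  obtain ⟨j, hj, e⟩ := exists_mem_ne (s := I) (by omega) i
  rw [← h i hi j hj e.symm]
  exact inter_subset_left

theorem IsCore.ok (h : N.IsCore z I C) (hI : I.card = 5) : N.ok z ∅ C := by
  obtain ⟨A, h1, h2⟩ := h
  obtain ⟨i, hi, j, hj, e⟩ := one_lt_card.1 (show 1 < I.card by omega)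
  rw [← h2 i hi j hj e]
  exact (h1 i hi).1.pair (h1 j hj).1 e

theorem IsCore.inter (h : N.IsCore z I C) (h' : N.IsCore z I C') : N.IsCore z I (C ∩ C') := by
  obtain ⟨A, h1, h2⟩ := h
  obtain ⟨A', h1', h2'⟩ := h'
  refine ⟨fun i => A i ∩ A' i, fun i hi => ((h1 i hi).same (h1' i hi)).1, fun i hi j hj e => ?_⟩
  rw [← h2 i hi j hj e, ← h2' i hi j hj e]
  exact inter_inter_inter_comm _ _ _ _

theorem IsCore.mono (h : N.IsCore z I C) (hS : S ⊆ I) : N.IsCore z S C :=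
  let ⟨A, h1, h2⟩ := h
  ⟨A, fun i hi => h1 i (hS hi), fun i hi j hj => h2 i (hS hi) j (hS hj)⟩

theorem IsCore.noE (h : N.IsCore z I C) (h' : N.IsCore z I C') (hI : I.card = 5) :
    NoE N.e C C' := by
  obtain ⟨A, h1, h2⟩ := h
  obtain ⟨A', h1', h2'⟩ := h'
  intro u a b v c d
  have c1 : (I.filter fun i => u ∈ A' i).card ≤ 1 := card_le_one.2 fun i hi j hj => by
    by_contra e
    rw [mem_filter] at hi hj
    exact b (h2' i hi.1 j hj.1 e ▸ mem_inter.2 ⟨hi.2, hj.2⟩)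
  have c2 : (I.filter fun i => v ∈ A i).card ≤ 1 := card_le_one.2 fun i hi j hj => by
    by_contra e
    rw [mem_filter] at hi hj
    exact d (h2 i hi.1 j hj.1 e ▸ mem_inter.2 ⟨hi.2, hj.2⟩)
  obtain ⟨i, hi, hn⟩ := exists_mem_notMem_of_card_lt_card
    (s := (I.filter fun i => u ∈ A' i) ∪ I.filter fun i => v ∈ A i) (t := I)
    (by have := card_union_le (I.filter fun i => u ∈ A' i) (I.filter fun i => v ∈ A i); omega)
  simp only [mem_union, mem_filter, hi, true_and, not_or] at hn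
  exact ((h1 i hi).same (h1' i hi)).2.2 u (h2.sub hI hi a) hn.1 v (h2'.sub hI hi c) hn.2

theorem four_cores (hI : I.card = 5) {c : Fin 4 → Finset (Nd Z Y)} (h : ∀ s, N.IsCore z I (c s)) :
    (∀ X, N.ok z ∅ X → univ.biUnion c ⊆ X → N.k z (univ.biUnion c) ≤ N.k z X) ∧
    ∀ α ∈ I, ∀ β ∈ I, α ≠ β →
      N.k z (univ.biUnion c) ≤ N.g {α} z + N.g {β} z - N.g {α, β} z := by
  choose A h1 h2 using h
  have o : ∀ i ∈ I, N.Opt z {i} (A 0 i ∪ A 1 i ∪ A 2 i ∪ A 3 i) := fun i hi =>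
    (((((h1 0 i hi).same (h1 1 i hi)).2.1.same (h1 2 i hi)).2.1).same (h1 3 i hi)).2.1
  have m : ∀ i y, y ∈ A 0 i ∪ A 1 i ∪ A 2 i ∪ A 3 i ↔ ∃ s, y ∈ A s i := fun i y => by
    simp [Fin.exists_fin_succ]
  have sub : ∀ i ∈ I, univ.biUnion c ⊆ A 0 i ∪ A 1 i ∪ A 2 i ∪ A 3 i := fun i hi y hy => by
    obtain ⟨s, -, hs⟩ := mem_biUnion.1 hy
    exact (m i y).2 ⟨s, (h2 s).sub hI hi hs⟩
  have k1 : ∀ X, N.ok z ∅ X → univ.biUnion c ⊆ X → N.k z (univ.biUnion c) ≤ N.k z X := by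
    intro X hX hs
    have ind : ∀ J ⊆ I, ∃ X', N.ok z ∅ X' ∧ N.k z X' ≤ N.k z X ∧ univ.biUnion c ⊆ X' ∧
        ∀ i ∈ J, X' ⊆ A 0 i ∪ A 1 i ∪ A 2 i ∪ A 3 i := by
      intro J
      induction J using Finset.induction_on with
      | empty => exact fun _ => ⟨X, hX, le_rfl, hs, by simp⟩
      | insert i J _ ih =>
        intro hJ
        obtain ⟨X', a1, a2, a3, a4⟩ := ih ((subset_insert _ _).trans hJ)
        have hi := hJ (mem_insert_self i J)
        refine ⟨_, a1.inter_left (o i hi).1, ((o i hi).sl a1).trans a2,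
          subset_inter a3 (sub i hi), fun j hj => ?_⟩
        rcases mem_insert.1 hj with rfl | hj
        · exact inter_subset_right
        · exact inter_subset_left.trans (a4 j hj)
    obtain ⟨X', -, a2, a3, a4⟩ := ind I Subset.rfl
    refine le_of_eq_of_le (congrArg _ (Subset.antisymm a3 fun y hy => ?_)) a2
    choose! s hs using fun i hi => (m i y).1 (a4 i hi hy)
    obtain ⟨i, hi, j, hj, e, e'⟩ := exists_ne_map_eq_of_card_lt_of_maps_to (s := I)
      (t := (univ : Finset (Fin 4))) (by simp [hI]) (f := s) fun _ _ => by simp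
    refine mem_biUnion.2 ⟨s i, mem_univ _, ?_⟩
    rw [← h2 (s i) i hi j hj e]
    exact mem_inter.2 ⟨hs i hi, e' ▸ hs j hj⟩
  exact ⟨k1, fun α ha β hb e => (k1 _ ((o α ha).1.pair (o β hb).1 e)
    (subset_inter (sub α ha) (sub β hb))).trans ((o α ha).pair (o β hb))⟩

theorem two_cores (hI : I.card = 5) (h : N.IsCore z I C) (h' : N.IsCore z I C') :
    (∀ X, N.ok z ∅ X → C ∪ C' ⊆ X → N.k z (C ∪ C') ≤ N.k z X) ∧
    ∀ α ∈ I, ∀ β ∈ I, α ≠ β → N.k z (C ∪ C') ≤ N.g {α} z + N.g {β} z - N.g {α, β} z := by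
  have := four_cores hI (c := ![C, C', C', C']) fun s => by fin_cases s <;> assumption
  rwa [show univ.biUnion ![C, C', C', C'] = C ∪ C' by ext y; simp [Fin.exists_fin_succ]] at this

theorem k_pos (h : N.ok z ∅ X) (hX : X.Nonempty) : 0 < N.k z X :=
  not_le.1 fun c => hX.ne_empty (h.eq_empty c)

theorem nonempty_of_k (h : 0 < N.k z X) : X.Nonempty :=
  nonempty_iff_ne_empty.2 fun e => by rw [e, k, kap_empty] at h; exact lt_irrefl _ h

theorem replace (hI : I.card = 5) (hL : N.IsCore z I L) (h : N.IsCore z I C) (h' : N.IsCore z I C')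
    (e : N.k z (C ∪ C') ≤ N.k z C') (s : L ⊆ C) (n : L.Nonempty) : (L ∩ C').Nonempty := by
  have a1 := (two_cores hI hL h').1 _ ((h.ok hI).union_right (h'.ok hI))
    (union_subset_union_left s)
  have a2 := (hL.noE h' hI).modular (w := N.wt z)
  have a3 := k_pos (hL.ok hI) n
  exact nonempty_of_k (N := N) (z := z) (by unfold k at *; linarith)

theorem partition (hI : I.card = 5) {C1 C2 C3 : Finset (Nd Z Y)} (hL : N.IsCore z I L)
    (h1 : N.IsCore z I C1) (h2 : N.IsCore z I C2) (h3 : N.IsCore z I C3) (k1 : N.k z C1 = 1)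
    (k2 : N.k z C2 = 1) (k3 : N.k z C3 = 1) (d12 : C1 ∩ C2 = ∅) (d13 : C1 ∩ C3 = ∅)
    (d23 : C2 ∩ C3 = ∅) (ha : α ∈ I) (hb : β ∈ I) (e : α ≠ β)
    (t : N.g {α} z + N.g {β} z - N.g {α, β} z ≤ 3) (n : L.Nonempty) :
    ((C1 ∪ C2 ∪ C3) ∩ L).Nonempty := by
  have a1 := (four_cores hI (c := ![C1, C2, C3, L])
    fun s => by fin_cases s <;> assumption).2 α ha β hb e
  rw [show univ.biUnion ![C1, C2, C3, L] = C1 ∪ C2 ∪ C3 ∪ L by
    ext y; simp [Fin.exists_fin_succ]] at a1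
  have un : ∀ {A B C : Finset (Nd Z Y)}, NoE N.e A C → NoE N.e B C → NoE N.e (A ∪ B) C :=
    fun h h' u a b v c d => by
      rw [mem_union, not_or] at d
      exact (mem_union.1 a).elim (fun a => h u a b v c d.1) fun a => h' u a b v c d.2
  have a2 := (h1.noE h2 hI).modular (w := N.wt z)
  have a3 := (un (h1.noE h3 hI) (h2.noE h3 hI)).modular (w := N.wt z)
  have a4 := (un (un (h1.noE hL hI) (h2.noE hL hI)) (h3.noE hL hI)).modular (w := N.wt z)
  rw [d12, kap_empty] at a2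
  rw [union_inter_distrib_right, d13, d23, union_empty, kap_empty] at a3
  have a5 := k_pos (hL.ok hI) n
  exact nonempty_of_k (N := N) (z := z) (by unfold k at *; linarith)

theorem exists_common {ι : Type} (F : Finset ι) (hF : F.Nonempty) {c : ι → Finset (Nd Z Y)}
    (h : ∀ a ∈ F, N.IsCore z I (c a)) {y : Nd Z Y} (hy : ∀ a ∈ F, y ∈ c a) :
    ∃ L, N.IsCore z I L ∧ y ∈ L ∧ ∀ a ∈ F, L ⊆ c a := by
  classical
  induction hF using Finset.Nonempty.cons_induction with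
  | singleton a => exact ⟨c a, h a (by simp), hy a (by simp), by simp⟩
  | cons a F ha _ ih =>
    obtain ⟨L, a1, a2, a3⟩ := ih (fun b hb => h b (by simp [hb])) fun b hb => hy b (by simp [hb])
    refine ⟨L ∩ c a, a1.inter (h a (by simp)), mem_inter.2 ⟨a2, hy a (by simp)⟩, fun b hb => ?_⟩
    rcases mem_cons.1 hb with rfl | hb
    · exact inter_subset_right
    · exact inter_subset_left.trans (a3 b hb)

theorem replace_all (hI : I.card = 5) {ι : Type} (F : Finset ι) {c c' : ι → Finset (Nd Z Y)}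
    (h : ∀ a ∈ F, N.IsCore z I (c a)) (h' : ∀ a ∈ F, N.IsCore z I (c' a))
    (e : ∀ a ∈ F, N.k z (c a ∪ c' a) ≤ N.k z (c' a)) (hy : ∃ y, ∀ a ∈ F, y ∈ c a) :
    ∃ y, ∀ a ∈ F, y ∈ c' a := by
  classical
  obtain ⟨y, hy⟩ := hy
  rcases F.eq_empty_or_nonempty with rfl | hF
  · exact ⟨y, by simp⟩
  obtain ⟨L, a1, a2, a3⟩ := exists_common F hF h hy
  have ind : ∀ G ⊆ F, ∃ L', N.IsCore z I L' ∧ L'.Nonempty ∧ L' ⊆ L ∧ ∀ a ∈ G, L' ⊆ c' a := by
    intro G
    induction G using Finset.induction_on with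
    | empty => exact fun _ => ⟨L, a1, ⟨y, a2⟩, Subset.rfl, by simp⟩
    | insert a G _ ih =>
      intro hG
      obtain ⟨L', b1, b2, b3, b4⟩ := ih ((subset_insert _ _).trans hG)
      have ha := hG (mem_insert_self a G)
      refine ⟨L' ∩ c' a, b1.inter (h' a ha),
        replace hI b1 (h a ha) (h' a ha) (e a ha) (b3.trans (a3 a ha)) b2,
        inter_subset_left.trans b3, fun b hb => ?_⟩
      rcases mem_insert.1 hb with rfl | hb
      · exact inter_subset_right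
      · exact inter_subset_left.trans (b4 b hb)
  obtain ⟨L', -, ⟨y', hy'⟩, -, b4⟩ := ind F Subset.rfl
  exact ⟨y', fun a ha => b4 a ha hy'⟩

theorem square {x y : Z → Bool} {B B' : Finset (Nd Z Y)} (h1 : N.Opt x {α} A) (h2 : N.Opt x {β} B)
    (h1' : N.Opt y {α} A') (h2' : N.Opt y {β} B') (e : α ≠ β)
    (m : N.vl ∅ x + N.vl ∅ y = N.vl ∅ (x ⊓ y) + N.vl ∅ (x ⊔ y))
    (s : ∀ i, N.g {i} x = 0 ∧ N.g {i} y = 0 ∧ N.g {i} (x ⊓ y) = 0 ∧ N.g {i} (x ⊔ y) = 0)
    (p : N.g {α, β} (x ⊓ y) = 0) : A ∩ B ∩ (A' ∩ B') = ∅ := by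
  have key : ∀ {i : Fin 10} {A A' : Finset (Nd Z Y)}, N.Opt x {i} A → N.Opt y {i} A' →
      N.Opt (x ⊓ y) {i} (((N.bs x ∪ A) ∩ (N.bs y ∪ A')) \ N.bs (x ⊓ y)) := by
    intro i A A' h h'
    have := (h.fo.tight h'.fo (by
      obtain ⟨s1, s2, s3, s4⟩ := s i
      rw [inter_self, union_self]
      unfold g at s1 s2 s3 s4
      linarith)).1
    rw [inter_self] at this
    exact this.opt (subset_inter ((bs_mono inf_le_left).trans subset_union_left)
      ((bs_mono inf_le_right).trans subset_union_left))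
  have a1 := key h1 h1'
  have a2 := key h2 h2'
  have a3 := a1.pair a2
  rw [(s α).2.2.1, (s β).2.2.1, p] at a3
  have a4 := (a1.1.pair a2.1 e).eq_empty (by linarith)
  refine eq_empty_of_forall_notMem fun w hw => ?_
  simp only [mem_inter] at hw
  have hn : w ∉ N.bs (x ⊓ y) := fun c => disjoint_left.1 h1.1.1 hw.1.1 (bs_mono inf_le_left c)
  refine notMem_empty w (a4 ▸ ?_)
  simp [hw.1.1, hw.1.2, hw.2.1, hw.2.2, hn]

end Pool.Agent.Lib.MP_cb9cb0_lc.X.Snd.Net
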