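import Pool.Agent.Lib.MP_cb9cb0_lc.X.SndB

/-!
Soundness: a network for the function yields a model.
-/

set_option autoImplicit false
set_option linter.unusedSectionVars false

namespace Pool.Agent.Lib.MP_cb9cb0_lc.X

open Finset Function Snd Snd.Net

namespace Snd

def UU : Finset (Fin 10) := {0, 1, 2, 3, 4}
def VV : Finset (Fin 10) := {5, 6, 7, 8, 9}

theorem mem_UU : ∀ i : Fin 10, i ∈ UU ↔ i < 5 := by decide
theorem mem_VV : ∀ i : Fin 10, i ∈ VV ↔ 5 ≤ i := by decide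
theorem card_UU : UU.card = 5 := by decide
theorem card_VV : VV.card = 5 := by decide

variable {Z Y : Type} [Fintype Z] [Fintype Y] [DecidableEq Z] [DecidableEq Y] {N : Net Z Y}
  {M : ℚ} {X : (Z → Bool) → Prop} {bit : Fin 9 → Z}

/-- values of the network on the region -/
def Val (N : Net Z Y) (M : ℚ) (X : (Z → Bool) → Prop) (bit : Fin 9 → Z) : Prop :=
  H0St ∧ ∀ z, X z → ∀ S, N.g S z = h0 M (ind S) (z ∘ bit)

namespace Val
variable (V : Val N M X bit) {z z' : Z → Bool}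
include V

theorem one (hz : X z) (i : Fin 10) : N.g {i} z = 0 := by rw [V.2 z hz, (V.1 M _).2.1]

theorem pU (hz : X z) {i j : Fin 10} (hi : i ∈ UU) (hj : j ∈ UU) (e : i ≠ j) :
    N.g {i, j} z = - muU (z ∘ bit) := by
  rw [V.2 z hz, (V.1 M _).2.2.1 i j e ((mem_UU i).1 hi) ((mem_UU j).1 hj)]

theorem pV (hz : X z) {i j : Fin 10} (hi : i ∈ VV) (hj : j ∈ VV) (e : i ≠ j) :
    N.g {i, j} z = - muV (z ∘ bit) := by
  rw [V.2 z hz, (V.1 M _).2.2.2.1 i j e ((mem_VV i).1 hi) ((mem_VV j).1 hj)]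

theorem pM (hz : X z) (ha : z (bit 5) = false) {i j : Fin 10} (hi : i < 5) (hj : 5 ≤ j) :
    N.g {i, j} z = - muV (z ∘ bit) := by
  rw [V.2 z hz, (V.1 M _).2.2.2.2.1 i j hi hj ha]

theorem move {K : Bt → Bt → Prop} {I : Finset (Fin 10)} {α β : Fin 10}
    (hK : ∀ z z', X z → X z' → K (z ∘ bit) (z' ∘ bit) →
      ∀ x ∈ I, N.g {α, x} z' = N.g {α, x} z ∧ N.g {β, x} z' = N.g {β, x} z)
    (h : Rl X bit K z z') {A : Fin 10 → Finset (Nd Z Y)} {w : Nd Z Y → ℚ}
    (hl : N.Live z I α β A w) : N.Live z' I α β A w := by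
  induction h with
  | refl => exact hl
  | tail _ st ih =>
    obtain ⟨x1, x2, h | ⟨h, k⟩⟩ := st
    · exact ih.up h fun i => by rw [V.one x1, V.one x2]
    · exact ih.down h (fun i => by rw [V.one x1, V.one x2]) (hK _ _ x1 x2 k)

theorem moveU (h : Rl X bit KU z z') {A : Fin 10 → Finset (Nd Z Y)} {w : Nd Z Y → ℚ}
    (hl : N.Live z UU 0 1 A w) : N.Live z' UU 0 1 A w := by
  refine V.move (fun z z' x1 x2 k x hx => ?_) h hl
  have : ∀ a ∈ UU, N.g {a, x} z' = N.g {a, x} z := fun a ha => by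
    by_cases e : a = x
    · rw [e, pair_eq_singleton, V.one x1, V.one x2]
    · rw [V.pU x1 ha hx e, V.pU x2 ha hx e, show muU (z ∘ bit) = _ from k]
  exact ⟨this 0 (by decide), this 1 (by decide)⟩

theorem moveV (h : Rl X bit KV z z') {A : Fin 10 → Finset (Nd Z Y)} {w : Nd Z Y → ℚ}
    (hl : N.Live z VV 5 6 A w) : N.Live z' VV 5 6 A w := by
  refine V.move (fun z z' x1 x2 k x hx => ?_) h hl
  have : ∀ a ∈ VV, N.g {a, x} z' = N.g {a, x} z := fun a ha => by
    by_cases e : a = x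
    · rw [e, pair_eq_singleton, V.one x1, V.one x2]
    · rw [V.pV x1 ha hx e, V.pV x2 ha hx e, show muV (z ∘ bit) = _ from k]
  exact ⟨this 5 (by decide), this 6 (by decide)⟩

theorem moveM (h : Rl X bit KM z z') {A : Fin 10 → Finset (Nd Z Y)} {w : Nd Z Y → ℚ}
    (hl : N.Live z univ 0 1 A w) : N.Live z' univ 0 1 A w := by
  refine V.move (fun z z' x1 x2 k x _ => ?_) h hl
  have : ∀ a ∈ UU, N.g {a, x} z' = N.g {a, x} z := fun a ha => by
    by_cases e : a = x
    · rw [e, pair_eq_singleton, V.one x1, V.one x2]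
    by_cases hx : x < 5
    · rw [V.pU x1 ha ((mem_UU x).2 hx) e, V.pU x2 ha ((mem_UU x).2 hx) e, k.1]
    · rw [V.pM x1 k.2.2.1 ((mem_UU a).1 ha) (not_lt.1 hx),
        V.pM x2 k.2.2.2 ((mem_UU a).1 ha) (not_lt.1 hx), k.2.1]
  exact ⟨this 0 (by decide), this 1 (by decide)⟩

theorem coreU (hz : X z) (h1 : muU (z ∘ bit) = 1) :
    ∃ A C, N.Live z UU 0 1 A (N.wt z) ∧ Star UU A C ∧ N.k z C = 1 :=
  exists_core (x0 := 2) (by decide) (by decide) (by decide) (by decide) (by decide) (by decide)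
    (V.one hz) (fun i hi j hj e => by rw [V.pU hz hi hj e, h1]) fun x hx a b => by
      rw [V.2 z hz, (V.1 M _).2.2.2.2.2.1 x (by revert x; decide) ((mem_UU x).1 hx), h1]

theorem coreV (hz : X z) (h1 : muV (z ∘ bit) = 1) :
    ∃ A C, N.Live z VV 5 6 A (N.wt z) ∧ Star VV A C ∧ N.k z C = 1 :=
  exists_core (x0 := 7) (by decide) (by decide) (by decide) (by decide) (by decide) (by decide)
    (V.one hz) (fun i hi j hj e => by rw [V.pV hz hi hj e, h1]) fun x hx a b => by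
      rw [V.2 z hz, (V.1 M _).2.2.2.2.2.2.1 x (by revert x; decide), h1]

theorem coreM (hz : X z) (h1 : muU (z ∘ bit) = 1) (h2 : muV (z ∘ bit) = 1)
    (ha : z (bit 5) = false) :
    ∃ A C, N.Live z univ 0 1 A (N.wt z) ∧ Star univ A C ∧ N.k z C = 1 := by
  refine exists_core (x0 := 2) (by decide) (by decide) (by decide) (by decide) (by decide)
    (by decide) (V.one hz) (fun i _ j _ e => ?_) fun x _ a b => ?_
  · by_cases hi : i < 5 <;> by_cases hj : j < 5
    · rw [V.pU hz ((mem_UU i).2 hi) ((mem_UU j).2 hj) e, h1]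
    · rw [V.pM hz ha hi (not_lt.1 hj), h2]
    · rw [pair_comm, V.pM hz ha hj (not_lt.1 hi), h2]
    · rw [V.pV hz ((mem_VV i).2 (not_lt.1 hi)) ((mem_VV j).2 (not_lt.1 hj)) e, h2]
  · by_cases hx : x < 5
    · rw [V.2 z hz, (V.1 M _).2.2.2.2.2.1 x (by revert x; decide) hx, h1]
    · rw [V.2 z hz, (V.1 M _).2.2.2.2.2.2.2.1 x (not_lt.1 hx) ha, h1, h2]
      norm_num

end Val

theorem live_core {z : Z → Bool} {I : Finset (Fin 10)} {α β : Fin 10}
    {A : Fin 10 → Finset (Nd Z Y)} {w : Nd Z Y → ℚ} {C : Finset (Nd Z Y)}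
    (h : N.Live z I α β A w) (s : Star I A C) : N.IsCore z I C := ⟨A, fun i hi => (h i hi).1, s⟩

theorem live_wt {z : Z → Bool} {I : Finset (Fin 10)} {α β : Fin 10}
    {A : Fin 10 → Finset (Nd Z Y)} {w : Nd Z Y → ℚ} {C : Finset (Nd Z Y)}
    (h : N.Live z I α β A w) (s : Star I A C) (ha : α ∈ I) (hb : β ∈ I) (e : α ≠ β) :
    ∀ y ∈ C, N.wt z y = w y := fun y hy =>
  (h α ha).2.2 y (inter_subset_left (s α ha β hb e ▸ hy))

/-- two cores of the two registers which agree with a common core -/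
def Brg (N : Net Z Y) (z : Z → Bool) (C C' : Finset (Nd Z Y)) : Prop :=
  ∃ D, N.IsCore z UU C ∧ N.IsCore z VV C' ∧ N.IsCore z univ D ∧ N.k z C = 1 ∧ N.k z C' = 1 ∧
    N.k z D = 1 ∧ N.k z (C ∪ D) ≤ 1 ∧ N.k z (C' ∪ D) ≤ 1

theorem Val.brg (V : Val N M X bit) {x y z m : Z → Bool} (hm : Mrg X bit x y z m)
    (hx : Rl X bit KU x z) (hy : Rl X bit KV y z) {A A' : Fin 10 → Finset (Nd Z Y)}
    {C C' : Finset (Nd Z Y)} (l : N.Live x UU 0 1 A (N.wt x)) (s : Star UU A C) (k1 : N.k x C = 1)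
    (l' : N.Live y VV 5 6 A' (N.wt y)) (s' : Star VV A' C') (k1' : N.k y C' = 1) :
    Brg N z C C' := by
  obtain ⟨xm, m1, m2, m3, r1, r2, r3⟩ := hm
  obtain ⟨B, D, lB, sB, kB⟩ := V.coreM xm m1 m2 m3
  have w1 := live_wt (V.moveU hx l) s (by decide) (by decide) (by decide)
  have w2 := live_wt (V.moveU r1 l) s (by decide) (by decide) (by decide)
  have w3 := live_wt (V.moveV hy l') s' (by decide) (by decide) (by decide)
  have w4 := live_wt (V.moveV r2 l') s' (by decide) (by decide) (by decide)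
  have w5 := live_wt (V.moveM r3 lB) sB (by decide) (by decide) (by decide)
  have u1 := (two_cores card_UU (live_core (V.moveU r1 l) s)
    ((live_core lB sB).mono (subset_univ _))).2 0 (by decide) 1 (by decide) (by decide)
  have u2 := (two_cores card_VV (live_core (V.moveV r2 l') s')
    ((live_core lB sB).mono (subset_univ _))).2 5 (by decide) 6 (by decide) (by decide)
  rw [V.one xm, V.one xm, V.pU xm (by decide) (by decide) (by decide), m1] at u1
  rw [V.one xm, V.one xm, V.pV xm (by decide) (by decide) (by decide), m2] at u2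
  refine ⟨D, live_core (V.moveU hx l) s, live_core (V.moveV hy l') s',
    live_core (V.moveM r3 lB) sB, (kap_congr w1).trans k1, (kap_congr w3).trans k1',
    (kap_congr w5).trans kB, le_of_eq_of_le (kap_congr fun u hu => ?_) (u1.trans (by norm_num)),
    le_of_eq_of_le (kap_congr fun u hu => ?_) (u2.trans (by norm_num))⟩
  · exact (mem_union.1 hu).elim (fun h => (w1 u h).trans (w2 u h).symm) (w5 u)
  · exact (mem_union.1 hu).elim (fun h => (w3 u h).trans (w4 u h).symm) (w5 u)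

theorem brg_iff {z : Z → Bool} {ι : Type} (F : Finset ι) {c c' : ι → Finset (Nd Z Y)}
    (h : ∀ a ∈ F, Brg N z (c a) (c' a)) :
    (∃ y, ∀ a ∈ F, y ∈ c a) ↔ ∃ y, ∀ a ∈ F, y ∈ c' a := by
  choose! D h1 h2 h3 k1 k2 k3 u1 u2 using h
  have dU := fun a ha => (h3 a ha).mono (subset_univ UU)
  have dV := fun a ha => (h3 a ha).mono (subset_univ VV)
  exact ⟨fun h => replace_all card_VV F dV h2
      (fun a ha => by rw [union_comm, k2 a ha]; exact u2 a ha)
      (replace_all card_UU F h1 dU (fun a ha => by rw [k3 a ha]; exact u1 a ha) h),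
    fun h => replace_all card_UU F dU h1 (fun a ha => by rw [union_comm, k1 a ha]; exact u1 a ha)
      (replace_all card_VV F h2 dV (fun a ha => by rw [k3 a ha]; exact u2 a ha) h)⟩

theorem model_of {ν : Type} [Fintype ν] [DecidableEq ν] {R : Fin 4 → ν → ν → Prop}
    (P : Finset ν → Prop) (p0 : P ∅) (pm : ∀ F G, F ⊆ G → P G → P F) (p1 : ∀ a, P {a})
    (pd : ∀ a b, R 3 a b → ¬ P {a, b})
    (pe : ∀ F a b c, F.Nonempty → P F → R 3 a b → R 3 a c → R 3 b c →
      P (insert a F) ∨ P (insert b F) ∨ P (insert c F))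
    (pt : ∀ (j : Fin 3) (E : Finset (ν × ν)), (∀ x ∈ E, R j.castSucc x.1 x.2) →
      (P (E.image Prod.fst) ↔ P (E.image Prod.snd))) : Model R := by
  classical
  have ext : ∀ F, P F → ∃ G, F ⊆ G ∧ P G ∧ ∀ a, P (insert a G) → a ∈ G := fun F hF => by
    obtain ⟨G, hG, hm⟩ := exists_max_image (univ.filter fun G => F ⊆ G ∧ P G) card
      ⟨F, mem_filter.2 ⟨mem_univ _, Subset.rfl, hF⟩⟩
    obtain ⟨h1, h2⟩ := (mem_filter.1 hG).2
    refine ⟨G, h1, h2, fun a ha => ?_⟩
    have := eq_of_subset_of_card_le (subset_insert a G)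
      (hm _ (mem_filter.2 ⟨mem_univ _, h1.trans (subset_insert _ _), ha⟩))
    exact this ▸ mem_insert_self a G
  refine ⟨{ω | ∃ G : Finset ν, ω = ↑G ∧ P G ∧ ∀ a, P (insert a G) → a ∈ G}, ?_, ?_⟩
  · obtain ⟨G, -, h⟩ := ext ∅ p0
    exact ⟨_, G, rfl, h⟩
  rintro _ ⟨G, rfl, g1, g2⟩
  refine ⟨fun a ha b hb r => pd a b r (pm _ _ ?_ g1), fun a b c r1 r2 r3 => ?_, fun j => ⟨?_, ?_⟩⟩
  · exact insert_subset ha (singleton_subset_iff.2 hb)
  · rcases G.eq_empty_or_nonempty with rfl | hG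
    · exact Or.inl (g2 a (by simpa using p1 a))
    · exact (pe G a b c hG g1 r1 r2 r3).imp (g2 a) (Or.imp (g2 b) (g2 c))
  · obtain ⟨G', h1, h2⟩ := ext _ ((pt j (univ.filter fun x => R j.castSucc x.1 x.2 ∧ x.1 ∈ G)
      fun x hx => (mem_filter.1 hx).2.1).1 (pm _ _ (image_subset_iff.2 fun x hx =>
        (mem_filter.1 hx).2.2) g1))
    exact ⟨_, ⟨G', rfl, h2⟩, fun a b r ha =>
      h1 (mem_image.2 ⟨(a, b), mem_filter.2 ⟨mem_univ _, r, ha⟩, rfl⟩)⟩
  · obtain ⟨G', h1, h2⟩ := ext _ ((pt j (univ.filter fun x => R j.castSucc x.1 x.2 ∧ x.2 ∈ G)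
      fun x hx => (mem_filter.1 hx).2.1).2 (pm _ _ (image_subset_iff.2 fun x hx =>
        (mem_filter.1 hx).2.2) g1))
    exact ⟨_, ⟨G', rfl, h2⟩, fun a b r hb =>
      h1 (mem_image.2 ⟨(a, b), mem_filter.2 ⟨mem_univ _, r, hb⟩, rfl⟩)⟩

end Snd

theorem soundSt (h0s : H0St) : SoundSt := by
  intro Z ν _ _ M X bit f R hf hv r0
    ⟨hp, hq, hv', zs, x1, x2, x3, xz, z3, r1, r2, r3, m1, m2, sq⟩
  classical
  obtain ⟨Y, _, _, N, c0, hN⟩ := exists_net hf
  have e0 : ind ∅ = fun _ => false := funext fun i => by simp [ind]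
  have V : Val N M X bit := ⟨h0s, fun z hz S => by rw [Net.g, hN, hN, hv z hz, e0]; ring⟩
  choose Ap Cp lp sp kp using fun n => V.coreU (x1 n).1 (x1 n).2
  choose Aq Cq lq sq' kq using fun n => V.coreU (x2 n).1 (x2 n).2
  choose Av Cv lv sv kv using fun n => V.coreV (x3 n).1 (x3 n).2
  have b1 : ∀ (j : Fin 3) a b, R j.castSucc a b → Brg N (zs j) (Cp a) (Cv b) := fun j a b r =>
    let ⟨_, hm⟩ := m1 j a b r
    V.brg hm (r1 a j) (r3 b j) (lp a) (sp a) (kp a) (lv b) (sv b) (kv b)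
  have b2 : ∀ n, Brg N (zs 0) (Cq n) (Cv n) := fun n =>
    let ⟨_, hm⟩ := m2 n
    V.brg hm (r2 n) (r3 n 0) (lq n) (sq' n) (kq n) (lv n) (sv n) (kv n)
  have b0 : ∀ a, Brg N (zs 0) (Cp a) (Cv a) := fun a => b1 0 a a (r0 a)
  have dj : ∀ a b, R 3 a b → Cp a ∩ Cp b = ∅ := fun a b r => by
    obtain ⟨x, y, y1, y2, y3, y4, y5, y6, y7, y8⟩ := sq a b r
    have l1 := V.moveU y7 (lp a)
    have l2 := V.moveU y8 (lq b)
    have := square (l1 0 (by decide)).1 (l1 1 (by decide)).1 (l2 0 (by decide)).1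
      (l2 1 (by decide)).1 (by decide) (by simp only [hN, e0]; linarith)
      (fun i => ⟨V.one y1 i, V.one y2 i, V.one y3 i, V.one y4 i⟩)
      (by rw [V.pU y3 (by decide) (by decide) (by decide), y5, neg_zero])
    rw [sp a 0 (by decide) 1 (by decide) (by decide),
      sq' b 0 (by decide) 1 (by decide) (by decide)] at this
    refine eq_empty_of_forall_notMem fun w hw => ?_
    obtain ⟨u, hu⟩ := (brg_iff (univ : Finset Bool) (c := fun t => bif t then Cp a else Cq b)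
      (c' := fun t => bif t then Cv a else Cv b)
      fun t _ => by cases t; exacts [b2 b, b0 a]).2
      ((brg_iff (univ : Finset Bool) (c := fun t => bif t then Cp a else Cp b)
        (c' := fun t => bif t then Cv a else Cv b)
        fun t _ => by cases t; exacts [b0 b, b0 a]).1
        ⟨w, fun t _ => by cases t; exacts [(mem_inter.1 hw).2, (mem_inter.1 hw).1]⟩)
    exact notMem_empty u (this ▸ mem_inter.2 ⟨hu true (mem_univ _), hu false (mem_univ _)⟩)
  have cz : ∀ a, N.IsCore (zs 0) UU (Cp a) ∧ N.k (zs 0) (Cp a) = 1 := fun a =>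
    let ⟨_, h⟩ := b0 a
    ⟨h.1, h.2.2.2.1⟩
  refine model_of (fun F => ∃ y, ∀ a ∈ F, y ∈ Cp a) ⟨Sum.inl (Sum.inl 0), by simp⟩
    (fun F G h ⟨y, hy⟩ => ⟨y, fun a ha => hy a (h ha)⟩) (fun a => ?_) ?_ ?_ fun j E hE => ?_
  · obtain ⟨y, hy⟩ := nonempty_of_k (N := N) (z := zs 0) (X := Cp a) (by rw [(cz a).2]; norm_num)
    exact ⟨y, by simpa using hy⟩
  · rintro a b r ⟨y, hy⟩
    exact notMem_empty y (dj a b r ▸ mem_inter.2 ⟨hy a (by simp), hy b (by simp)⟩)
  · rintro F a b c hF ⟨y, hy⟩ ab ac bc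
    obtain ⟨L, l1, l2, l3⟩ := exists_common F hF (fun a _ => (cz a).1) hy
    obtain ⟨u, hu⟩ := partition (α := 0) (β := 1) card_UU l1 (cz a).1 (cz b).1 (cz c).1 (cz a).2
      (cz b).2 (cz c).2 (dj a b ab) (dj a c ac) (dj b c bc) (by decide) (by decide) (by decide)
      (by
        rw [V.one (xz 0), V.one (xz 0), V.pU (xz 0) (by decide) (by decide) (by decide), z3]
        norm_num) ⟨y, l2⟩
    have key : ∀ d, u ∈ Cp d → ∃ y, ∀ n ∈ insert d F, y ∈ Cp n := fun d hd => ⟨u, fun n hn => by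
      rcases mem_insert.1 hn with rfl | hn
      · exact hd
      · exact l3 n hn (mem_inter.1 hu).2⟩
    rcases mem_union.1 (mem_inter.1 hu).1 with h | h
    · exact (mem_union.1 h).elim (fun h => Or.inl (key a h)) fun h => Or.inr (Or.inl (key b h))
    · exact Or.inr (Or.inr (key c h))
  · have t1 := brg_iff E (c := fun x => Cp x.1) (c' := fun x => Cv x.2)
      fun x hx => b1 j _ _ (hE x hx)
    have t2 := brg_iff E (c := fun x => Cp x.2) (c' := fun x => Cv x.2) fun x _ => b0 _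
    simp only [forall_mem_image]
    exact t1.trans t2.symm

end Pool.Agent.Lib.MP_cb9cb0_lc.X
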