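import Pool.Agent.Lib.MP_cb9cb0_lc.X.Basic

/-!
The function of the reduction as a list of terms.
-/

set_option autoImplicit false

namespace Pool.Agent.Lib.MP_cb9cb0_lc.X

open Finset Function Pool.Agent.Lib.Complexity

namespace Trm

/-! ### calculus of lists of terms -/

def pmul (L L' : Poly ℕ) : Poly ℕ := L.flatMap fun t => L'.map fun u => (t.1 ++ u.1, t.2 * u.2)
def cst (c : ℤ) : Poly ℕ := [([], c)]
def lin (l : List ℕ) : Poly ℕ := l.map fun i => ([i], 1)
def ren (g : ℕ → ℕ) (L : Poly ℕ) : Poly ℕ := L.map fun t => (t.1.map g, t.2)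

theorem val_nil (x : ℕ → Bool) : val ([] : Poly ℕ) x = 0 := rfl

theorem val_append (L L' : Poly ℕ) (x : ℕ → Bool) : val (L ++ L') x = val L x + val L' x := by
  simp [val]

theorem val_cst (c : ℤ) (x : ℕ → Bool) : val (cst c) x = c := by simp [val, cst]

theorem val_lin (l : List ℕ) (x : ℕ → Bool) : val (lin l) x = (l.map fun i => bv (x i)).sum := by
  simp [val, lin, Function.comp_def]

theorem val_ren (g : ℕ → ℕ) (L : Poly ℕ) (x : ℕ → Bool) : val (ren g L) x = val L (x ∘ g) := by
  simp [val, ren, Function.comp_def]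

theorem val_flatMap {α : Type} (l : List α) (f : α → Poly ℕ) (x : ℕ → Bool) :
    val (l.flatMap f) x = (l.map fun a => val (f a) x).sum := by
  induction l with
  | nil => rfl
  | cons a l ih => rw [List.flatMap_cons, val_append, ih, List.map_cons, List.sum_cons]

theorem val_pmul (L L' : Poly ℕ) (x : ℕ → Bool) : val (pmul L L') x = val L x * val L' x := by
  rw [pmul, val_flatMap, val, ← List.sum_map_mul_right]
  congr 1
  refine List.map_congr_left fun t _ => ?_
  rw [val, val, List.map_map, ← List.sum_map_mul_left]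
  congr 1
  refine List.map_congr_left fun u _ => ?_
  simp only [comp_apply, List.map_append, List.prod_append]
  push_cast
  ring

/-- bounds for the degree and for the variables -/
def Deg (d n : ℕ) (L : Poly ℕ) : Prop := ∀ t ∈ L, t.1.length ≤ d ∧ ∀ i ∈ t.1, i < n

variable {d d' n n' : ℕ} {L L' : Poly ℕ}

theorem Deg.mono (h : Deg d n L) (e : d ≤ d') : Deg d' n L :=
  fun t ht => ⟨(h t ht).1.trans e, (h t ht).2⟩

theorem Deg.append (h : Deg d n L) (h' : Deg d n L') : Deg d n (L ++ L') :=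
  fun t ht => (List.mem_append.1 ht).elim (h t) (h' t)

theorem Deg.pmul (h : Deg d n L) (h' : Deg d' n L') : Deg (d + d') n (pmul L L') := by
  intro t ht
  obtain ⟨a, ha, ht⟩ := List.mem_flatMap.1 ht
  obtain ⟨b, hb, rfl⟩ := List.mem_map.1 ht
  refine ⟨?_, fun i hi => (List.mem_append.1 hi).elim ((h a ha).2 i) ((h' b hb).2 i)⟩
  rw [List.length_append]
  exact add_le_add (h a ha).1 (h' b hb).1

theorem deg_cst (d n : ℕ) (c : ℤ) : Deg d n (cst c) := by
  intro t ht
  rw [List.mem_singleton.1 ht]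
  simp

theorem deg_lin {l : List ℕ} (h : ∀ i ∈ l, i < n) : Deg 1 n (lin l) := by
  intro t ht
  obtain ⟨i, hi, rfl⟩ := List.mem_map.1 ht
  simpa using h i hi

theorem Deg.ren (h : Deg d n L) {g : ℕ → ℕ} (hg : ∀ i, g i < n') : Deg d n' (ren g L) := by
  intro t ht
  obtain ⟨a, ha, rfl⟩ := List.mem_map.1 ht
  refine ⟨by simpa using (h a ha).1, fun i hi => ?_⟩
  obtain ⟨j, -, rfl⟩ := List.mem_map.1 hi
  exact hg j

theorem deg_flatMap {α : Type} {l : List α} {f : α → Poly ℕ} (h : ∀ a, Deg d n (f a)) :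
    Deg d n (l.flatMap f) := by
  intro t ht
  obtain ⟨a, -, ht⟩ := List.mem_flatMap.1 ht
  exact h a t ht

/-! ### the constant part -/

def IsP (d : ℕ) (F : (ℕ → Bool) → ℚ) : Prop := ∃ L, Deg d 19 L ∧ ∀ x, val L x = F x

variable {F F' : (ℕ → Bool) → ℚ}

theorem IsP.mono (h : IsP d F) (e : d ≤ d') : IsP d' F :=
  let ⟨L, h1, h2⟩ := h; ⟨L, h1.mono e, h2⟩

theorem IsP.add (h : IsP d F) (h' : IsP d F') : IsP d fun x => F x + F' x :=
  let ⟨L, h1, h2⟩ := h; let ⟨L', k1, k2⟩ := h'
  ⟨L ++ L', h1.append k1, fun x => by rw [val_append, h2, k2]⟩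

theorem IsP.mul (h : IsP d F) (h' : IsP d' F') : IsP (d + d') fun x => F x * F' x :=
  let ⟨L, h1, h2⟩ := h; let ⟨L', k1, k2⟩ := h'
  ⟨pmul L L', h1.pmul k1, fun x => by rw [val_pmul, h2, k2]⟩

theorem isP_cst (d : ℕ) (c : ℤ) : IsP d fun _ => c := ⟨cst c, deg_cst _ _ _, val_cst c⟩

theorem IsP.of_eq (h : IsP d F) (e : ∀ x, F x = F' x) : IsP d F' := funext e ▸ h

theorem IsP.smul (h : IsP d F) (c : ℤ) : IsP d fun x => c * F x :=
  ((isP_cst 0 c).mul h).mono (by omega)

theorem IsP.neg (h : IsP d F) : IsP d fun x => - F x := (h.smul (-1)).of_eq fun x => by simp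

theorem isP_var {i : ℕ} (h : i < 19) : IsP 1 fun x => bv (x i) :=
  ⟨lin [i], deg_lin (by simpa using h), fun x => by simp [val_lin]⟩

theorem isP_sum {α : Type} (s : Finset α) {G : α → (ℕ → Bool) → ℚ} (h : ∀ a ∈ s, IsP d (G a)) :
    IsP d fun x => ∑ a ∈ s, G a x := by
  classical
  induction s using Finset.induction_on with
  | empty => exact (isP_cst d 0).of_eq fun x => by simp
  | insert a s ha ih =>
    exact ((h a (mem_insert_self _ _)).add (ih fun b hb => h b (mem_insert_of_mem hb))).of_eq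
      fun x => by rw [sum_insert ha]

theorem isP_prod {α : Type} (s : Finset α) {G : α → (ℕ → Bool) → ℚ} (h : ∀ a, IsP 1 (G a)) :
    IsP s.card fun x => ∏ a ∈ s, G a x := by
  classical
  induction s using Finset.induction_on with
  | empty => exact (isP_cst _ 1).of_eq fun x => by simp
  | insert a s ha ih =>
    rw [card_insert_of_notMem ha, add_comm]
    exact ((h a).mul ih).of_eq fun x => by rw [prod_insert ha]

theorem isP_a5 {G : Fin 5 → (ℕ → Bool) → ℚ} (h : ∀ i, IsP 1 (G i)) :
    IsP 3 fun x => a5 (G 0 x) (G 1 x) (G 2 x) (G 3 x) (G 4 x) := by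
  have m : ∀ i j, IsP 2 fun x => G i x * G j x := fun i j => (h i).mul (h j)
  exact (((((((((((m 0 1).add (m 0 2)).add (m 0 3)).add (m 0 4)).add (m 1 2)).add (m 1 3)).add
    (m 1 4)).add (m 2 3)).add (m 2 4)).add (m 3 4)).neg.mono (by omega)).add
    ((m 0 1).mul (((h 2).add (h 3)).add (h 4)))

theorem av_card {J : Finset (Fin 10 ⊕ Fin 9)} (h : Av J) : J.card ≤ 4 := by
  rw [← card_toLeft_add_card_toRight]
  rcases h with h | h | h | h
  · omega
  · rw [h.1, h.2.2.2]; simp
  · omega
  · rw [h.1, h.2]; simp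

theorem isP_h0 (M : ℕ) : IsP 4 fun x => h0 M (fun t => x t.val) fun k => x (10 + k.val) := by
  have s : ∀ t : Fin 10, IsP 1 fun x => bv (x t.val) := fun t => isP_var (by omega)
  have b : ∀ k : Fin 9, IsP 1 fun x => bv (x (10 + k.val)) := fun k => isP_var (by omega)
  have u : IsP 1 fun x => sU fun t => x t.val :=
    ((((s 0).add (s 1)).add (s 2)).add (s 3)).add (s 4)
  have v : IsP 1 fun x => sV fun t => x t.val :=
    ((((s 5).add (s 6)).add (s 7)).add (s 8)).add (s 9)
  have mu : IsP 1 fun x => muU fun k => x (10 + k.val) := ((b 0).add (b 1)).add (b 2)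
  have mv : IsP 1 fun x => muV fun k => x (10 + k.val) :=
    ((b 3).add ((b 4).smul 2)).of_eq fun x => by simp [muV]
  have au : IsP 3 fun x => aU fun t => x t.val := isP_a5 (G := fun i x => bv (x i.val))
    fun i => isP_var (by omega)
  have av : IsP 3 fun x => aV fun t => x t.val := isP_a5 (G := fun i x => bv (x (5 + i.val)))
    fun i => isP_var (by omega)
  have am : IsP 3 fun x => aM fun t => x t.val :=
    ((u.mul v).neg.mono (by omega)).add (((s 0).mul (s 1)).mul v)
  have sl : IsP 4 fun x => slack (fun t => x t.val) fun k => x (10 + k.val) :=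
    isP_sum _ fun J hJ => (isP_prod J (G := fun w x => bv (Sum.elim (fun t : Fin 10 => x t.val)
      (fun k : Fin 9 => x (10 + k.val)) w)) fun w => by
        cases w with
        | inl t => exact s t
        | inr k => exact b k).mono (av_card (mem_filter.1 hJ).2)
  exact (((mu.mul au).add (mv.mul (av.add am))).add (sl.smul M).neg).of_eq fun x => by
    simp [h0, sub_eq_add_neg]

/-! ### constraints -/

def sigP (f : W → ℕ) (c : ℕ × List W) : Poly ℕ := cst c.1 ++ lin (c.2.map f)
def pencP (f : W → ℕ) (c : ℕ × List W) : Poly ℕ :=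
  pmul (sigP f c ++ cst (-1)) (sigP f c ++ cst (-2))
def lamcP (f : W → ℕ) (c : ℕ × List W) : Poly ℕ :=
  pmul (pencP f c) (sigP f c ++ (sigP f c ++ cst (-3)))

theorem val_sigP (f : W → ℕ) (c : ℕ × List W) (x : ℕ → Bool) :
    val (sigP f c) x = sig c (x ∘ f) := by
  rw [sigP, val_append, val_cst, val_lin, sig]
  simp [bv_eq, Function.comp_def, Int.cast_list_sum]

theorem val_pencP (f : W → ℕ) (c : ℕ × List W) (x : ℕ → Bool) :
    val (pencP f c) x = penc c (x ∘ f) := by
  simp only [pencP, val_pmul, val_append, val_cst, val_sigP, penc]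
  push_cast
  ring

theorem val_lamcP (f : W → ℕ) (c : ℕ × List W) (x : ℕ → Bool) :
    val (lamcP f c) x = lamc c (x ∘ f) := by
  simp only [lamcP, val_pmul, val_append, val_cst, val_sigP, val_pencP, penc, lamc]
  push_cast
  ring

theorem val_pen (f : W → ℕ) (l : Cs W) (x : ℕ → Bool) :
    val (l.flatMap (pencP f)) x = pen l (x ∘ f) := by
  simp [val_flatMap, val_pencP, pen, Int.cast_list_sum, Function.comp_def]

theorem val_lam (f : W → ℕ) (l : Cs W) (x : ℕ → Bool) :
    val (l.flatMap (lamcP f)) x = lam l (x ∘ f) := by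
  simp [val_flatMap, val_lamcP, lam, Int.cast_list_sum, Function.comp_def]

variable {f : W → ℕ}

theorem deg_map (hf : ∀ w, f w < n) (l : List W) : Deg 1 n (lin (l.map f)) :=
  deg_lin fun i hi => by obtain ⟨w, -, rfl⟩ := List.mem_map.1 hi; exact hf w

theorem deg_sigP (hf : ∀ w, f w < n) (c : ℕ × List W) : Deg 1 n (sigP f c) :=
  (deg_cst _ _ _).append (deg_map hf _)

theorem deg_pencP (hf : ∀ w, f w < n) (c : ℕ × List W) : Deg 2 n (pencP f c) :=
  ((deg_sigP hf c).append (deg_cst _ _ _)).pmul ((deg_sigP hf c).append (deg_cst _ _ _))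

theorem deg_lamcP (hf : ∀ w, f w < n) (c : ℕ × List W) : Deg 3 n (lamcP f c) :=
  (deg_pencP hf c).pmul ((deg_sigP hf c).append ((deg_sigP hf c).append (deg_cst _ _ _)))

/-- the whole list for given numbers of the context variables -/
def allP (L0 : Poly ℕ) (E : ℤ) (f : W → ℕ) (vs vs0 : List W) (c c0 : Cs W) : Poly ℕ :=
  pmul (cst (- E ^ 21)) (pmul (lin (vs.map f)) (lin (vs0.map f))) ++
  (pmul (cst (- E ^ 14)) (pmul (pmul (lin [f (ctl 0)]) (lin [f (ctl 1)]))
    (lin [f (ctl 9)] ++ c0.flatMap (pencP f))) ++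
  (ren (fun j => if j < 10 then j else f (ctl (j - 10))) L0 ++
  (pmul (cst (-24)) (pmul (c.flatMap (pencP f))
    (pmul (lin (List.range 10)) (lin (List.range 10)))) ++
  pmul (cst (- E ^ 5)) (pmul (c.flatMap (lamcP f)) (lin (List.range 10))))))

theorem deg_allP {L0 : Poly ℕ} (h0 : Deg 4 19 L0) (hn : 10 ≤ n) (hf : ∀ w, f w < n) (E : ℤ)
    (vs vs0 : List W) (c c0 : Cs W) : Deg 4 n (allP L0 E f vs vs0 c c0) := by
  have e : Deg 1 n (lin (List.range 10)) := deg_lin fun i hi => by
    have := List.mem_range.1 hi; omega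
  have o : ∀ w, Deg 1 n (lin [f w]) := fun w => deg_map hf [w]
  have p : ∀ l : Cs W, Deg 2 n (l.flatMap (pencP f)) := fun l => deg_flatMap (deg_pencP hf)
  refine (((deg_cst 2 _ _).pmul ((deg_map hf _).pmul (deg_map hf _))).append
    (((deg_cst 0 _ _).pmul (((o _).pmul (o _)).pmul (((o _).mono (by omega)).append (p _)))).append
    ((h0.ren fun j => ?_).append (((deg_cst 0 _ _).pmul ((p _).pmul (e.pmul e))).append
    ((deg_cst 0 _ _).pmul ((deg_flatMap (deg_lamcP hf)).pmul e))))))
  split_ifs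
  · omega
  · exact hf _

theorem val_allP {M : ℕ} {L0 : Poly ℕ}
    (hL : ∀ x, val L0 x = h0 M (fun t => x t.val) fun k => x (10 + k.val)) (E : ℕ) (f : W → ℕ)
    (I : Inst) (x : ℕ → Bool) : val (allP L0 E f (vars I) (vars0 I) (cs I) (cs0 I)) x =
      FW M E I (fun t => x t.val) (x ∘ f) := by
  have e : val (lin (List.range 10)) x = sU (fun t => x t.val) + sV fun t => x t.val := by
    simp only [val_lin, sU, sV, List.range_succ, List.range_zero]
    simp
    ring
  have e1 : (fun t : Fin 10 => (x ∘ fun j => if j < 10 then j else f (ctl (j - 10))) t.val) =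
      fun t => x t.val := funext fun t => by simp [t.2]
  have e2 : (fun k : Fin 9 => (x ∘ fun j => if j < 10 then j else f (ctl (j - 10))) (10 + k.val)) =
      fun k => (x ∘ f) (ctl k.val) := funext fun k => by simp
  simp only [allP, val_append, val_pmul, val_cst, val_pen, val_lam, e, val_ren, hL, e1, e2]
  simp only [val_lin, FW, List.map_map, List.map_cons, List.map_nil, List.sum_cons, List.sum_nil,
    comp_apply, Function.comp_def]
  push_cast
  ring

/-! ### numbers of the variables -/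

def wi (w : W) : ℕ := Sum.elim (fun k => 3 * k) (fun u => Sum.elim
  (fun p : ℕ × Bool => 3 * (2 * p.1 + cond p.2 1 0) + 1) (fun p : ℕ × ℕ =>
    3 * (if p.1 < p.2 then p.2 * p.2 + p.1 else p.1 * p.1 + p.1 + p.2) + 2) u) w

theorem wi_inj : Injective wi := by
  rintro (a | ⟨a, b⟩ | ⟨a, b⟩) (c | ⟨c, d⟩ | ⟨c, d⟩) h <;>
    simp only [wi, Sum.elim_inl, Sum.elim_inr] at h
  · congr 1; omega
  · omega
  · omega
  · omega
  · cases b <;> cases d <;> simp only [cond_true, cond_false] at h <;>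
      first | omega | (congr 3; omega)
  · omega
  · omega
  · omega
  · have : Nat.pair a b = Nat.pair c d := by unfold Nat.pair; omega
    rw [Nat.pair_eq_pair] at this
    rw [this.1, this.2]

def ix (I : Inst) (w : W) : ℕ :=
  10 + wi (cond ((vars I).any fun v => decide (v = w)) w (ctl 9))
def nv (I : Inst) : ℕ := 11 + ((vars I).map wi).sum
def bigN (I : Inst) : ℕ := ((cs I).map fun c => 6 * (c.1 + c.2.length + 1) ^ 3).sum

theorem ix_eq (I : Inst) (w : W) : ix I w = 10 + wi (emb I w).1 := by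
  unfold ix emb
  split_ifs with h
  · rw [show ((vars I).any fun v => decide (v = w)) = true by simpa using h]; rfl
  · rw [show ((vars I).any fun v => decide (v = w)) = false by
      simpa using fun v hv (e : v = w) => h (e ▸ hv)]; rfl

theorem lt_nv (I : Inst) (v : ZI I) : 10 + wi v.1 < nv I := by
  have := List.single_le_sum (l := (vars I).map wi) (fun _ _ => Nat.zero_le _) _
    (List.mem_map_of_mem v.2)
  unfold nv
  omega

theorem pt_wi : PT wi := by
  unfold wi
  fun_prop

theorem pt_vars0 : PT vars0 := by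
  unfold vars0 xb rl
  fun_prop

theorem pt_vars : PT vars := by
  have := pt_vars0
  unfold vars
  fun_prop

theorem pt_cs0 : PT cs0 := by
  unfold cs0 busC clC guard xb rl ctl
  fun_prop

theorem pt_cs : PT cs := by
  have := pt_cs0
  unfold cs
  fun_prop

theorem pt_ix : PT fun p : Inst × W => ix p.1 p.2 := by
  have := pt_vars
  have := pt_wi
  unfold ix
  fun_prop

theorem pt_pmul' {α : Type} [Enc α] {a b : α → Poly ℕ} (ha : PT a) (hb : PT b) :
    PT fun x => pmul (a x) (b x) := by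
  unfold pmul
  fun_prop

theorem pt_lin {α : Type} [Enc α] {a : α → List ℕ} (ha : PT a) : PT fun x => lin (a x) := by
  unfold lin
  fun_prop

theorem pt_cst {α : Type} [Enc α] {a : α → ℤ} (ha : PT a) : PT fun x => cst (a x) := by
  unfold cst
  fun_prop

theorem pt_sigP : PT fun p : Inst × (ℕ × List W) => sigP (ix p.1) p.2 := by
  have := pt_ix
  unfold sigP
  exact (pt_cst (by fun_prop)).append (pt_lin (PT.map (by fun_prop)
    (pt_ix.comp (f := fun q : (Inst × (ℕ × List W)) × W => (q.1.1, q.2)) (by fun_prop))))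

theorem pt_pencP : PT fun p : Inst × (ℕ × List W) => pencP (ix p.1) p.2 :=
  pt_pmul' (pt_sigP.append (PT.const _)) (pt_sigP.append (PT.const _))

theorem pt_lamcP : PT fun p : Inst × (ℕ × List W) => lamcP (ix p.1) p.2 :=
  pt_pmul' pt_pencP (pt_sigP.append (pt_sigP.append (PT.const _)))

def bigZ (C : ℕ) (I : Inst) : ℤ := C + 2 ^ ((vars I).length + 10) + bigN I

theorem pt_big0 (C : ℕ) : PT fun p : List W × Cs W => (C : ℤ) + 2 ^ (p.1.length + 10) +
    ((p.2.map fun c => 6 * (c.1 + c.2.length + 1) ^ 3).sum : ℕ) := by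
  fun_prop

theorem pt_bigZ (C : ℕ) : PT (bigZ C) :=
  ((pt_big0 C).comp (pt_vars.prodMk pt_cs)).of_eq fun _ => rfl

theorem pt_nv : PT nv :=
  (PT.add (PT.const 11) (PT.list_sum (PT.map pt_vars (pt_wi.comp (PT.snd PT.id))))).of_eq
    fun _ => rfl

theorem cast_big (a b c : ℕ) : (a : ℤ) + 2 ^ b + c = ((a + 2 ^ b + c : ℕ) : ℤ) := by
  push_cast; rfl

theorem big_le (a b c : ℕ) : a ≤ a + b + c ∧ b ≤ a + b + c ∧ c ≤ a + b + c := by omega

theorem ten_le (I : Inst) : 10 ≤ nv I := by
  unfold nv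
  omega

theorem pt_all (L0 : Poly ℕ) (C : ℕ) :
    PT fun I => allP L0 (bigZ C I) (ix I) (vars I) (vars0 I) (cs I) (cs0 I) := by
  have hE := pt_bigZ C
  have o : ∀ w, PT fun I => lin [ix I w] := fun w =>
    pt_lin ((pt_ix.comp (f := fun I : Inst => (I, w)) (by fun_prop)).cons (PT.const _))
  have r : PT fun I => ren (fun j => if j < 10 then j else ix I (ctl (j - 10))) L0 := by
    have h1 : PT fun p : (Inst × (List ℕ × ℤ)) × ℕ => ix p.1.1 (ctl (p.2 - 10)) :=
      pt_ix.comp (f := fun p : (Inst × (List ℕ × ℤ)) × ℕ => (p.1.1, ctl (p.2 - 10)))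
        (by unfold ctl; fun_prop)
    unfold ren
    exact PT.map (PT.const _) (PT.prodMk (PT.map (by fun_prop)
      (PT.ite (by fun_prop) (by fun_prop) h1)) (by fun_prop))
  unfold allP
  exact (pt_pmul' (pt_cst (hE.int_pow (PT.const _)).int_neg) (pt_pmul' (pt_lin (PT.map pt_vars pt_ix))
    (pt_lin (PT.map pt_vars0 pt_ix)))).append
    ((pt_pmul' (pt_cst (hE.int_pow (PT.const _)).int_neg) (pt_pmul' (pt_pmul' (o _) (o _))
      ((o _).append (PT.flatMap pt_cs0 pt_pencP)))).append (r.append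
    ((pt_pmul' (PT.const _) (pt_pmul' (PT.flatMap pt_cs pt_pencP) (PT.const _))).append
    (pt_pmul' (pt_cst (hE.int_pow (PT.const _)).int_neg)
      (pt_pmul' (PT.flatMap pt_cs pt_lamcP) (PT.const _))))))

end Trm

open Trm in
theorem termSt : TermSt := by
  intro M C
  obtain ⟨L0, d0, v0⟩ := isP_h0 M
  refine ⟨fun I => (nv I, allP L0 (bigZ C I) (ix I) (vars I) (vars0 I) (cs I) (cs0 I)),
    PT.prodMk pt_nv (pt_all L0 C), fun I _ => ⟨deg_allP d0 (ten_le I)
      (fun w => by rw [ix_eq]; exact lt_nv I _) _ _ _ _ _,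
    C + 2 ^ ((vars I).length + 10) + bigN I, Sum.elim Fin.val fun v => 10 + wi v.1,
    big_le _ _ _, ?_, ?_, fun x => ?_⟩⟩
  · rintro (a | a) (b | b) h <;> simp only [Sum.elim_inl, Sum.elim_inr] at h
    · rw [Fin.ext h]
    · omega
    · omega
    · rw [Subtype.ext (wi_inj (Nat.add_left_cancel h))]
  · rintro (a | a)
    · exact a.2.trans_le (ten_le I)
    · exact lt_nv I a
  · have e : bigZ C I = ((C + 2 ^ ((vars I).length + 10) + bigN I : ℕ) : ℤ) :=
      cast_big _ _ _
    have e2 : x ∘ ix I = fun w => x (10 + wi (emb I w).1) := funext fun w => by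
      rw [comp_apply, ix_eq]
    show val (allP L0 (bigZ C I) (ix I) (vars I) (vars0 I) (cs I) (cs0 I)) x = _
    rw [e, val_allP v0, e2]
    rfl

end Pool.Agent.Lib.MP_cb9cb0_lc.X
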